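import Mathlib

/-!
# MP_b0e20b_ag, all formats: the critical system

`κ` is the set of all coordinates, `bl : κ → Fin d` the blocks. Monomials are the sets of
coordinates from pairwise different blocks (`Sct bl`). The critical equations of
`(1/2) ∏ i, (1 + ∑ (coordinates of block i)²) - ∑ s, c s ∏ k ∈ s, x k` are `G bl c x = 0`, and
`H bl c x` is the Hessian matrix.
-/

set_option autoImplicit false

open scoped BigOperators

namespace Pool.Agent.MPb0eQ

/-- Sets of coordinates from pairwise different blocks. -/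
abbrev Sct {κ : Type} {d : ℕ} (bl : κ → Fin d) : Type :=
  {s : Finset κ // ∀ a ∈ s, ∀ b ∈ s, bl a = bl b → a = b}

section

variable {κ : Type} [Fintype κ] [DecidableEq κ] {d : ℕ} (bl : κ → Fin d)

/-- The derivative with respect to the coordinates in `t` of `∑ s, c s ∏ k ∈ s, x k`. -/
def dS {R : Type} [CommRing R] (c : Sct bl → R) (x : κ → R) (t : Finset κ) : R :=
  ∑ s : Sct bl, if t ⊆ s.1 then c s * ∏ l ∈ s.1 \ t, x l else 0

/-- One plus the square of the block `i`. -/
def sq {R : Type} [CommRing R] (x : κ → R) (i : Fin d) : R :=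
  1 + ∑ k, if bl k = i then x k ^ 2 else 0

/-- The product of `sq` over the blocks outside `A`. -/
def PA {R : Type} [CommRing R] (x : κ → R) (A : Finset (Fin d)) : R := ∏ i ∈ Aᶜ, sq bl x i

/-- The critical equations. -/
def G {R : Type} [CommRing R] (c : Sct bl → R) (x : κ → R) (k : κ) : R :=
  x k * PA bl x {bl k} - dS bl c x {k}

/-- The Hessian matrix. -/
def H {R : Type} [CommRing R] (c : Sct bl → R) (x : κ → R) (k l : κ) : R :=
  if bl k = bl l then (if k = l then PA bl x {bl k} else 0)
  else 2 * x k * x l * PA bl x {bl k, bl l} - dS bl c x {k, l}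

/-- The Hessian matrix applied to a vector. -/
def Hv {R : Type} [CommRing R] (c : Sct bl → R) (x v : κ → R) (k : κ) : R :=
  ∑ l, H bl c x k l * v l

/-- The coefficients of the polynomial `∏ k ∈ s, (X k - x k)`. -/
def tst {R : Type} [CommRing R] (x : κ → R) (s : Sct bl) : Sct bl → R :=
  fun s' => if s'.1 ⊆ s.1 then ∏ k ∈ s.1 \ s'.1, (-x k) else 0

/-- The third derivative of the objective function in the direction of `v`. -/
noncomputable def cub (c : Sct bl → ℝ) (x v : κ → ℝ) : ℝ :=
  ∑ k, ∑ l, v k * v l * fderiv ℝ (fun x' : κ → ℝ => H bl c x' k l) x v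

/-- The part of the third derivative which comes from the coefficients `c`. -/
def cM (c : Sct bl → ℝ) (x v : κ → ℝ) : ℝ :=
  ∑ k, ∑ l, if bl k = bl l then 0 else
    v k * v l * ∑ m, if m = k ∨ m = l then 0 else v m * dS bl c x {k, l, m}

/-- The vector meets at least three blocks. -/
def M3 {R : Type} [CommRing R] (v : κ → R) : Prop :=
  ∃ k l m, v k ≠ 0 ∧ v l ≠ 0 ∧ v m ≠ 0 ∧ bl k ≠ bl l ∧ bl k ≠ bl m ∧ bl l ≠ bl m

/-- Complexification of the parameters. -/
def toC (c : Sct bl → ℝ) : Sct bl → ℂ := fun s => (c s : ℂ)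

/-- The set of complex or real solutions. -/
def Sol {R : Type} [CommRing R] (c : Sct bl → R) : Set (κ → R) := {x | G bl c x = 0}

/-- The kernel of the Hessian is spanned by the unit vector `v`, which meets three blocks, and the
cubic form does not vanish at `v`. -/
def Fd (c : Sct bl → ℝ) (x v : κ → ℝ) : Prop :=
  G bl c x = 0 ∧ ∑ k, v k ^ 2 = 1 ∧ Hv bl c x v = 0 ∧
    (∀ u, Hv bl c x u = 0 → ∃ r : ℝ, u = r • v) ∧ cub bl c x v ≠ 0 ∧ M3 bl v

end

end Pool.Agent.MPb0eQ
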