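import Mathlib
import Pool.Agent.Lib.MP_b0e20b_ag_P.Frm
import Pool.Agent.Lib.MP_b0e20b_ag_Q.BDefs

/-!
# MP_b0e20b_ag, all formats: tensors and coordinates

Tensors of size `(n 0 + 1) × ... × (n (d-1) + 1)`. In every factor we use the basis
`b 0 = (1, ..., 1)`, `b (l+1) = √(n i + 1) * fr (n i) l`, `fr` an orthonormal basis of the vectors of
sum zero; all `b` have the square length `n i + 1`. Points of the variety in `H` are the products of
the vectors `vx i x = (1 + ∑ l, x (i, l) * b (l+1)) / (n i + 1)`. The coefficients `par T s` are the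
contractions of `T` with the products of the vectors `b`.
-/

set_option autoImplicit false

open scoped BigOperators

namespace Pool.Agent.MPb0eQ

section

variable {d : ℕ} (n : Fin d → ℕ)

/-- Indices of the entries. -/
abbrev Ix : Type := ∀ i, Fin (n i + 1)

/-- Complex tensors. -/
abbrev Tensor : Type := Ix n → ℂ

/-- Coordinates. -/
abbrev Kx : Type := (i : Fin d) × Fin (n i)

/-- The blocks. -/
def blk : Kx n → Fin d := Sigma.fst

variable {n}

/-- The Frobenius bilinear form. -/
def form (S T : Tensor n) : ℂ := ∑ j, S j * T j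

/-- The sum of the entries; the hyperplane `H` is `total T = 1`. -/
def total (T : Tensor n) : ℂ := ∑ j, T j

/-- The product of the vectors `v i`. -/
def rk1 (v : ∀ i, Fin (n i + 1) → ℂ) : Tensor n := fun j => ∏ i, v i (j i)

/-- The tangent vector `∑ i, v 0 ⊗ ... ⊗ v' i ⊗ ... ⊗ v (d-1)`. -/
def tang (v v' : ∀ i, Fin (n i + 1) → ℂ) : Tensor n :=
  ∑ i, rk1 (Function.update v i (v' i))

/-- `X` is a point of `𝒮 ∩ H` and `T - X` is orthogonal to the tangent space of `𝒮 ∩ H` at `X`,
which consists of the tensors `tang v v'` whose entries add up to zero. (All points of `𝒮 ∩ H` are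
smooth, as they are nonzero.) -/
def IsCritical (T X : Tensor n) : Prop :=
  total X = 1 ∧ ∃ v : ∀ i, Fin (n i + 1) → ℂ, X = rk1 v ∧
    ∀ v' : ∀ i, Fin (n i + 1) → ℂ, total (tang v v') = 0 → form (T - X) (tang v v') = 0

/-- All entries are real. -/
def IsReal (T : Tensor n) : Prop := ∀ j, (T j).im = 0

/-- The set of (complex) critical points. -/
def crit (T : Tensor n) : Set (Tensor n) := {X | IsCritical T X}

/-- The set of real critical points. -/
def realCrit (T : Tensor n) : Set (Tensor n) := {X | IsCritical T X ∧ IsReal X}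

/-- `N` is the number of critical points for generic `T` in `H`. -/
def IsGenericNumber (n : Fin d → ℕ) (N : ℕ) : Prop :=
  ∃ P : MvPolynomial (Ix n) ℂ,
    (∃ T : Tensor n, total T = 1 ∧ MvPolynomial.eval T P ≠ 0) ∧
    ∀ T : Tensor n, total T = 1 → MvPolynomial.eval T P ≠ 0 → (crit T).encard = N

/-- The basis of the factor `i`. -/
noncomputable def bv (i : Fin d) (o : Fin (n i + 1)) : Fin (n i + 1) → ℂ :=
  Fin.cases (motive := fun _ => Fin (n i + 1) → ℂ) (fun _ => 1)
    (fun l j => (Real.sqrt (n i + 1) : ℂ) * (MPb0eP.fr (n i) l j : ℂ)) o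

/-- The index of a section in the factor `i`. -/
noncomputable def ix (s : Sct (blk n)) : Ix n := fun i =>
  open Classical in
  if h : ∃ l : Fin (n i), (⟨i, l⟩ : Kx n) ∈ s.1 then (Classical.choose h).succ else 0

/-- The coefficients of a tensor. -/
noncomputable def par (T : Tensor n) : Sct (blk n) → ℂ := fun s =>
  ∑ j, T j * ∏ i, bv i (ix s i) (j i)

/-- The tensor with given coefficients. -/
noncomputable def ten (c : Sct (blk n) → ℂ) : Tensor n := fun j =>
  ∑ s, c s * ∏ i, (bv i (ix s i) (j i) / ((n i : ℂ) + 1))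

/-- The vectors of the point with the coordinates `x`. -/
noncomputable def vx (x : Kx n → ℂ) (i : Fin d) : Fin (n i + 1) → ℂ := fun j =>
  (1 + ∑ l, x ⟨i, l⟩ * bv i l.succ j) / ((n i : ℂ) + 1)

/-- The point with the coordinates `x`. -/
noncomputable def pnt (x : Kx n → ℂ) : Tensor n := rk1 (vx x)

end

end Pool.Agent.MPb0eQ
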