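import Mathlib
import Pool.Agent.Lib.MP_b0e20b_ag_Q.CDefs

/-!
# MP_b0e20b_ag, all formats: the basis and the sections
-/

set_option autoImplicit false

open scoped BigOperators

namespace Pool.Agent.MPb0eQ

section

variable {d : ℕ} {n : Fin d → ℕ}

theorem bv_zero (i : Fin d) (j : Fin (n i + 1)) : bv (n := n) i 0 j = 1 := by
  simp [bv]

private theorem C1_bv_succ (i : Fin d) (l : Fin (n i)) (j : Fin (n i + 1)) :
    bv (n := n) i l.succ j = (Real.sqrt (n i + 1) : ℂ) * (MPb0eP.fr (n i) l j : ℂ) := by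
  simp [bv]

private theorem C1_sq (m : ℕ) :
    (Real.sqrt (m + 1) : ℂ) * (Real.sqrt (m + 1) : ℂ) = (m : ℂ) + 1 := by
  have h : (0 : ℝ) ≤ (m : ℝ) + 1 := by positivity
  rw [← Complex.ofReal_mul, Real.mul_self_sqrt h]
  push_cast
  ring

private theorem C1_ne (m : ℕ) : (m : ℂ) + 1 ≠ 0 := by
  exact_mod_cast Nat.succ_ne_zero m

/-- Proof. `MPb0eP.fr_sum`. -/
theorem bv_sum (i : Fin d) (o : Fin (n i + 1)) :
    ∑ j, bv (n := n) i o j = if o = 0 then (n i : ℂ) + 1 else 0 := by
  refine Fin.cases ?_ (fun l => ?_) o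
  · simp [bv_zero]
  · simp only [C1_bv_succ]
    rw [← Finset.mul_sum, MPb0eP.fr_sum, mul_zero, if_neg (Fin.succ_ne_zero l)]

/-- Proof. `MPb0eP.fr_orth`, `MPb0eP.fr_sum`. -/
theorem bv_orth (i : Fin d) (o o' : Fin (n i + 1)) :
    ∑ j, bv (n := n) i o j * bv i o' j = if o = o' then (n i : ℂ) + 1 else 0 := by
  refine Fin.cases ?_ (fun l => ?_) o
  · simp only [bv_zero, one_mul]
    rw [bv_sum]
    exact if_congr eq_comm rfl rfl
  · refine Fin.cases ?_ (fun l' => ?_) o'
    · simp only [bv_zero, mul_one]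
      rw [bv_sum]
    · simp only [C1_bv_succ]
      have h1 : ∀ j, (Real.sqrt (n i + 1) : ℂ) * (MPb0eP.fr (n i) l j : ℂ) *
          ((Real.sqrt (n i + 1) : ℂ) * (MPb0eP.fr (n i) l' j : ℂ)) =
          ((n i : ℂ) + 1) * ((MPb0eP.fr (n i) l j : ℂ) * (MPb0eP.fr (n i) l' j : ℂ)) := by
        intro j
        rw [← C1_sq (n i)]
        ring
      rw [Finset.sum_congr rfl fun j _ => h1 j, ← Finset.mul_sum, MPb0eP.fr_orth]
      simp only [Fin.succ_inj]
      split_ifs <;> simp

/-- Expansion of a vector. Proof. `MPb0eP.fr_expand`. -/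
theorem bv_expand (i : Fin d) (u : Fin (n i + 1) → ℂ) (j : Fin (n i + 1)) :
    u j = ∑ o, ((∑ k, u k * bv (n := n) i o k) / ((n i : ℂ) + 1)) * bv i o j := by
  rw [Fin.sum_univ_succ, MPb0eP.fr_expand (n i) u j]
  simp only [bv_zero, mul_one]
  congr 1
  refine Finset.sum_congr rfl fun l _ => ?_
  rw [C1_bv_succ]
  have h1 : ∑ k, u k * bv (n := n) i l.succ k =
      (Real.sqrt (n i + 1) : ℂ) * ∑ k, u k * (MPb0eP.fr (n i) l k : ℂ) := by
    rw [Finset.mul_sum]
    refine Finset.sum_congr rfl fun k _ => ?_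
    rw [C1_bv_succ]
    ring
  rw [h1, div_mul_eq_mul_div, eq_div_iff (C1_ne (n i)), ← C1_sq (n i)]
  ring

theorem bv_real (i : Fin d) (o j : Fin (n i + 1)) : (bv (n := n) i o j).im = 0 := by
  refine Fin.cases ?_ (fun l => ?_) o
  · simp [bv_zero]
  · rw [C1_bv_succ, ← Complex.ofReal_mul]
    exact Complex.ofReal_im _

theorem mem_iff_ix (s : Sct (blk n)) (i : Fin d) (l : Fin (n i)) :
    (⟨i, l⟩ : Kx n) ∈ s.1 ↔ ix s i = l.succ := by
  classical
  unfold ix
  by_cases h : ∃ l : Fin (n i), (⟨i, l⟩ : Kx n) ∈ s.1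
  · rw [dif_pos h]
    have h1 := Classical.choose_spec h
    constructor
    · intro h2
      have h3 : (⟨i, Classical.choose h⟩ : Kx n) = ⟨i, l⟩ := s.2 _ h1 _ h2 rfl
      have h4 : Classical.choose h = l := by
        have := (Sigma.mk.inj_iff.1 h3).2
        exact eq_of_heq this
      rw [h4]
    · intro h2
      have h3 : Classical.choose h = l := Fin.succ_injective _ h2
      rw [← h3]
      exact h1
  · rw [dif_neg h]
    constructor
    · intro h2
      exact absurd ⟨l, h2⟩ h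
    · intro h2
      exact absurd h2.symm (Fin.succ_ne_zero l)

/-- Sections and indices correspond. -/
theorem ix_bij : Function.Bijective (ix : Sct (blk n) → Ix n) := by
  classical
  constructor
  · intro s s' h
    refine Subtype.ext (Finset.ext ?_)
    rintro ⟨i, l⟩
    rw [mem_iff_ix, mem_iff_ix, h]
  · intro f
    have hs : ∀ a ∈ (Finset.univ.filter fun k : Kx n => f k.1 = k.2.succ),
        ∀ b ∈ (Finset.univ.filter fun k : Kx n => f k.1 = k.2.succ),
        blk n a = blk n b → a = b := by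
      rintro ⟨i, l⟩ ha ⟨i', l'⟩ hb hab
      have hab' : i = i' := hab
      subst hab'
      have h1 : f i = l.succ := (Finset.mem_filter.1 ha).2
      have h2 : f i = l'.succ := (Finset.mem_filter.1 hb).2
      have h3 : l = l' := Fin.succ_injective _ (h1.symm.trans h2)
      rw [h3]
    refine ⟨⟨_, hs⟩, funext fun i => ?_⟩
    have hm : ∀ l : Fin (n i), f i = l.succ ↔
        ix (⟨Finset.univ.filter fun k : Kx n => f k.1 = k.2.succ, hs⟩ : Sct (blk n)) i
          = l.succ := by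
      intro l
      rw [← mem_iff_ix]
      simp
    generalize ix (⟨Finset.univ.filter fun k : Kx n => f k.1 = k.2.succ, hs⟩ : Sct (blk n)) i
      = a at hm
    rcases Fin.eq_zero_or_eq_succ a with h0 | ⟨l, hl⟩
    · rcases Fin.eq_zero_or_eq_succ (f i) with h1 | ⟨l, hl⟩
      · rw [h0, h1]
      · have := (hm l).1 hl
        rw [this, hl]
    · have := (hm l).2 hl
      rw [this, hl]

theorem ix_empty (i : Fin d) (h : ∀ a ∈ (∅ : Finset (Kx n)), ∀ b ∈ (∅ : Finset (Kx n)),
    blk n a = blk n b → a = b) : ix (⟨∅, h⟩ : Sct (blk n)) i = 0 := by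
  rcases Fin.eq_zero_or_eq_succ (ix (⟨∅, h⟩ : Sct (blk n)) i) with h0 | ⟨l, hl⟩
  · exact h0
  · have := (mem_iff_ix (⟨∅, h⟩ : Sct (blk n)) i l).2 hl
    simp at this

/-- The monomial of a section as a product over the factors. -/
theorem prod_sct {R : Type} [CommRing R] (s : Sct (blk n)) (x : Kx n → R) :
    ∏ k ∈ s.1, x k = ∏ i, Fin.cases (motive := fun _ => R) 1 (fun l => x ⟨i, l⟩) (ix s i) := by
  classical
  have h1 : ∏ k ∈ s.1, x k = ∏ k : Kx n, if k ∈ s.1 then x k else 1 := by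
    rw [Finset.prod_ite_mem, Finset.univ_inter]
  rw [h1, Fintype.prod_sigma]
  refine Finset.prod_congr rfl fun i _ => ?_
  simp only [mem_iff_ix]
  generalize ix s i = a
  refine Fin.cases ?_ (fun l => ?_) a
  · simp only [Fin.cases_zero]
    refine Finset.prod_eq_one fun l _ => ?_
    rw [if_neg (Fin.succ_ne_zero l).symm]
  · simp only [Fin.cases_succ, Fin.succ_inj]
    rw [Finset.prod_ite_eq Finset.univ l, if_pos (Finset.mem_univ l)]

/-- Orthogonality of the products. -/
theorem prod_orth (s s' : Sct (blk n)) :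
    ∑ j : Ix n, (∏ i, bv i (ix s i) (j i)) * ∏ i, bv i (ix s' i) (j i) =
      if s = s' then ∏ i, ((n i : ℂ) + 1) else 0 := by
  classical
  have h1 : ∑ j : Ix n, (∏ i, bv i (ix s i) (j i)) * ∏ i, bv i (ix s' i) (j i) =
      ∏ i, ∑ j, bv (n := n) i (ix s i) j * bv i (ix s' i) j := by
    rw [Finset.prod_univ_sum, Fintype.piFinset_univ]
    refine Finset.sum_congr rfl fun j _ => ?_
    rw [Finset.prod_mul_distrib]
  rw [h1]
  simp only [bv_orth]
  by_cases h : s = s'
  · subst h
    simp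
  · rw [if_neg h]
    have h2 : ∃ i, ix s i ≠ ix s' i := by
      by_contra hcon
      push Not at hcon
      exact h (ix_bij.1 (funext hcon))
    obtain ⟨i, hi⟩ := h2
    exact Finset.prod_eq_zero (Finset.mem_univ i) (if_neg hi)

end

end Pool.Agent.MPb0eQ
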