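import Mathlib
import Pool.Agent.Lib.MP_b0e20b_ag_Q.BDefs

/-!
# MP_b0e20b_ag, all formats: algebra of multi-affine polynomials
-/

set_option autoImplicit false

open scoped BigOperators

namespace Pool.Agent.MPb0eQ

section

variable {κ : Type} [Fintype κ] [DecidableEq κ] {d : ℕ} (bl : κ → Fin d)

theorem dS_add {R : Type} [CommRing R] (c e : Sct bl → R) (x : κ → R) (t : Finset κ) :
    dS bl (c + e) x t = dS bl c x t + dS bl e x t := by
  simp only [dS, Pi.add_apply]
  rw [← Finset.sum_add_distrib]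
  refine Finset.sum_congr rfl fun s _ => ?_
  split_ifs <;> ring

theorem dS_smul {R : Type} [CommRing R] (r : R) (c : Sct bl → R) (x : κ → R) (t : Finset κ) :
    dS bl (r • c) x t = r * dS bl c x t := by
  simp only [dS, Pi.smul_apply, smul_eq_mul]
  rw [Finset.mul_sum]
  refine Finset.sum_congr rfl fun s _ => ?_
  split_ifs <;> ring

/-- The derivative with respect to a set which is not a section is zero. -/
theorem dS_not {R : Type} [CommRing R] (c : Sct bl → R) (x : κ → R) (t : Finset κ) (k l : κ)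
    (hk : k ∈ t) (hl : l ∈ t) (hkl : k ≠ l) (h : bl k = bl l) : dS bl c x t = 0 := by
  refine Finset.sum_eq_zero fun s _ => ?_
  rw [if_neg]
  exact fun hs => hkl (s.2 k (hs hk) l (hs hl) h)

/-- Proof. `∑ s' with t ⊆ s' ⊆ s, ∏ s \ s' (-x k) ∏ s' \ t (x' l) = ∏ s \ t (x' l - x l)`
(`Finset.prod_add` or `Finset.prod_sub`; all subsets of a section are sections). -/
theorem dS_tst {R : Type} [CommRing R] (x x' : κ → R) (s : Sct bl) (t : Finset κ) :
    dS bl (tst bl x s) x' t = if t ⊆ s.1 then ∏ l ∈ s.1 \ t, (x' l - x l) else 0 := by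
  split_ifs with hts
  · have h1 : ∏ l ∈ s.1 \ t, (x' l - x l) = ∑ u ∈ (s.1 \ t).powerset,
        (∏ l ∈ u, x' l) * ∏ l ∈ (s.1 \ t) \ u, (-x l) := by
      rw [← Finset.prod_add]
      exact Finset.prod_congr rfl fun l _ => sub_eq_add_neg _ _
    have h2 : dS bl (tst bl x s) x' t =
        ∑ s' ∈ Finset.univ.filter (fun s' : Sct bl => t ⊆ s'.1 ∧ s'.1 ⊆ s.1),
          (∏ l ∈ s'.1 \ t, x' l) * ∏ l ∈ s.1 \ s'.1, (-x l) := by
      rw [dS, Finset.sum_filter]
      refine Finset.sum_congr rfl fun s' _ => ?_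
      simp only [tst]
      by_cases h3 : t ⊆ s'.1 <;> by_cases h4 : s'.1 ⊆ s.1 <;> simp [h3, h4, mul_comm]
    rw [h1, h2]
    refine Finset.sum_bij (fun s' _ => s'.1 \ t) ?_ ?_ ?_ ?_
    · intro s' hs'
      rw [Finset.mem_filter] at hs'
      exact Finset.mem_powerset.2 (Finset.sdiff_subset_sdiff hs'.2.2 (Finset.Subset.refl t))
    · intro a ha b hb hab
      rw [Finset.mem_filter] at ha hb
      apply Subtype.ext
      rw [← Finset.sdiff_union_of_subset ha.2.1, ← Finset.sdiff_union_of_subset hb.2.1, hab]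
    · intro u hu
      rw [Finset.mem_powerset] at hu
      have h5 : u ∪ t ⊆ s.1 :=
        Finset.union_subset (hu.trans Finset.sdiff_subset) hts
      refine ⟨⟨u ∪ t, fun a ha b hb => s.2 a (h5 ha) b (h5 hb)⟩, ?_, ?_⟩
      · rw [Finset.mem_filter]
        exact ⟨Finset.mem_univ _, Finset.subset_union_right, h5⟩
      · have h6 : Disjoint u t := by
          rw [Finset.disjoint_left]
          exact fun a ha hat => (Finset.mem_sdiff.1 (hu ha)).2 hat
        exact Finset.union_sdiff_cancel_right h6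
    · intro s' hs'
      rw [Finset.mem_filter] at hs'
      have h7 : (s.1 \ t) \ (s'.1 \ t) = s.1 \ s'.1 := by
        ext a
        simp only [Finset.mem_sdiff]
        constructor
        · rintro ⟨⟨h8, h9⟩, h10⟩
          exact ⟨h8, fun h11 => h10 ⟨h11, h9⟩⟩
        · rintro ⟨h8, h9⟩
          exact ⟨⟨h8, fun h11 => h9 (hs'.2.1 h11)⟩, fun h11 => h9 h11.1⟩
      rw [h7]
  · refine Finset.sum_eq_zero fun s' _ => ?_
    split_ifs with h3
    · have h4 : ¬ s'.1 ⊆ s.1 := fun h5 => hts (h3.trans h5)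
      simp [tst, h4]
    · rfl

/-- At the base point. -/
theorem dS_tst_self {R : Type} [CommRing R] (x : κ → R) (s : Sct bl) (t : Finset κ) :
    dS bl (tst bl x s) x t = if t = s.1 then 1 else 0 := by
  rw [dS_tst]
  split_ifs with h1 h2 h2
  · rw [h2]
    simp
  · obtain ⟨a, ha⟩ : (s.1 \ t).Nonempty := by
      rw [Finset.sdiff_nonempty]
      exact fun h3 => h2 (Finset.Subset.antisymm h1 h3)
    exact Finset.prod_eq_zero ha (sub_self _)
  · exact absurd (h2 ▸ Finset.Subset.refl _) h1
  · rfl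

theorem H_symm {R : Type} [CommRing R] (c : Sct bl → R) (x : κ → R) (k l : κ) :
    H bl c x k l = H bl c x l k := by
  unfold H
  by_cases h : bl k = bl l
  · rw [if_pos h, if_pos h.symm, h]
    by_cases h2 : k = l
    · rw [if_pos h2, if_pos h2.symm]
    · rw [if_neg h2, if_neg (Ne.symm h2)]
  · rw [if_neg h, if_neg (Ne.symm h), Finset.pair_comm (bl k), Finset.pair_comm k]
    ring

theorem G_add {R : Type} [CommRing R] (c e : Sct bl → R) (x : κ → R) (k : κ) :
    G bl (c + e) x k = G bl c x k - dS bl e x {k} := by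
  rw [G, G, dS_add]
  ring

theorem Hv_add {R : Type} [CommRing R] (c e : Sct bl → R) (x v : κ → R) (k : κ) :
    Hv bl (c + e) x v k =
      Hv bl c x v k - ∑ l, if bl k = bl l then 0 else dS bl e x {k, l} * v l := by
  rw [Hv, Hv, ← Finset.sum_sub_distrib]
  refine Finset.sum_congr rfl fun l _ => ?_
  rw [H, H]
  by_cases h : bl k = bl l
  · simp only [if_pos h]
    ring
  · simp only [if_neg h]
    rw [dS_add]
    ring

end

end Pool.Agent.MPb0eQ
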