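import Mathlib
import Pool.Agent.Lib.MP_b0e20b_ag_Q.BDefs
import Pool.Agent.Lib.MP_b0e20b_ag_Q.B1

/-!
# MP_b0e20b_ag, all formats: calculus of the critical system
-/

set_option autoImplicit false

open scoped BigOperators

namespace Pool.Agent.MPb0eQ

section

variable {κ : Type} [Fintype κ] [DecidableEq κ] {d : ℕ} (bl : κ → Fin d)

private theorem B2_coord {𝕜 : Type} [RCLike 𝕜] (N : ℕ) (l : κ) :
    ContDiff 𝕜 N (fun w : (Sct bl → 𝕜) × (κ → 𝕜) => w.2 l) :=
  (contDiff_apply 𝕜 𝕜 l).comp contDiff_snd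

private theorem B2_cont_dS {𝕜 : Type} [RCLike 𝕜] (N : ℕ) (t : Finset κ) :
    ContDiff 𝕜 N (fun w : (Sct bl → 𝕜) × (κ → 𝕜) => dS bl w.1 w.2 t) := by
  unfold dS
  refine ContDiff.sum fun s _ => ?_
  by_cases h : t ⊆ s.1
  · simp only [if_pos h]
    exact ((contDiff_apply 𝕜 𝕜 s).comp contDiff_fst).mul
      (contDiff_prod fun l _ => B2_coord bl N l)
  · simp only [if_neg h]
    exact contDiff_const

private theorem B2_cont_PA {𝕜 : Type} [RCLike 𝕜] (N : ℕ) (A : Finset (Fin d)) :
    ContDiff 𝕜 N (fun w : (Sct bl → 𝕜) × (κ → 𝕜) => PA bl w.2 A) := by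
  unfold PA
  refine contDiff_prod fun i _ => ?_
  unfold sq
  refine contDiff_const.add (ContDiff.sum fun l _ => ?_)
  by_cases h : bl l = i
  · simp only [if_pos h]
    exact (B2_coord bl N l).pow 2
  · simp only [if_neg h]
    exact contDiff_const

theorem contDiff_G {𝕜 : Type} [RCLike 𝕜] (N : ℕ) :
    ContDiff 𝕜 N (fun w : (Sct bl → 𝕜) × (κ → 𝕜) => G bl w.1 w.2) := by
  rw [contDiff_pi]
  intro k
  unfold G
  exact ((B2_coord bl N k).mul (B2_cont_PA bl N _)).sub (B2_cont_dS bl N _)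

theorem contDiff_H {𝕜 : Type} [RCLike 𝕜] (N : ℕ) (k l : κ) :
    ContDiff 𝕜 N (fun w : (Sct bl → 𝕜) × (κ → 𝕜) => H bl w.1 w.2 k l) := by
  unfold H
  by_cases h : bl k = bl l
  · simp only [if_pos h]
    by_cases h2 : k = l
    · simp only [if_pos h2]
      exact B2_cont_PA bl N _
    · simp only [if_neg h2]
      exact contDiff_const
  · simp only [if_neg h]
    exact (((contDiff_const.mul (B2_coord bl N k)).mul (B2_coord bl N l)).mul
      (B2_cont_PA bl N _)).sub (B2_cont_dS bl N _)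

private theorem B2_fd_coord {𝕜 : Type} [RCLike 𝕜] (x : κ → 𝕜) (l : κ) :
    HasFDerivAt (fun x : κ → 𝕜 => x l)
      (ContinuousLinearMap.proj (R := 𝕜) (φ := fun _ : κ => 𝕜) l) x :=
  (ContinuousLinearMap.proj (R := 𝕜) (φ := fun _ : κ => 𝕜) l).hasFDerivAt

private theorem B2_fd_dS {𝕜 : Type} [RCLike 𝕜] (c : Sct bl → 𝕜) (x : κ → 𝕜) (t : Finset κ) :
    ∃ L : (κ → 𝕜) →L[𝕜] 𝕜, HasFDerivAt (fun x : κ → 𝕜 => dS bl c x t) L x ∧
      ∀ v, L v = ∑ l, if l ∈ t then 0 else dS bl c x (insert l t) * v l := by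
  refine ⟨∑ s : Sct bl, (if t ⊆ s.1 then c s • ∑ l ∈ s.1 \ t,
    (∏ m ∈ (s.1 \ t).erase l, x m) •
      ContinuousLinearMap.proj (R := 𝕜) (φ := fun _ : κ => 𝕜) l else 0), ?_, ?_⟩
  · unfold dS
    refine HasFDerivAt.fun_sum fun s _ => ?_
    by_cases h : t ⊆ s.1
    · simp only [if_pos h]
      exact (HasFDerivAt.finset_prod fun l _ => B2_fd_coord x l).const_mul (c s)
    · simp only [if_neg h]
      exact hasFDerivAt_const _ _
  · intro v
    rw [ContinuousLinearMap.sum_apply]
    simp only [dS]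
    have e1 : ∀ l, (if l ∈ t then (0 : 𝕜) else
        (∑ s : Sct bl, if insert l t ⊆ s.1 then c s * ∏ m ∈ s.1 \ insert l t, x m else 0) * v l)
        = ∑ s : Sct bl, if t ⊆ s.1 ∧ l ∈ s.1 \ t then
            c s * ((∏ m ∈ (s.1 \ t).erase l, x m) * v l) else 0 := by
      intro l
      by_cases hl : l ∈ t
      · rw [if_pos hl]
        symm
        refine Finset.sum_eq_zero fun s _ => ?_
        rw [if_neg]
        rintro ⟨-, h2⟩
        exact (Finset.mem_sdiff.1 h2).2 hl
      · rw [if_neg hl, Finset.sum_mul]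
        refine Finset.sum_congr rfl fun s _ => ?_
        have e2 : insert l t ⊆ s.1 ↔ t ⊆ s.1 ∧ l ∈ s.1 \ t := by
          rw [Finset.insert_subset_iff, Finset.mem_sdiff]
          tauto
        have e3 : s.1 \ insert l t = (s.1 \ t).erase l := by
          ext m
          simp only [Finset.mem_sdiff, Finset.mem_insert, Finset.mem_erase]
          tauto
        rw [e3]
        by_cases h : insert l t ⊆ s.1
        · rw [if_pos h, if_pos (e2.1 h)]
          ring
        · rw [if_neg h, if_neg fun h' => h (e2.2 h'), zero_mul]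
    rw [Finset.sum_congr rfl fun l _ => e1 l, Finset.sum_comm]
    refine Finset.sum_congr rfl fun s _ => ?_
    by_cases h : t ⊆ s.1
    · rw [if_pos h]
      simp only [h, true_and]
      rw [ContinuousLinearMap.smul_apply, ContinuousLinearMap.sum_apply, smul_eq_mul,
        Finset.mul_sum, ← Finset.sum_filter]
      refine Finset.sum_congr ?_ fun l _ => ?_
      · ext l
        simp
      · rw [ContinuousLinearMap.smul_apply, ContinuousLinearMap.proj_apply, smul_eq_mul]
    · simp [h]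

private theorem B2_fd_sq {𝕜 : Type} [RCLike 𝕜] (x : κ → 𝕜) (i : Fin d) :
    HasFDerivAt (fun x : κ → 𝕜 => sq bl x i)
      (∑ l, if bl l = i then (2 * x l) •
        ContinuousLinearMap.proj (R := 𝕜) (φ := fun _ : κ => 𝕜) l else 0) x := by
  unfold sq
  refine HasFDerivAt.const_add _ (HasFDerivAt.fun_sum fun l _ => ?_)
  by_cases h : bl l = i
  · simp only [if_pos h]
    have h2 := (B2_fd_coord x l).pow 2
    have e : ((2 : ℕ) • x l ^ (2 - 1) : 𝕜) = 2 * x l := by
      rw [show (2 : ℕ) - 1 = 1 from rfl, pow_one, nsmul_eq_mul]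
      norm_num
    rw [e] at h2
    exact h2
  · simp only [if_neg h]
    exact hasFDerivAt_const _ _

private theorem B2_fd_PA {𝕜 : Type} [RCLike 𝕜] (x : κ → 𝕜) (A : Finset (Fin d)) :
    ∃ L : (κ → 𝕜) →L[𝕜] 𝕜, HasFDerivAt (fun x : κ → 𝕜 => PA bl x A) L x ∧
      ∀ v, L v = ∑ l, if bl l ∈ A then 0 else 2 * x l * PA bl x (insert (bl l) A) * v l := by
  refine ⟨_, HasFDerivAt.finset_prod fun i _ => B2_fd_sq bl x i, ?_⟩
  intro v
  rw [ContinuousLinearMap.sum_apply]
  have e1 : ∀ i ∈ Aᶜ, ((∏ j ∈ Aᶜ.erase i, sq bl x j) • (∑ l, if bl l = i then (2 * x l) •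
        ContinuousLinearMap.proj (R := 𝕜) (φ := fun _ : κ => 𝕜) l else 0)) v
      = ∑ l, if bl l = i then 2 * x l * PA bl x (insert (bl l) A) * v l else 0 := by
    intro i hi
    rw [ContinuousLinearMap.smul_apply, ContinuousLinearMap.sum_apply, smul_eq_mul,
      Finset.mul_sum]
    refine Finset.sum_congr rfl fun l _ => ?_
    by_cases h : bl l = i
    · rw [if_pos h, if_pos h, ContinuousLinearMap.smul_apply, ContinuousLinearMap.proj_apply,
        smul_eq_mul, PA, Finset.compl_insert, h]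
      ring
    · rw [if_neg h, if_neg h]
      simp
  rw [Finset.sum_congr rfl e1, Finset.sum_comm]
  refine Finset.sum_congr rfl fun l _ => ?_
  rw [Finset.sum_ite_eq]
  by_cases h : bl l ∈ A
  · rw [if_pos h, if_neg]
    rw [Finset.mem_compl]
    exact fun h' => h' h
  · rw [if_neg h, if_pos]
    rw [Finset.mem_compl]
    exact h

/-- Proof. `∂/∂x_l (x_k ∏_{i ≠ bl k} sq i)`: if `bl l = bl k` only the factor `x_k` depends on `x_l`;
otherwise the derivative of the factor `sq (bl l)` is `2 x_l`. The derivative of `dS c x {k}` with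
respect to `x_l` is `dS c x {k, l}` for `l ≠ k` (zero if `bl k = bl l`, `dS_not`), and zero for
`l = k`. -/
theorem fderiv_G {𝕜 : Type} [RCLike 𝕜] (c : Sct bl → 𝕜) (x v : κ → 𝕜) :
    fderiv 𝕜 (G bl c) x v = Hv bl c x v := by
  choose L1 h1 h1' using fun k : κ => B2_fd_dS bl c x {k}
  choose L2 h2 h2' using fun k : κ => B2_fd_PA bl x {bl k}
  have h3 : ∀ k, HasFDerivAt (fun x : κ → 𝕜 => G bl c x k)
      ((x k • L2 k + PA bl x {bl k} •
        ContinuousLinearMap.proj (R := 𝕜) (φ := fun _ : κ => 𝕜) k) - L1 k) x := fun k =>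
    ((B2_fd_coord x k).mul (h2 k)).sub (h1 k)
  have h4 : HasFDerivAt (G bl c) (ContinuousLinearMap.pi fun k =>
      ((x k • L2 k + PA bl x {bl k} •
        ContinuousLinearMap.proj (R := 𝕜) (φ := fun _ : κ => 𝕜) k) - L1 k)) x :=
    hasFDerivAt_pi.2 h3
  rw [h4.fderiv]
  funext k
  rw [ContinuousLinearMap.pi_apply, ContinuousLinearMap.sub_apply, ContinuousLinearMap.add_apply,
    ContinuousLinearMap.smul_apply, ContinuousLinearMap.smul_apply, h1', h2', smul_eq_mul,
    smul_eq_mul, ContinuousLinearMap.proj_apply, Hv, Finset.mul_sum]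
  have e1 : PA bl x {bl k} * v k = ∑ l, if k = l then PA bl x {bl k} * v l else 0 := by
    rw [Finset.sum_ite_eq, if_pos (Finset.mem_univ _)]
  rw [e1, ← Finset.sum_add_distrib, ← Finset.sum_sub_distrib]
  refine Finset.sum_congr rfl fun l _ => ?_
  rw [H]
  by_cases hkl : k = l
  · subst hkl
    simp
  · have hlk : l ≠ k := fun h => hkl h.symm
    by_cases hb : bl k = bl l
    · have e2 : dS bl c x (insert l {k}) = 0 :=
        dS_not bl c x _ k l (by simp) (by simp) hkl hb
      have e3 : bl l ∈ ({bl k} : Finset (Fin d)) := by rw [Finset.mem_singleton, hb]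
      have e4 : l ∉ ({k} : Finset κ) := by rwa [Finset.mem_singleton]
      rw [if_pos e3, if_neg hkl, if_neg e4, if_pos hb, if_neg hkl, e2]
      ring
    · have e3 : bl l ∉ ({bl k} : Finset (Fin d)) := by
        rw [Finset.mem_singleton]
        exact fun h => hb h.symm
      have e4 : l ∉ ({k} : Finset κ) := by rwa [Finset.mem_singleton]
      have e5 : insert l {k} = ({k, l} : Finset κ) := Finset.pair_comm l k
      have e6 : insert (bl l) {bl k} = ({bl k, bl l} : Finset (Fin d)) := Finset.pair_comm _ _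
      rw [if_neg e3, if_neg hkl, if_neg e4, if_neg hb, e5, e6]
      ring

/-- The derivative with respect to the parameters as a linear map. -/
private def B2_lin {𝕜 : Type} [RCLike 𝕜] (x : κ → 𝕜) : (Sct bl → 𝕜) →ₗ[𝕜] (κ → 𝕜) where
  toFun e k := -dS bl e x {k}
  map_add' a b := by
    funext k
    simp only [dS_add, Pi.add_apply]
    ring
  map_smul' r a := by
    funext k
    simp only [dS_smul, Pi.smul_apply, smul_eq_mul, RingHom.id_apply]
    ring

/-- Proof. `G` is affine in `c` (`G_add`). -/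
theorem fderiv_G_par {𝕜 : Type} [RCLike 𝕜] (c : Sct bl → 𝕜) (x : κ → 𝕜) (e : Sct bl → 𝕜) :
    fderiv 𝕜 (fun c => G bl c x) c e = fun k => -dS bl e x {k} := by
  have h1 : (fun c : Sct bl → 𝕜 => G bl c x)
      = fun c => G bl 0 x + LinearMap.toContinuousLinearMap (B2_lin bl x) c := by
    funext c k
    have h2 := G_add bl 0 c x k
    rw [zero_add] at h2
    rw [h2, Pi.add_apply]
    change G bl 0 x k - dS bl c x {k} = G bl 0 x k + -dS bl c x {k}
    ring
  have h3 : HasFDerivAt (fun c : Sct bl → 𝕜 => G bl c x)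
      (LinearMap.toContinuousLinearMap (B2_lin bl x)) c := by
    rw [h1]
    exact (LinearMap.toContinuousLinearMap (B2_lin bl x)).hasFDerivAt.const_add _
  rw [h3.fderiv]
  rfl

/-- Proof. Test polynomials of `{k}` (`dS_tst_self`). -/
theorem surj_par {𝕜 : Type} [RCLike 𝕜] (c : Sct bl → 𝕜) (x : κ → 𝕜) :
    Function.Surjective (fderiv 𝕜 (fun c => G bl c x) c) := by
  intro y
  have hS : ∀ k : κ, ∀ a ∈ ({k} : Finset κ), ∀ b ∈ ({k} : Finset κ), bl a = bl b → a = b := by
    intro k a ha b hb _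
    rw [Finset.mem_singleton] at ha hb
    rw [ha, hb]
  have e1 : ∀ j k : κ, fderiv 𝕜 (fun c => G bl c x) c (tst bl x ⟨{k}, hS k⟩) j
      = if j = k then -1 else 0 := by
    intro j k
    rw [fderiv_G_par]
    simp only
    rw [dS_tst_self]
    by_cases h : j = k
    · rw [if_pos (by rw [h]), if_pos h]
    · rw [if_neg (fun h' => h (Finset.singleton_injective h')), if_neg h, neg_zero]
  refine ⟨∑ k, (-y k) • tst bl x ⟨{k}, hS k⟩, ?_⟩
  rw [map_sum]
  funext j
  rw [Finset.sum_apply]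
  simp only [map_smul, Pi.smul_apply, e1, smul_eq_mul]
  simp

/-- `Hv` is symmetric. -/
theorem Hv_symm {R : Type} [CommRing R] (c : Sct bl → R) (x u v : κ → R) :
    ∑ k, u k * Hv bl c x v k = ∑ k, v k * Hv bl c x u k := by
  simp only [Hv, Finset.mul_sum]
  rw [Finset.sum_comm]
  refine Finset.sum_congr rfl fun k _ => Finset.sum_congr rfl fun l _ => ?_
  rw [H_symm bl c x l k]
  ring

theorem Hv_add_vec {R : Type} [CommRing R] (c : Sct bl → R) (x u v : κ → R) :
    Hv bl c x (u + v) = Hv bl c x u + Hv bl c x v := by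
  funext k
  simp only [Hv, Pi.add_apply, mul_add, Finset.sum_add_distrib]

theorem Hv_smul_vec {R : Type} [CommRing R] (c : Sct bl → R) (x v : κ → R) (r : R) :
    Hv bl c x (r • v) = r • Hv bl c x v := by
  funext k
  simp only [Hv, Pi.smul_apply, smul_eq_mul, Finset.mul_sum]
  refine Finset.sum_congr rfl fun l _ => ?_
  ring

/-- Bijectivity of the derivative is injectivity of the Hessian. -/
theorem bij_iff {𝕜 : Type} [RCLike 𝕜] (c : Sct bl → 𝕜) (x : κ → 𝕜) :
    Function.Bijective (fderiv 𝕜 (G bl c) x) ↔ ∀ v, Hv bl c x v = 0 → v = 0 := by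
  have h1 : Function.Injective (fderiv 𝕜 (G bl c) x) ↔ ∀ v, Hv bl c x v = 0 → v = 0 := by
    rw [injective_iff_map_eq_zero]
    simp only [fderiv_G]
  rw [← h1]
  constructor
  · exact fun h => h.1
  · intro h
    refine ⟨h, ?_⟩
    exact (LinearMap.injective_iff_surjective
      (f := ((fderiv 𝕜 (G bl c) x : (κ → 𝕜) →L[𝕜] (κ → 𝕜)) : (κ → 𝕜) →ₗ[𝕜] (κ → 𝕜)))).1 h

end

end Pool.Agent.MPb0eQ
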