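import Mathlib
import Pool.Agent.Lib.MP_b0e20b_ag_Q.BDefs
import Pool.Agent.Lib.MP_b0e20b_ag_Q.B2

/-!
# MP_b0e20b_ag, all formats: real and complex solutions, parity
-/

set_option autoImplicit false

open scoped BigOperators Topology

namespace Pool.Agent.MPb0eQ

section

variable {κ : Type} [Fintype κ] [DecidableEq κ] {d : ℕ} (bl : κ → Fin d)

private theorem B8_dS_map {R S : Type} [CommRing R] [CommRing S] (f : R →+* S)
    (c : Sct bl → R) (x : κ → R) (t : Finset κ) :
    dS bl (fun s => f (c s)) (fun k => f (x k)) t = f (dS bl c x t) := by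
  unfold dS
  rw [map_sum]
  refine Finset.sum_congr rfl fun s _ => ?_
  split_ifs
  · rw [map_mul, map_prod]
  · rw [map_zero]

private theorem B8_sq_map {R S : Type} [CommRing R] [CommRing S] (f : R →+* S)
    (x : κ → R) (i : Fin d) : sq bl (fun k => f (x k)) i = f (sq bl x i) := by
  unfold sq
  rw [map_add, map_one, map_sum]
  congr 1
  refine Finset.sum_congr rfl fun s _ => ?_
  split_ifs
  · rw [map_pow]
  · rw [map_zero]

private theorem B8_PA_map {R S : Type} [CommRing R] [CommRing S] (f : R →+* S)
    (x : κ → R) (A : Finset (Fin d)) : PA bl (fun k => f (x k)) A = f (PA bl x A) := by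
  unfold PA
  rw [map_prod]
  exact Finset.prod_congr rfl fun i _ => B8_sq_map bl f x i

private theorem B8_G_map {R S : Type} [CommRing R] [CommRing S] (f : R →+* S)
    (c : Sct bl → R) (x : κ → R) (k : κ) :
    G bl (fun s => f (c s)) (fun k => f (x k)) k = f (G bl c x k) := by
  unfold G
  rw [B8_PA_map, B8_dS_map, map_sub, map_mul]

private theorem B8_H_map {R S : Type} [CommRing R] [CommRing S] (f : R →+* S)
    (c : Sct bl → R) (x : κ → R) (k l : κ) :
    H bl (fun s => f (c s)) (fun k => f (x k)) k l = f (H bl c x k l) := by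
  unfold H
  rw [B8_PA_map, B8_PA_map, B8_dS_map]
  split_ifs
  · rfl
  · rw [map_zero]
  · rw [map_sub, map_mul, map_mul, map_mul, map_ofNat]

private theorem B8_Hv_map {R S : Type} [CommRing R] [CommRing S] (f : R →+* S)
    (c : Sct bl → R) (x v : κ → R) (k : κ) :
    Hv bl (fun s => f (c s)) (fun k => f (x k)) (fun k => f (v k)) k = f (Hv bl c x v k) := by
  unfold Hv
  rw [map_sum]
  refine Finset.sum_congr rfl fun l _ => ?_
  rw [B8_H_map, map_mul]

/-- Real solutions of real parameters are complex solutions with real coordinates. -/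
theorem G_toC (c : Sct bl → ℝ) (x : κ → ℝ) (k : κ) :
    G bl (toC bl c) (fun k => (x k : ℂ)) k = ((G bl c x k : ℝ) : ℂ) :=
  B8_G_map bl Complex.ofRealHom c x k

theorem Hv_toC (c : Sct bl → ℝ) (x v : κ → ℝ) (k : κ) :
    Hv bl (toC bl c) (fun k => (x k : ℂ)) (fun k => (v k : ℂ)) k =
      ((Hv bl c x v k : ℝ) : ℂ) :=
  B8_Hv_map bl Complex.ofRealHom c x v k

/-- The conjugate of a solution is a solution, for real parameters. -/
theorem G_conj (c : Sct bl → ℝ) (x : κ → ℂ) (h : G bl (toC bl c) x = 0) :
    G bl (toC bl c) (fun k => (starRingEnd ℂ) (x k)) = 0 := by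
  funext k
  have h1 := B8_G_map bl (starRingEnd ℂ) (toC bl c) x k
  have h2 : (fun s => (starRingEnd ℂ) (toC bl c s)) = toC bl c := by
    funext s
    exact Complex.conj_ofReal _
  rw [h2, congrFun h k] at h1
  rw [h1]
  simp

/-- A real solution is nondegenerate over `ℂ` iff it is over `ℝ`. -/
theorem bij_toC (c : Sct bl → ℝ) (x : κ → ℝ) :
    Function.Bijective (fderiv ℂ (G bl (toC bl c)) (fun k => (x k : ℂ))) ↔
      Function.Bijective (fderiv ℝ (G bl c) x) := by
  rw [bij_iff, bij_iff]
  have hH : ∀ k l, H bl (toC bl c) (fun k => (x k : ℂ)) k l = ((H bl c x k l : ℝ) : ℂ) :=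
    fun k l => B8_H_map bl Complex.ofRealHom c x k l
  constructor
  · intro h v hv
    have h1 := h (fun k => (v k : ℂ)) (by
      funext k
      rw [Hv_toC, congrFun hv k]
      simp)
    funext k
    have h2 := congrFun h1 k
    simpa using h2
  · intro h v hv
    have hre : (fun k => (v k).re) = 0 := by
      apply h
      funext k
      have h1 := congrArg Complex.re (congrFun hv k)
      rw [Hv, Complex.re_sum] at h1
      simp only [hH, Complex.re_ofReal_mul, Pi.zero_apply, Complex.zero_re] at h1
      exact h1
    have him : (fun k => (v k).im) = 0 := by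
      apply h
      funext k
      have h1 := congrArg Complex.im (congrFun hv k)
      rw [Hv, Complex.im_sum] at h1
      simp only [hH, Complex.im_ofReal_mul, Pi.zero_apply, Complex.zero_im] at h1
      exact h1
    funext k
    exact Complex.ext (congrFun hre k) (congrFun him k)

/-- An involution preserving a finite set: parity of the number of fixed points. -/
private theorem B8_inv {α : Type} {S : Set α} (hfin : S.Finite) (f : α → α)
    (hf : ∀ x ∈ S, f x ∈ S) (hinv : ∀ x ∈ S, f (f x) = x) :
    Even (S.ncard + {x | x ∈ S ∧ f x = x}.ncard) := by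
  classical
  obtain ⟨s, rfl⟩ := hfin.exists_finset_coe
  have h1 : {x | x ∈ (s : Set α) ∧ f x = x} =
      ((s.filter (fun x => f x = x) : Finset α) : Set α) := by
    ext x
    simp
  rw [h1, Set.ncard_coe_finset, Set.ncard_coe_finset]
  have h2 : ∑ x ∈ s, (if f x = x then (0 : ZMod 2) else 1) = 0 := by
    apply Finset.sum_involution (fun x _ => f x)
    · intro x hx
      by_cases h : f x = x
      · simp [h]
      · have h3 : f (f x) ≠ f x := by
          rw [hinv x (by exact_mod_cast hx)]
          exact fun h4 => h h4.symm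
        rw [if_neg h, if_neg h3]
        decide
    · intro x hx h3 h4
      simp only [h4, if_true] at h3
      exact h3 rfl
    · intro x hx
      exact_mod_cast hf x (by exact_mod_cast hx)
    · intro x hx
      exact hinv x (by exact_mod_cast hx)
  have h3 : ∑ x ∈ s, (if f x = x then (0 : ZMod 2) else 1) =
      ((s.filter (fun x => ¬ f x = x)).card : ZMod 2) := by
    rw [Finset.card_filter]
    push_cast
    apply Finset.sum_congr rfl
    intro x _
    by_cases h : f x = x <;> simp [h]
  rw [h3] at h2
  have h4 : Even ((s.filter (fun x => ¬ f x = x)).card) := by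
    rw [← ZMod.natCast_eq_zero_iff_even]
    exact h2
  have h5 := Finset.card_filter_add_card_filter_not (s := s) (fun x => f x = x)
  rw [← h5]
  obtain ⟨c, hc⟩ := h4
  rw [hc]
  exact ⟨(s.filter (fun x => f x = x)).card + c, by ring⟩

/-- Parity. Proof. Conjugation is an involution of the finite set of complex solutions, its fixed
points are the real solutions (compare `MP_b0e20b_ag/Final.lean`, `parity`). -/
theorem parity (c : Sct bl → ℝ) {N k : ℕ} (h1 : {x | G bl (toC bl c) x = 0}.encard = N)
    (h2 : {x | G bl c x = 0}.encard = k) : k ≤ N ∧ Even (N + k) := by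
  have hfin : {x | G bl (toC bl c) x = 0}.Finite := Set.finite_of_encard_eq_coe h1
  have hinj : Function.Injective (fun (x : κ → ℝ) (k : κ) => (x k : ℂ)) := by
    intro x y h
    funext k
    exact Complex.ofReal_injective (congrFun h k)
  have hset : (fun (x : κ → ℝ) (k : κ) => (x k : ℂ)) '' {x | G bl c x = 0} =
      {x | x ∈ {x | G bl (toC bl c) x = 0} ∧ (fun k => (starRingEnd ℂ) (x k)) = x} := by
    ext z
    constructor
    · rintro ⟨x, hx, rfl⟩
      refine ⟨?_, ?_⟩
      · change G bl (toC bl c) (fun k => (x k : ℂ)) = 0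
        funext k
        rw [G_toC, show G bl c x k = 0 from congrFun hx k]
        simp
      · funext k
        exact Complex.conj_ofReal _
    · rintro ⟨hz, hf⟩
      have hre : ∀ k, ((z k).re : ℂ) = z k := fun k =>
        Complex.conj_eq_iff_re.1 (congrFun hf k)
      refine ⟨fun k => (z k).re, ?_, ?_⟩
      · change G bl c (fun k => (z k).re) = 0
        funext k
        have h3 := G_toC bl c (fun k => (z k).re) k
        have h4 : (fun k => ((z k).re : ℂ)) = z := funext hre
        have h5 : G bl (toC bl c) z k = 0 := congrFun hz k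
        rw [h4, h5] at h3
        exact_mod_cast h3.symm
      · funext k
        exact hre k
  have e1 : {x | G bl (toC bl c) x = 0}.ncard = N := by
    rw [← hfin.cast_ncard_eq] at h1
    exact_mod_cast h1
  have hfin2 : {x | x ∈ {x | G bl (toC bl c) x = 0} ∧
      (fun k => (starRingEnd ℂ) (x k)) = x}.Finite := hfin.subset fun x h => h.1
  have e2 : {x | x ∈ {x | G bl (toC bl c) x = 0} ∧
      (fun k => (starRingEnd ℂ) (x k)) = x}.ncard = k := by
    have h3 : ((fun (x : κ → ℝ) (k : κ) => (x k : ℂ)) '' {x | G bl c x = 0}).encard = k := by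
      rw [hinj.encard_image, h2]
    rw [hset, ← hfin2.cast_ncard_eq] at h3
    exact_mod_cast h3
  constructor
  · rw [← e1, ← e2]
    exact Set.ncard_le_ncard (fun x h => h.1) hfin
  · have h3 := B8_inv hfin (fun x k => (starRingEnd ℂ) (x k)) (fun x hx => G_conj bl c x hx)
      (fun x _ => by
        funext k
        exact Complex.conj_conj _)
    rw [e1, e2] at h3
    exact h3

end

end Pool.Agent.MPb0eQ
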