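import Mathlib
import Pool.Agent.Lib.MP_b0e20b_ag_Q.CDefs
import Pool.Agent.Lib.MP_b0e20b_ag_Q.C1

/-!
# MP_b0e20b_ag, all formats: coefficients of tensors, points of the variety
-/

set_option autoImplicit false

open scoped BigOperators

namespace Pool.Agent.MPb0eQ

section

variable {d : ℕ} {n : Fin d → ℕ}

private theorem C2_ne (m : ℕ) : (m : ℂ) + 1 ≠ 0 := by
  exact_mod_cast Nat.succ_ne_zero m

/-- The contraction of two products of vectors. -/
theorem C2_form_rk1 (u v : ∀ i, Fin (n i + 1) → ℂ) :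
    form (rk1 u) (rk1 v) = ∏ i, ∑ j, u i j * v i j := by
  classical
  rw [Finset.prod_univ_sum, Fintype.piFinset_univ]
  unfold form rk1
  refine Finset.sum_congr rfl fun j _ => ?_
  rw [Finset.prod_mul_distrib]

/-- The total of a product of vectors. -/
theorem C2_total_rk1 (v : ∀ i, Fin (n i + 1) → ℂ) : total (rk1 v) = ∏ i, ∑ j, v i j := by
  classical
  rw [Finset.prod_univ_sum, Fintype.piFinset_univ]
  rfl

private theorem C2_conj_bv (i : Fin d) (o j : Fin (n i + 1)) :
    (starRingEnd ℂ) (bv (n := n) i o j) = bv i o j :=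
  Complex.conj_eq_iff_im.2 (bv_real i o j)

private theorem C2_conj_n (m : ℕ) : (starRingEnd ℂ) ((m : ℂ) + 1) = (m : ℂ) + 1 := by
  simp

/-- Proof. `prod_orth`. -/
theorem par_ten (c : Sct (blk n) → ℂ) : par (ten c) = c := by
  classical
  funext s
  have hne : ∏ i, ((n i : ℂ) + 1) ≠ 0 := Finset.prod_ne_zero_iff.2 fun i _ => C2_ne (n i)
  have h1 : ∀ j : Ix n, ten c j * ∏ i, bv i (ix s i) (j i) =
      ∑ s', (c s' / ∏ i, ((n i : ℂ) + 1)) *
        ((∏ i, bv i (ix s' i) (j i)) * ∏ i, bv i (ix s i) (j i)) := by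
    intro j
    unfold ten
    rw [Finset.sum_mul]
    refine Finset.sum_congr rfl fun s' _ => ?_
    rw [Finset.prod_div_distrib]
    ring
  unfold par
  rw [Finset.sum_congr rfl fun j _ => h1 j, Finset.sum_comm]
  have h2 : ∀ s' : Sct (blk n), ∑ j : Ix n, (c s' / ∏ i, ((n i : ℂ) + 1)) *
        ((∏ i, bv i (ix s' i) (j i)) * ∏ i, bv i (ix s i) (j i)) =
      if s' = s then c s' else 0 := by
    intro s'
    rw [← Finset.mul_sum, prod_orth]
    by_cases h : s' = s
    · rw [if_pos h, if_pos h, div_mul_cancel₀ _ hne]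
    · rw [if_neg h, if_neg h, mul_zero]
  rw [Finset.sum_congr rfl fun s' _ => h2 s', Finset.sum_ite_eq' Finset.univ s,
    if_pos (Finset.mem_univ s)]

/-- The coefficient of the empty section is the sum of the entries. -/
theorem par_empty (T : Tensor n) (h : ∀ a ∈ (∅ : Finset (Kx n)), ∀ b ∈ (∅ : Finset (Kx n)),
    blk n a = blk n b → a = b) : par T (⟨∅, h⟩ : Sct (blk n)) = total T := by
  unfold par total
  refine Finset.sum_congr rfl fun j _ => ?_
  simp only [ix_empty, bv_zero, Finset.prod_const_one, mul_one]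

theorem ten_real (c : Sct (blk n) → ℝ) : IsReal (ten (toC (blk n) c)) := by
  intro j
  rw [← Complex.conj_eq_iff_im]
  unfold ten
  rw [map_sum]
  refine Finset.sum_congr rfl fun s _ => ?_
  rw [map_mul, map_prod]
  congr 1
  · exact Complex.conj_ofReal _
  · refine Finset.prod_congr rfl fun i _ => ?_
    rw [map_div₀, C2_conj_bv, C2_conj_n]

theorem par_real (T : Tensor n) (hT : IsReal T) : ∃ c : Sct (blk n) → ℝ,
    par T = toC (blk n) c := by
  refine ⟨fun s => (par T s).re, ?_⟩
  funext s
  have h : (starRingEnd ℂ) (par T s) = par T s := by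
    unfold par
    rw [map_sum]
    refine Finset.sum_congr rfl fun j _ => ?_
    rw [map_mul, map_prod, Complex.conj_eq_iff_im.2 (hT j)]
    congr 1
    exact Finset.prod_congr rfl fun i _ => C2_conj_bv i _ _
  exact (Complex.conj_eq_iff_re.1 h).symm

private theorem C2_vx_bv (x : Kx n → ℂ) (i : Fin d) (o : Fin (n i + 1)) :
    ∑ j, vx x i j * bv i o j =
      Fin.cases (motive := fun _ => ℂ) 1 (fun l => x ⟨i, l⟩) o := by
  have hn := C2_ne (n i)
  have h1 : ∀ j, vx x i j * bv i o j = (bv (n := n) i 0 j * bv i o j) / ((n i : ℂ) + 1) +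
      ∑ l, (x ⟨i, l⟩ / ((n i : ℂ) + 1)) * (bv i l.succ j * bv i o j) := by
    intro j
    unfold vx
    rw [bv_zero, div_mul_eq_mul_div, add_mul, add_div, Finset.sum_mul, Finset.sum_div]
    congr 1
    refine Finset.sum_congr rfl fun l _ => ?_
    ring
  rw [Finset.sum_congr rfl fun j _ => h1 j, Finset.sum_add_distrib, ← Finset.sum_div, bv_orth,
    Finset.sum_comm]
  have h2 : ∀ l : Fin (n i), ∑ j, (x ⟨i, l⟩ / ((n i : ℂ) + 1)) *
      (bv (n := n) i l.succ j * bv i o j) = if l.succ = o then x ⟨i, l⟩ else 0 := by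
    intro l
    rw [← Finset.mul_sum, bv_orth]
    by_cases h : l.succ = o
    · rw [if_pos h, if_pos h, div_mul_cancel₀ _ hn]
    · rw [if_neg h, if_neg h, mul_zero]
  rw [Finset.sum_congr rfl fun l _ => h2 l]
  refine Fin.cases ?_ (fun l => ?_) o
  · rw [if_pos rfl, div_self hn]
    simp only [Fin.cases_zero]
    rw [Finset.sum_eq_zero fun l _ => if_neg (Fin.succ_ne_zero l), add_zero]
  · rw [if_neg (Fin.succ_ne_zero l).symm, zero_div, zero_add]
    simp only [Fin.cases_succ, Fin.succ_inj]
    rw [Finset.sum_ite_eq' Finset.univ l (fun l => x ⟨i, l⟩), if_pos (Finset.mem_univ l)]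

/-- The coordinates. -/
theorem C2_vx_succ (x : Kx n → ℂ) (i : Fin d) (l : Fin (n i)) :
    ∑ j, vx x i j * bv i l.succ j = x ⟨i, l⟩ := by
  rw [C2_vx_bv, Fin.cases_succ]

theorem sum_vx (x : Kx n → ℂ) (i : Fin d) : ∑ j, vx x i j = 1 := by
  have h := C2_vx_bv x i 0
  simp only [bv_zero, mul_one, Fin.cases_zero] at h
  exact h

theorem exists_vx (v : ∀ i, Fin (n i + 1) → ℂ) (h : ∀ i, ∑ j, v i j = 1) :
    ∃ x : Kx n → ℂ, v = vx x := by
  refine ⟨fun k => ∑ j, v k.1 j * bv k.1 k.2.succ j, ?_⟩
  funext i j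
  rw [bv_expand i (v i) j, Fin.sum_univ_succ]
  simp only [bv_zero, mul_one]
  rw [h i]
  unfold vx
  rw [add_div, Finset.sum_div]
  congr 1
  refine Finset.sum_congr rfl fun l _ => ?_
  ring

/-- The coordinates of a point as contractions. -/
private theorem C2_coord (x : Kx n → ℂ) (k : Kx n) :
    form (pnt x) (rk1 (Function.update (fun _ _ => (1 : ℂ)) k.1 (bv k.1 k.2.succ))) = x k := by
  classical
  unfold pnt
  rw [C2_form_rk1, Finset.prod_eq_single k.1]
  · rw [Function.update_self, C2_vx_succ]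
  · intro i _ hi
    rw [Function.update_of_ne hi]
    simp only [mul_one]
    exact sum_vx x i
  · intro h
    exact absurd (Finset.mem_univ _) h

/-- Proof. Summing over all indices except the `i`-th gives `vx x i`, and the coordinates are
`∑ j, vx x i j * bv i l.succ j`. -/
theorem pnt_inj : Function.Injective (pnt : (Kx n → ℂ) → Tensor n) := by
  intro x y h
  funext k
  rw [← C2_coord x k, ← C2_coord y k, h]

/-- Every tensor `rk1 v` with total `1` is a point `pnt x`. Proof. The total is the product of the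
sums of the `v i`; scale the vectors. -/
theorem exists_pnt (v : ∀ i, Fin (n i + 1) → ℂ) (h : total (rk1 v) = 1) :
    ∃ (x : Kx n → ℂ), rk1 v = pnt x ∧ ∀ i, v i = (∑ j, v i j) • vx x i := by
  rw [C2_total_rk1] at h
  have hne : ∀ i, ∑ j, v i j ≠ 0 := by
    intro i h0
    rw [Finset.prod_eq_zero (Finset.mem_univ i) h0] at h
    exact zero_ne_one h
  obtain ⟨x, hx⟩ := exists_vx (fun i j => v i j / ∑ j, v i j) (fun i => by
    rw [← Finset.sum_div, div_self (hne i)])
  have h1 : ∀ i j, v i j = (∑ j, v i j) * vx x i j := by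
    intro i j
    rw [← hx]
    change v i j = (∑ j, v i j) * (v i j / ∑ j, v i j)
    rw [mul_div_cancel₀ _ (hne i)]
  refine ⟨x, ?_, fun i => funext fun j => h1 i j⟩
  funext j
  unfold pnt rk1
  rw [Finset.prod_congr rfl fun i _ => h1 i (j i), Finset.prod_mul_distrib, h, one_mul]

/-- The points with real coordinates are the real points. -/
theorem pnt_real (x : Kx n → ℂ) : IsReal (pnt x) ↔ ∀ k, (x k).im = 0 := by
  classical
  constructor
  · intro h k
    rw [← Complex.conj_eq_iff_im, ← C2_coord x k]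
    unfold form
    rw [map_sum]
    refine Finset.sum_congr rfl fun j _ => ?_
    rw [map_mul, Complex.conj_eq_iff_im.2 (h j)]
    congr 1
    unfold rk1
    rw [map_prod]
    refine Finset.prod_congr rfl fun i _ => ?_
    by_cases hi : i = k.1
    · subst hi
      rw [Function.update_self]
      exact C2_conj_bv _ _ _
    · rw [Function.update_of_ne hi]
      exact map_one _
  · intro h j
    rw [← Complex.conj_eq_iff_im]
    unfold pnt rk1
    rw [map_prod]
    refine Finset.prod_congr rfl fun i _ => ?_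
    unfold vx
    rw [map_div₀, C2_conj_n, map_add, map_one, map_sum]
    congr 2
    refine Finset.sum_congr rfl fun l _ => ?_
    rw [map_mul, C2_conj_bv, Complex.conj_eq_iff_im.2 (h _)]

end

end Pool.Agent.MPb0eQ
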