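import Mathlib
import Pool.Agent.Lib.MP_b0e20b_ag_Q.CDefs
import Pool.Agent.Lib.MP_b0e20b_ag_Q.C1
import Pool.Agent.Lib.MP_b0e20b_ag_Q.C2

/-!
# MP_b0e20b_ag, all formats: the critical equations in coordinates
-/

set_option autoImplicit false

open scoped BigOperators

namespace Pool.Agent.MPb0eQ

section

variable {d : ℕ} {n : Fin d → ℕ}

private theorem C3_ne (m : ℕ) : (m : ℂ) + 1 ≠ 0 := by
  exact_mod_cast Nat.succ_ne_zero m

private theorem C3_upd (v : ∀ i, Fin (n i + 1) → ℂ) (i : Fin d) (u : Fin (n i + 1) → ℂ)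
    (j : Ix n) :
    rk1 (Function.update v i u) j = u (j i) * ∏ i' ∈ ({i} : Finset (Fin d))ᶜ, v i' (j i') := by
  classical
  unfold rk1
  rw [Fintype.prod_eq_mul_prod_compl i, Function.update_self]
  congr 1
  refine Finset.prod_congr rfl fun i' hi' => ?_
  have h : i' ≠ i := by simpa using hi'
  rw [Function.update_of_ne h]

private theorem C3_form (S : Tensor n) (v : ∀ i, Fin (n i + 1) → ℂ) (i : Fin d)
    (u : Fin (n i + 1) → ℂ) :
    form S (rk1 (Function.update v i u)) =
      ∑ j, S j * (u (j i) * ∏ i' ∈ ({i} : Finset (Fin d))ᶜ, v i' (j i')) := by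
  unfold form
  exact Finset.sum_congr rfl fun j _ => by rw [C3_upd]

private theorem C3_total (x : Kx n → ℂ) (i : Fin d) (u : Fin (n i + 1) → ℂ) :
    total (rk1 (Function.update (vx x) i u)) = ∑ j, u j := by
  classical
  rw [C2_total_rk1, Finset.prod_eq_single i]
  · rw [Function.update_self]
  · intro i' _ hi'
    rw [Function.update_of_ne hi']
    exact sum_vx x i'
  · intro h
    exact absurd (Finset.mem_univ _) h

/-- The vectors in terms of the basis. -/
private theorem C3_vx (x : Kx n → ℂ) (i : Fin d) (j : Fin (n i + 1)) :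
    vx x i j = ∑ o, (Fin.cases (motive := fun _ => ℂ) 1 (fun l => x ⟨i, l⟩) o /
      ((n i : ℂ) + 1)) * bv i o j := by
  rw [Fin.sum_univ_succ]
  simp only [Fin.cases_zero, Fin.cases_succ, bv_zero, mul_one]
  unfold vx
  rw [add_div, Finset.sum_div]
  congr 1
  refine Finset.sum_congr rfl fun l _ => ?_
  ring

/-- Expansion of the contraction with a product of vectors. -/
private theorem C3_expand (T : Tensor n) (w : ∀ i, Fin (n i + 1) → ℂ)
    (v : ∀ i, Fin (n i + 1) → ℂ) (h : ∀ i j, v i j = ∑ o, w i o * bv i o j) :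
    form T (rk1 v) = ∑ s : Sct (blk n), par T s * ∏ i, w i (ix s i) := by
  classical
  have h1 : ∀ j : Ix n, rk1 v j =
      ∑ s : Sct (blk n), (∏ i, w i (ix s i)) * ∏ i, bv i (ix s i) (j i) := by
    intro j
    unfold rk1
    rw [Finset.prod_congr rfl fun i _ => h i (j i), Finset.prod_univ_sum,
      Fintype.piFinset_univ, ← ix_bij.sum_comp]
    refine Finset.sum_congr rfl fun s _ => ?_
    rw [Finset.prod_mul_distrib]
  unfold form par
  simp only [h1, Finset.mul_sum, Finset.sum_mul]
  rw [Finset.sum_comm]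
  refine Finset.sum_congr rfl fun s _ => Finset.sum_congr rfl fun j _ => ?_
  ring

/-- The contraction of `T` with the point `pnt x` in which the factor of the block of `k` is
replaced by the basis vector of `k`.

Proof. Expand the products of the vectors `vx` (`Finset.prod_univ_sum` or `Fintype.piFinset`):
`T` contracted with `⊗ (∑ o, x̂ o b o)` is `∑ s, par T s ∏ k ∈ s, x k`. In the factor `i` of `k`
only `o = ix` of `k` is taken. -/
theorem form_upd (T : Tensor n) (x : Kx n → ℂ) (k : Kx n) :
    form T (rk1 (Function.update (vx x) k.1 (bv k.1 k.2.succ))) =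
      dS (blk n) (par T) x {k} / ∏ i ∈ ({k.1} : Finset (Fin d))ᶜ, ((n i : ℂ) + 1) := by
  classical
  obtain ⟨a, b⟩ := k
  set w : ∀ i, Fin (n i + 1) → ℂ := fun i o =>
    if h : i = a then (if o = (Fin.cast (congrArg n h.symm) b).succ then 1 else 0)
    else Fin.cases (motive := fun _ => ℂ) 1 (fun l => x ⟨i, l⟩) o / ((n i : ℂ) + 1) with hw
  have hwa : ∀ o, w a o = if o = b.succ then 1 else 0 := by
    intro o
    simp only [hw, dif_pos]
    rfl
  have hwn : ∀ i, i ≠ a → ∀ o, w i o =
      Fin.cases (motive := fun _ => ℂ) 1 (fun l => x ⟨i, l⟩) o / ((n i : ℂ) + 1) := by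
    intro i hi o
    simp only [hw, dif_neg hi]
  rw [C3_expand T w]
  · unfold dS
    rw [Finset.sum_div]
    refine Finset.sum_congr rfl fun s _ => ?_
    rw [Fintype.prod_eq_mul_prod_compl a, hwa]
    by_cases hk : (⟨a, b⟩ : Kx n) ∈ s.1
    · rw [if_pos ((mem_iff_ix s a b).1 hk), one_mul, if_pos (Finset.singleton_subset_iff.2 hk)]
      have h1 : ∏ i ∈ ({a} : Finset (Fin d))ᶜ, w i (ix s i) =
          (∏ i ∈ ({a} : Finset (Fin d))ᶜ,
            Fin.cases (motive := fun _ => ℂ) 1 (fun l => x ⟨i, l⟩) (ix s i)) /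
          ∏ i ∈ ({a} : Finset (Fin d))ᶜ, ((n i : ℂ) + 1) := by
        rw [← Finset.prod_div_distrib]
        refine Finset.prod_congr rfl fun i hi => ?_
        exact hwn i (by simpa using hi) _
      have h2 : ∏ l ∈ s.1 \ {(⟨a, b⟩ : Kx n)}, x l = ∏ i ∈ ({a} : Finset (Fin d))ᶜ,
            Fin.cases (motive := fun _ => ℂ) 1 (fun l => x ⟨i, l⟩) (ix s i) := by
        have h3 := prod_sct s (Function.update x ⟨a, b⟩ 1)
        rw [Fintype.prod_eq_mul_prod_compl a, (mem_iff_ix s a b).1 hk, Fin.cases_succ,
          Function.update_self, one_mul,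
          ← Finset.mul_prod_erase s.1 (Function.update x ⟨a, b⟩ 1) hk, Function.update_self,
          one_mul] at h3
        rw [Finset.sdiff_singleton_eq_erase]
        have h4 : ∏ l ∈ s.1.erase ⟨a, b⟩, x l =
            ∏ l ∈ s.1.erase ⟨a, b⟩, Function.update x ⟨a, b⟩ 1 l := by
          refine Finset.prod_congr rfl fun l hl => ?_
          rw [Function.update_of_ne (Finset.ne_of_mem_erase hl)]
        rw [h4, h3]
        refine Finset.prod_congr rfl fun i hi => ?_
        have hi' : i ≠ a := by simpa using hi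
        congr 1
        funext l
        rw [Function.update_of_ne]
        intro h5
        exact hi' (congrArg Sigma.fst h5)
      rw [h1, h2, mul_div_assoc]
    · rw [if_neg fun h => hk ((mem_iff_ix s a b).2 h), zero_mul, mul_zero,
        if_neg fun h => hk (Finset.singleton_subset_iff.1 h), zero_div]
  · intro i j
    by_cases hi : i = a
    · subst hi
      rw [Function.update_self]
      simp only [hwa, ite_mul, one_mul, zero_mul]
      rw [Finset.sum_ite_eq' Finset.univ b.succ, if_pos (Finset.mem_univ _)]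
    · rw [Function.update_of_ne hi]
      simp only [hwn i hi]
      exact C3_vx x i j

private theorem C3_sq (x : Kx n → ℂ) (i : Fin d) :
    sq (blk n) x i = 1 + ∑ l, x ⟨i, l⟩ ^ 2 := by
  classical
  unfold sq
  rw [Fintype.sum_sigma, Finset.sum_eq_single i]
  · congr 1
    exact Finset.sum_congr rfl fun l _ => if_pos rfl
  · intro i' _ hi'
    exact Finset.sum_eq_zero fun l _ => if_neg hi'
  · intro h
    exact absurd (Finset.mem_univ _) h

private theorem C3_vx_sq (x : Kx n → ℂ) (i : Fin d) :
    ∑ j, vx x i j * vx x i j = sq (blk n) x i / ((n i : ℂ) + 1) := by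
  have h1 : ∀ j, vx x i j * vx x i j = vx x i j / ((n i : ℂ) + 1) +
      ∑ l, (x ⟨i, l⟩ / ((n i : ℂ) + 1)) * (vx x i j * bv i l.succ j) := by
    intro j
    have e : vx x i j = 1 / ((n i : ℂ) + 1) +
        ∑ l, (x ⟨i, l⟩ / ((n i : ℂ) + 1)) * bv i l.succ j := by
      unfold vx
      rw [add_div, Finset.sum_div]
      congr 1
      refine Finset.sum_congr rfl fun l _ => ?_
      ring
    calc vx x i j * vx x i j = vx x i j * (1 / ((n i : ℂ) + 1) +
        ∑ l, (x ⟨i, l⟩ / ((n i : ℂ) + 1)) * bv i l.succ j) := by rw [← e]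
      _ = _ := by
        rw [mul_add, Finset.mul_sum, mul_one_div]
        congr 1
        refine Finset.sum_congr rfl fun l _ => ?_
        ring
  rw [Finset.sum_congr rfl fun j _ => h1 j, Finset.sum_add_distrib, ← Finset.sum_div, sum_vx,
    Finset.sum_comm, C3_sq, add_div, Finset.sum_div]
  congr 1
  refine Finset.sum_congr rfl fun l _ => ?_
  rw [← Finset.mul_sum, C2_vx_succ]
  ring

/-- The same for the point `X = pnt x` itself.

Proof. `∑ j, vx x i j ^ 2 = sq x i / (n i + 1)`, `∑ j, vx x i j * bv i l.succ j = x (i, l)`. -/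
theorem form_self (x : Kx n → ℂ) (k : Kx n) :
    form (pnt x) (rk1 (Function.update (vx x) k.1 (bv k.1 k.2.succ))) =
      x k * PA (blk n) x {k.1} / ∏ i ∈ ({k.1} : Finset (Fin d))ᶜ, ((n i : ℂ) + 1) := by
  classical
  unfold pnt PA
  rw [C2_form_rk1, Fintype.prod_eq_mul_prod_compl k.1, Function.update_self, C2_vx_succ,
    mul_div_assoc, ← Finset.prod_div_distrib]
  congr 1
  refine Finset.prod_congr rfl fun i hi => ?_
  have hi' : i ≠ k.1 := by simpa using hi
  rw [Function.update_of_ne hi', C3_vx_sq]

private theorem C3_form_sub (S T Y : Tensor n) : form (S - T) Y = form S Y - form T Y := by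
  unfold form
  rw [← Finset.sum_sub_distrib]
  exact Finset.sum_congr rfl fun j _ => by rw [Pi.sub_apply, sub_mul]

private theorem C3_G (T : Tensor n) (x : Kx n → ℂ) (k : Kx n) :
    form (T - pnt x) (rk1 (Function.update (vx x) k.1 (bv k.1 k.2.succ))) = 0 ↔
      G (blk n) (par T) x k = 0 := by
  have hne : ∏ i ∈ ({k.1} : Finset (Fin d))ᶜ, ((n i : ℂ) + 1) ≠ 0 :=
    Finset.prod_ne_zero_iff.2 fun i _ => C3_ne (n i)
  have hG : G (blk n) (par T) x k = x k * PA (blk n) x {k.1} - dS (blk n) (par T) x {k} := rfl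
  rw [C3_form_sub, form_upd, form_self, ← sub_div, hG, div_eq_zero_iff, or_iff_left hne]
  constructor
  · intro h
    linear_combination -h
  · intro h
    linear_combination -h

/-- The critical equations in coordinates.

Proof. Let `X = rk1 v` be any representation with total `1`; by `exists_pnt` and `pnt_inj`
`v i = r i • vx x i` with `r i ≠ 0`, `∏ r i = 1`. Given `v'`, write `v' i = α i • v i + w i` with
`∑ j, w i j = 0`; then `tang v v' = (∑ α) X + tang v w` and the total of `tang v w` is `0`, so the
total of `tang v v'` is `∑ α`. So `X` is critical iff `form (T - X) (tang v w) = 0` for all `w` of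
sum zero, i.e. (linearity, `w i` is a combination of the `bv i l.succ` by `bv_expand`) iff
`form (T - X) (rk1 (update v i (bv i l.succ))) = 0` for all `i, l`; by `form_upd`, `form_self` this
is `G (par T) x = 0`. -/
theorem isCritical_pnt (T : Tensor n) (x : Kx n → ℂ) :
    IsCritical T (pnt x) ↔ G (blk n) (par T) x = 0 := by
  classical
  constructor
  · rintro ⟨ht, v, hv, hcr⟩
    funext k
    rw [Pi.zero_apply, ← C3_G]
    obtain ⟨x', hx', hr⟩ := exists_pnt v (by rw [← hv]; exact ht)
    have hxx : x = x' := pnt_inj (hv.trans hx')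
    subst hxx
    have hprod : ∏ i, ∑ j, v i j = 1 := by
      rw [← C2_total_rk1, ← hv]
      exact ht
    have hr' : ∀ i j, v i j = (∑ j, v i j) * vx x i j := fun i j => congrFun (hr i) j
    have htang : tang v (Function.update (fun _ _ => (0 : ℂ)) k.1
        (fun j => (∑ j, v k.1 j) * bv k.1 k.2.succ j)) =
        rk1 (Function.update (vx x) k.1 (bv k.1 k.2.succ)) := by
      unfold tang
      rw [Finset.sum_eq_single k.1]
      · funext j
        rw [Function.update_self, C3_upd, C3_upd,
          Finset.prod_congr rfl fun i _ => hr' i (j i), Finset.prod_mul_distrib]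
        have h1 : (∑ j, v k.1 j) * ∏ i ∈ ({k.1} : Finset (Fin d))ᶜ, ∑ j, v i j = 1 := by
          rw [← hprod, Fintype.prod_eq_mul_prod_compl k.1]
        linear_combination (bv k.1 k.2.succ (j k.1) *
          ∏ i ∈ ({k.1} : Finset (Fin d))ᶜ, vx x i (j i)) * h1
      · intro i _ hi
        funext j
        rw [Function.update_of_ne hi, C3_upd, zero_mul, Pi.zero_apply]
      · intro h
        exact absurd (Finset.mem_univ _) h
    have h1 := hcr _ (by
      rw [htang, C3_total, bv_sum, if_neg (Fin.succ_ne_zero _)])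
    rw [htang] at h1
    exact h1
  · intro hG
    have hL : ∀ i : Fin d, ∀ l : Fin (n i),
        form (T - pnt x) (rk1 (Function.update (vx x) i (bv i l.succ))) = 0 := by
      intro i l
      exact (C3_G T x ⟨i, l⟩).2 (by rw [hG]; rfl)
    refine ⟨?_, vx x, rfl, ?_⟩
    · unfold pnt
      rw [C2_total_rk1]
      exact Finset.prod_eq_one fun i _ => sum_vx x i
    · intro v' hv'
      have htot : ∑ i, ∑ j, v' i j = 0 := by
        rw [← hv']
        unfold tang total
        simp only [Finset.sum_apply]
        rw [Finset.sum_comm]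
        refine Finset.sum_congr rfl fun i _ => ?_
        exact (C3_total x i (v' i)).symm
      have hlin : ∀ i, form (T - pnt x) (rk1 (Function.update (vx x) i (v' i))) =
          (∑ j, v' i j) * form (T - pnt x) (pnt x) := by
        intro i
        have e1 : ∀ j, v' i j = (∑ j, v' i j) * vx x i j +
            ∑ l, ((∑ m, v' i m * bv i l.succ m) / ((n i : ℂ) + 1) -
              (∑ j, v' i j) * (x ⟨i, l⟩ / ((n i : ℂ) + 1))) * bv i l.succ j := by
          intro j
          have e2 := bv_expand i (v' i) j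
          rw [Fin.sum_univ_succ] at e2
          simp only [bv_zero, mul_one] at e2
          have e3 := C3_vx x i j
          rw [Fin.sum_univ_succ] at e3
          simp only [Fin.cases_zero, Fin.cases_succ, bv_zero, mul_one] at e3
          have e4 : ∑ l, ((∑ m, v' i m * bv i l.succ m) / ((n i : ℂ) + 1) -
              (∑ j, v' i j) * (x ⟨i, l⟩ / ((n i : ℂ) + 1))) * bv (n := n) i l.succ j =
              (∑ l : Fin (n i), (∑ m, v' i m * bv i l.succ m) / ((n i : ℂ) + 1) *
                bv (n := n) i l.succ j) -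
              (∑ j, v' i j) * ∑ l : Fin (n i), x ⟨i, l⟩ / ((n i : ℂ) + 1) *
                bv (n := n) i l.succ j := by
            rw [Finset.mul_sum, ← Finset.sum_sub_distrib]
            refine Finset.sum_congr rfl fun l _ => ?_
            ring
          rw [e4]
          linear_combination e2 - (∑ j, v' i j) * e3
        have e5 : ∀ u : Fin (n i + 1) → ℂ,
            form (T - pnt x) (rk1 (Function.update (vx x) i u)) =
            ∑ j, (T - pnt x) j * (u (j i) *
              ∏ i' ∈ ({i} : Finset (Fin d))ᶜ, vx x i' (j i')) := fun u => C3_form _ _ _ _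
        have e6 : form (T - pnt x) (pnt x) = ∑ j, (T - pnt x) j * (vx x i (j i) *
              ∏ i' ∈ ({i} : Finset (Fin d))ᶜ, vx x i' (j i')) := by
          rw [← e5, Function.update_eq_self]
          rfl
        rw [e5, e6]
        have e7 : ∀ j : Ix n, (T - pnt x) j * (v' i (j i) *
              ∏ i' ∈ ({i} : Finset (Fin d))ᶜ, vx x i' (j i')) =
            (∑ j, v' i j) * ((T - pnt x) j * (vx x i (j i) *
              ∏ i' ∈ ({i} : Finset (Fin d))ᶜ, vx x i' (j i'))) +
            ∑ l, ((∑ m, v' i m * bv i l.succ m) / ((n i : ℂ) + 1) -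
              (∑ j, v' i j) * (x ⟨i, l⟩ / ((n i : ℂ) + 1))) *
              ((T - pnt x) j * (bv i l.succ (j i) *
              ∏ i' ∈ ({i} : Finset (Fin d))ᶜ, vx x i' (j i'))) := by
          intro j
          have e8 : ∑ l, ((∑ m, v' i m * bv i l.succ m) / ((n i : ℂ) + 1) -
              (∑ j, v' i j) * (x ⟨i, l⟩ / ((n i : ℂ) + 1))) *
              ((T - pnt x) j * (bv i l.succ (j i) *
              ∏ i' ∈ ({i} : Finset (Fin d))ᶜ, vx x i' (j i'))) =
              ((T - pnt x) j * ∏ i' ∈ ({i} : Finset (Fin d))ᶜ, vx x i' (j i')) *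
              ∑ l, ((∑ m, v' i m * bv i l.succ m) / ((n i : ℂ) + 1) -
              (∑ j, v' i j) * (x ⟨i, l⟩ / ((n i : ℂ) + 1))) * bv i l.succ (j i) := by
            rw [Finset.mul_sum]
            refine Finset.sum_congr rfl fun l _ => ?_
            ring
          rw [e8]
          linear_combination ((T - pnt x) j *
            ∏ i' ∈ ({i} : Finset (Fin d))ᶜ, vx x i' (j i')) * e1 (j i)
        rw [Finset.sum_congr rfl fun j _ => e7 j, Finset.sum_add_distrib, ← Finset.mul_sum,
          Finset.sum_comm]
        have e9 : ∀ l : Fin (n i), ∑ j : Ix n, ((∑ m, v' i m * bv i l.succ m) / ((n i : ℂ) + 1) -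
              (∑ j, v' i j) * (x ⟨i, l⟩ / ((n i : ℂ) + 1))) *
              ((T - pnt x) j * (bv i l.succ (j i) *
              ∏ i' ∈ ({i} : Finset (Fin d))ᶜ, vx x i' (j i'))) = 0 := by
          intro l
          rw [← Finset.mul_sum, ← e5, hL i l, mul_zero]
        rw [Finset.sum_eq_zero fun l _ => e9 l, add_zero]
      have hsum : form (T - pnt x) (tang (vx x) v') =
          ∑ i, form (T - pnt x) (rk1 (Function.update (vx x) i (v' i))) := by
        unfold tang form
        simp only [Finset.sum_apply, Finset.mul_sum]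
        rw [Finset.sum_comm]
      rw [hsum, Finset.sum_congr rfl fun i _ => hlin i, ← Finset.sum_mul, htot, zero_mul]

end

end Pool.Agent.MPb0eQ
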