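import Mathlib
import Pool.Agent.Lib.MP_b0e20b_ag_Q.B8
import Pool.Agent.Lib.MP_b0e20b_ag_Q.CDefs
import Pool.Agent.Lib.MP_b0e20b_ag_Q.C1
import Pool.Agent.Lib.MP_b0e20b_ag_Q.C2
import Pool.Agent.Lib.MP_b0e20b_ag_Q.C3

/-!
# MP_b0e20b_ag, all formats: counting critical points
-/

set_option autoImplicit false

open scoped BigOperators

namespace Pool.Agent.MPb0eQ

section

variable {d : ℕ} {n : Fin d → ℕ}

private theorem C4_crit (T : Tensor n) : crit T = pnt '' {x | G (blk n) (par T) x = 0} := by
  ext X
  constructor
  · intro hX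
    have h1 : IsCritical T X := hX
    obtain ⟨ht, v, hv, -⟩ := h1
    obtain ⟨x, hx, -⟩ := exists_pnt v (by rw [← hv]; exact ht)
    have h2 : X = pnt x := hv.trans hx
    refine ⟨x, ?_, h2.symm⟩
    have h3 : IsCritical T (pnt x) := h2 ▸ hX
    exact (isCritical_pnt T x).1 h3
  · rintro ⟨x, hx, rfl⟩
    exact (isCritical_pnt T x).2 hx

theorem crit_encard (T : Tensor n) :
    (crit T).encard = {x | G (blk n) (par T) x = 0}.encard := by
  rw [C4_crit, pnt_inj.encard_image]

theorem realCrit_encard (T : Tensor n) (c : Sct (blk n) → ℝ) (h : par T = toC (blk n) c) :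
    (realCrit T).encard = {x | G (blk n) c x = 0}.encard := by
  have hinj : Function.Injective
      (fun x : Kx n → ℝ => (pnt (fun k => (x k : ℂ)) : Tensor n)) := by
    intro x y hxy
    have h1 := pnt_inj hxy
    funext k
    exact Complex.ofReal_injective (congrFun h1 k)
  have hG : ∀ y : Kx n → ℝ, G (blk n) (par T) (fun k => (y k : ℂ)) = 0 ↔
      G (blk n) c y = 0 := by
    intro y
    rw [h]
    constructor
    · intro h1
      funext k
      have h2 := congrFun h1 k
      rw [G_toC] at h2
      exact Complex.ofReal_injective (by simpa using h2)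
    · intro h1
      funext k
      rw [G_toC, h1]
      simp
  have himg : realCrit T = (fun x : Kx n → ℝ => (pnt (fun k => (x k : ℂ)) : Tensor n)) ''
      {x | G (blk n) c x = 0} := by
    ext X
    constructor
    · rintro ⟨h1, h2⟩
      have h3 : X ∈ crit T := h1
      rw [C4_crit] at h3
      obtain ⟨x, hx, rfl⟩ := h3
      have h4 := (pnt_real x).1 h2
      have h5 : x = fun k => (((x k).re : ℝ) : ℂ) := by
        funext k
        exact (Complex.ext (by simp) (by simp [h4 k]))
      refine ⟨fun k => (x k).re, ?_, ?_⟩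
      · change G (blk n) c (fun k => (x k).re) = 0
        rw [← hG]
        rw [← h5]
        exact hx
      · change pnt (fun k => (((x k).re : ℝ) : ℂ)) = pnt x
        rw [← h5]
    · rintro ⟨y, hy, rfl⟩
      refine ⟨(isCritical_pnt T _).2 ((hG y).2 hy), (pnt_real _).2 fun k => ?_⟩
      exact Complex.ofReal_im _
  rw [himg, hinj.encard_image]

/-- The equations do not depend on the coefficient of the empty section. -/
theorem G_empty {R : Type} [CommRing R] (c c' : Sct (blk n) → R)
    (h : ∀ s, s.1 ≠ ∅ → c s = c' s) (x : Kx n → R) : G (blk n) c x = G (blk n) c' x := by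
  funext k
  unfold G dS
  congr 1
  refine Finset.sum_congr rfl fun s _ => ?_
  by_cases hk : {k} ⊆ s.1
  · rw [if_pos hk, if_pos hk, h s]
    intro he
    rw [he] at hk
    exact absurd (hk (Finset.mem_singleton_self k)) (Finset.notMem_empty k)
  · rw [if_neg hk, if_neg hk]

/-- Proof. Choose a value `α` of the coefficient of the empty section such that `P` with this value
inserted is not the zero polynomial; let `P'` be the polynomial in the entries of `T` obtained from it
by inserting `par T s` (linear forms in `T`) for the other variables. Then `P'(T) ≠ 0` implies that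
the critical points of `T` are counted by `N` (`G_empty`, `crit_encard`). It is not zero at some `T`
with total `1`: take coefficients where `P` with `α` inserted does not vanish and replace the
coefficient of `∅` by `1` (`par_ten`, `par_empty`). -/
theorem generic_of {N : ℕ} (P : MvPolynomial (Sct (blk n)) ℂ) (hP : P ≠ 0)
    (h : ∀ c : Sct (blk n) → ℂ, MvPolynomial.eval c P ≠ 0 →
      {x | G (blk n) c x = 0}.encard = N) : IsGenericNumber n N := by
  classical
  obtain ⟨c0, hc0⟩ : ∃ c0 : Sct (blk n) → ℂ, MvPolynomial.eval c0 P ≠ 0 := by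
    by_contra hcon
    push Not at hcon
    exact hP (MvPolynomial.funext fun c => by rw [hcon c, map_zero])
  have he : ∀ a ∈ (∅ : Finset (Kx n)), ∀ b ∈ (∅ : Finset (Kx n)), blk n a = blk n b → a = b :=
    fun a ha => absurd ha (Finset.notMem_empty a)
  let e0 : Sct (blk n) := ⟨∅, he⟩
  let F : Sct (blk n) → MvPolynomial (Ix n) ℂ := fun s =>
    if s.1 = ∅ then MvPolynomial.C (c0 e0)
    else ∑ j, MvPolynomial.X j * MvPolynomial.C (∏ i, bv i (ix s i) (j i))
  have hF : ∀ (T : Tensor n) (s : Sct (blk n)), MvPolynomial.eval T (F s) =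
      if s.1 = ∅ then c0 e0 else par T s := by
    intro T s
    by_cases hs : s.1 = ∅
    · simp only [F, if_pos hs, MvPolynomial.eval_C]
    · simp only [F, if_neg hs, map_sum, map_mul, MvPolynomial.eval_X, MvPolynomial.eval_C]
      rfl
  have hev : ∀ T : Tensor n, MvPolynomial.eval T (MvPolynomial.bind₁ F P) =
      MvPolynomial.eval (fun s => if s.1 = ∅ then c0 e0 else par T s) P := by
    intro T
    have h1 : MvPolynomial.eval T (MvPolynomial.bind₁ F P) =
        MvPolynomial.eval (fun s => MvPolynomial.eval T (F s)) P := by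
      have h2 := MvPolynomial.eval₂Hom_bind₁ (RingHom.id ℂ) T F P
      exact h2
    rw [h1]
    congr 1
    congr 1
    funext s
    exact hF T s
  refine ⟨MvPolynomial.bind₁ F P, ?_, fun T _ hT => ?_⟩
  · refine ⟨ten (fun s => if s.1 = ∅ then 1 else c0 s), ?_, ?_⟩
    · rw [← par_empty _ he, par_ten]
      exact if_pos rfl
    · rw [hev, par_ten]
      have h1 : (fun s : Sct (blk n) => if s.1 = ∅ then c0 e0 else
          if s.1 = ∅ then (1 : ℂ) else c0 s) = c0 := by
        funext s
        by_cases hs : s.1 = ∅
        · rw [if_pos hs]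
          have h2 : s = e0 := Subtype.ext hs
          rw [h2]
        · rw [if_neg hs, if_neg hs]
      rw [h1]
      exact hc0
  · rw [hev] at hT
    rw [crit_encard, ← h _ hT]
    congr 1
    ext x
    rw [Set.mem_ofPred_eq, Set.mem_ofPred_eq,
      G_empty (par T) (fun s => if s.1 = ∅ then c0 e0 else par T s)
        (fun s hs => (if_neg hs).symm) x]

end

end Pool.Agent.MPb0eQ
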