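import Mathlib

/-!
# MP_b0e20b_ag, all formats: abstract definitions

`Thin r B`: the set `B` is covered by countably many Lipschitz images of subsets of `ℝ ^ r`.
`Reg`, `Fold`, `One`: the solutions of `G T x = 0` for a parameter `T` are all nondegenerate, a
solution is a simple fold, all solutions are nondegenerate except one simple fold.
-/

set_option autoImplicit false

open scoped Topology

namespace Pool.Agent.MPb0eQ

/-- Covered by countably many Lipschitz images of subsets of `ℝ ^ r`. -/
def Thin {V : Type} [NormedAddCommGroup V] (r : ℕ) (B : Set V) : Prop :=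
  ∃ (g : ℕ → (Fin r → ℝ) → V) (S : ℕ → Set (Fin r → ℝ)) (C : ℕ → NNReal),
    (∀ k, LipschitzOnWith (C k) (g k) (S k)) ∧ B ⊆ ⋃ k, g k '' S k

section

variable {V E : Type} [NormedAddCommGroup V] [NormedSpace ℝ V] [NormedAddCommGroup E]
  [NormedSpace ℝ E]

/-- All solutions are nondegenerate. -/
def Reg (G : V → E → E) (T : V) : Prop :=
  ∀ x, G T x = 0 → Function.Bijective (fderiv ℝ (G T) x)

/-- A simple fold: the kernel of the derivative is spanned by `v`, its image lies in the kernel of
the functional `lam`, and the second derivative in the direction of `v` is not in the kernel of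
`lam`. -/
def Fold (G : V → E → E) (T : V) (x : E) : Prop :=
  G T x = 0 ∧ ∃ (v : E) (lam : E →L[ℝ] ℝ), v ≠ 0 ∧ fderiv ℝ (G T) x v = 0 ∧
    (∀ u, fderiv ℝ (G T) x u = 0 → ∃ r : ℝ, u = r • v) ∧
    (∀ u, lam (fderiv ℝ (G T) x u) = 0) ∧
    lam (fderiv ℝ (fun x' => fderiv ℝ (G T) x' v) x v) ≠ 0

/-- All solutions are nondegenerate except one simple fold. -/
def One (G : V → E → E) (T : V) : Prop :=
  ∃ x, Fold G T x ∧ ∀ x', G T x' = 0 → x' ≠ x → Function.Bijective (fderiv ℝ (G T) x')

end

end Pool.Agent.MPb0eQ
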