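import Mathlib
import Pool.Agent.Lib.MP_b0e20b_ag_Q.ADefs

/-!
# MP_b0e20b_ag, all formats: local analysis of a simple fold
-/

set_option autoImplicit false

open scoped Topology
open Set Filter

namespace Pool.Agent.MPb0eQ

private theorem A3ev (A b : ℝ) (hb : 0 < b) : ∀ᶠ ε : ℝ in 𝓝[>] 0, ε * A < b := by
  have h : Tendsto (fun ε : ℝ => ε * A) (𝓝[>] 0) (𝓝 (0 * A)) :=
    ((continuous_id.mul continuous_const).tendsto 0).mono_left nhdsWithin_le_nhds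
  rw [zero_mul] at h
  exact h.eventually (Iio_mem_nhds hb)

private theorem A3real (g g' g'' : ℝ → ℝ) (m t : ℝ) (h1 : ∀ s, HasDerivAt g (g' s) s)
    (h2 : ∀ s, HasDerivAt g' (g'' s) s) (h0 : g 0 = 0) (h1' : g 1 = 0)
    (hm : ∀ s ∈ Icc (0 : ℝ) 1, m ≤ g'' s) (ht : t ∈ Icc (0 : ℝ) 1) :
    g t ≤ -(m * (t * (1 - t)) / 2) := by
  have hk : ∀ s, HasDerivAt (fun s => g s - m / 2 * (s ^ 2 - s)) (g' s - m / 2 * (2 * s - 1)) s :=
    fun s => by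
      have := ((hasDerivAt_pow 2 s).sub (hasDerivAt_id s)).const_mul (m / 2)
      simpa using (h1 s).fun_sub this
  have hk2 : ∀ s, HasDerivAt (fun s => g' s - m / 2 * (2 * s - 1)) (g'' s - m) s := fun s => by
    have := (((hasDerivAt_id s).const_mul 2).sub_const 1).const_mul (m / 2)
    have h3 := (h2 s).fun_sub this
    have e : m / 2 * (2 * 1) = m := by ring
    rw [e] at h3
    simpa using h3
  have hc : ConvexOn ℝ (Icc (0 : ℝ) 1) (fun s => g s - m / 2 * (s ^ 2 - s)) :=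
    convexOn_of_hasDerivWithinAt2_nonneg (convex_Icc 0 1)
      (fun s _ => (hk s).continuousAt.continuousWithinAt)
      (fun s _ => (hk s).hasDerivWithinAt) (fun s _ => (hk2 s).hasDerivWithinAt)
      (fun s hs => sub_nonneg.mpr (hm s (interior_subset hs)))
  have h3 := hc.2 (left_mem_Icc.mpr zero_le_one) (right_mem_Icc.mpr zero_le_one)
    (sub_nonneg.mpr ht.2) ht.1 (by ring)
  simp only [smul_eq_mul, mul_zero, zero_add, mul_one] at h3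
  rw [h0, h1'] at h3
  nlinarith

private theorem A3real2 (g g' g'' : ℝ → ℝ) (m : ℝ) (h1 : ∀ s, HasDerivAt g (g' s) s)
    (h2 : ∀ s, HasDerivAt g' (g'' s) s) (h0 : g 0 = 0) (h0' : g' 0 = 0)
    (hm : ∀ s ∈ Icc (0 : ℝ) 1, m ≤ g'' s) : m / 2 ≤ g 1 := by
  have hk : ∀ s, HasDerivAt (fun s => g s - m / 2 * s ^ 2) (g' s - m * s) s :=
    fun s => by
      have := (hasDerivAt_pow 2 s).const_mul (m / 2)
      have h3 := (h1 s).fun_sub this
      have e : m / 2 * (2 * s) = m * s := by ring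
      simpa [e] using h3
  have hk2 : ∀ s, HasDerivAt (fun s => g' s - m * s) (g'' s - m) s := fun s => by
    have := (hasDerivAt_id s).const_mul m
    simpa using (h2 s).fun_sub this
  have m2 : MonotoneOn (fun s => g' s - m * s) (Icc (0 : ℝ) 1) :=
    monotoneOn_of_hasDerivWithinAt_nonneg (convex_Icc 0 1)
      (fun s _ => (hk2 s).continuousAt.continuousWithinAt)
      (fun s _ => (hk2 s).hasDerivWithinAt)
      (fun s hs => sub_nonneg.mpr (hm s (interior_subset hs)))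
  have m1 : MonotoneOn (fun s => g s - m / 2 * s ^ 2) (Icc (0 : ℝ) 1) :=
    monotoneOn_of_hasDerivWithinAt_nonneg (convex_Icc 0 1)
      (fun s _ => (hk s).continuousAt.continuousWithinAt)
      (fun s _ => (hk s).hasDerivWithinAt)
      (fun s hs => by
        have h3 := m2 (left_mem_Icc.mpr zero_le_one) (interior_subset hs)
          (interior_subset hs).1
        simp only [mul_zero, sub_zero] at h3
        rw [h0'] at h3
        exact h3)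
  have h4 := m1 (left_mem_Icc.mpr zero_le_one) (right_mem_Icc.mpr zero_le_one) zero_le_one
  simp only at h4
  rw [h0] at h4
  linarith

section

variable {E : Type} [NormedAddCommGroup E] [NormedSpace ℝ E]

private theorem A3line (g : E → E) (D1 : E → E →L[ℝ] E) (D2 : E → E →L[ℝ] E →L[ℝ] E)
    (h1 : ∀ x, HasFDerivAt g (D1 x) x) (h2 : ∀ x, HasFDerivAt D1 (D2 x) x) (f : E →L[ℝ] ℝ)
    (x d : E) (s : ℝ) :
    HasDerivAt (fun s : ℝ => f (g (x + s • d))) (f (D1 (x + s • d) d)) s ∧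
      HasDerivAt (fun s : ℝ => f (D1 (x + s • d) d)) (f (D2 (x + s • d) d d)) s := by
  have hl : HasDerivAt (fun s : ℝ => x + s • d) d s := by
    simpa using ((hasDerivAt_id s).smul_const d).const_add x
  constructor
  · exact f.hasFDerivAt.comp_hasDerivAt s ((h1 (x + s • d)).comp_hasDerivAt s hl)
  · have h3 : HasDerivAt (fun s : ℝ => D1 (x + s • d)) (D2 (x + s • d) d) s :=
      (h2 (x + s • d)).comp_hasDerivAt s hl
    have h4 : HasDerivAt (fun s : ℝ => D1 (x + s • d) d) (D2 (x + s • d) d d) s := by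
      simpa using h3.clm_apply (hasDerivAt_const s d)
    exact f.hasFDerivAt.comp_hasDerivAt s h4

private theorem A3mem {x0 x1 x3 : E} {r : ℝ} (hx1 : x1 ∈ Metric.ball x0 r)
    (hx3 : x3 ∈ Metric.ball x0 r) {s : ℝ} (hs : s ∈ Icc (0 : ℝ) 1) :
    x1 + s • (x3 - x1) ∈ Metric.ball x0 r := by
  have h := (convex_ball x0 r) hx1 hx3 (sub_nonneg.mpr hs.2) hs.1 (by ring)
  have e : (1 - s) • x1 + s • x3 = x1 + s • (x3 - x1) := by
    rw [sub_smul, one_smul, smul_sub]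
    abel
  rwa [e] at h

private theorem A3mvt (g : E → E) (D1 : E → E →L[ℝ] E)
    (h1 : ∀ x, HasFDerivAt g (D1 x) x) (H : E →L[ℝ] E) {x0 : E} {r ε : ℝ}
    (hb1 : ∀ x ∈ Metric.ball x0 r, ‖D1 x - H‖ ≤ ε) {x y : E} (hx : x ∈ Metric.ball x0 r)
    (hy : y ∈ Metric.ball x0 r) : ‖g y - g x - H (y - x)‖ ≤ ε * ‖y - x‖ :=
  Convex.norm_image_sub_le_of_norm_hasFDerivWithin_le'
    (fun z _ => (h1 z).hasFDerivWithinAt) hb1 (convex_ball x0 r) hx hy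

/-- decomposition -/
private theorem A3dec {H Q : E →L[ℝ] E} {π : E →L[ℝ] ℝ} {v : E} {ε a : ℝ}
    (hQ : ∀ u, Q (H u) = u - π u • v) (hεQ : ε * ‖Q‖ ≤ 1 / 2) {d : E}
    (hd : ‖H d‖ ≤ a + ε * ‖d‖) :
    ‖d - π d • v‖ ≤ ‖Q‖ * a + ε * ‖Q‖ * ‖d‖ ∧ ‖d‖ ≤ 2 * (|π d| * ‖v‖) + 2 * (‖Q‖ * a) := by
  have h1 : ‖d - π d • v‖ ≤ ‖Q‖ * a + ε * ‖Q‖ * ‖d‖ := by
    rw [← hQ]
    have h2 := (Q.le_opNorm (H d)).trans (mul_le_mul_of_nonneg_left hd (norm_nonneg Q))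
    nlinarith
  refine ⟨h1, ?_⟩
  have h3 : ‖d‖ ≤ ‖d - π d • v‖ + |π d| * ‖v‖ := by
    have h4 := norm_add_le (d - π d • v) (π d • v)
    rw [sub_add_cancel, norm_smul, Real.norm_eq_abs] at h4
    exact h4
  have h5 := mul_le_mul_of_nonneg_right hεQ (norm_nonneg d)
  linarith

/-- lower bound for the second derivative in the direction `d` -/
private theorem A3second {B : E →L[ℝ] E →L[ℝ] E} {D : E →L[ℝ] E →L[ℝ] E}
    {lam π : E →L[ℝ] ℝ} {v : E} {ε a q : ℝ} (hq : 0 ≤ q)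
    (hq2 : q ≤ 1 / 2) (hD : ‖D - B‖ ≤ ε) (d : E) (he : ‖d - π d • v‖ ≤ a + q * ‖d‖) :
    lam (B v v) * (π d) ^ 2 - ‖lam‖ * (ε * ‖d‖ ^ 2) -
      ‖lam‖ * ‖B‖ * (2 * a * ‖d‖ + 6 * a ^ 2 + 5 * q * ‖d‖ ^ 2) ≤ lam (D d d) := by
  obtain ⟨e, hedef⟩ : ∃ e : E, e = d - π d • v := ⟨_, rfl⟩
  rw [← hedef] at he
  have hde : d = π d • v + e := by rw [hedef]; abel
  have h1 : |lam ((D - B) d d)| ≤ ‖lam‖ * (ε * ‖d‖ ^ 2) := by
    have h2 := lam.le_opNorm ((D - B) d d)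
    have h3 := ContinuousLinearMap.le_opNorm₂ (D - B) d d
    rw [Real.norm_eq_abs] at h2
    have h4 : ‖D - B‖ * ‖d‖ * ‖d‖ ≤ ε * ‖d‖ ^ 2 := by
      rw [mul_assoc, ← pow_two]
      exact mul_le_mul_of_nonneg_right hD (by positivity)
    exact h2.trans (mul_le_mul_of_nonneg_left (h3.trans h4) (norm_nonneg lam))
  have h5 : B d d = (π d) ^ 2 • B v v + π d • (B v e + B e v) + B e e := by
    conv_lhs => rw [hde]
    simp only [map_add, map_smul, add_apply,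
      smul_apply, smul_add, smul_smul, pow_two]
    abel
  have h6 : lam (B d d) = lam (B v v) * (π d) ^ 2 + (π d * lam (B v e + B e v) + lam (B e e)) := by
    rw [h5]
    simp only [map_add, map_smul, smul_eq_mul]
    ring
  have hv : |π d| * ‖v‖ ≤ ‖d‖ + ‖e‖ := by
    have h7 : π d • v = d - e := by rw [hedef]; abel
    have h8 := norm_sub_le d e
    rw [← h7, norm_smul, Real.norm_eq_abs] at h8
    exact h8
  have h9 : |π d * lam (B v e + B e v) + lam (B e e)| ≤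
      ‖lam‖ * ‖B‖ * (2 * (|π d| * ‖v‖) * ‖e‖ + ‖e‖ ^ 2) := by
    have b1 : |lam (B v e)| ≤ ‖lam‖ * (‖B‖ * ‖v‖ * ‖e‖) :=
      (lam.le_opNorm _).trans (mul_le_mul_of_nonneg_left
        (ContinuousLinearMap.le_opNorm₂ B v e) (norm_nonneg lam))
    have b2 : |lam (B e v)| ≤ ‖lam‖ * (‖B‖ * ‖e‖ * ‖v‖) :=
      (lam.le_opNorm _).trans (mul_le_mul_of_nonneg_left
        (ContinuousLinearMap.le_opNorm₂ B e v) (norm_nonneg lam))
    have b3 : |lam (B e e)| ≤ ‖lam‖ * (‖B‖ * ‖e‖ * ‖e‖) :=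
      (lam.le_opNorm _).trans (mul_le_mul_of_nonneg_left
        (ContinuousLinearMap.le_opNorm₂ B e e) (norm_nonneg lam))
    have b4 : |π d * lam (B v e + B e v)| ≤
        |π d| * (‖lam‖ * (‖B‖ * ‖v‖ * ‖e‖) + ‖lam‖ * (‖B‖ * ‖e‖ * ‖v‖)) := by
      rw [abs_mul, map_add]
      exact mul_le_mul_of_nonneg_left ((abs_add_le _ _).trans (add_le_add b1 b2))
        (abs_nonneg _)
    refine (abs_add_le _ _).trans ((add_le_add b4 b3).trans (le_of_eq ?_))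
    ring
  have hn : 0 ≤ ‖e‖ := norm_nonneg e
  have hdn : 0 ≤ ‖d‖ := norm_nonneg d
  have h10 : 2 * (|π d| * ‖v‖) * ‖e‖ + ‖e‖ ^ 2 ≤
      2 * a * ‖d‖ + 6 * a ^ 2 + 5 * q * ‖d‖ ^ 2 := by
    have c1 : 2 * (|π d| * ‖v‖) * ‖e‖ ≤ 2 * (‖d‖ + ‖e‖) * ‖e‖ := by
      have := mul_le_mul_of_nonneg_right hv hn
      linarith
    have c2 : ‖e‖ ^ 2 ≤ (a + q * ‖d‖) ^ 2 := pow_le_pow_left₀ hn he 2
    have c3 : ‖d‖ * ‖e‖ ≤ ‖d‖ * (a + q * ‖d‖) := mul_le_mul_of_nonneg_left he hdn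
    have c4 : (a + q * ‖d‖) ^ 2 ≤ 2 * a ^ 2 + 2 * (q * ‖d‖) ^ 2 := by
      nlinarith [sq_nonneg (a - q * ‖d‖)]
    have c5 : (q * ‖d‖) ^ 2 ≤ 1 / 2 * (q * ‖d‖ ^ 2) := by
      have : q * q ≤ 1 / 2 * q := mul_le_mul_of_nonneg_right hq2 hq
      have := mul_le_mul_of_nonneg_right this (sq_nonneg ‖d‖)
      nlinarith
    nlinarith
  have h11 : ‖lam‖ * ‖B‖ * (2 * (|π d| * ‖v‖) * ‖e‖ + ‖e‖ ^ 2) ≤
      ‖lam‖ * ‖B‖ * (2 * a * ‖d‖ + 6 * a ^ 2 + 5 * q * ‖d‖ ^ 2) :=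
    mul_le_mul_of_nonneg_left h10 (by positivity)
  have h12 : lam (D d d) = lam (B d d) + lam ((D - B) d d) := by
    rw [← map_add]
    congr 1
    simp only [sub_apply]
    abel
  have h13 := (abs_le.mp h1).1
  have h14 := (abs_le.mp h9).1
  rw [h12, h6]
  linarith

/-- no three zeros -/
private theorem A3three (g : E → E) (D1 : E → E →L[ℝ] E) (D2 : E → E →L[ℝ] E →L[ℝ] E)
    (h1 : ∀ x, HasFDerivAt g (D1 x) x) (h2 : ∀ x, HasFDerivAt D1 (D2 x) x)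
    {H Q : E →L[ℝ] E} {B : E →L[ℝ] E →L[ℝ] E} {lam π : E →L[ℝ] ℝ} {v : E}
    (hQ : ∀ u, Q (H u) = u - π u • v) (hlam : ∀ u, lam (H u) = 0)
    {x0 : E} {r ε c : ℝ} (hb1 : ∀ x ∈ Metric.ball x0 r, ‖D1 x - H‖ ≤ ε)
    (hb2 : ∀ x ∈ Metric.ball x0 r, ‖D2 x - B‖ ≤ ε) (hc : c = lam (B v v))
    (hε0 : 0 < ε) (hε1 : ε ≤ 1) (hεQ : ε * ‖Q‖ ≤ 1 / 2)
    (hε3 : ε * (8 * ‖v‖ ^ 2 * (‖lam‖ * (1 + 5 * ‖B‖ * ‖Q‖))) ≤ c)
    (hε4 : ε * (16 * ‖lam‖ * ‖Q‖ * (‖B‖ + 1) * ‖v‖ ^ 2) < c)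
    {x1 x2 x3 : E} (hx1 : x1 ∈ Metric.ball x0 r) (hx2 : x2 ∈ Metric.ball x0 r)
    (hx3 : x3 ∈ Metric.ball x0 r) (z1 : g x1 = 0) (z2 : g x2 = 0) (z3 : g x3 = 0)
    (h12 : π x1 < π x2) (h23 : π x2 < π x3) : False := by
  obtain ⟨d, hd⟩ : ∃ d : E, d = x3 - x1 := ⟨_, rfl⟩
  have hπd : π d = π x3 - π x1 := by rw [hd, map_sub]
  have hπd0 : 0 < π d := by rw [hπd]; linarith
  have hHd : ‖H d‖ ≤ 0 + ε * ‖d‖ := by
    have h3 := A3mvt g D1 h1 H hb1 hx1 hx3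
    rw [z1, z3, sub_zero, zero_sub, norm_neg, ← hd] at h3
    rwa [zero_add]
  obtain ⟨hde, hdn⟩ := A3dec hQ hεQ hHd
  simp only [mul_zero, zero_add, add_zero] at hde hdn
  rw [abs_of_pos hπd0] at hdn
  have hdn2 : ‖d‖ ^ 2 ≤ 4 * (π d) ^ 2 * ‖v‖ ^ 2 := by
    have := pow_le_pow_left₀ (norm_nonneg d) hdn 2
    nlinarith
  -- the point `y`
  obtain ⟨t, ht⟩ : ∃ t : ℝ, t = (π x2 - π x1) / π d := ⟨_, rfl⟩
  have ht0 : 0 < t := by rw [ht]; exact div_pos (by linarith) hπd0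
  have ht1 : t < 1 := by
    rw [ht, div_lt_one hπd0, hπd]
    linarith
  have htI : t ∈ Icc (0 : ℝ) 1 := ⟨ht0.le, ht1.le⟩
  obtain ⟨y, hy⟩ : ∃ y : E, y = x1 + t • d := ⟨_, rfl⟩
  have hyb : y ∈ Metric.ball x0 r := by rw [hy, hd]; exact A3mem hx1 hx3 htI
  obtain ⟨w, hw⟩ : ∃ w : E, w = x2 - y := ⟨_, rfl⟩
  have hπw : π w = 0 := by
    rw [hw, hy, map_sub, map_add, map_smul, smul_eq_mul, ht, div_mul_cancel₀ _ hπd0.ne']
    ring
  have hgy : ‖g y + H w‖ ≤ ε * ‖w‖ := by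
    have h3 := A3mvt g D1 h1 H hb1 hyb hx2
    rw [z2, ← hw] at h3
    have e : (0 : E) - g y - H w = -(g y + H w) := by abel
    rwa [e, norm_neg] at h3
  have hline := fun (f : E →L[ℝ] ℝ) (s : ℝ) => A3line g D1 D2 h1 h2 f x1 d s
  have e0 : x1 + (0 : ℝ) • d = x1 := by rw [zero_smul, add_zero]
  have e1 : x1 + (1 : ℝ) • d = x3 := by rw [one_smul, hd]; abel
  have htt : 0 < t * (1 - t) := mul_pos ht0 (by linarith)
  -- bound for `‖g y‖`
  have hgyn : ‖g y‖ ≤ (‖B‖ + 1) * ‖d‖ ^ 2 * (t * (1 - t)) / 2 := by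
    obtain ⟨f, hf1, hf2⟩ := exists_dual_vector'' ℝ (g y)
    have h3 := A3real (fun s => f (g (x1 + s • d))) (fun s => f (D1 (x1 + s • d) d))
      (fun s => f (D2 (x1 + s • d) d d)) (-((‖B‖ + 1) * ‖d‖ ^ 2)) t
      (fun s => (hline f s).1) (fun s => (hline f s).2)
      (by rw [e0, z1, map_zero]) (by rw [e1, z3, map_zero])
      (fun s hs => by
        have hm : x1 + s • d ∈ Metric.ball x0 r := by rw [hd]; exact A3mem hx1 hx3 hs
        have h4 : ‖D2 (x1 + s • d)‖ ≤ ‖B‖ + 1 := by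
          have h5 := hb2 _ hm
          have h6 := norm_add_le (D2 (x1 + s • d) - B) B
          rw [sub_add_cancel] at h6
          linarith
        have h7 : |f (D2 (x1 + s • d) d d)| ≤ (‖B‖ + 1) * ‖d‖ ^ 2 := by
          have h8 := f.le_opNorm (D2 (x1 + s • d) d d)
          have h9 := ContinuousLinearMap.le_opNorm₂ (D2 (x1 + s • d)) d d
          rw [Real.norm_eq_abs] at h8
          have h10 : ‖f‖ * ‖D2 (x1 + s • d) d d‖ ≤ 1 * ‖D2 (x1 + s • d) d d‖ :=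
            mul_le_mul_of_nonneg_right hf1 (norm_nonneg _)
          have h11 : ‖D2 (x1 + s • d)‖ * ‖d‖ * ‖d‖ ≤ (‖B‖ + 1) * ‖d‖ ^ 2 := by
            rw [mul_assoc, ← pow_two]
            exact mul_le_mul_of_nonneg_right h4 (by positivity)
          linarith
        exact (abs_le.mp h7).1) htI
    rw [← hy, hf2] at h3
    simp only [RCLike.ofReal_real_eq_id, id_eq] at h3
    linarith
  -- bound for `‖w‖`
  have hwn : ‖w‖ ≤ 2 * (‖Q‖ * ‖g y‖) := by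
    have h3 : ‖H w‖ ≤ ‖g y‖ + ε * ‖w‖ := by
      have h4 := norm_sub_le (g y + H w) (g y)
      rw [add_sub_cancel_left] at h4
      linarith
    have h5 := (A3dec hQ hεQ h3).2
    rw [hπw, abs_zero, zero_mul, mul_zero, zero_add] at h5
    exact h5
  have hlg : -(lam (g y)) ≤ ‖lam‖ * (ε * ‖w‖) := by
    have h3 : lam (g y) = lam (g y + H w) := by rw [map_add, hlam, add_zero]
    have h4 := (lam.le_opNorm (g y + H w)).trans (mul_le_mul_of_nonneg_left hgy (norm_nonneg lam))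
    rw [Real.norm_eq_abs] at h4
    rw [h3]
    exact (neg_le_abs _).trans h4
  -- second derivative
  have hsec : lam (g y) ≤ -(c * (π d) ^ 2 / 2 * (t * (1 - t)) / 2) := by
    have h3 := A3real (fun s => lam (g (x1 + s • d))) (fun s => lam (D1 (x1 + s • d) d))
      (fun s => lam (D2 (x1 + s • d) d d)) (c * (π d) ^ 2 / 2) t
      (fun s => (hline lam s).1) (fun s => (hline lam s).2)
      (by rw [e0, z1, map_zero]) (by rw [e1, z3, map_zero])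
      (fun s hs => by
        have hm : x1 + s • d ∈ Metric.ball x0 r := by rw [hd]; exact A3mem hx1 hx3 hs
        have h4 := A3second (lam := lam) (π := π) (v := v) (a := 0) (q := ε * ‖Q‖)
          (by positivity) hεQ (hb2 _ hm) d (by rw [zero_add]; exact hde)
        rw [← hc] at h4
        simp only [mul_zero, zero_mul, zero_add, ne_eq, OfNat.ofNat_ne_zero, not_false_eq_true,
          zero_pow] at h4
        have h5 : ‖lam‖ * (ε * ‖d‖ ^ 2) + ‖lam‖ * ‖B‖ * (5 * (ε * ‖Q‖) * ‖d‖ ^ 2) =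
            ε * (‖lam‖ * (1 + 5 * ‖B‖ * ‖Q‖)) * ‖d‖ ^ 2 := by ring
        have h6 : ε * (‖lam‖ * (1 + 5 * ‖B‖ * ‖Q‖)) * ‖d‖ ^ 2 ≤
            ε * (‖lam‖ * (1 + 5 * ‖B‖ * ‖Q‖)) * (4 * (π d) ^ 2 * ‖v‖ ^ 2) :=
          mul_le_mul_of_nonneg_left hdn2 (by positivity)
        have h7 := mul_le_mul_of_nonneg_right hε3 (sq_nonneg (π d))
        nlinarith) htI
    rwa [← hy] at h3
  have f1 : ‖lam‖ * (ε * ‖w‖) ≤ ε * (‖lam‖ * ‖Q‖ * (‖B‖ + 1)) * (‖d‖ ^ 2 * (t * (1 - t))) := by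
    have g1 : ‖w‖ ≤ 2 * (‖Q‖ * ((‖B‖ + 1) * ‖d‖ ^ 2 * (t * (1 - t)) / 2)) :=
      hwn.trans (by
        have := mul_le_mul_of_nonneg_left hgyn (norm_nonneg Q)
        linarith)
    have g2 := mul_le_mul_of_nonneg_left g1 (show 0 ≤ ‖lam‖ * ε by positivity)
    nlinarith
  have f2 : ε * (‖lam‖ * ‖Q‖ * (‖B‖ + 1)) * (‖d‖ ^ 2 * (t * (1 - t))) ≤
      ε * (‖lam‖ * ‖Q‖ * (‖B‖ + 1)) * (4 * (π d) ^ 2 * ‖v‖ ^ 2 * (t * (1 - t))) :=
    mul_le_mul_of_nonneg_left (mul_le_mul_of_nonneg_right hdn2 htt.le) (by positivity)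
  have f3 : c * (π d) ^ 2 / 2 * (t * (1 - t)) / 2 ≤
      ε * (‖lam‖ * ‖Q‖ * (‖B‖ + 1)) * (4 * (π d) ^ 2 * ‖v‖ ^ 2 * (t * (1 - t))) := by
    linarith
  have hpos : 0 < (π d) ^ 2 * (t * (1 - t)) := mul_pos (by positivity) htt
  have f4 := mul_lt_mul_of_pos_right hε4 hpos
  nlinarith

end

section

variable {V E : Type} [NormedAddCommGroup V] [NormedSpace ℝ V] [NormedAddCommGroup E]
  [NormedSpace ℝ E]

private theorem A3smooth {G : V → E → E} (hG : ContDiff ℝ 3 (fun w : V × E => G w.1 w.2)) :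
    ContDiff ℝ 2 (fun w : V × E => fderiv ℝ (G w.1) w.2) ∧
      ContDiff ℝ 1 (fun w : V × E => fderiv ℝ (fun y => fderiv ℝ (G w.1) y) w.2) := by
  have h1 : ContDiff ℝ 2 (fun w : V × E => fderiv ℝ (G w.1) w.2) := by
    refine ContDiff.fderiv (m := 3) (f := fun w : V × E => G w.1) (g := fun w : V × E => w.2) ?_
      contDiff_snd (by norm_num)
    have h2 : ContDiff ℝ 3 (fun p : (V × E) × E => ((p.1.1, p.2) : V × E)) :=
      (contDiff_fst.comp contDiff_fst).prodMk contDiff_snd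
    exact hG.comp h2
  refine ⟨h1, ?_⟩
  refine ContDiff.fderiv (m := 2) (f := fun w : V × E => fun y => fderiv ℝ (G w.1) y)
    (g := fun w : V × E => w.2) ?_ contDiff_snd (by norm_num)
  have h2 : ContDiff ℝ 2 (fun p : (V × E) × E => ((p.1.1, p.2) : V × E)) :=
    (contDiff_fst.comp contDiff_fst).prodMk contDiff_snd
  exact h1.comp h2

private theorem A3fd {G : V → E → E} (hG : ContDiff ℝ 3 (fun w : V × E => G w.1 w.2)) (T : V) :
    (∀ x, HasFDerivAt (G T) (fderiv ℝ (G T) x) x) ∧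
      ∀ x, HasFDerivAt (fun y => fderiv ℝ (G T) y)
        (fderiv ℝ (fun y => fderiv ℝ (G T) y) x) x := by
  have h0 : ∀ n : WithTop ℕ∞, ContDiff ℝ n (fun y : E => ((T, y) : V × E)) := fun n =>
    contDiff_const.prodMk contDiff_id
  have h1 : ContDiff ℝ 3 (G T) := hG.comp (h0 3)
  have h2 : ContDiff ℝ 2 (fun y => fderiv ℝ (G T) y) := (A3smooth hG).1.comp (h0 2)
  exact ⟨fun x => (h1.differentiable (by norm_num) x).hasFDerivAt,
    fun x => (h2.differentiable (by norm_num) x).hasFDerivAt⟩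

private theorem A3data [FiniteDimensional ℝ E] {G : V → E → E}
    (hG : ContDiff ℝ 3 (fun w : V × E => G w.1 w.2)) {T0 : V} {x0 : E} (h : Fold G T0 x0) :
    ∃ (v : E) (lam π : E →L[ℝ] ℝ) (Q : E →L[ℝ] E),
      (∀ u, Q (fderiv ℝ (G T0) x0 u) = u - π u • v) ∧
      (∀ u, lam (fderiv ℝ (G T0) x0 u) = 0) ∧
      0 < lam (fderiv ℝ (fun y => fderiv ℝ (G T0) y) x0 v v) := by
  obtain ⟨-, v, lam, hv, hHv, hker, hlam, hne⟩ := h
  have hD : fderiv ℝ (fun x' => fderiv ℝ (G T0) x' v) x0 v =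
      fderiv ℝ (fun y => fderiv ℝ (G T0) y) x0 v v := by
    rw [fderiv_clm_apply ((A3fd hG T0).2 x0).differentiableAt (differentiableAt_const v)]
    simp
  rw [hD] at hne
  obtain ⟨π, hπ⟩ := SeparatingDual.exists_eq_one (R := ℝ) hv
  obtain ⟨H, hH⟩ : ∃ H : E →L[ℝ] E, H = fderiv ℝ (G T0) x0 := ⟨_, rfl⟩
  rw [← hH] at hHv hker hlam ⊢
  obtain ⟨N, hN⟩ := LinearMap.exists_leftInverse_of_injective
    (f := (H.prod π : E →L[ℝ] E × ℝ).toLinearMap) (by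
      rw [LinearMap.ker_eq_bot']
      intro u hu
      have h1 : H u = 0 := congrArg Prod.fst hu
      have h2 : π u = 0 := congrArg Prod.snd hu
      obtain ⟨r, rfl⟩ := hker u h1
      rw [map_smul, hπ, smul_eq_mul, mul_one] at h2
      rw [h2, zero_smul])
  have hN' : ∀ u, N (H u, π u) = u := fun u => by
    have := LinearMap.congr_fun hN u
    simpa using this
  have hNv : N (0, 1) = v := by
    have := hN' v
    rwa [hHv, hπ] at this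
  obtain ⟨lam', hl1, hl2⟩ : ∃ lam' : E →L[ℝ] ℝ, (∀ u, lam' (H u) = 0) ∧
      0 < lam' (fderiv ℝ (fun y => fderiv ℝ (G T0) y) x0 v v) := by
    rcases lt_or_gt_of_ne hne with h1 | h1
    · refine ⟨-lam, fun u => ?_, ?_⟩
      · rw [neg_apply, hlam, neg_zero]
      · rw [neg_apply]
        linarith
    · exact ⟨lam, hlam, h1⟩
  refine ⟨v, lam', π, LinearMap.toContinuousLinearMap (N.comp (LinearMap.inl ℝ E ℝ)),
    fun u => ?_, hl1, hl2⟩
  change N (H u, 0) = u - π u • v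
  have h1 : ((H u, 0) : E × ℝ) = (H u, π u) - π u • (0, 1) := by
    ext <;> simp
  rw [h1, map_sub, map_smul, hN', hNv]

private theorem A3nhds {G : V → E → E}
    (hG : ContDiff ℝ 3 (fun w : V × E => G w.1 w.2)) (T0 : V) (x0 : E) {ε : ℝ} (hε : 0 < ε) :
    ∀ᶠ w : V × E in 𝓝 (T0, x0), ‖fderiv ℝ (G w.1) w.2 - fderiv ℝ (G T0) x0‖ < ε ∧
      ‖fderiv ℝ (fun y => fderiv ℝ (G w.1) y) w.2 -
        fderiv ℝ (fun y => fderiv ℝ (G T0) y) x0‖ < ε := by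
  obtain ⟨h1, h2⟩ := A3smooth hG
  have c1 := (h1.continuous.sub continuous_const).norm.tendsto (T0, x0)
    (f := fun w : V × E => ‖fderiv ℝ (G w.1) w.2 - fderiv ℝ (G T0) x0‖)
  have c2 := (h2.continuous.sub continuous_const).norm.tendsto (T0, x0)
    (f := fun w : V × E => ‖fderiv ℝ (fun y => fderiv ℝ (G w.1) y) w.2 -
        fderiv ℝ (fun y => fderiv ℝ (G T0) y) x0‖)
  simp only [sub_self, norm_zero] at c1 c2
  exact (c1.eventually (Iio_mem_nhds hε)).and (c2.eventually (Iio_mem_nhds hε))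

end

/-- Near a simple fold there are at most two solutions.

Proof. Let `v, lam` be as in `Fold`, `H = fderiv (G T0) x0`, `π v = 1`, `Q (H u) = u - π u • v`. If
`x1, x2, x3` are three zeros near `x0`, sorted by the values of `π`, then `d = x3 - x1` is almost
parallel to `v`; let `y = x1 + t d` with `π (x2 - y) = 0`. By the second derivative of
`lam (G T (x1 + s d))` the value `lam (G T y)` is at most `- c (π d)² t (1 - t) / 4`; but
`x2 - y = Q (H (x2 - y))` is of the size of `G T y`, which is `O (t (1 - t) |d|²)`, and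
`lam (G T y)` is small compared with it. -/
theorem fold_le_two {V E : Type} [NormedAddCommGroup V] [NormedSpace ℝ V]
    [FiniteDimensional ℝ V] [NormedAddCommGroup E] [NormedSpace ℝ E] [FiniteDimensional ℝ E]
    (G : V → E → E) (hG : ContDiff ℝ 3 (fun w : V × E => G w.1 w.2)) (T0 : V) (x0 : E)
    (h : Fold G T0 x0) :
    ∃ U ∈ 𝓝 x0, ∀ᶠ T in 𝓝 T0, {x | x ∈ U ∧ G T x = 0}.encard ≤ 2 := by
  obtain ⟨v, lam, π, Q, hQ, hlam, hc⟩ := A3data hG h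
  obtain ⟨H, hH⟩ : ∃ H : E →L[ℝ] E, H = fderiv ℝ (G T0) x0 := ⟨_, rfl⟩
  obtain ⟨B, hB⟩ : ∃ B : E →L[ℝ] E →L[ℝ] E, B = fderiv ℝ (fun y => fderiv ℝ (G T0) y) x0 :=
    ⟨_, rfl⟩
  rw [← hH] at hQ hlam
  rw [← hB] at hc
  obtain ⟨ε, hε1, hεQ, hε3, hε4, hε0⟩ := ((A3ev 1 1 one_pos).and
    ((A3ev ‖Q‖ (1 / 2) (by norm_num)).and ((A3ev _ _ hc).and ((A3ev _ _ hc).and
      (self_mem_nhdsWithin : ∀ᶠ ε : ℝ in 𝓝[>] 0, ε ∈ Ioi (0 : ℝ))))) :
      ∀ᶠ ε : ℝ in 𝓝[>] 0, ε * 1 < 1 ∧ ε * ‖Q‖ < 1 / 2 ∧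
        ε * (8 * ‖v‖ ^ 2 * (‖lam‖ * (1 + 5 * ‖B‖ * ‖Q‖))) < lam (B v v) ∧
        ε * (16 * ‖lam‖ * ‖Q‖ * (‖B‖ + 1) * ‖v‖ ^ 2) < lam (B v v) ∧
          ε ∈ Ioi (0 : ℝ)).exists
  have hε0' : 0 < ε := hε0
  have hn := A3nhds hG T0 x0 hε0'
  rw [nhds_prod_eq, eventually_prod_iff] at hn
  obtain ⟨pa, hpa, pb, hpb, hab⟩ := hn
  obtain ⟨r, hr, hrb⟩ := Metric.eventually_nhds_iff_ball.mp hpb
  refine ⟨Metric.ball x0 r, Metric.ball_mem_nhds x0 hr, ?_⟩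
  filter_upwards [hpa] with T hT
  obtain ⟨g1, g2⟩ := A3fd hG T
  have b1 : ∀ x ∈ Metric.ball x0 r, ‖fderiv ℝ (G T) x - H‖ ≤ ε := fun x hx => by
    rw [hH]
    exact (hab hT (hrb x hx)).1.le
  have b2 : ∀ x ∈ Metric.ball x0 r, ‖fderiv ℝ (fun y => fderiv ℝ (G T) y) x - B‖ ≤ ε :=
    fun x hx => by
      rw [hB]
      exact (hab hT (hrb x hx)).2.le
  have three : ∀ x1 x2 x3 : E, (x1 ∈ Metric.ball x0 r ∧ G T x1 = 0) →
      (x2 ∈ Metric.ball x0 r ∧ G T x2 = 0) → (x3 ∈ Metric.ball x0 r ∧ G T x3 = 0) →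
      π x1 < π x2 → π x2 < π x3 → False := fun x1 x2 x3 k1 k2 k3 h12 h23 =>
    A3three (G T) _ _ g1 g2 hQ hlam b1 b2 rfl hε0' (by linarith) hεQ.le hε3.le hε4
      k1.1 k2.1 k3.1 k1.2 k2.2 k3.2 h12 h23
  have two : ∀ x1 x3 : E, (x1 ∈ Metric.ball x0 r ∧ G T x1 = 0) →
      (x3 ∈ Metric.ball x0 r ∧ G T x3 = 0) → x1 ≠ x3 → π x1 ≠ π x3 := by
    intro x1 x3 k1 k3 hne he
    have hHd : ‖H (x3 - x1)‖ ≤ 0 + ε * ‖x3 - x1‖ := by
      have h3 := A3mvt (G T) _ g1 H b1 k1.1 k3.1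
      rw [k1.2, k3.2, sub_zero, zero_sub, norm_neg] at h3
      rwa [zero_add]
    have h4 := (A3dec hQ hεQ.le hHd).2
    rw [map_sub, he, sub_self, abs_zero, zero_mul, mul_zero, mul_zero, mul_zero, add_zero] at h4
    exact hne (sub_eq_zero.mp (norm_le_zero_iff.mp h4)).symm
  by_contra hcon
  rw [not_le] at hcon
  have h3 : (3 : ℕ∞) ≤ {x | x ∈ Metric.ball x0 r ∧ G T x = 0}.encard := by
    have := Order.add_one_le_of_lt hcon
    have e : (2 : ℕ∞) + 1 = 3 := by norm_num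
    rwa [e] at this
  obtain ⟨S, hS, hS3⟩ := Set.exists_subset_encard_eq h3
  obtain ⟨x, y, z, hxy, hxz, hyz, rfl⟩ := Set.encard_eq_three.mp hS3
  have kx := hS (show x ∈ ({x, y, z} : Set E) by simp)
  have ky := hS (show y ∈ ({x, y, z} : Set E) by simp)
  have kz := hS (show z ∈ ({x, y, z} : Set E) by simp)
  rcases lt_or_gt_of_ne (two x y kx ky hxy) with a1 | a1 <;>
  rcases lt_or_gt_of_ne (two x z kx kz hxz) with a2 | a2 <;>
  rcases lt_or_gt_of_ne (two y z ky kz hyz) with a3 | a3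
  · exact three x y z kx ky kz a1 a3
  · exact three x z y kx kz ky a2 a3
  · linarith
  · exact three z x y kz kx ky a2 a1
  · exact three y x z ky kx kz a1 a2
  · linarith
  · exact three y z x ky kz kx a3 a2
  · exact three z y x kz ky kx a3 a1

/-- Arbitrarily near there are parameters without solutions near the fold.

Proof. With the notation of the proof of `fold_le_two` choose `δ` with `lam (∂_T G (δ)) = 1` and
`T = T0 + s δ`, `s > 0` small. If `G T x = 0`, `d = x - x0`, then `lam (G T0 x) ≤ - s / 2`, and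
`d - π d • v = Q (H d)` is `O (s) + ε O (|d|)`. By the second derivative `lam (G T0 x)` is at least
`- O (s |x - x0|) - O (s²)`, a contradiction. -/
theorem fold_empty {V E : Type} [NormedAddCommGroup V] [NormedSpace ℝ V]
    [FiniteDimensional ℝ V] [NormedAddCommGroup E] [NormedSpace ℝ E] [FiniteDimensional ℝ E]
    (G : V → E → E) (hG : ContDiff ℝ 3 (fun w : V × E => G w.1 w.2)) (T0 : V) (x0 : E)
    (h : Fold G T0 x0) (hs : Function.Surjective (fderiv ℝ (fun T => G T x0) T0)) :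
    ∃ U ∈ 𝓝 x0, ∀ W ∈ 𝓝 T0, ∃ T ∈ W, ∀ x ∈ U, G T x ≠ 0 := by
  obtain ⟨v, lam, π, Q, hQ, hlam, hc⟩ := A3data hG h
  have hz : G T0 x0 = 0 := h.1
  obtain ⟨H, hH⟩ : ∃ H : E →L[ℝ] E, H = fderiv ℝ (G T0) x0 := ⟨_, rfl⟩
  obtain ⟨B, hB⟩ : ∃ B : E →L[ℝ] E →L[ℝ] E, B = fderiv ℝ (fun y => fderiv ℝ (G T0) y) x0 :=
    ⟨_, rfl⟩
  rw [← hH] at hQ hlam
  rw [← hB] at hc
  -- the direction `δ`
  obtain ⟨δ, hδ⟩ := hs ((lam (B v v))⁻¹ • B v v)
  obtain ⟨K, hK⟩ : ∃ K : V × E → (V × E →L[ℝ] E),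
      K = fun w => fderiv ℝ (fun w : V × E => G w.1 w.2) w := ⟨_, rfl⟩
  have hKd : ∀ w, HasFDerivAt (fun w : V × E => G w.1 w.2) (K w) w := fun w => by
    rw [hK]
    exact (hG.differentiable (by norm_num) w).hasFDerivAt
  have hKc : Continuous K := by
    rw [hK]
    exact hG.continuous_fderiv (by norm_num)
  have hK0 : K (T0, x0) (δ, 0) = (lam (B v v))⁻¹ • B v v := by
    rw [← hδ]
    have h1 : HasFDerivAt (fun T : V => ((T, x0) : V × E))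
        ((ContinuousLinearMap.id ℝ V).prod (0 : V →L[ℝ] E)) T0 :=
      (hasFDerivAt_id T0).prodMk (hasFDerivAt_const x0 T0)
    have h2 : HasFDerivAt (fun T : V => G T x0)
        ((K (T0, x0)).comp ((ContinuousLinearMap.id ℝ V).prod (0 : V →L[ℝ] E))) T0 :=
      HasFDerivAt.comp (g := fun w : V × E => G w.1 w.2) (f := fun T : V => ((T, x0) : V × E))
        T0 (hKd (T0, x0)) h1
    rw [h2.fderiv]
    simp
  have hlK0 : lam (K (T0, x0) (δ, 0)) = 1 := by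
    rw [hK0, map_smul, smul_eq_mul, inv_mul_cancel₀ hc.ne']
  obtain ⟨C, hC⟩ : ∃ C : ℝ, C = ‖K (T0, x0) (δ, 0)‖ + 1 := ⟨_, rfl⟩
  have hC0 : 0 < C := by rw [hC]; positivity
  have hcont : Continuous fun w : V × E => K w (δ, 0) := hKc.clm_apply continuous_const
  have hev1 : ∀ᶠ w : V × E in 𝓝 (T0, x0), ‖K w (δ, 0)‖ < C :=
    (hcont.norm.tendsto (T0, x0)).eventually (Iio_mem_nhds (by
      change ‖K (T0, x0) (δ, 0)‖ < C
      rw [hC]
      linarith))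
  have hev2 : ∀ᶠ w : V × E in 𝓝 (T0, x0), 1 / 2 < lam (K w (δ, 0)) :=
    ((lam.continuous.comp hcont).tendsto (T0, x0)).eventually (Ioi_mem_nhds (by
      change 1 / 2 < lam (K (T0, x0) (δ, 0))
      rw [hlK0]
      norm_num))
  obtain ⟨ε, hεQ, hε3, hε0⟩ := (((A3ev ‖Q‖ (1 / 2) (by norm_num)).and ((A3ev _ _ hc).and
      (self_mem_nhdsWithin : ∀ᶠ ε : ℝ in 𝓝[>] 0, ε ∈ Ioi (0 : ℝ)))) :
      ∀ᶠ ε : ℝ in 𝓝[>] 0, ε * ‖Q‖ < 1 / 2 ∧
        ε * (8 * ‖v‖ ^ 2 * (‖lam‖ * (1 + 5 * ‖B‖ * ‖Q‖))) < lam (B v v) ∧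
          ε ∈ Ioi (0 : ℝ)).exists
  have hε0' : 0 < ε := hε0
  obtain ⟨ρ, hρ, hρb⟩ := Metric.eventually_nhds_iff_ball.mp
    ((A3nhds hG T0 x0 hε0').and (hev1.and hev2))
  obtain ⟨α, hα⟩ : ∃ α : ℝ, α = ‖Q‖ * C := ⟨_, rfl⟩
  have hα0 : 0 ≤ α := by rw [hα]; positivity
  obtain ⟨M, hM⟩ : ∃ M : ℝ, M = 2 * (‖lam‖ * ‖B‖) * α := ⟨_, rfl⟩
  have hM0 : 0 ≤ M := by rw [hM]; positivity
  obtain ⟨r, hr⟩ : ∃ r : ℝ, r = min ρ (1 / (4 * (M + 1))) := ⟨_, rfl⟩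
  have hr0 : 0 < r := by rw [hr]; exact lt_min hρ (by positivity)
  have hrρ : r ≤ ρ := by rw [hr]; exact min_le_left _ _
  have hrM : r * M ≤ 1 / 4 := by
    have h1 : r ≤ 1 / (4 * (M + 1)) := by rw [hr]; exact min_le_right _ _
    have h2 := mul_le_mul_of_nonneg_right h1 hM0
    have h3 : 1 / (4 * (M + 1)) * M ≤ 1 / 4 := by
      rw [div_mul_eq_mul_div, div_le_div_iff₀ (by positivity) (by norm_num)]
      linarith
    linarith
  refine ⟨Metric.ball x0 r, Metric.ball_mem_nhds x0 hr0, fun W hW => ?_⟩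
  have hevW : ∀ᶠ s : ℝ in 𝓝[>] 0, T0 + s • δ ∈ W := by
    have h1 : Tendsto (fun s : ℝ => T0 + s • δ) (𝓝[>] 0) (𝓝 (T0 + (0 : ℝ) • δ)) :=
      ((continuous_const.add (continuous_id.smul continuous_const)).tendsto 0).mono_left
        nhdsWithin_le_nhds
    rw [zero_smul, add_zero] at h1
    exact h1.eventually hW
  obtain ⟨s, hsδ, hsY, hsW, hs0⟩ := (((A3ev ‖δ‖ ρ hρ).and ((A3ev _ (1 / 2) (by norm_num)).and
    (hevW.and (self_mem_nhdsWithin : ∀ᶠ s : ℝ in 𝓝[>] 0, s ∈ Ioi (0 : ℝ))))) :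
      ∀ᶠ s : ℝ in 𝓝[>] 0, s * ‖δ‖ < ρ ∧
        s * (α ^ 2 * (8 * ε * (‖lam‖ * (1 + 5 * ‖B‖ * ‖Q‖)) + 6 * (‖lam‖ * ‖B‖))) < 1 / 2 ∧
          T0 + s • δ ∈ W ∧ s ∈ Ioi (0 : ℝ)).exists
  have hs0' : 0 < s := hs0
  refine ⟨T0 + s • δ, hsW, fun x hx hGx => ?_⟩
  have hxn : ‖x - x0‖ < r := by rwa [← dist_eq_norm, ← Metric.mem_ball]
  have hmem : ∀ τ ∈ Icc (0 : ℝ) s, ((T0 + τ • δ, x) : V × E) ∈ Metric.ball (T0, x0) ρ := by
    intro τ hτ
    rw [Metric.mem_ball, Prod.dist_eq, max_lt_iff]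
    constructor
    · change dist (T0 + τ • δ) T0 < ρ
      rw [dist_eq_norm, add_sub_cancel_left, norm_smul, Real.norm_eq_abs, abs_of_nonneg hτ.1]
      exact (mul_le_mul_of_nonneg_right hτ.2 (norm_nonneg δ)).trans_lt hsδ
    · change dist x x0 < ρ
      exact lt_of_lt_of_le hx hrρ
  have hpath : ∀ τ : ℝ, HasDerivAt (fun τ : ℝ => G (T0 + τ • δ) x)
      (K (T0 + τ • δ, x) (δ, 0)) τ := by
    intro τ
    have h1 : HasDerivAt (fun τ : ℝ => ((T0 + τ • δ, x) : V × E)) (δ, 0) τ := by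
      have h2 : HasDerivAt (fun τ : ℝ => T0 + τ • δ) δ τ := by
        simpa using ((hasDerivAt_id τ).smul_const δ).const_add T0
      exact h2.prodMk (hasDerivAt_const τ x)
    exact (hKd (T0 + τ • δ, x)).comp_hasDerivAt τ h1
  have hIs : (0 : ℝ) ∈ Icc (0 : ℝ) s := ⟨le_rfl, hs0'.le⟩
  have hIs' : s ∈ Icc (0 : ℝ) s := ⟨hs0'.le, le_rfl⟩
  have hnorm : ‖G T0 x‖ ≤ C * s := by
    have h1 := Convex.norm_image_sub_le_of_norm_hasDerivWithin_le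
      (f := fun τ : ℝ => G (T0 + τ • δ) x) (f' := fun τ => K (T0 + τ • δ, x) (δ, 0)) (C := C)
      (s := Icc (0 : ℝ) s) (fun τ _ => (hpath τ).hasDerivWithinAt)
      (fun τ hτ => ((hρb _ (hmem τ hτ)).2.1).le) (convex_Icc 0 s) hIs' hIs
    simp only [zero_smul, add_zero] at h1
    rw [hGx, sub_zero, zero_sub, norm_neg, Real.norm_eq_abs, abs_of_pos hs0'] at h1
    exact h1
  have hlam2 : lam (G T0 x) ≤ -(s / 2) := by
    have hd : ∀ τ : ℝ, HasDerivAt (fun τ : ℝ => lam (G (T0 + τ • δ) x) - 1 / 2 * τ)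
        (lam (K (T0 + τ • δ, x) (δ, 0)) - 1 / 2) τ := by
      intro τ
      have h1 := lam.hasFDerivAt.comp_hasDerivAt τ (hpath τ)
      have h2 := (hasDerivAt_id τ).const_mul (1 / 2 : ℝ)
      simpa using h1.fun_sub h2
    have hmono : MonotoneOn (fun τ : ℝ => lam (G (T0 + τ • δ) x) - 1 / 2 * τ) (Icc (0 : ℝ) s) :=
      monotoneOn_of_hasDerivWithinAt_nonneg (convex_Icc 0 s)
        (fun τ _ => (hd τ).continuousAt.continuousWithinAt)
        (fun τ _ => (hd τ).hasDerivWithinAt)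
        (fun τ hτ => sub_nonneg.mpr ((hρb _ (hmem τ (interior_subset hτ))).2.2).le)
    have h3 := hmono hIs hIs' hs0'.le
    simp only [zero_smul, add_zero, mul_zero, sub_zero] at h3
    rw [hGx, map_zero] at h3
    linarith
  -- the ball for `T0`
  obtain ⟨g1, g2⟩ := A3fd hG T0
  have hT0 : ∀ y ∈ Metric.ball x0 r, ((T0, y) : V × E) ∈ Metric.ball (T0, x0) ρ := by
    intro y hy
    rw [Metric.mem_ball, Prod.dist_eq, max_lt_iff]
    constructor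
    · change dist T0 T0 < ρ
      rw [dist_self]
      exact hρ
    · exact lt_of_lt_of_le hy hrρ
  have b1 : ∀ y ∈ Metric.ball x0 r, ‖fderiv ℝ (G T0) y - H‖ ≤ ε := fun y hy => by
    rw [hH]
    exact (hρb _ (hT0 y hy)).1.1.le
  have b2 : ∀ y ∈ Metric.ball x0 r, ‖fderiv ℝ (fun y => fderiv ℝ (G T0) y) y - B‖ ≤ ε :=
    fun y hy => by
      rw [hB]
      exact (hρb _ (hT0 y hy)).1.2.le
  have hx0 : x0 ∈ Metric.ball x0 r := Metric.mem_ball_self hr0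
  obtain ⟨d, hd⟩ : ∃ d : E, d = x - x0 := ⟨_, rfl⟩
  have hHd : ‖H d‖ ≤ C * s + ε * ‖d‖ := by
    have h3 := A3mvt (G T0) _ g1 H b1 hx0 hx
    rw [hz, sub_zero, ← hd] at h3
    have h4 := norm_sub_le (G T0 x) (G T0 x - H d)
    rw [sub_sub_cancel] at h4
    linarith
  obtain ⟨hde, hdn⟩ := A3dec hQ hεQ.le hHd
  have e1 : ‖Q‖ * (C * s) = α * s := by rw [hα]; ring
  rw [e1] at hde hdn
  have hdr : ‖d‖ < r := by rw [hd]; exact hxn
  have hds : ‖d‖ ^ 2 ≤ 8 * ((π d) ^ 2 * ‖v‖ ^ 2) + 8 * (α * s) ^ 2 := by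
    have h1 := pow_le_pow_left₀ (norm_nonneg d) hdn 2
    have h2 : (|π d| * ‖v‖) ^ 2 = (π d) ^ 2 * ‖v‖ ^ 2 := by rw [mul_pow, sq_abs]
    nlinarith [sq_nonneg (|π d| * ‖v‖ - α * s)]
  have hsec := A3real2 (fun τ => lam (G T0 (x0 + τ • d)))
      (fun τ => lam (fderiv ℝ (G T0) (x0 + τ • d) d))
      (fun τ => lam (fderiv ℝ (fun y => fderiv ℝ (G T0) y) (x0 + τ • d) d d))
      (-(8 * ε * (‖lam‖ * (1 + 5 * ‖B‖ * ‖Q‖)) * (α * s) ^ 2) -
        ‖lam‖ * ‖B‖ * (2 * (α * s) * r + 6 * (α * s) ^ 2))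
      (fun τ => (A3line (G T0) _ _ g1 g2 lam x0 d τ).1)
      (fun τ => (A3line (G T0) _ _ g1 g2 lam x0 d τ).2)
      (by rw [zero_smul, add_zero, hz, map_zero])
      (by rw [zero_smul, add_zero, ← hH, hlam])
      (fun τ hτ => by
        have hm : x0 + τ • d ∈ Metric.ball x0 r := by rw [hd]; exact A3mem hx0 hx hτ
        have h4 := A3second (lam := lam) (π := π) (v := v) (a := α * s) (q := ε * ‖Q‖)
          (by positivity) hεQ.le (b2 _ hm) d hde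
        have h5 : ‖lam‖ * (ε * ‖d‖ ^ 2) + ‖lam‖ * ‖B‖ * (5 * (ε * ‖Q‖) * ‖d‖ ^ 2) =
            ε * (‖lam‖ * (1 + 5 * ‖B‖ * ‖Q‖)) * ‖d‖ ^ 2 := by ring
        have h6 : ε * (‖lam‖ * (1 + 5 * ‖B‖ * ‖Q‖)) * ‖d‖ ^ 2 ≤
            ε * (‖lam‖ * (1 + 5 * ‖B‖ * ‖Q‖)) *
              (8 * ((π d) ^ 2 * ‖v‖ ^ 2) + 8 * (α * s) ^ 2) :=
          mul_le_mul_of_nonneg_left hds (by positivity)
        have h7 := mul_le_mul_of_nonneg_right hε3.le (sq_nonneg (π d))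
        have h8 : ‖lam‖ * ‖B‖ * (2 * (α * s) * ‖d‖) ≤ ‖lam‖ * ‖B‖ * (2 * (α * s) * r) :=
          mul_le_mul_of_nonneg_left (mul_le_mul_of_nonneg_left hdr.le (by positivity))
            (by positivity)
        nlinarith)
  simp only [one_smul] at hsec
  have hxx : x0 + d = x := by rw [hd]; abel
  rw [hxx] at hsec
  have h9 : s ≤ 8 * ε * (‖lam‖ * (1 + 5 * ‖B‖ * ‖Q‖)) * (α * s) ^ 2 +
        ‖lam‖ * ‖B‖ * (2 * (α * s) * r + 6 * (α * s) ^ 2) := by linarith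
  have h10 : 8 * ε * (‖lam‖ * (1 + 5 * ‖B‖ * ‖Q‖)) * (α * s) ^ 2 +
        ‖lam‖ * ‖B‖ * (2 * (α * s) * r + 6 * (α * s) ^ 2) =
      s * (s * (α ^ 2 * (8 * ε * (‖lam‖ * (1 + 5 * ‖B‖ * ‖Q‖)) + 6 * (‖lam‖ * ‖B‖))) +
        r * M) := by
    rw [hM]
    ring
  rw [h10] at h9
  have h11 : s * (s * (α ^ 2 * (8 * ε * (‖lam‖ * (1 + 5 * ‖B‖ * ‖Q‖)) + 6 * (‖lam‖ * ‖B‖))) +
        r * M) < s * 1 := mul_lt_mul_of_pos_left (by linarith) hs0'
  linarith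

end Pool.Agent.MPb0eQ
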