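import Mathlib
import Pool.Agent.Lib.MP_b0e20b_ag_P.LC
import Pool.Agent.Lib.MP_b0e20b_ag_Q.ADefs
import Pool.Agent.Lib.MP_b0e20b_ag_Q.A3

/-!
# MP_b0e20b_ag, all formats: numbers of solutions near a parameter with one simple fold
-/

set_option autoImplicit false

open scoped Topology

namespace Pool.Agent.MPb0eQ

private theorem A4fderiv {V E : Type} [NormedAddCommGroup V] [NormedSpace ℝ V]
    [NormedAddCommGroup E] [NormedSpace ℝ E]
    (G : V → E → E) (hG : ContDiff ℝ 3 (fun w : V × E => G w.1 w.2)) (T : V) (x : E) :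
    fderiv ℝ (G T) x = (fderiv ℝ (fun w : V × E => G w.1 w.2) (T, x)).comp
      (ContinuousLinearMap.inr ℝ V E) := by
  have hd : HasFDerivAt (fun w : V × E => G w.1 w.2)
      (fderiv ℝ (fun w : V × E => G w.1 w.2) (T, x)) (T, x) :=
    ((hG.differentiable (by norm_num)) (T, x)).hasFDerivAt
  have h1 : HasFDerivAt (fun u : E => ((T, u) : V × E)) (ContinuousLinearMap.inr ℝ V E) x :=
    hasFDerivAt_prodMk_right T x
  have h2 : HasFDerivAt (G T) ((fderiv ℝ (fun w : V × E => G w.1 w.2) (T, x)).comp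
      (ContinuousLinearMap.inr ℝ V E)) x :=
    HasFDerivAt.comp (g := fun w : V × E => G w.1 w.2) x hd h1
  exact h2.fderiv

private theorem A4bij {V E : Type} [NormedAddCommGroup V] [NormedSpace ℝ V]
    [NormedAddCommGroup E] [NormedSpace ℝ E] [FiniteDimensional ℝ E]
    (G : V → E → E) (hG : ContDiff ℝ 3 (fun w : V × E => G w.1 w.2)) (T : V) (x : E)
    (h : Function.Bijective (fderiv ℝ (G T) x)) :
    ∀ᶠ w in 𝓝 (T, x), Function.Bijective (fderiv ℝ (G w.1) w.2) := by
  have hcE : CompleteSpace E := FiniteDimensional.complete ℝ E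
  have hc : Continuous fun w : V × E => (fderiv ℝ (fun w : V × E => G w.1 w.2) w).comp
      (ContinuousLinearMap.inr ℝ V E) :=
    (hG.continuous_fderiv (by norm_num)).clm_comp continuous_const
  have h1 : IsUnit ((fderiv ℝ (fun w : V × E => G w.1 w.2) (T, x)).comp
      (ContinuousLinearMap.inr ℝ V E)) := by
    rw [ContinuousLinearMap.isUnit_iff_bijective, ← A4fderiv G hG]
    exact h
  have h2 := hc.continuousAt.eventually (Units.isOpen.mem_nhds h1)
  filter_upwards [h2] with w hw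
  rw [A4fderiv G hG]
  exact ContinuousLinearMap.isUnit_iff_bijective.1 hw

private theorem A4core {V E : Type} [NormedAddCommGroup V] [NormedSpace ℝ V]
    [FiniteDimensional ℝ V] [NormedAddCommGroup E] [NormedSpace ℝ E] [FiniteDimensional ℝ E]
    (G : V → E → E) (hG : ContDiff ℝ 3 (fun w : V × E => G w.1 w.2)) (T0 : V) (R : ℝ)
    (hb : ∀ᶠ T in 𝓝 T0, ∀ x, G T x = 0 → ‖x‖ ≤ R) (Z : Set E) (hZ : Z.Finite) (O : Set E)
    (hZ0 : ∀ u ∈ Z, G T0 u = 0) (hZn : ∀ u ∈ Z, Function.Bijective (fderiv ℝ (G T0) u))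
    (hZO : ∀ u ∈ Z, Oᶜ ∈ 𝓝 u) (hO : ∀ u, G T0 u = 0 → u ∉ Z → O ∈ 𝓝 u) :
    ∀ᶠ T in 𝓝 T0, ∃ S : Set E, S.encard = Z.encard ∧
      {x | G T x = 0} = S ∪ {x | x ∈ O ∧ G T x = 0} ∧
      ∀ x ∈ S, Function.Bijective (fderiv ℝ (G T) x) := by
  classical
  have hcV : CompleteSpace V := FiniteDimensional.complete ℝ V
  have hpE : ProperSpace E := FiniteDimensional.proper ℝ E
  have hcont : Continuous (fun w : V × E => G w.1 w.2) := hG.continuous
  obtain ⟨N, hN, hNd⟩ := hZ.t2_separation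
  have hbij : ∀ u ∈ Z, ∃ B ∈ 𝓝 u, ∀ᶠ T in 𝓝 T0, ∀ x ∈ B,
      Function.Bijective (fderiv ℝ (G T) x) := by
    intro u hu
    have h1 := A4bij G hG T0 u (hZn u hu)
    rw [nhds_prod_eq, Filter.eventually_prod_iff] at h1
    obtain ⟨pa, hpa, pb, hpb, hab⟩ := h1
    refine ⟨{x | pb x}, hpb, ?_⟩
    filter_upwards [hpa] with T hT x hx
    exact hab hT hx
  choose! B hB using hbij
  have hper : ∀ u ∈ Z, ∃ U ∈ 𝓝 u, U ⊆ N u ∩ Oᶜ ∩ B u ∧
      ∀ᶠ p in 𝓝 T0, ∃! v, v ∈ U ∧ G p v = 0 := fun u hu =>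
    MPb0eP.persist G (hG.of_le (by norm_num)) T0 u (hZ0 u hu) (hZn u hu) (N u ∩ Oᶜ ∩ B u)
      (Filter.inter_mem (Filter.inter_mem ((hN u).2.mem_nhds (hN u).1) (hZO u hu)) (hB u hu).1)
  choose! U hU using hper
  set K : Set E := Metric.closedBall (0 : E) R \ ((⋃ u ∈ Z, interior (U u)) ∪ interior O) with hK
  have hKc : IsCompact K := by
    refine (isCompact_closedBall (0 : E) R).diff ?_
    exact (isOpen_biUnion fun u _ => isOpen_interior).union isOpen_interior
  have hK0 : ∀ᶠ p in 𝓝 T0, ∀ y ∈ K, G p y ≠ 0 := by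
    refine hKc.eventually_forall_of_forall_eventually fun y hy => ?_
    have hne : G T0 y ≠ 0 := by
      intro h
      by_cases hyZ : y ∈ Z
      · refine hy.2 (Or.inl (Set.mem_iUnion₂.2 ⟨y, hyZ, ?_⟩))
        exact mem_interior_iff_mem_nhds.2 (hU y hyZ).1
      · exact hy.2 (Or.inr (mem_interior_iff_mem_nhds.2 (hO y h hyZ)))
    exact hcont.continuousAt.eventually_ne (x := (T0, y)) hne
  have hall : ∀ᶠ p in 𝓝 T0, ∀ u ∈ Z, ∃! v, v ∈ U u ∧ G p v = 0 :=
    (Filter.eventually_all_finite hZ).2 fun u hu => (hU u hu).2.2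
  have hall2 : ∀ᶠ T in 𝓝 T0, ∀ u ∈ Z, ∀ x ∈ B u, Function.Bijective (fderiv ℝ (G T) x) :=
    (Filter.eventually_all_finite hZ).2 fun u hu => (hB u hu).2
  filter_upwards [hb, hK0, hall, hall2] with p hpb hpK hpu hpB
  choose! f hf using hpu
  refine ⟨f '' Z, ?_, ?_, ?_⟩
  · refine Set.InjOn.encard_image ?_
    intro u hu u' hu' he
    by_contra hne
    have hdis := hNd hu hu' hne
    refine Set.disjoint_left.1 hdis ((hU u hu).2.1 (hf u hu).1.1).1.1 ?_
    rw [he]
    exact ((hU u' hu').2.1 (hf u' hu').1.1).1.1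
  · ext x
    constructor
    · intro hx
      have hx0 : G p x = 0 := hx
      have hxR : x ∈ Metric.closedBall (0 : E) R := by
        rw [mem_closedBall_zero_iff]
        exact hpb x hx0
      by_contra hcon
      refine hpK x ⟨hxR, fun hmem => hcon ?_⟩ hx0
      rcases hmem with hmem | hmem
      · obtain ⟨u, hu, hxu⟩ := Set.mem_iUnion₂.1 hmem
        exact Or.inl ⟨u, hu, ((hf u hu).2 x ⟨interior_subset hxu, hx0⟩).symm⟩
      · exact Or.inr ⟨interior_subset hmem, hx0⟩
    · rintro (⟨u, hu, rfl⟩ | hx)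
      · exact (hf u hu).1.2
      · exact hx.2
  · rintro _ ⟨u, hu, rfl⟩
    exact hpB u hu _ ((hU u hu).2.1 (hf u hu).1.1).2

private theorem A4fin {V E : Type} [NormedAddCommGroup V] [NormedSpace ℝ V]
    [FiniteDimensional ℝ V] [NormedAddCommGroup E] [NormedSpace ℝ E] [FiniteDimensional ℝ E]
    (G : V → E → E) (hG : ContDiff ℝ 3 (fun w : V × E => G w.1 w.2)) (T0 : V) (R : ℝ)
    (hb : ∀ᶠ T in 𝓝 T0, ∀ x, G T x = 0 → ‖x‖ ≤ R)
    (h : ∀ u, G T0 u = 0 → Function.Bijective (fderiv ℝ (G T0) u) ∨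
      ∃ U ∈ 𝓝 u, {x | x ∈ U ∧ G T0 x = 0}.Finite) : {x | G T0 x = 0}.Finite := by
  classical
  have hcV : CompleteSpace V := FiniteDimensional.complete ℝ V
  have hpE : ProperSpace E := FiniteDimensional.proper ℝ E
  have hcont : Continuous (fun w : V × E => G w.1 w.2) := hG.continuous
  have hc0 : Continuous (G T0) := hcont.comp (Continuous.prodMk_right T0)
  have hZc : IsCompact {x | G T0 x = 0} := by
    refine (isCompact_closedBall (0 : E) R).of_isClosed_subset
      (isClosed_singleton.preimage hc0) ?_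
    intro u hu
    rw [mem_closedBall_zero_iff]
    exact hb.self_of_nhds u hu
  have key : ∀ u ∈ {x | G T0 x = 0}, ∃ U ∈ 𝓝 u, {x | x ∈ U ∧ G T0 x = 0}.Finite := by
    intro u hu
    rcases h u hu with h1 | h1
    · obtain ⟨U, hU, -, hU2⟩ := MPb0eP.persist G (hG.of_le (by norm_num)) T0 u hu h1 Set.univ
        Filter.univ_mem
      obtain ⟨v, -, hv⟩ := hU2.self_of_nhds
      exact ⟨U, hU, (Set.finite_singleton v).subset fun x hx => hv x hx⟩
    · exact h1
  choose! U hU using key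
  obtain ⟨t, ht, htc⟩ := hZc.elim_nhds_subcover U fun u hu => (hU u hu).1
  refine (t.finite_toSet.biUnion fun u hu => (hU u (ht u hu)).2).subset ?_
  intro x hx
  obtain ⟨u, hut, hxu⟩ := Set.mem_iUnion₂.1 (htc hx)
  exact Set.mem_iUnion₂.2 ⟨u, hut, hxu, hx⟩

/-- Proof. As for `lc` in `MP_b0e20b_ag_P/LC.lean`. The solutions of `G T0` are bounded; the
nondegenerate ones are isolated, the fold too (`fold_le_two` at `T = T0`,
`Filter.Eventually.self_of_nhds`), so there are finitely many, `c` nondegenerate ones and the fold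
`x0`. Choose disjoint neighbourhoods: for the nondegenerate ones as in `persist` (and so small that the
derivative is bijective at all zeros in them for `T` near `T0`: continuity of the derivative), for
`x0` a neighbourhood which lies in those of `fold_le_two` and `fold_empty`. By compactness for `T`
near `T0` there are no other solutions. So the number for `T` near `T0` is `c` plus the number in the
neighbourhood of `x0`, which is at most `2`, and is `0` for suitable `T` arbitrarily near `T0`; for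
those all solutions are nondegenerate. -/
theorem near_one {V E : Type} [NormedAddCommGroup V] [NormedSpace ℝ V]
    [FiniteDimensional ℝ V] [NormedAddCommGroup E] [NormedSpace ℝ E] [FiniteDimensional ℝ E]
    (G : V → E → E) (hG : ContDiff ℝ 3 (fun w : V × E => G w.1 w.2)) (T0 : V)
    (hb : ∃ R : ℝ, ∀ᶠ T in 𝓝 T0, ∀ x, G T x = 0 → ‖x‖ ≤ R)
    (hs : ∀ x, Function.Surjective (fderiv ℝ (fun T => G T x) T0)) (h1 : One G T0) :
    ∃ c : ℕ, {x | G T0 x = 0}.encard = (c + 1 : ℕ) ∧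
      (∀ᶠ T in 𝓝 T0, (c : ℕ∞) ≤ {x | G T x = 0}.encard ∧
        {x | G T x = 0}.encard ≤ (c + 2 : ℕ)) ∧
      ∀ W ∈ 𝓝 T0, ∃ T ∈ W, Reg G T ∧ {x | G T x = 0}.encard = c := by
  classical
  obtain ⟨R, hR⟩ := hb
  obtain ⟨x0, hf, hx⟩ := h1
  obtain ⟨U2, hU2, hU2'⟩ := fold_le_two G hG T0 x0 hf
  obtain ⟨Ue, hUe, hUe'⟩ := fold_empty G hG T0 x0 hf (hs x0)
  have hfin : {x | G T0 x = 0}.Finite := by
    refine A4fin G hG T0 R hR fun u hu => ?_
    by_cases hux : u = x0
    · right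
      rw [hux]
      refine ⟨U2, hU2, Set.finite_of_encard_le_coe (k := 2) ?_⟩
      exact_mod_cast hU2'.self_of_nhds
    · exact Or.inl (hx u hu hux)
  obtain ⟨N, hN, hNd⟩ := hfin.t2_separation
  set Z : Set E := {x | G T0 x = 0} \ {x0} with hZ
  have hZf : Z.Finite := hfin.subset Set.sdiff_subset
  set O : Set E := U2 ∩ Ue ∩ N x0 with hO
  have hOx : O ∈ 𝓝 x0 := Filter.inter_mem (Filter.inter_mem hU2 hUe) ((hN x0).2.mem_nhds (hN x0).1)
  have hcore := A4core G hG T0 R hR Z hZf O (fun u hu => hu.1) (fun u hu => hx u hu.1 hu.2)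
    (fun u hu => by
      have h2 : Disjoint (N u) (N x0) := hNd hu.1 hf.1 hu.2
      refine Filter.mem_of_superset ((hN u).2.mem_nhds (hN u).1) fun y hy hyO => ?_
      exact Set.disjoint_left.1 h2 hy hyO.2)
    (fun u hu hu2 => by
      have h2 : u = x0 := by
        by_contra hne
        exact hu2 ⟨hu, hne⟩
      rw [h2]
      exact hOx)
  have hcard : Z.encard = (Z.ncard : ℕ∞) := hZf.cast_ncard_eq.symm
  refine ⟨Z.ncard, ?_, ?_, ?_⟩
  · have h2 : {x | G T0 x = 0} = insert x0 Z := by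
      ext y
      constructor
      · intro hy
        by_cases hyx : y = x0
        · exact Or.inl hyx
        · exact Or.inr ⟨hy, hyx⟩
      · rintro (rfl | hy)
        · exact hf.1
        · exact hy.1
    rw [h2, Set.encard_insert_of_notMem (fun hmem => hmem.2 rfl), hcard]
    push_cast
    rfl
  · filter_upwards [hcore, hU2'] with T hT hT2
    obtain ⟨S, hS1, hS2, -⟩ := hT
    rw [hS2]
    constructor
    · rw [← hcard, ← hS1]
      exact Set.encard_le_encard Set.subset_union_left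
    · refine (Set.encard_union_le _ _).trans ?_
      rw [hS1, hcard]
      push_cast
      refine add_le_add le_rfl ((Set.encard_le_encard ?_).trans hT2)
      rintro y ⟨hy, hy0⟩
      exact ⟨hy.1.1, hy0⟩
  · intro W hW
    obtain ⟨T, ⟨hTW, S, hS1, hS2, hS3⟩, hT⟩ := hUe' (W ∩ {T | _}) (Filter.inter_mem hW hcore)
    have h3 : {x | x ∈ O ∧ G T x = 0} = ∅ := by
      rw [Set.eq_empty_iff_forall_notMem]
      rintro y ⟨hy, hy0⟩
      exact hT y hy.1.2 hy0
    rw [h3, Set.union_empty] at hS2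
    refine ⟨T, hTW, fun y hy => hS3 y ?_, ?_⟩
    · rw [← hS2]
      exact hy
    · rw [hS2, hS1, hcard]

/-- Near a regular parameter the number is constant and the parameters are regular. -/
theorem near_reg {V E : Type} [NormedAddCommGroup V] [NormedSpace ℝ V]
    [FiniteDimensional ℝ V] [NormedAddCommGroup E] [NormedSpace ℝ E] [FiniteDimensional ℝ E]
    (G : V → E → E) (hG : ContDiff ℝ 3 (fun w : V × E => G w.1 w.2)) (T0 : V)
    (hb : ∃ R : ℝ, ∀ᶠ T in 𝓝 T0, ∀ x, G T x = 0 → ‖x‖ ≤ R) (h1 : Reg G T0) :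
    (∃ k : ℕ, {x | G T0 x = 0}.encard = k) ∧
      ∀ᶠ T in 𝓝 T0, Reg G T ∧ {x | G T x = 0}.encard = {x | G T0 x = 0}.encard := by
  obtain ⟨R, hR⟩ := hb
  have hfin : {x | G T0 x = 0}.Finite := A4fin G hG T0 R hR fun u hu => Or.inl (h1 u hu)
  refine ⟨⟨_, hfin.cast_ncard_eq.symm⟩, ?_⟩
  have hcore := A4core G hG T0 R hR {x | G T0 x = 0} hfin ∅ (fun u hu => hu)
    (fun u hu => h1 u hu) (fun u hu => by rw [Set.compl_empty]; exact Filter.univ_mem)
    (fun u hu hu2 => absurd hu hu2)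
  filter_upwards [hcore] with T hT
  obtain ⟨S, hS1, hS2, hS3⟩ := hT
  have h3 : {x | x ∈ (∅ : Set E) ∧ G T x = 0} = ∅ := by
    rw [Set.eq_empty_iff_forall_notMem]
    rintro y ⟨hy, -⟩
    exact hy
  rw [h3, Set.union_empty] at hS2
  refine ⟨fun y hy => hS3 y ?_, ?_⟩
  · rw [← hS2]
    exact hy
  · rw [hS2, hS1]

end Pool.Agent.MPb0eQ
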