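import Mathlib
import Pool.Agent.Lib.MP_b0e20b_ag_Q.ADefs

/-!
# MP_b0e20b_ag, all formats: thin sets
-/

set_option autoImplicit false

open scoped Topology

namespace Pool.Agent.MPb0eQ

theorem thin_mono {V : Type} [NormedAddCommGroup V] {r : ℕ} {A B : Set V} (h : Thin r B)
    (hA : A ⊆ B) : Thin r A := by
  obtain ⟨g, S, C, h1, h2⟩ := h
  exact ⟨g, S, C, h1, hA.trans h2⟩

/-- Proof. Renumber with `ℕ × ℕ ≃ ℕ`. -/
theorem thin_iUnion {V : Type} [NormedAddCommGroup V] {r : ℕ} {ι : Type} [Countable ι]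
    {A : ι → Set V} (h : ∀ i, Thin r (A i)) : Thin r (⋃ i, A i) := by
  rcases isEmpty_or_nonempty ι with hι | hι
  · refine ⟨fun _ _ => 0, fun _ => ∅, fun _ => 0, fun k => ?_, ?_⟩
    · exact lipschitzOnWith_empty _ _
    · simp
  · choose g S C h1 h2 using h
    obtain ⟨e, he⟩ := exists_surjective_nat (ι × ℕ)
    refine ⟨fun n => g (e n).1 (e n).2, fun n => S (e n).1 (e n).2, fun n => C (e n).1 (e n).2,
      fun n => h1 _ _, ?_⟩
    intro x hx
    obtain ⟨i, hi⟩ := Set.mem_iUnion.1 hx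
    obtain ⟨k, hk⟩ := Set.mem_iUnion.1 (h2 i hi)
    obtain ⟨n, hn⟩ := he (i, k)
    refine Set.mem_iUnion.2 ⟨n, ?_⟩
    change x ∈ g (e n).1 (e n).2 '' S (e n).1 (e n).2
    rw [hn]
    exact hk

theorem thin_union {V : Type} [NormedAddCommGroup V] {r : ℕ} {A B : Set V} (hA : Thin r A)
    (hB : Thin r B) : Thin r (A ∪ B) := by
  rw [Set.union_eq_iUnion]
  refine thin_iUnion fun b => ?_
  cases b
  · exact hB
  · exact hA

/-- Proof. Compose with a coordinate projection of `ℝ ^ r'` onto `ℝ ^ r`, which is Lipschitz. -/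
theorem thin_le {V : Type} [NormedAddCommGroup V] {r r' : ℕ} (hr : r ≤ r') {A : Set V}
    (h : Thin r A) : Thin r' A := by
  obtain ⟨g, S, C, h1, h2⟩ := h
  let π : (Fin r' → ℝ) → (Fin r → ℝ) := fun y i => y (Fin.castLE hr i)
  have hπ : LipschitzWith 1 π := by
    refine LipschitzWith.of_dist_le_mul fun x y => ?_
    rw [NNReal.coe_one, one_mul]
    refine (dist_pi_le_iff dist_nonneg).2 fun i => ?_
    exact dist_le_pi_dist x y (Fin.castLE hr i)
  have hs : ∀ z : Fin r → ℝ, ∃ y, π y = z := by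
    intro z
    refine ⟨fun j => if hj : (j : ℕ) < r then z ⟨j, hj⟩ else 0, ?_⟩
    funext i
    change (if hj : ((Fin.castLE hr i : Fin r') : ℕ) < r then z ⟨_, hj⟩ else 0) = z i
    rw [dif_pos (show ((Fin.castLE hr i : Fin r') : ℕ) < r from i.2)]
    rfl
  refine ⟨fun k => g k ∘ π, fun k => π ⁻¹' S k, fun k => C k * 1, fun k => ?_, ?_⟩
  · exact (h1 k).comp (hπ.lipschitzOnWith) (fun x hx => hx)
  · intro x hx
    obtain ⟨k, hk⟩ := Set.mem_iUnion.1 (h2 hx)
    obtain ⟨z, hz, rfl⟩ := hk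
    obtain ⟨y, rfl⟩ := hs z
    exact Set.mem_iUnion.2 ⟨k, y, hz, rfl⟩

/-- Images under continuously differentiable maps.

Proof. Such a map `f` is locally Lipschitz, and `V` is separable: cover `V` by countably many open
sets on which `f` is Lipschitz and intersect the sets `S k` with the preimages. -/
theorem thin_image {V W : Type} [NormedAddCommGroup V] [NormedSpace ℝ V] [FiniteDimensional ℝ V]
    [NormedAddCommGroup W] [NormedSpace ℝ W] {r : ℕ} {A : Set V} (h : Thin r A) (f : V → W)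
    (hf : ContDiff ℝ 1 f) : Thin r (f '' A) := by
  have h0 : ∀ x : V, ∃ K : NNReal, ∃ U ∈ 𝓝 x, LipschitzOnWith K f U := fun x =>
    (hf.contDiffAt (x := x)).exists_lipschitzOnWith
  choose K U hU hL using h0
  have : ProperSpace V := FiniteDimensional.proper ℝ V
  obtain ⟨s, hs, hc⟩ := TopologicalSpace.countable_cover_nhds hU
  have : Countable s := hs.to_subtype
  obtain ⟨g, S, C, h1, h2⟩ := h
  have h3 : f '' A ⊆ ⋃ x : s, f '' (A ∩ U x) := by
    rintro _ ⟨a, ha, rfl⟩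
    have h4 : a ∈ ⋃ x ∈ s, U x := by rw [hc]; exact Set.mem_univ a
    obtain ⟨x, hx, hax⟩ := Set.mem_iUnion₂.1 h4
    exact Set.mem_iUnion.2 ⟨⟨x, hx⟩, a, ⟨ha, hax⟩, rfl⟩
  refine thin_mono (thin_iUnion (ι := s) fun x => ?_) h3
  refine ⟨fun k => f ∘ g k, fun k => S k ∩ g k ⁻¹' U x, fun k => K x * C k, fun k => ?_, ?_⟩
  · exact (hL x).comp ((h1 k).mono Set.inter_subset_left) (fun y hy => hy.2)
  · rintro _ ⟨a, ⟨ha, hax⟩, rfl⟩
    obtain ⟨k, hk⟩ := Set.mem_iUnion.1 (h2 ha)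
    obtain ⟨z, hz, rfl⟩ := hk
    exact Set.mem_iUnion.2 ⟨k, z, ⟨hz, hax⟩, rfl⟩

end Pool.Agent.MPb0eQ
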