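import Mathlib
import Pool.Agent.Lib.MP_b0e20b_ag_Q.ADefs
import Pool.Agent.Lib.MP_b0e20b_ag_Q.A1

/-!
# MP_b0e20b_ag, all formats: generic segments avoid thin sets of codimension two
-/

set_option autoImplicit false

open scoped Topology

namespace Pool.Agent.MPb0eQ

private theorem A2_dimH {V : Type} [NormedAddCommGroup V] {r : ℕ} {B : Set V}
    (hB : Thin r B) : dimH B ≤ r := by
  obtain ⟨g, S, C, hg, hB⟩ := hB
  refine (dimH_mono hB).trans ?_
  rw [dimH_iUnion]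
  refine iSup_le fun k => ?_
  calc dimH (g k '' S k) ≤ dimH (S k) := (hg k).dimH_image_le
    _ ≤ dimH (Set.univ : Set (Fin r → ℝ)) := dimH_mono (Set.subset_univ _)
    _ = r := Real.dimH_univ_pi_fin r

private theorem A2_prod {V : Type} [NormedAddCommGroup V] {r : ℕ} {B : Set V}
    (hB : Thin r B) (I : Set ℝ) : dimH (B ×ˢ I) ≤ (r + 1 : ℕ) := by
  obtain ⟨g, S, C, hg, hB⟩ := hB
  have hs : B ×ˢ I ⊆ ⋃ k, (fun z : (Fin r → ℝ) × ℝ => (g k z.1, z.2)) '' (S k ×ˢ Set.univ) := by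
    rintro ⟨b, t⟩ ⟨hb, -⟩
    obtain ⟨k, ξ, hξ, he⟩ := Set.mem_iUnion.1 (hB hb)
    exact Set.mem_iUnion.2 ⟨k, (ξ, t), ⟨hξ, Set.mem_univ _⟩, by simp [he]⟩
  refine (dimH_mono hs).trans ?_
  rw [dimH_iUnion]
  refine iSup_le fun k => ?_
  have hl : LipschitzOnWith (max (C k) 1) (fun z : (Fin r → ℝ) × ℝ => (g k z.1, z.2))
      (S k ×ˢ Set.univ) := by
    rintro z ⟨hz, -⟩ w ⟨hw, -⟩
    have h1 : edist (g k z.1) (g k w.1) ≤ C k * edist z.1 w.1 := hg k hz hw
    have h2 : edist z.1 w.1 ≤ edist z w := by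
      rw [Prod.edist_eq]
      exact le_max_left _ _
    have h3 : edist z.2 w.2 ≤ edist z w := by
      rw [Prod.edist_eq]
      exact le_max_right _ _
    rw [Prod.edist_eq]
    refine max_le ?_ ?_
    · refine h1.trans (mul_le_mul' ?_ h2)
      exact ENNReal.coe_le_coe.2 (le_max_left _ _)
    · calc edist z.2 w.2 = 1 * edist z.2 w.2 := (one_mul _).symm
        _ ≤ (max (C k) 1 : NNReal) * edist z w := mul_le_mul' (by
          exact_mod_cast le_max_right (C k) 1) h3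
  calc dimH ((fun z : (Fin r → ℝ) × ℝ => (g k z.1, z.2)) '' (S k ×ˢ Set.univ))
      ≤ dimH (S k ×ˢ (Set.univ : Set ℝ)) := hl.dimH_image_le
    _ ≤ dimH (Set.univ : Set ((Fin r → ℝ) × ℝ)) := dimH_mono (Set.subset_univ _)
    _ = Module.finrank ℝ ((Fin r → ℝ) × ℝ) := Real.dimH_univ_eq_finrank _
    _ = (r + 1 : ℕ) := by simp

/-- Proof. The Hausdorff dimension of `B` is at most `r` (`LipschitzOnWith.dimH_image_le`,
`dimH_iUnion`, `Real.dimH_univ_pi_fin`), so the complement of `B` is dense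
(`dense_compl_of_dimH_lt_finrank`). Take `p ∈ U0 \ B`. The cone `{p + s⁻¹ • (b - p) | b ∈ B,
0 < s ≤ 1}` is the countable union of the images of `S k ×ˢ Ioc 0 1` under
`(ξ, s) ↦ p + s⁻¹ • (g k ξ - p)`; these maps are Lipschitz on `S k ×ˢ Ioc (1/(m+1)) 1` locally (on
bounded parts), so the Hausdorff dimension of the cone is at most `r + 1 < finrank V`. Take `q` in
`U1` outside the cone. If `b = p + s • (q - p) ∈ B`, `s ∈ [0,1]`, then `s ≠ 0` as `p ∉ B`, and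
`q = p + s⁻¹ • (b - p)`, a contradiction. -/
theorem segment_avoid {V : Type} [NormedAddCommGroup V] [NormedSpace ℝ V]
    [FiniteDimensional ℝ V] {r : ℕ} {B : Set V} (hB : Thin r B)
    (hr : r + 2 ≤ Module.finrank ℝ V) (U0 U1 : Set V) (h0 : IsOpen U0) (h1 : IsOpen U1)
    (hn0 : U0.Nonempty) (hn1 : U1.Nonempty) :
    ∃ p ∈ U0, ∃ q ∈ U1, ∀ z ∈ segment ℝ p q, z ∉ B := by
  have hd0 : dimH B < Module.finrank ℝ V :=
    (A2_dimH hB).trans_lt (by exact_mod_cast (by omega : r < Module.finrank ℝ V))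
  obtain ⟨p, hpB, hp⟩ := (dense_compl_of_dimH_lt_finrank hd0).exists_mem_open h0 hn0
  have hf : ContDiffOn ℝ 1 (fun z : V × ℝ => p + z.2⁻¹ • (z.1 - p))
      (Set.univ ×ˢ Set.Ioi (0 : ℝ)) := by
    refine contDiffOn_const.add (ContDiffOn.smul ?_ ?_)
    · exact ContDiffOn.inv contDiff_snd.contDiffOn fun z hz => (ne_of_gt hz.2)
    · exact (contDiff_fst.sub contDiff_const).contDiffOn
  have hc : Convex ℝ ((Set.univ : Set V) ×ˢ Set.Ioi (0 : ℝ)) := convex_univ.prod (convex_Ioi 0)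
  have hi := hf.dimH_image_le hc (t := B ×ˢ Set.Ioc (0 : ℝ) 1)
    (fun z hz => ⟨Set.mem_univ _, hz.2.1⟩)
  have hd1 : dimH ((fun z : V × ℝ => p + z.2⁻¹ • (z.1 - p)) '' (B ×ˢ Set.Ioc (0 : ℝ) 1)) <
      Module.finrank ℝ V :=
    (hi.trans (A2_prod hB _)).trans_lt
      (by exact_mod_cast (by omega : r + 1 < Module.finrank ℝ V))
  obtain ⟨q, hqC, hq⟩ := (dense_compl_of_dimH_lt_finrank hd1).exists_mem_open h1 hn1
  refine ⟨p, hp, q, hq, fun z hz hzB => ?_⟩
  rw [segment_eq_image'] at hz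
  obtain ⟨s, hs, rfl⟩ := hz
  replace hzB : p + s • (q - p) ∈ B := hzB
  rcases eq_or_ne s 0 with rfl | hs0
  · rw [zero_smul, add_zero] at hzB
    exact hpB hzB
  · refine hqC ⟨(p + s • (q - p), s), ⟨hzB, lt_of_le_of_ne hs.1 hs0.symm, hs.2⟩, ?_⟩
    change p + s⁻¹ • (p + s • (q - p) - p) = q
    rw [add_sub_cancel_left, smul_smul, inv_mul_cancel₀ hs0, one_smul, add_sub_cancel]

/-- The complement of a thin set is dense. -/
theorem thin_dense {V : Type} [NormedAddCommGroup V] [NormedSpace ℝ V]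
    [FiniteDimensional ℝ V] {r : ℕ} {B : Set V} (hB : Thin r B)
    (hr : r + 1 ≤ Module.finrank ℝ V) (U : Set V) (hU : IsOpen U) (hn : U.Nonempty) :
    ∃ p ∈ U, p ∉ B := by
  have hd0 : dimH B < Module.finrank ℝ V :=
    (A2_dimH hB).trans_lt (by exact_mod_cast (by omega : r < Module.finrank ℝ V))
  obtain ⟨p, hpB, hp⟩ := (dense_compl_of_dimH_lt_finrank hd0).exists_mem_open hU hn
  exact ⟨p, hp, hpB⟩

end Pool.Agent.MPb0eQ
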