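import Mathlib
import Pool.Agent.Lib.MP_b0e20b_ag_Q.ADefs
import Pool.Agent.Lib.MP_b0e20b_ag_Q.A2
import Pool.Agent.Lib.MP_b0e20b_ag_Q.A4

/-!
# MP_b0e20b_ag, all formats: the intermediate value property
-/

set_option autoImplicit false

open scoped Topology

namespace Pool.Agent.MPb0eQ

/-- Discrete intermediate value theorem.

Proof. The sets `{s | f s < j}` and `{s | j < f s}` would be open, disjoint, nonempty and cover
`[0,1]` if `j` was not attained: at `s` with `f s < j` nearby `f ≤ f s + 1 ≤ j`, so `f < j`. -/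
theorem divt (f : ℝ → ℕ) (hf : ∀ s ∈ Set.Icc (0 : ℝ) 1,
    ∀ᶠ s' in 𝓝[Set.Icc (0 : ℝ) 1] s, f s' ≤ f s + 1 ∧ f s ≤ f s' + 1) (j : ℕ)
    (h1 : f 1 ≤ j) (h0 : j ≤ f 0) : ∃ s ∈ Set.Icc (0 : ℝ) 1, f s = j := by
  by_contra hcon
  push Not at hcon
  have m0 : (0 : ℝ) ∈ Set.Icc (0 : ℝ) 1 := ⟨le_rfl, zero_le_one⟩
  have m1 : (1 : ℝ) ∈ Set.Icc (0 : ℝ) 1 := ⟨zero_le_one, le_rfl⟩
  have hcont : ContinuousOn (fun s : ℝ => decide (f s < j)) (Set.Icc (0 : ℝ) 1) := by
    intro s hs
    have hev : (fun s : ℝ => decide (f s < j)) =ᶠ[𝓝[Set.Icc (0 : ℝ) 1] s]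
        fun _ => decide (f s < j) := by
      filter_upwards [hf s hs, self_mem_nhdsWithin] with s' h hs'
      have e1 := hcon s hs
      have e2 := hcon s' hs'
      rw [decide_eq_decide]
      constructor <;> intro _ <;> omega
    exact continuousWithinAt_const.congr_of_eventuallyEq hev rfl
  have key := isPreconnected_Icc.constant hcont m0 m1
  simp only [decide_eq_decide] at key
  have e0 := hcon 0 m0
  have e1 := hcon 1 m1
  omega

/-- Proof. By `near_reg` and `segment_avoid` we may replace `T0, T1` by near parameters such that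
the segment between them avoids `B`. On the segment every parameter `T` is `Reg` or `One`, so the
number `n(T)` of solutions is finite and changes by at most one nearby (`near_reg`, `near_one`);
`divt` gives a `T` with `n(T) = j`. It is regular: otherwise `One G T`, `n(T) = c + 1`, and there are
regular parameters with `c` solutions (`near_one`), so `c` is odd by `hodd`, and `j = c + 1` is even. -/
theorem ivt {V E : Type} [NormedAddCommGroup V] [NormedSpace ℝ V]
    [FiniteDimensional ℝ V] [NormedAddCommGroup E] [NormedSpace ℝ E] [FiniteDimensional ℝ E]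
    (G : V → E → E) (hG : ContDiff ℝ 3 (fun w : V × E => G w.1 w.2))
    (hb : ∀ T0, ∃ R : ℝ, ∀ᶠ T in 𝓝 T0, ∀ x, G T x = 0 → ‖x‖ ≤ R)
    (hs : ∀ T x, Function.Surjective (fderiv ℝ (fun T => G T x) T))
    (r : ℕ) (B : Set V) (hB : Thin r B) (hr : r + 2 ≤ Module.finrank ℝ V)
    (hRO : ∀ T, T ∉ B → Reg G T ∨ One G T)
    (hodd : ∀ T, Reg G T → ∀ k : ℕ, {x | G T x = 0}.encard = k → Odd k)
    (T0 T1 : V) (h0 : Reg G T0) (h1 : Reg G T1) (k0 k1 j : ℕ)
    (e0 : {x | G T0 x = 0}.encard = k0) (e1 : {x | G T1 x = 0}.encard = k1) (hj : Odd j)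
    (hj1 : k1 ≤ j) (hj0 : j ≤ k0) : ∃ T, Reg G T ∧ {x | G T x = 0}.encard = j := by
  have hfin : ∀ T, T ∉ B → ∃ n : ℕ, {x | G T x = 0}.encard = n := by
    intro T hT
    rcases hRO T hT with h | h
    · exact (near_reg G hG T (hb T) h).1
    · obtain ⟨c, hc, -, -⟩ := near_one G hG T (hb T) (hs T) h
      exact ⟨c + 1, hc⟩
  have hnear : ∀ T, T ∉ B → ∀ᶠ T' in 𝓝 T,
      {x | G T' x = 0}.encard.toNat ≤ {x | G T x = 0}.encard.toNat + 1 ∧
      {x | G T x = 0}.encard.toNat ≤ {x | G T' x = 0}.encard.toNat + 1 := by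
    intro T hT
    rcases hRO T hT with h | h
    · obtain ⟨-, hev⟩ := near_reg G hG T (hb T) h
      filter_upwards [hev] with T' hT'
      rw [hT'.2]
      constructor <;> omega
    · obtain ⟨c, hc, hev, -⟩ := near_one G hG T (hb T) (hs T) h
      filter_upwards [hev] with T' hT'
      obtain ⟨g1, g2⟩ := hT'
      obtain ⟨n', hn'⟩ := ENat.ne_top_iff_exists.mp
        (ne_top_of_le_ne_top (ENat.natCast_ne_top _) g2)
      rw [← hn'] at g1 g2 ⊢
      rw [hc, ENat.toNat_natCast, ENat.toNat_natCast]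
      rw [Nat.cast_le] at g1 g2
      constructor <;> omega
  obtain ⟨-, hev0⟩ := near_reg G hG T0 (hb T0) h0
  obtain ⟨-, hev1⟩ := near_reg G hG T1 (hb T1) h1
  obtain ⟨U0, hU0, hU0o, hU0m⟩ := mem_nhds_iff.mp hev0
  obtain ⟨U1, hU1, hU1o, hU1m⟩ := mem_nhds_iff.mp hev1
  obtain ⟨p, hp, q, hq, hseg⟩ := segment_avoid hB hr U0 U1 hU0o hU1o ⟨T0, hU0m⟩ ⟨T1, hU1m⟩
  have hp' := (hU0 hp).2
  have hq' := (hU1 hq).2
  rw [e0] at hp'
  rw [e1] at hq'
  have hγ : Continuous fun s : ℝ => p + s • (q - p) := by fun_prop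
  have hmem : ∀ s ∈ Set.Icc (0 : ℝ) 1, p + s • (q - p) ∉ B := by
    intro s hs
    apply hseg
    rw [segment_eq_image']
    exact ⟨s, hs, rfl⟩
  obtain ⟨s, hs1, hs2⟩ := divt (fun s => {x | G (p + s • (q - p)) x = 0}.encard.toNat)
    (by
      intro s hs
      have h := (hγ.tendsto s).eventually (hnear _ (hmem s hs))
      exact h.filter_mono nhdsWithin_le_nhds) j
    (by
      simp only [one_smul, add_sub_cancel]
      rw [hq', ENat.toNat_natCast]
      exact hj1)
    (by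
      simp only [zero_smul, add_zero]
      rw [hp', ENat.toNat_natCast]
      exact hj0)
  obtain ⟨n, hn⟩ := hfin _ (hmem s hs1)
  simp only [hn, ENat.toNat_natCast] at hs2
  rw [hs2] at hn
  rcases hRO _ (hmem s hs1) with h | h
  · exact ⟨_, h, hn⟩
  · exfalso
    obtain ⟨c, hc, -, hW⟩ := near_one G hG _ (hb _) (hs _) h
    obtain ⟨T', -, hT', hcT'⟩ := hW Set.univ Filter.univ_mem
    have hcodd := hodd T' hT' c hcT'
    rw [hn, Nat.cast_inj] at hc
    rw [hc] at hj
    exact (Nat.not_odd_iff_even.mpr hcodd.add_one) hj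

end Pool.Agent.MPb0eQ
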