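import Mathlib
import Pool.Agent.Lib.MP_b0e20b_ag_Q.BDefs
import Pool.Agent.Lib.MP_b0e20b_ag_Q.B1

/-!
# MP_b0e20b_ag, all formats: test polynomials and linear algebra
-/

set_option autoImplicit false

open scoped BigOperators

namespace Pool.Agent.MPb0eQ

section

variable {κ : Type} [Fintype κ] [DecidableEq κ] {d : ℕ} (bl : κ → Fin d)

/-- The value of the linear part of `Hv` at the test polynomial of a pair. -/
theorem Hv_tst {R : Type} [CommRing R] (x v : κ → R) (a b : κ) (hab : bl a ≠ bl b) (k : κ)
    (h : ∀ p ∈ ({a, b} : Finset κ), ∀ q ∈ ({a, b} : Finset κ), bl p = bl q → p = q) :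
    (∑ l, if bl k = bl l then 0 else dS bl (tst bl x ⟨{a, b}, h⟩) x {k, l} * v l) =
      if k = a then v b else if k = b then v a else 0 := by
  have hne : a ≠ b := fun e => hab (by rw [e])
  simp only [dS_tst_self]
  by_cases hka : k = a
  · subst hka
    rw [if_pos rfl, Finset.sum_eq_single b]
    · rw [if_neg hab, if_pos rfl, one_mul]
    · intro l _ hl
      by_cases hbl : bl k = bl l
      · rw [if_pos hbl]
      · rw [if_neg hbl, if_neg, zero_mul]
        intro e
        have h1 : l ∈ ({k, b} : Finset κ) := by
          rw [← e]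
          simp
        rw [Finset.mem_insert, Finset.mem_singleton] at h1
        rcases h1 with h1 | h1
        · exact hbl (by rw [h1])
        · exact hl h1
    · intro hb
      exact absurd (Finset.mem_univ b) hb
  · rw [if_neg hka]
    by_cases hkb : k = b
    · subst hkb
      rw [if_pos rfl, Finset.sum_eq_single a]
      · rw [if_neg (Ne.symm hab), if_pos (Finset.pair_comm k a), one_mul]
      · intro l _ hl
        by_cases hbl : bl k = bl l
        · rw [if_pos hbl]
        · rw [if_neg hbl, if_neg, zero_mul]
          intro e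
          have h1 : l ∈ ({a, k} : Finset κ) := by
            rw [← e]
            simp
          rw [Finset.mem_insert, Finset.mem_singleton] at h1
          rcases h1 with h1 | h1
          · exact hl h1
          · exact hbl (by rw [h1])
      · intro hb
        exact absurd (Finset.mem_univ a) hb
    · rw [if_neg hkb]
      refine Finset.sum_eq_zero fun l _ => ?_
      by_cases hbl : bl k = bl l
      · rw [if_pos hbl]
      · rw [if_neg hbl, if_neg, zero_mul]
        intro e
        have h1 : k ∈ ({a, b} : Finset κ) := by
          rw [← e]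
          simp
        rw [Finset.mem_insert, Finset.mem_singleton] at h1
        exact h1.elim hka hkb

/-- The value of `cM` at the test polynomial of a triple. -/
theorem cM_tst (x v : κ → ℝ) (a b e : κ) (hab : bl a ≠ bl b) (hae : bl a ≠ bl e)
    (hbe : bl b ≠ bl e)
    (h : ∀ p ∈ ({a, b, e} : Finset κ), ∀ q ∈ ({a, b, e} : Finset κ), bl p = bl q → p = q) :
    cM bl (tst bl x ⟨{a, b, e}, h⟩) x v = 6 * (v a * v b * v e) := by
  have nab : a ≠ b := fun e => hab (by rw [e])
  have nae : a ≠ e := fun e' => hae (by rw [e'])
  have nbe : b ≠ e := fun e' => hbe (by rw [e'])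
  unfold cM
  simp only [dS_tst_self]
  set S : Finset κ := {a, b, e} with hS
  have hz : ∀ k l m, ¬(k ∈ S ∧ l ∈ S ∧ m ∈ S) → ¬(({k, l, m} : Finset κ) = S) := by
    intro k l m hn he
    apply hn
    rw [← he]
    simp
  have h1 : (∑ k, ∑ l, if bl k = bl l then 0 else
      v k * v l * ∑ m, if m = k ∨ m = l then 0 else
        v m * if ({k, l, m} : Finset κ) = S then 1 else 0) =
      ∑ k ∈ S, ∑ l ∈ S, if bl k = bl l then 0 else
      v k * v l * ∑ m ∈ S, if m = k ∨ m = l then 0 else
        v m * if ({k, l, m} : Finset κ) = S then 1 else 0 := by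
    have hin : ∀ k l : κ, (∑ m, if m = k ∨ m = l then 0 else
        v m * if ({k, l, m} : Finset κ) = S then 1 else 0) =
        ∑ m ∈ S, if m = k ∨ m = l then 0 else
          v m * if ({k, l, m} : Finset κ) = S then 1 else 0 := by
      intro k l
      symm
      refine Finset.sum_subset (Finset.subset_univ S) fun m _ hm => ?_
      by_cases hc : m = k ∨ m = l
      · rw [if_pos hc]
      · rw [if_neg hc, if_neg (hz k l m fun hh => hm hh.2.2), mul_zero]
    have hin0 : ∀ k l : κ, ¬(k ∈ S ∧ l ∈ S) → (∑ m ∈ S, if m = k ∨ m = l then 0 else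
          v m * if ({k, l, m} : Finset κ) = S then 1 else 0) = 0 := by
      intro k l hkl
      refine Finset.sum_eq_zero fun m _ => ?_
      by_cases hc : m = k ∨ m = l
      · rw [if_pos hc]
      · rw [if_neg hc, if_neg (hz k l m fun hh => hkl ⟨hh.1, hh.2.1⟩), mul_zero]
    simp only [hin]
    symm
    have hout : ∀ k ∈ S, (∑ l ∈ S, if bl k = bl l then 0 else
        v k * v l * ∑ m ∈ S, if m = k ∨ m = l then 0 else
          v m * if ({k, l, m} : Finset κ) = S then 1 else 0) =
        ∑ l, if bl k = bl l then 0 else
        v k * v l * ∑ m ∈ S, if m = k ∨ m = l then 0 else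
          v m * if ({k, l, m} : Finset κ) = S then 1 else 0 := by
      intro k _
      refine Finset.sum_subset (Finset.subset_univ S) fun l _ hl => ?_
      rw [hin0 k l fun hh => hl hh.2, mul_zero, ite_self]
    rw [Finset.sum_congr rfl hout]
    refine Finset.sum_subset (Finset.subset_univ S) fun k _ hk => ?_
    refine Finset.sum_eq_zero fun l _ => ?_
    rw [hin0 k l fun hh => hk hh.1, mul_zero, ite_self]
  rw [h1]
  have p1 : ({a, b, e} : Finset κ) = S := rfl
  have p2 : ({a, e, b} : Finset κ) = S := by
    rw [hS]; ext z; simp only [Finset.mem_insert, Finset.mem_singleton]; tauto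
  have p3 : ({b, a, e} : Finset κ) = S := by
    rw [hS]; ext z; simp only [Finset.mem_insert, Finset.mem_singleton]; tauto
  have p4 : ({b, e, a} : Finset κ) = S := by
    rw [hS]; ext z; simp only [Finset.mem_insert, Finset.mem_singleton]; tauto
  have p5 : ({e, a, b} : Finset κ) = S := by
    rw [hS]; ext z; simp only [Finset.mem_insert, Finset.mem_singleton]; tauto
  have p6 : ({e, b, a} : Finset κ) = S := by
    rw [hS]; ext z; simp only [Finset.mem_insert, Finset.mem_singleton]; tauto
  have hsum : ∀ f : κ → ℝ, ∑ k ∈ S, f k = f a + (f b + f e) := by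
    intro f
    rw [hS, Finset.sum_insert, Finset.sum_insert, Finset.sum_singleton]
    · simpa using nbe
    · simp only [Finset.mem_insert, Finset.mem_singleton, not_or]
      exact ⟨nab, nae⟩
  clear_value S
  simp only [hsum]
  simp only [if_neg hab, if_neg hae, if_neg hbe, if_neg (Ne.symm hab), if_neg (Ne.symm hae),
    if_neg (Ne.symm hbe), if_true, true_or, or_true, p1, p2, p3, p4, p5, p6, mul_one, zero_add,
    add_zero, nab, nae, nbe, nab.symm, nae.symm, nbe.symm, or_self, if_false]
  ring

/-- Linear algebra: a vector `u` with `u ⊗ v + v ⊗ u = 0` in all pairs of different blocks.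

Proof. Let `a, b, e` be in different blocks with `v a, v b, v e ≠ 0`. From the three equations
`u a v b + u b v a = 0` etc. the quotients `u / v` at `a, b, e` are pairwise opposite, so zero. For
any `k` choose one of `a, b, e` outside its block, say `a`: `u k v a + u a v k = 0` gives
`u k = 0`. -/
theorem three (v u : κ → ℝ) (hv : M3 bl v)
    (h : ∀ k l, bl k ≠ bl l → u k * v l + u l * v k = 0) : u = 0 := by
  obtain ⟨a, b, e, ha, hb, he, hab, hae, hbe⟩ := hv
  have h1 := h a b hab
  have h2 := h a e hae
  have h3 := h b e hbe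
  have hua : u a = 0 := by
    have h4 : 2 * (u a * v b * v e) = 0 := by
      linear_combination v e * h1 + v b * h2 - v a * h3
    have h5 : u a * v b * v e = 0 := by linarith
    rcases mul_eq_zero.mp h5 with h6 | h6
    · rcases mul_eq_zero.mp h6 with h7 | h7
      · exact h7
      · exact absurd h7 hb
    · exact absurd h6 he
  have hub : u b = 0 := by
    rw [hua, zero_mul, zero_add] at h1
    exact (mul_eq_zero.mp h1).resolve_right ha
  funext k
  rw [Pi.zero_apply]
  by_cases hk : bl k = bl a
  · have h4 := h k b (by rw [hk]; exact hab)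
    rw [hub, zero_mul, add_zero] at h4
    exact (mul_eq_zero.mp h4).resolve_right hb
  · have h4 := h k a hk
    rw [hua, zero_mul, add_zero] at h4
    exact (mul_eq_zero.mp h4).resolve_right ha

/-- The same if `v` meets exactly the blocks `i` and `j`. -/
theorem two (v u : κ → ℝ) (i j : Fin d) (hij : i ≠ j) (hv : ∀ k, v k ≠ 0 → bl k = i ∨ bl k = j)
    (hi : ∃ k, bl k = i ∧ v k ≠ 0) (hj : ∃ k, bl k = j ∧ v k ≠ 0)
    (h : ∀ k l, bl k ≠ bl l → u k * v l + u l * v k = 0) :
    ∃ r : ℝ, (∀ k, bl k = i → u k = r * v k) ∧ (∀ k, bl k = j → u k = -(r * v k)) ∧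
      ∀ k, bl k ≠ i → bl k ≠ j → u k = 0 := by
  obtain ⟨a, hai, ha⟩ := hi
  obtain ⟨b, hbj, hb⟩ := hj
  have hJ : ∀ k, bl k = j → u k = -(u a / v a * v k) := by
    intro k hk
    have h1 := h a k (by rw [hai, hk]; exact hij)
    field_simp
    linarith
  refine ⟨u a / v a, ?_, hJ, ?_⟩
  · intro k hk
    have h1 := h k b (by rw [hk, hbj]; exact hij)
    have h2 := hJ b hbj
    rw [h2] at h1
    have h3 : (u k - u a / v a * v k) * v b = 0 := by linarith
    have h4 := (mul_eq_zero.mp h3).resolve_right hb
    linarith
  · intro k hki hkj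
    have hvk : v k = 0 := by
      by_contra hc
      rcases hv k hc with h1 | h1
      · exact hki h1
      · exact hkj h1
    have h1 := h k a (by rw [hai]; exact hki)
    rw [hvk, mul_zero, add_zero] at h1
    exact (mul_eq_zero.mp h1).resolve_right ha

/-- Two different points with proportional conormals.

Proof. The test polynomial of `{k}` gives `a v k + a' v' k = 0` for all `k`; if `a = 0`, then
`a' v' = 0`. Otherwise the test polynomials of `{k, l}`, based at `x`, have derivative `0` at `x`, and
at `x'` in the direction of `v'` it is `v' k (x' l - x l) + v' l (x' k - x k)` (`dS_tst`); as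
`a' v' = - a v` this gives the hypothesis of `three` for `u = x' - x`, so `x' = x`. -/
theorem conormal (x x' v v' : κ → ℝ) (a a' : ℝ) (hx : x ≠ x') (hv : M3 bl v) (hv' : M3 bl v')
    (h : ∀ c : Sct bl → ℝ,
      a * ∑ k, v k * dS bl c x {k} + a' * ∑ k, v' k * dS bl c x' {k} = 0) :
    a = 0 ∧ a' = 0 := by
  have hs1 : ∀ k : κ, ∀ p ∈ ({k} : Finset κ), ∀ q ∈ ({k} : Finset κ), bl p = bl q → p = q := by
    intro k p hp q hq _
    rw [Finset.mem_singleton] at hp hq
    rw [hp, hq]
  have e1 : ∀ k, a * v k + a' * v' k = 0 := by
    intro k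
    have h1 := h (tst bl x ⟨{k}, hs1 k⟩)
    simp only [dS_tst] at h1
    rw [Finset.sum_eq_single k, Finset.sum_eq_single k] at h1
    · simpa using h1
    · intro l _ hl
      rw [if_neg, mul_zero]
      rw [Finset.subset_singleton_iff]
      simpa using hl
    · intro hk
      exact absurd (Finset.mem_univ k) hk
    · intro l _ hl
      rw [if_neg, mul_zero]
      rw [Finset.subset_singleton_iff]
      simpa using hl
    · intro hk
      exact absurd (Finset.mem_univ k) hk
  by_cases ha : a = 0
  · refine ⟨ha, ?_⟩
    obtain ⟨k, -, -, hk, -⟩ := hv'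
    have h1 := e1 k
    rw [ha, zero_mul, zero_add] at h1
    exact (mul_eq_zero.mp h1).resolve_right hk
  · exfalso
    have hkl : ∀ k l, bl k ≠ bl l → (x' - x) k * v l + (x' - x) l * v k = 0 := by
      intro k l hkl
      have nkl : k ≠ l := fun e => hkl (by rw [e])
      have hs2 : ∀ p ∈ ({k, l} : Finset κ), ∀ q ∈ ({k, l} : Finset κ), bl p = bl q → p = q := by
        intro p hp q hq hpq
        rw [Finset.mem_insert, Finset.mem_singleton] at hp hq
        rcases hp with rfl | rfl <;> rcases hq with rfl | rfl
        · rfl
        · exact absurd hpq hkl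
        · exact absurd hpq.symm hkl
        · rfl
      have h1 := h (tst bl x ⟨{k, l}, hs2⟩)
      have z1 : ∑ m, v m * dS bl (tst bl x ⟨{k, l}, hs2⟩) x {m} = 0 := by
        refine Finset.sum_eq_zero fun m _ => ?_
        rw [dS_tst_self, if_neg, mul_zero]
        intro e
        have h2 : k ∈ ({m} : Finset κ) := by rw [e]; simp
        have h3 : l ∈ ({m} : Finset κ) := by rw [e]; simp
        rw [Finset.mem_singleton] at h2 h3
        exact nkl (by rw [h2, h3])
      have d1 : ({k, l} : Finset κ) \ {k} = {l} := by
        ext z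
        simp only [Finset.mem_sdiff, Finset.mem_insert, Finset.mem_singleton]
        constructor
        · rintro ⟨h2 | h2, h3⟩
          · exact absurd h2 h3
          · exact h2
        · rintro rfl
          exact ⟨Or.inr rfl, Ne.symm nkl⟩
      have d2 : ({k, l} : Finset κ) \ {l} = {k} := by
        ext z
        simp only [Finset.mem_sdiff, Finset.mem_insert, Finset.mem_singleton]
        constructor
        · rintro ⟨h2 | h2, h3⟩
          · exact h2
          · exact absurd h2 h3
        · rintro rfl
          exact ⟨Or.inl rfl, nkl⟩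
      have z2 : ∑ m, v' m * dS bl (tst bl x ⟨{k, l}, hs2⟩) x' {m} =
          v' k * (x' l - x l) + v' l * (x' k - x k) := by
        simp only [dS_tst]
        rw [← Finset.sum_subset (Finset.subset_univ ({k, l} : Finset κ)),
          Finset.sum_pair nkl, if_pos (by simp), if_pos (by simp), d1, d2,
          Finset.prod_singleton, Finset.prod_singleton]
        intro m _ hm
        rw [if_neg, mul_zero]
        rw [Finset.singleton_subset_iff]
        exact hm
      rw [z1, z2, mul_zero, zero_add] at h1
      have e2 := e1 k
      have e3 := e1 l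
      have h4 : a * ((x' - x) k * v l + (x' - x) l * v k) = 0 := by
        rw [Pi.sub_apply, Pi.sub_apply]
        linear_combination (x' k - x k) * e3 + (x' l - x l) * e2 - h1
      exact (mul_eq_zero.mp h4).resolve_left ha
    have h5 := three bl v (x' - x) hv hkl
    exact hx (sub_eq_zero.mp h5).symm

end

end Pool.Agent.MPb0eQ
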