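import Mathlib
import Pool.Agent.Lib.MP_b0e20b_ag_Q.BDefs
import Pool.Agent.Lib.MP_b0e20b_ag_Q.B1
import Pool.Agent.Lib.MP_b0e20b_ag_Q.B2

/-!
# MP_b0e20b_ag, all formats: the third derivative
-/

set_option autoImplicit false

open scoped BigOperators

namespace Pool.Agent.MPb0eQ

section

variable {κ : Type} [Fintype κ] [DecidableEq κ] {d : ℕ} (bl : κ → Fin d)

private theorem b2b_hasF (e : Sct bl → ℝ) (x : κ → ℝ) (t : Finset κ) :
    HasFDerivAt (fun x' : κ → ℝ => dS bl e x' t)
      (∑ m ∈ tᶜ, dS bl e x (insert m t) •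
        (ContinuousLinearMap.proj m : (κ → ℝ) →L[ℝ] ℝ)) x := by
  have h1 : HasFDerivAt (fun x' : κ → ℝ => dS bl e x' t)
      (∑ s : Sct bl, if t ⊆ s.1 then e s • ∑ m ∈ s.1 \ t, (∏ j ∈ (s.1 \ t).erase m, x j) •
        (ContinuousLinearMap.proj m : (κ → ℝ) →L[ℝ] ℝ) else 0) x := by
    unfold dS
    refine HasFDerivAt.fun_sum fun s _ => ?_
    split_ifs with h
    · exact (HasFDerivAt.finsetProd fun m _ =>
        (ContinuousLinearMap.proj m : (κ → ℝ) →L[ℝ] ℝ).hasFDerivAt).const_mul (e s)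
    · exact hasFDerivAt_const _ _
  refine h1.congr_fderiv (ContinuousLinearMap.ext fun v => ?_)
  have h2 : ∀ s : Sct bl, (if t ⊆ s.1 then e s • ∑ m ∈ s.1 \ t,
      (∏ j ∈ (s.1 \ t).erase m, x j) • (ContinuousLinearMap.proj m : (κ → ℝ) →L[ℝ] ℝ)
      else 0) v = ∑ m ∈ tᶜ, (if insert m t ⊆ s.1 then e s * ∏ l ∈ s.1 \ insert m t, x l
      else 0) * v m := by
    intro s
    by_cases h : t ⊆ s.1
    · rw [if_pos h]
      have h3 : ∑ m ∈ tᶜ, (if insert m t ⊆ s.1 then e s * ∏ l ∈ s.1 \ insert m t, x l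
          else 0) * v m = ∑ m ∈ s.1 \ t, (e s * ∏ l ∈ s.1 \ insert m t, x l) * v m := by
        symm
        have h4 : s.1 \ t ⊆ tᶜ := fun m hm => Finset.mem_compl.2 (Finset.mem_sdiff.1 hm).2
        rw [← Finset.sum_subset h4 (f := fun m =>
          (if insert m t ⊆ s.1 then e s * ∏ l ∈ s.1 \ insert m t, x l else 0) * v m)]
        · refine Finset.sum_congr rfl fun m hm => ?_
          rw [if_pos (Finset.insert_subset (Finset.mem_sdiff.1 hm).1 h)]
        · intro m hm hm'
          rw [if_neg, zero_mul]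
          intro h5
          exact hm' (Finset.mem_sdiff.2 ⟨h5 (Finset.mem_insert_self _ _),
            Finset.mem_compl.1 hm⟩)
      rw [h3]
      simp only [smul_apply, sum_apply,
        ContinuousLinearMap.proj_apply, smul_eq_mul, Finset.mul_sum]
      refine Finset.sum_congr rfl fun m hm => ?_
      have h5 : (s.1 \ t).erase m = s.1 \ insert m t := by
        ext l
        simp only [Finset.mem_erase, Finset.mem_sdiff, Finset.mem_insert, not_or]
        tauto
      rw [h5]
      ring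
    · rw [if_neg h]
      symm
      refine Finset.sum_eq_zero fun m _ => ?_
      rw [if_neg, zero_mul]
      exact fun h5 => h fun a ha => h5 (Finset.mem_insert_of_mem ha)
  rw [sum_apply, Finset.sum_congr rfl fun s _ => h2 s, Finset.sum_comm,
    sum_apply]
  refine Finset.sum_congr rfl fun m _ => ?_
  rw [smul_apply, ContinuousLinearMap.proj_apply, smul_eq_mul, dS,
    Finset.sum_mul]

private theorem b2b_diffH (c : Sct bl → ℝ) (x : κ → ℝ) (k l : κ) :
    DifferentiableAt ℝ (fun x' : κ → ℝ => H bl c x' k l) x := by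
  have h0 : ContDiff ℝ (1 : ℕ) (fun x' : κ → ℝ => ((c, x') : (Sct bl → ℝ) × (κ → ℝ))) :=
    contDiff_const.prodMk contDiff_id
  have h1 : ContDiff ℝ (1 : ℕ) ((fun z : (Sct bl → ℝ) × (κ → ℝ) => H bl z.1 z.2 k l) ∘
      fun x' : κ → ℝ => ((c, x') : (Sct bl → ℝ) × (κ → ℝ))) :=
    ContDiff.comp (contDiff_H bl 1 k l) h0
  have h2 : ((fun z : (Sct bl → ℝ) × (κ → ℝ) => H bl z.1 z.2 k l) ∘
      fun x' : κ → ℝ => ((c, x') : (Sct bl → ℝ) × (κ → ℝ))) =
      fun x' : κ → ℝ => H bl c x' k l := rfl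
  rw [h2] at h1
  exact (h1.differentiable (by norm_num)).differentiableAt

/-- Proof. The derivative in `x` of `dS e x {k, l}` in the direction of `v` is
`∑ m ∉ {k, l}, v m * dS e x {k, l, m}`. -/
theorem cub_add (c e : Sct bl → ℝ) (x v : κ → ℝ) :
    cub bl (c + e) x v = cub bl c x v - cM bl e x v := by
  have h1 : ∀ k l : κ, fderiv ℝ (fun x' : κ → ℝ => H bl (c + e) x' k l) x v =
      fderiv ℝ (fun x' : κ → ℝ => H bl c x' k l) x v -
        if bl k = bl l then 0 else ∑ m, if m = k ∨ m = l then 0 else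
          v m * dS bl e x {k, l, m} := by
    intro k l
    by_cases h : bl k = bl l
    · rw [if_pos h, sub_zero]
      have h2 : (fun x' : κ → ℝ => H bl (c + e) x' k l) =
          fun x' : κ → ℝ => H bl c x' k l := by
        funext x'
        unfold H
        rw [if_pos h, if_pos h]
      rw [h2]
    · rw [if_neg h]
      have h2 : (fun x' : κ → ℝ => H bl (c + e) x' k l) =
          fun x' : κ → ℝ => H bl c x' k l - dS bl e x' {k, l} := by
        funext x'
        unfold H
        rw [if_neg h, if_neg h, dS_add]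
        ring
      have h3 := b2b_hasF bl e x {k, l}
      rw [h2, fderiv_fun_sub (b2b_diffH bl c x k l) h3.differentiableAt, h3.fderiv,
        sub_apply, sum_apply]
      congr 1
      have h4 : ∀ m ∈ (Finset.univ : Finset κ), (if m = k ∨ m = l then 0 else
          v m * dS bl e x {k, l, m}) = if m ∈ ({k, l} : Finset κ)ᶜ then
          v m * dS bl e x {k, l, m} else 0 := by
        intro m _
        by_cases hm : m = k ∨ m = l
        · rw [if_pos hm, if_neg fun h6 => Finset.mem_compl.1 h6 (by simpa using hm)]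
        · rw [if_neg hm, if_pos (by simpa using hm)]
      rw [Finset.sum_congr rfl h4, Finset.sum_ite_mem, Finset.univ_inter]
      refine Finset.sum_congr rfl fun m _ => ?_
      have h5 : insert m ({k, l} : Finset κ) = {k, l, m} := by
        ext j
        simp only [Finset.mem_insert, Finset.mem_singleton]
        tauto
      rw [smul_apply, ContinuousLinearMap.proj_apply, smul_eq_mul, h5,
        mul_comm]
  unfold cub cM
  rw [← Finset.sum_sub_distrib]
  refine Finset.sum_congr rfl fun k _ => ?_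
  rw [← Finset.sum_sub_distrib]
  refine Finset.sum_congr rfl fun l _ => ?_
  rw [h1 k l]
  split_ifs
  · ring
  · ring

theorem cM_smul (r : ℝ) (c : Sct bl → ℝ) (x v : κ → ℝ) :
    cM bl (r • c) x v = r * cM bl c x v := by
  unfold cM
  rw [Finset.mul_sum]
  refine Finset.sum_congr rfl fun k _ => ?_
  rw [Finset.mul_sum]
  refine Finset.sum_congr rfl fun l _ => ?_
  by_cases h : bl k = bl l
  · rw [if_pos h, if_pos h, mul_zero]
  · rw [if_neg h, if_neg h]
    have h1 : (∑ m, if m = k ∨ m = l then 0 else v m * dS bl (r • c) x {k, l, m}) =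
        r * ∑ m, if m = k ∨ m = l then 0 else v m * dS bl c x {k, l, m} := by
      rw [Finset.mul_sum]
      refine Finset.sum_congr rfl fun m _ => ?_
      by_cases hm : m = k ∨ m = l
      · rw [if_pos hm, if_pos hm, mul_zero]
      · rw [if_neg hm, if_neg hm, dS_smul]
        ring
    rw [h1]
    ring

theorem contDiff_cub (N : ℕ) :
    ContDiff ℝ N (fun w : (Sct bl → ℝ) × (κ → ℝ) × (κ → ℝ) => cub bl w.1 w.2.1 w.2.2) := by
  unfold cub
  refine ContDiff.sum fun k _ => ContDiff.sum fun l _ => ?_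
  refine ContDiff.mul (ContDiff.mul ?_ ?_) ?_
  · fun_prop
  · fun_prop
  · refine ContDiff.fderiv_apply (f := fun (w : (Sct bl → ℝ) × (κ → ℝ) × (κ → ℝ))
      (x' : κ → ℝ) => H bl w.1 x' k l) (g := fun w => w.2.1) (k := fun w => w.2.2)
      (m := ((N + 1 : ℕ) : WithTop ℕ∞)) ?_ ?_ ?_ ?_
    · have h0 : ContDiff ℝ (N + 1 : ℕ)
          (fun z : ((Sct bl → ℝ) × (κ → ℝ) × (κ → ℝ)) × (κ → ℝ) =>
            ((z.1.1, z.2) : (Sct bl → ℝ) × (κ → ℝ))) :=
        (contDiff_fst.comp contDiff_fst).prodMk contDiff_snd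
      have h1 := ContDiff.comp (contDiff_H bl (N + 1) k l) h0
      have h2 : ((fun z : (Sct bl → ℝ) × (κ → ℝ) => H bl z.1 z.2 k l) ∘
          (fun z : ((Sct bl → ℝ) × (κ → ℝ) × (κ → ℝ)) × (κ → ℝ) =>
            ((z.1.1, z.2) : (Sct bl → ℝ) × (κ → ℝ)))) =
          Function.uncurry (fun (w : (Sct bl → ℝ) × (κ → ℝ) × (κ → ℝ))
            (x' : κ → ℝ) => H bl w.1 x' k l) := rfl
      rw [h2] at h1
      exact h1
    · exact contDiff_fst.comp contDiff_snd
    · exact contDiff_snd.comp contDiff_snd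
    · push_cast
      exact le_rfl

theorem cub_smul (r : ℝ) (c : Sct bl → ℝ) (x v : κ → ℝ) :
    cub bl c x (r • v) = r ^ 3 * cub bl c x v := by
  unfold cub
  rw [Finset.mul_sum]
  refine Finset.sum_congr rfl fun k _ => ?_
  rw [Finset.mul_sum]
  refine Finset.sum_congr rfl fun l _ => ?_
  rw [_root_.map_smul]
  simp only [Pi.smul_apply, smul_eq_mul]
  ring

/-- The second derivative of `G` in the direction `v, v`, paired with `v`. -/
theorem cub_eq (c : Sct bl → ℝ) (x v : κ → ℝ) :
    ∑ k, v k * fderiv ℝ (fun x' => fderiv ℝ (G bl c) x' v) x v k = cub bl c x v := by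
  have h1 : (fun x' => fderiv ℝ (G bl c) x' v) = fun x' => Hv bl c x' v := by
    funext x'
    exact fderiv_G bl c x' v
  rw [h1]
  have h2 : ∀ k l : κ, DifferentiableAt ℝ (fun x' : κ → ℝ => H bl c x' k l * v l) x :=
    fun k l => (b2b_diffH bl c x k l).mul_const _
  have h3 : ∀ k : κ, DifferentiableAt ℝ (fun x' : κ → ℝ => Hv bl c x' v k) x := by
    intro k
    unfold Hv
    exact DifferentiableAt.fun_sum fun l _ => h2 k l
  have h4 : DifferentiableAt ℝ (fun x' : κ → ℝ => Hv bl c x' v) x :=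
    differentiableAt_pi.2 h3
  unfold cub
  refine Finset.sum_congr rfl fun k _ => ?_
  have h5 : fderiv ℝ (fun x' : κ → ℝ => Hv bl c x' v) x v k =
      fderiv ℝ (fun x' : κ → ℝ => Hv bl c x' v k) x v := by
    rw [fderiv_apply h4 k]
    rfl
  have h6 : fderiv ℝ (fun x' : κ → ℝ => Hv bl c x' v k) x =
      ∑ l, fderiv ℝ (fun x' : κ → ℝ => H bl c x' k l * v l) x := by
    unfold Hv
    exact fderiv_fun_sum fun l _ => h2 k l
  rw [h5, h6, sum_apply, Finset.mul_sum]
  refine Finset.sum_congr rfl fun l _ => ?_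
  rw [fderiv_mul_const (b2b_diffH bl c x k l), smul_apply, smul_eq_mul]
  ring

end

end Pool.Agent.MPb0eQ
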