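import Mathlib
import Pool.Agent.Lib.MP_b0e20b_ag_Q.ADefs
import Pool.Agent.Lib.MP_b0e20b_ag_Q.A1

/-!
# MP_b0e20b_ag, all formats: level sets of submersions are thin
-/

set_option autoImplicit false

open scoped Topology

namespace Pool.Agent.MPb0eQ

private theorem A1b_local {E F : Type} [NormedAddCommGroup E] [NormedSpace ℝ E]
    [FiniteDimensional ℝ E] [NormedAddCommGroup F] [NormedSpace ℝ F] [FiniteDimensional ℝ F]
    {r : ℕ} (Θ : E → F) (hΘ : ContDiff ℝ 1 Θ) (Z : Set E)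
    (hZ : ∀ e ∈ Z, Θ e = 0 ∧ Function.Surjective (fderiv ℝ Θ e))
    (hr : Module.finrank ℝ E ≤ r + Module.finrank ℝ F) (e : E) (he : e ∈ Z) :
    ∃ U ∈ 𝓝 e, Thin r (Z ∩ U) := by
  have : CompleteSpace E := FiniteDimensional.complete ℝ E
  have hs : HasStrictFDerivAt Θ (fderiv ℝ Θ e) e :=
    hΘ.contDiffAt.hasStrictFDerivAt one_ne_zero
  have hr' : (fderiv ℝ Θ e).range = ⊤ := LinearMap.range_eq_top.2 (hZ e he).2
  obtain ⟨K, s, hs0, hL⟩ := (hs.to_implicitFunction hr').exists_lipschitzOnWith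
  have h1 := hs.eq_implicitFunction hr'
  have h2 : ∀ᶠ x in 𝓝 e, (hs.implicitToOpenPartialHomeomorph Θ (fderiv ℝ Θ e) hr' x).2 ∈ s := by
    have h3 : Filter.Tendsto (fun x =>
        (hs.implicitToOpenPartialHomeomorph Θ (fderiv ℝ Θ e) hr' x).2) (𝓝 e) (𝓝 0) := by
      have h4 := ((hs.implicitToOpenPartialHomeomorph Θ (fderiv ℝ Θ e) hr').continuousAt
        (hs.mem_implicitToOpenPartialHomeomorph_source hr')).tendsto
      rw [hs.implicitToOpenPartialHomeomorph_self hr'] at h4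
      exact (continuous_snd.tendsto _).comp h4
    exact h3 hs0
  refine ⟨_, h1.and h2, ?_⟩
  have hk : Module.finrank ℝ (fderiv ℝ Θ e).ker ≤ r := by
    have h5 := LinearMap.finrank_range_add_finrank_ker ((fderiv ℝ Θ e : E →L[ℝ] F) : E →ₗ[ℝ] F)
    have h6 : LinearMap.range ((fderiv ℝ Θ e : E →L[ℝ] F) : E →ₗ[ℝ] F) = ⊤ := hr'
    rw [h6, finrank_top] at h5
    have h7 : Module.finrank ℝ (LinearMap.ker ((fderiv ℝ Θ e : E →L[ℝ] F) : E →ₗ[ℝ] F)) ≤ r := by
      omega
    exact h7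
  refine thin_le hk ?_
  let L : (fderiv ℝ Θ e).ker ≃L[ℝ] (Fin (Module.finrank ℝ (fderiv ℝ Θ e).ker) → ℝ) :=
    ContinuousLinearEquiv.ofFinrankEq (by simp)
  refine ⟨fun _ => hs.implicitFunction Θ (fderiv ℝ Θ e) hr' (Θ e) ∘ L.symm,
    fun _ => L.symm ⁻¹' s, fun _ => K * ‖(L.symm : (Fin (Module.finrank ℝ (fderiv ℝ Θ e).ker) → ℝ)
      →L[ℝ] (fderiv ℝ Θ e).ker)‖₊, fun _ => ?_, ?_⟩
  · exact hL.comp (L.symm.lipschitz.lipschitzOnWith) fun x hx => hx
  · rintro x ⟨hx, hx1, hx2⟩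
    refine Set.mem_iUnion.2 ⟨0, L (hs.implicitToOpenPartialHomeomorph Θ (fderiv ℝ Θ e) hr' x).2,
      ?_, ?_⟩
    · rw [Set.mem_preimage, L.symm_apply_apply]
      exact hx2
    · have h8 : Θ e = Θ x := by rw [(hZ e he).1, (hZ x hx).1]
      change hs.implicitFunction Θ (fderiv ℝ Θ e) hr' (Θ e) (L.symm (L
        (hs.implicitToOpenPartialHomeomorph Θ (fderiv ℝ Θ e) hr' x).2)) = x
      rw [L.symm_apply_apply, h8]
      exact hx1

/-- Level sets of submersions are thin.

Proof. Let `e ∈ Z`. By the implicit function theorem (`HasStrictFDerivAt.implicitFunction`,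
`ImplicitFunctionData`, or: complete `Θ` to a local diffeomorphism `(Θ, ℓ) : E → F × ker`, `ℓ` a
projection onto the kernel of the derivative) there is an open neighbourhood `U` of `e` such that
`{Θ = 0} ∩ U` is the image of a subset of `ker` under the inverse of this local diffeomorphism, which
is Lipschitz on a smaller neighbourhood (`ApproximatesLinearOn.inverse...` or because it is
continuously differentiable). `ker` has the dimension `finrank E - finrank F ≤ r`, it is linearly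
equivalent to `ℝ ^ k`, `k ≤ r`. As `E` is second countable, countably many such `U` cover `Z`
(`TopologicalSpace.countable_cover_nhds` or the Lindelöf property of `Z`). Then `thin_image` for
`π` and `thin_le`. -/
theorem thin_submersion {E F V : Type} [NormedAddCommGroup E] [NormedSpace ℝ E]
    [FiniteDimensional ℝ E] [NormedAddCommGroup F] [NormedSpace ℝ F] [FiniteDimensional ℝ F]
    [NormedAddCommGroup V] [NormedSpace ℝ V] {r : ℕ} (Θ : E → F) (hΘ : ContDiff ℝ 1 Θ)
    (pr : E → V) (hpr : ContDiff ℝ 1 pr) (Z : Set E)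
    (hZ : ∀ e ∈ Z, Θ e = 0 ∧ Function.Surjective (fderiv ℝ Θ e))
    (hr : Module.finrank ℝ E ≤ r + Module.finrank ℝ F) : Thin r (pr '' Z) := by
  refine thin_image ?_ pr hpr
  have : ProperSpace E := FiniteDimensional.proper ℝ E
  choose U hU hT using A1b_local Θ hΘ Z hZ hr
  obtain ⟨t, -, ht, hc⟩ := TopologicalSpace.countable_cover_nhdsWithin
    (f := fun e : E => {x | ∃ he : e ∈ Z, x ∈ U e he}) (s := Z) fun e he =>
      mem_nhdsWithin_of_mem_nhds (Filter.mem_of_superset (hU e he) fun x hx => ⟨he, hx⟩)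
  have : Countable t := ht.to_subtype
  refine thin_mono (thin_iUnion (ι := t) (A := fun e => Z ∩ {x | ∃ he : (e : E) ∈ Z, x ∈ U e he})
    fun e => ?_) fun x hx => ?_
  · by_cases he : (e : E) ∈ Z
    · exact thin_mono (hT e he) fun x hx => ⟨hx.1, hx.2.2⟩
    · refine thin_mono (A := Z ∩ {x | ∃ he : (e : E) ∈ Z, x ∈ U e he}) (B := ∅)
        ⟨fun _ _ => 0, fun _ => ∅, fun _ => 0, fun k => lipschitzOnWith_empty _ _, by simp⟩
        fun x hx => absurd hx.2.1 he
  · obtain ⟨e, he, hxe⟩ := Set.mem_iUnion₂.1 (hc hx)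
    exact Set.mem_iUnion.2 ⟨⟨e, he⟩, hx, hxe⟩

end Pool.Agent.MPb0eQ
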