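import Mathlib
import Pool.Agent.Lib.MP_b0e20b_ag_Q.A1b
import Pool.Agent.Lib.MP_b0e20b_ag_Q.B1
import Pool.Agent.Lib.MP_b0e20b_ag_Q.B1b
import Pool.Agent.Lib.MP_b0e20b_ag_Q.B2
import Pool.Agent.Lib.MP_b0e20b_ag_Q.B2b

/-!
# MP_b0e20b_ag, all formats: degenerate solutions which are not folds
-/

set_option autoImplicit false

open scoped BigOperators

namespace Pool.Agent.MPb0eQ

section

variable {κ : Type} [Fintype κ] [DecidableEq κ] {d : ℕ} (bl : κ → Fin d)

/-- The system for the triples. -/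
private noncomputable def Th (w : (Sct bl → ℝ) × (κ → ℝ) × (κ → ℝ)) :
    (κ → ℝ) × (κ → ℝ) × ℝ × ℝ :=
  (G bl w.1 w.2.1, Hv bl w.1 w.2.1 w.2.2, ∑ k, w.2.2 k ^ 2 - 1, cub bl w.1 w.2.1 w.2.2)

private theorem contDiff_Th : ContDiff ℝ 1 (Th bl) := by
  have h1 : ContDiff ℝ 1 (fun w : (Sct bl → ℝ) × (κ → ℝ) × (κ → ℝ) => (w.1, w.2.1)) :=
    contDiff_fst.prodMk (contDiff_fst.comp contDiff_snd)
  have h2 : ∀ k : κ, ContDiff ℝ 1 (fun w : (Sct bl → ℝ) × (κ → ℝ) × (κ → ℝ) => w.2.2 k) :=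
    fun k => (contDiff_apply ℝ ℝ k).comp (contDiff_snd.comp contDiff_snd)
  refine ContDiff.prodMk ((contDiff_G (𝕜 := ℝ) bl 1).comp h1) (ContDiff.prodMk ?_
    (ContDiff.prodMk ?_ (contDiff_cub bl 1)))
  · refine contDiff_pi.2 fun k => ?_
    refine ContDiff.sum fun l _ => ?_
    exact ((contDiff_H (𝕜 := ℝ) bl 1 k l).comp h1).mul (h2 l)
  · exact (ContDiff.sum fun k _ => (h2 k).pow 2).sub contDiff_const

/-- The linear part in the coefficients. -/
private noncomputable def Nn (e : Sct bl → ℝ) (x v : κ → ℝ) : (κ → ℝ) × (κ → ℝ) × ℝ × ℝ :=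
  (fun k => -dS bl e x {k}, fun k => -∑ l, if bl k = bl l then 0 else dS bl e x {k, l} * v l,
    0, -cM bl e x v)

private theorem Th_add (c e : Sct bl → ℝ) (x v : κ → ℝ) (t : ℝ) :
    Th bl (c + t • e, x, v) = Th bl (c, x, v) + t • Nn bl e x v := by
  refine Prod.ext ?_ (Prod.ext ?_ (Prod.ext ?_ ?_))
  · funext k
    show G bl (c + t • e) x k = G bl c x k + t * -dS bl e x {k}
    rw [G_add, dS_smul]
    ring
  · funext k
    show Hv bl (c + t • e) x v k = Hv bl c x v k +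
      t * -∑ l, if bl k = bl l then 0 else dS bl e x {k, l} * v l
    rw [Hv_add, mul_neg, ← sub_eq_add_neg, Finset.mul_sum]
    congr 1
    refine Finset.sum_congr rfl fun l _ => ?_
    rw [dS_smul]
    split_ifs
    · simp
    · ring
  · show ∑ k, v k ^ 2 - 1 = ∑ k, v k ^ 2 - 1 + t * 0
    ring
  · show cub bl (c + t • e) x v = cub bl c x v + t * -cM bl e x v
    rw [cub_add, cM_smul]
    ring

private theorem fderiv_Th_par (c e : Sct bl → ℝ) (x v : κ → ℝ) :
    fderiv ℝ (Th bl) (c, x, v) (e, 0, 0) = Nn bl e x v := by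
  have h1 : HasFDerivAt (Th bl) (fderiv ℝ (Th bl) (c, x, v)) (c, x, v) :=
    ((contDiff_Th bl).differentiable one_ne_zero).differentiableAt.hasFDerivAt
  have h2 : HasDerivAt (fun t : ℝ => ((c + t • e, x, v) : (Sct bl → ℝ) × (κ → ℝ) × (κ → ℝ)))
      (e, 0, 0) 0 := by
    refine HasDerivAt.prodMk ?_ (hasDerivAt_const _ _)
    have h3 := ((hasDerivAt_id (0 : ℝ)).smul_const e).const_add c
    rw [one_smul] at h3
    exact h3
  have h1' : HasFDerivAt (Th bl) (fderiv ℝ (Th bl) (c, x, v))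
      ((fun t : ℝ => ((c + t • e, x, v) : (Sct bl → ℝ) × (κ → ℝ) × (κ → ℝ))) 0) := by
    show HasFDerivAt (Th bl) _ (c + (0 : ℝ) • e, x, v)
    rw [zero_smul, add_zero]
    exact h1
  have h4 := h1'.comp_hasDerivAt (0 : ℝ) h2
  have h5 : HasDerivAt (fun t : ℝ => Th bl (c, x, v) + t • Nn bl e x v) (Nn bl e x v) 0 := by
    have h3 := ((hasDerivAt_id (0 : ℝ)).smul_const (Nn bl e x v)).const_add (Th bl (c, x, v))
    rw [one_smul] at h3
    exact h3
  have h6 : (Th bl ∘ fun t : ℝ => ((c + t • e, x, v) : (Sct bl → ℝ) × (κ → ℝ) × (κ → ℝ))) =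
      fun t : ℝ => Th bl (c, x, v) + t • Nn bl e x v := by
    funext t
    exact Th_add bl c e x v t
  rw [h6] at h4
  exact h4.unique h5

private theorem fderiv_Th_vec (c : Sct bl → ℝ) (x v : κ → ℝ) (hv : ∑ k, v k ^ 2 = 1) :
    (fderiv ℝ (Th bl) (c, x, v) (0, 0, v)).2.2.1 = 2 := by
  have h1 : HasFDerivAt (Th bl) (fderiv ℝ (Th bl) (c, x, v)) (c, x, v) :=
    ((contDiff_Th bl).differentiable one_ne_zero).differentiableAt.hasFDerivAt
  have h2 : HasDerivAt (fun t : ℝ => ((c, x, v + t • v) : (Sct bl → ℝ) × (κ → ℝ) × (κ → ℝ)))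
      (0, 0, v) 0 := by
    refine HasDerivAt.prodMk (hasDerivAt_const _ _) (HasDerivAt.prodMk (hasDerivAt_const _ _) ?_)
    have h3 := ((hasDerivAt_id (0 : ℝ)).smul_const v).const_add v
    rw [one_smul] at h3
    exact h3
  have h1' : HasFDerivAt (Th bl) (fderiv ℝ (Th bl) (c, x, v))
      ((fun t : ℝ => ((c, x, v + t • v) : (Sct bl → ℝ) × (κ → ℝ) × (κ → ℝ))) 0) := by
    show HasFDerivAt (Th bl) _ (c, x, v + (0 : ℝ) • v)
    rw [zero_smul, add_zero]
    exact h1
  have h4 := h1'.comp_hasDerivAt (0 : ℝ) h2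
  have h5 : HasDerivAt (fun t : ℝ => ∑ k, (v + t • v) k ^ 2 - 1)
      (fderiv ℝ (Th bl) (c, x, v) (0, 0, v)).2.2.1 0 := by
    have h7 := ((ContinuousLinearMap.fst ℝ ℝ ℝ).comp ((ContinuousLinearMap.snd ℝ (κ → ℝ)
      (ℝ × ℝ)).comp (ContinuousLinearMap.snd ℝ (κ → ℝ) ((κ → ℝ) × ℝ × ℝ)))).hasFDerivAt
      (x := (Th bl ∘ fun t : ℝ => ((c, x, v + t • v) :
        (Sct bl → ℝ) × (κ → ℝ) × (κ → ℝ))) 0)
    exact h7.comp_hasDerivAt (0 : ℝ) h4
  have h6 : HasDerivAt (fun t : ℝ => (1 + t) ^ 2 - 1) (2 * (1 + 0) ^ (2 - 1) * 1) 0 := by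
    have h8 := (((hasDerivAt_id (0 : ℝ)).const_add 1).pow 2).sub_const 1
    exact h8
  have h9 : (fun t : ℝ => ∑ k, (v + t • v) k ^ 2 - 1) = fun t : ℝ => (1 + t) ^ 2 - 1 := by
    funext t
    have h10 : ∀ k, (v + t • v) k ^ 2 = (1 + t) ^ 2 * v k ^ 2 := by
      intro k
      rw [Pi.add_apply, Pi.smul_apply, smul_eq_mul]
      ring
    simp only [h10]
    rw [← Finset.mul_sum, hv, mul_one]
  rw [h9] at h5
  rw [h5.unique h6]
  norm_num

private theorem dual_apply (f : (κ → ℝ) × (κ → ℝ) × ℝ × ℝ →ₗ[ℝ] ℝ) (y z : κ → ℝ) (r q : ℝ) :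
    f (y, z, r, q) = ∑ k, y k * f (Pi.single k 1, 0, 0, 0) +
      ∑ k, z k * f (0, Pi.single k 1, 0, 0) + r * f (0, 0, 1, 0) + q * f (0, 0, 0, 1) := by
  have h1 : f (y, 0, 0, 0) = ∑ k, y k * f (Pi.single k 1, 0, 0, 0) := by
    have h := LinearMap.pi_apply_eq_sum_univ (f ∘ₗ LinearMap.inl ℝ (κ → ℝ) ((κ → ℝ) × ℝ × ℝ)) y
    simp only [LinearMap.comp_apply, LinearMap.inl_apply, smul_eq_mul] at h
    refine h.trans (Finset.sum_congr rfl fun k _ => ?_)
    congr 3
    funext j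
    rw [Pi.single_apply]
    simp only [eq_comm]
  have h2 : f (0, z, 0, 0) = ∑ k, z k * f (0, Pi.single k 1, 0, 0) := by
    have h := LinearMap.pi_apply_eq_sum_univ (f ∘ₗ LinearMap.inr ℝ (κ → ℝ) ((κ → ℝ) × ℝ × ℝ) ∘ₗ
      LinearMap.inl ℝ (κ → ℝ) (ℝ × ℝ)) z
    simp only [LinearMap.comp_apply, LinearMap.inl_apply, LinearMap.inr_apply, smul_eq_mul] at h
    refine h.trans (Finset.sum_congr rfl fun k _ => ?_)
    congr 4
    funext j
    rw [Pi.single_apply]
    simp only [eq_comm]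
  have h3 : f (0, 0, r, 0) = r * f (0, 0, 1, 0) := by
    rw [← smul_eq_mul, ← map_smul]
    congr 1
    simp
  have h4 : f (0, 0, 0, q) = q * f (0, 0, 0, 1) := by
    rw [← smul_eq_mul, ← map_smul]
    congr 1
    simp
  rw [← h1, ← h2, ← h3, ← h4, ← map_add, ← map_add, ← map_add]
  congr 1
  simp

private theorem not_pair {a k l : κ} (hkl : bl k ≠ bl l) (t : Finset κ) (hk : k ∈ t) (hl : l ∈ t) :
    t ≠ {a} := by
  intro h
  rw [h, Finset.mem_singleton] at hk hl
  exact hkl (by rw [hk, hl])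

private theorem surj_Th (c : Sct bl → ℝ) (x v : κ → ℝ) (hv1 : ∑ k, v k ^ 2 = 1) (hv : M3 bl v) :
    Function.Surjective (fderiv ℝ (Th bl) (c, x, v)) := by
  set D : (Sct bl → ℝ) × (κ → ℝ) × (κ → ℝ) →L[ℝ] (κ → ℝ) × (κ → ℝ) × ℝ × ℝ :=
    fderiv ℝ (Th bl) (c, x, v) with hD
  by_contra hns
  have hlt : LinearMap.range (D : (Sct bl → ℝ) × (κ → ℝ) × (κ → ℝ) →ₗ[ℝ]
      (κ → ℝ) × (κ → ℝ) × ℝ × ℝ) < ⊤ :=
    lt_top_iff_ne_top.2 fun h => hns (LinearMap.range_eq_top.1 h)
  obtain ⟨f, hf0, hf⟩ := Submodule.exists_le_ker_of_lt_top _ hlt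
  apply hf0
  have hf' : ∀ w, f (D w) = 0 := fun w => hf ⟨w, rfl⟩
  set a : κ → ℝ := fun k => f (Pi.single k 1, 0, 0, 0) with ha
  set u : κ → ℝ := fun k => f (0, Pi.single k 1, 0, 0) with hu
  set ρ : ℝ := f (0, 0, 1, 0) with hρ
  set q : ℝ := f (0, 0, 0, 1) with hq
  have hfa : ∀ (y z : κ → ℝ) (r s : ℝ), f (y, z, r, s) =
      ∑ k, y k * a k + ∑ k, z k * u k + r * ρ + s * q := fun y z r s => dual_apply f y z r s
  have hpar : ∀ e : Sct bl → ℝ, ∑ k, dS bl e x {k} * a k +
      ∑ k, (∑ l, if bl k = bl l then 0 else dS bl e x {k, l} * v l) * u k +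
      cM bl e x v * q = 0 := by
    intro e
    have h1 := hf' (e, 0, 0)
    rw [hD, fderiv_Th_par, Nn, hfa] at h1
    simp only [neg_mul, Finset.sum_neg_distrib] at h1
    linarith
  -- singletons
  have ha0 : a = 0 := by
    funext k
    have h1 := hpar (tst bl x ⟨{k}, by
      intro p hp r hr _
      rw [Finset.mem_singleton] at hp hr
      rw [hp, hr]⟩)
    have h2 : ∑ k', dS bl (tst bl x ⟨{k}, by
      intro p hp r hr _
      rw [Finset.mem_singleton] at hp hr
      rw [hp, hr]⟩) x {k'} * a k' = a k := by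
      rw [Finset.sum_eq_single k]
      · rw [dS_tst_self, if_pos rfl, one_mul]
      · intro k' _ hk'
        rw [dS_tst_self, if_neg, zero_mul]
        intro h
        exact hk' (Finset.singleton_injective h)
      · intro h
        exact absurd (Finset.mem_univ _) h
    rw [h2] at h1
    have h3 : ∀ k' : κ, (∑ l, if bl k' = bl l then (0 : ℝ) else dS bl (tst bl x ⟨{k}, by
      intro p hp r hr _
      rw [Finset.mem_singleton] at hp hr
      rw [hp, hr]⟩) x {k', l} * v l) = 0 := by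
      intro k'
      refine Finset.sum_eq_zero fun l _ => ?_
      split_ifs with hkl
      · rfl
      · rw [dS_tst_self, if_neg, zero_mul]
        exact not_pair bl hkl _ (by simp) (by simp)
    simp only [h3, zero_mul, Finset.sum_const_zero, add_zero] at h1
    have h4 : cM bl (tst bl x ⟨{k}, by
      intro p hp r hr _
      rw [Finset.mem_singleton] at hp hr
      rw [hp, hr]⟩) x v = 0 := by
      unfold cM
      refine Finset.sum_eq_zero fun k' _ => Finset.sum_eq_zero fun l _ => ?_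
      split_ifs with hkl
      · rfl
      · rw [Finset.sum_eq_zero, mul_zero]
        intro m _
        split_ifs with hm
        · rfl
        · rw [dS_tst_self, if_neg, mul_zero]
          exact not_pair bl hkl _ (by simp) (by simp)
    rw [h4, zero_mul, add_zero] at h1
    exact h1
  -- pairs
  have hu0 : u = 0 := by
    refine three bl v u hv fun k l hkl => ?_
    have hne : k ≠ l := fun h => hkl (by rw [h])
    have hS : ∀ p ∈ ({k, l} : Finset κ), ∀ r ∈ ({k, l} : Finset κ), bl p = bl r → p = r := by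
      intro p hp r hr hpr
      rw [Finset.mem_insert, Finset.mem_singleton] at hp hr
      rcases hp with rfl | rfl <;> rcases hr with rfl | rfl
      · rfl
      · exact absurd hpr hkl
      · exact absurd hpr.symm hkl
      · rfl
    have h1 := hpar (tst bl x ⟨{k, l}, hS⟩)
    simp only [ha0, Pi.zero_apply, mul_zero, Finset.sum_const_zero, zero_add] at h1
    have h2 : ∑ k', (∑ l', if bl k' = bl l' then 0 else
        dS bl (tst bl x ⟨{k, l}, hS⟩) x {k', l'} * v l') * u k' = u k * v l + u l * v k := by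
      have h3 : ∀ k', (∑ l', if bl k' = bl l' then 0 else
        dS bl (tst bl x ⟨{k, l}, hS⟩) x {k', l'} * v l') * u k' =
          (if k' = k then v l * u k else 0) + (if k' = l then v k * u l else 0) := by
        intro k'
        rw [Hv_tst bl x v k l hkl k' hS]
        by_cases h4 : k' = k
        · have h5 : k' ≠ l := fun h => hne (by rw [← h4, h])
          rw [if_pos h4, if_pos h4, if_neg h5, h4, add_zero]
        · by_cases h5 : k' = l
          · rw [if_neg h4, if_pos h5, if_neg h4, if_pos h5, h5, zero_add]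
          · rw [if_neg h4, if_neg h5, if_neg h4, if_neg h5, zero_mul, add_zero]
      rw [Finset.sum_congr rfl fun k' _ => h3 k', Finset.sum_add_distrib]
      simp only [Finset.sum_ite_eq', Finset.mem_univ, if_true]
      ring
    have h4 : cM bl (tst bl x ⟨{k, l}, hS⟩) x v = 0 := by
      unfold cM
      refine Finset.sum_eq_zero fun k' _ => Finset.sum_eq_zero fun l' _ => ?_
      split_ifs with hkl'
      · rfl
      · rw [Finset.sum_eq_zero, mul_zero]
        intro m _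
        split_ifs with hm
        · rfl
        · rw [dS_tst_self, if_neg, mul_zero]
          intro h
          have h5 : ({k', l', m} : Finset κ).card = 3 := by
            refine Finset.card_eq_three.2 ⟨k', l', m, fun h => hkl' (by rw [h]), fun h => hm ?_,
              fun h => hm ?_, rfl⟩
            · exact Or.inl h.symm
            · exact Or.inr h.symm
          have h6 : ({k, l} : Finset κ).card ≤ 2 := Finset.card_le_two
          rw [h, show (⟨{k, l}, hS⟩ : Sct bl).1 = {k, l} from rfl] at h5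
          omega
    rw [h2, h4, zero_mul, add_zero] at h1
    exact h1
  -- triples
  have hq0 : q = 0 := by
    obtain ⟨k, l, m, hk, hl, hm, hkl, hkm, hlm⟩ := hv
    have hS : ∀ p ∈ ({k, l, m} : Finset κ), ∀ r ∈ ({k, l, m} : Finset κ),
        bl p = bl r → p = r := by
      intro p hp r hr hpr
      simp only [Finset.mem_insert, Finset.mem_singleton] at hp hr
      rcases hp with rfl | rfl | rfl <;> rcases hr with rfl | rfl | rfl
      · rfl
      · exact absurd hpr hkl
      · exact absurd hpr hkm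
      · exact absurd hpr.symm hkl
      · rfl
      · exact absurd hpr hlm
      · exact absurd hpr.symm hkm
      · exact absurd hpr.symm hlm
      · rfl
    have h1 := hpar (tst bl x ⟨{k, l, m}, hS⟩)
    simp only [ha0, hu0, Pi.zero_apply, mul_zero, Finset.sum_const_zero, zero_add] at h1
    rw [cM_tst bl x v k l m hkl hkm hlm hS] at h1
    rcases mul_eq_zero.1 h1 with h2 | h2
    · exfalso
      have h3 : v k * v l * v m ≠ 0 := mul_ne_zero (mul_ne_zero hk hl) hm
      rcases mul_eq_zero.1 h2 with h4 | h4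
      · norm_num at h4
      · exact h3 h4
    · exact h2
  -- the scalar equation
  have hρ0 : ρ = 0 := by
    have h1 := hf' (0, 0, v)
    have h2 : D (0, 0, v) = ((D (0, 0, v)).1, (D (0, 0, v)).2.1, (D (0, 0, v)).2.2.1,
      (D (0, 0, v)).2.2.2) := rfl
    rw [h2, hfa, ha0, hu0, hq0] at h1
    simp only [Pi.zero_apply, mul_zero, Finset.sum_const_zero, zero_add, add_zero] at h1
    rw [hD, fderiv_Th_vec bl c x v hv1] at h1
    linarith
  refine LinearMap.ext fun w => ?_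
  obtain ⟨y, z, r, s⟩ := w
  rw [hfa, ha0, hu0, hq0, hρ0]
  simp

/-- Proof. `thin_submersion` for `(c, x, v) ↦ (G c x, Hv c x v, ∑ v² - 1, cub c x v)` from
`(Sct bl → ℝ) × (κ → ℝ) × (κ → ℝ)` to `(κ → ℝ) × (κ → ℝ) × ℝ × ℝ` and the first projection; the
dimensions are `D + 2m` and `2m + 2`. The derivative is surjective: let the functional
`(a, u, r, q)` vanish on its image. Directions `(e, 0, 0)`: by `G_add`, `Hv_add`, `cub_add`
`∑ a k dS e x {k} + ∑ u k ∑' l, dS e x {k, l} v l + q cM e x v = 0` for all `e`. The test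
polynomials `tst x {k}` give `a = 0`; those of pairs (`Hv_tst`) give `u k v l + u l v k = 0` for
`bl k ≠ bl l` (`cM` of a pair is `0`: `dS_tst_self`), so `u = 0` by `three`; that of a triple with
`v k v l v m ≠ 0` (`cM_tst`) gives `q = 0`. Direction `(0, 0, v)`: `2 r ∑ v² = 0`, so `r = 0`. -/
theorem thin3 (hD : 2 ≤ Fintype.card (Sct bl)) :
    Thin (Fintype.card (Sct bl) - 2) {c : Sct bl → ℝ | ∃ x v : κ → ℝ, G bl c x = 0 ∧
      Hv bl c x v = 0 ∧ ∑ k, v k ^ 2 = 1 ∧ cub bl c x v = 0 ∧ M3 bl v} := by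
  have h := thin_submersion (r := Fintype.card (Sct bl) - 2) (Th bl) (contDiff_Th bl)
    (fun w : (Sct bl → ℝ) × (κ → ℝ) × (κ → ℝ) => w.1) contDiff_fst
    {w | Th bl w = 0 ∧ M3 bl w.2.2} (fun w hw => ?_) ?_
  · have hS : {c : Sct bl → ℝ | ∃ x v : κ → ℝ, G bl c x = 0 ∧
        Hv bl c x v = 0 ∧ ∑ k, v k ^ 2 = 1 ∧ cub bl c x v = 0 ∧ M3 bl v} =
        (fun w : (Sct bl → ℝ) × (κ → ℝ) × (κ → ℝ) => w.1) ''
          {w | Th bl w = 0 ∧ M3 bl w.2.2} := by
      ext c
      constructor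
      · rintro ⟨x, v, h1, h2, h3, h4, h5⟩
        refine ⟨(c, x, v), ⟨?_, h5⟩, rfl⟩
        refine Prod.ext h1 (Prod.ext h2 (Prod.ext ?_ h4))
        show ∑ k, v k ^ 2 - 1 = 0
        rw [h3, sub_self]
      · rintro ⟨⟨c', x, v⟩, ⟨h1, h5⟩, h6⟩
        have h6' : c' = c := h6
        subst h6'
        refine ⟨x, v, congrArg Prod.fst h1, congrArg (fun p => p.2.1) h1, ?_,
          congrArg (fun p => p.2.2.2) h1, h5⟩
        have h7 : ∑ k, v k ^ 2 - 1 = 0 := congrArg (fun p => p.2.2.1) h1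
        exact sub_eq_zero.1 h7
    rw [hS]
    exact h
  · obtain ⟨c, x, v⟩ := w
    refine ⟨hw.1, surj_Th bl c x v ?_ hw.2⟩
    have h7 : ∑ k, v k ^ 2 - 1 = 0 := congrArg (fun p => p.2.2.1) hw.1
    exact sub_eq_zero.1 h7
  · simp only [Module.finrank_prod, Module.finrank_fintype_fun_eq_card, Module.finrank_self]
    omega

end

end Pool.Agent.MPb0eQ
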