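import Mathlib
import Pool.Agent.Lib.MP_b0e20b_ag_Q.A1b
import Pool.Agent.Lib.MP_b0e20b_ag_Q.B1
import Pool.Agent.Lib.MP_b0e20b_ag_Q.B1b
import Pool.Agent.Lib.MP_b0e20b_ag_Q.B2
import Pool.Agent.Lib.MP_b0e20b_ag_Q.B2b

/-!
# MP_b0e20b_ag, all formats: degenerate solutions whose kernel vector meets two blocks
-/

set_option autoImplicit false

open scoped BigOperators

namespace Pool.Agent.MPb0eQ

section

variable {κ : Type} [Fintype κ] [DecidableEq κ] {d : ℕ} (bl : κ → Fin d)

/-- The product of the `sq` is positive. -/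
private theorem B4_pos (x : κ → ℝ) (A : Finset (Fin d)) : 0 < PA bl x A := by
  unfold PA
  refine Finset.prod_pos fun i _ => ?_
  unfold sq
  have h : 0 ≤ ∑ k, (if bl k = i then x k ^ 2 else 0) := by
    refine Finset.sum_nonneg fun k _ => ?_
    split_ifs
    · positivity
    · exact le_rfl
  linarith

/-- `Hv` of a vector which meets only one block, at a coordinate of this block. -/
private theorem B4_blk (c : Sct bl → ℝ) (x v : κ → ℝ) (i : Fin d)
    (hv : ∀ k, v k ≠ 0 → bl k = i) (k : κ) (hk : bl k = i) :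
    Hv bl c x v k = PA bl x {i} * v k := by
  unfold Hv
  rw [Finset.sum_eq_single k]
  · unfold H
    rw [if_pos rfl, if_pos rfl, hk]
  · intro l _ hlk
    by_cases hl : v l = 0
    · rw [hl, mul_zero]
    · have h1 := hv l hl
      unfold H
      rw [if_pos (by rw [hk, h1]), if_neg (Ne.symm hlk), zero_mul]
  · intro h
    exact absurd (Finset.mem_univ k) h

/-- A kernel vector cannot meet only one block: there `Hv c x v k = PA x {bl k} * v k` and
`PA > 0`. -/
theorem not_one_block (c : Sct bl → ℝ) (x v : κ → ℝ) (i : Fin d) (hv : ∀ k, v k ≠ 0 → bl k = i)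
    (h : Hv bl c x v = 0) : v = 0 := by
  funext k
  by_contra hk
  have hk' : v k ≠ 0 := hk
  have h1 := B4_blk bl c x v i hv k (hv k hk')
  rw [h] at h1
  have h2 := B4_pos bl x {i}
  rcases mul_eq_zero.1 h1.symm with h3 | h3
  · exact h2.ne' h3
  · exact hk' h3

/-- A linear map is surjective if every functional which vanishes on its image is zero. -/
private theorem B4_surj {E : Type} [AddCommGroup E] [Module ℝ E]
    (L : E →ₗ[ℝ] (κ → ℝ) × (κ → ℝ) × ℝ)
    (h : ∀ (a u : κ → ℝ) (r : ℝ),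
      (∀ e, ∑ k, a k * (L e).1 k + ∑ k, u k * (L e).2.1 k + r * (L e).2.2 = 0) →
      a = 0 ∧ u = 0 ∧ r = 0) : Function.Surjective L := by
  by_contra hs
  rw [← LinearMap.range_eq_top] at hs
  obtain ⟨f, hf0, hf⟩ := Submodule.exists_le_ker_of_lt_top _ (lt_top_iff_ne_top.2 hs)
  have key : ∀ y : (κ → ℝ) × (κ → ℝ) × ℝ, f y =
      ∑ k, f ((fun j => if k = j then 1 else 0), 0, 0) * y.1 k +
      ∑ k, f (0, (fun j => if k = j then 1 else 0), 0) * y.2.1 k + f (0, 0, 1) * y.2.2 := by
    intro y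
    have e0 : y = (y.1, 0, 0) + (0, y.2.1, 0) + y.2.2 • (0, 0, 1) := by
      ext <;> simp
    have e1 : f (y.1, 0, 0) = ∑ k, f ((fun j => if k = j then 1 else 0), 0, 0) * y.1 k := by
      have := LinearMap.pi_apply_eq_sum_univ
        (f.comp (LinearMap.inl ℝ (κ → ℝ) ((κ → ℝ) × ℝ))) y.1
      simp only [LinearMap.comp_apply, LinearMap.inl_apply, smul_eq_mul] at this
      rw [show ((y.1, 0, 0) : (κ → ℝ) × (κ → ℝ) × ℝ) = (y.1, 0) from rfl, this]
      exact Finset.sum_congr rfl fun k _ => mul_comm _ _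
    have e2 : f (0, y.2.1, 0) = ∑ k, f (0, (fun j => if k = j then 1 else 0), 0) * y.2.1 k := by
      have := LinearMap.pi_apply_eq_sum_univ
        (f.comp ((LinearMap.inr ℝ (κ → ℝ) ((κ → ℝ) × ℝ)).comp
          (LinearMap.inl ℝ (κ → ℝ) ℝ))) y.2.1
      simp only [LinearMap.comp_apply, LinearMap.inl_apply, LinearMap.inr_apply,
        smul_eq_mul] at this
      rw [this]
      exact Finset.sum_congr rfl fun k _ => mul_comm _ _
    conv_lhs => rw [e0]
    rw [map_add, map_add, e1, e2, map_smul, smul_eq_mul, mul_comm y.2.2]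
  obtain ⟨ha, hu, hr⟩ := h (fun k => f ((fun j => if k = j then 1 else 0), 0, 0))
    (fun k => f (0, (fun j => if k = j then 1 else 0), 0)) (f (0, 0, 1)) (by
      intro e
      have h1 : f (L e) = 0 := hf (LinearMap.mem_range_self L e)
      rw [key] at h1
      exact h1)
  apply hf0
  refine LinearMap.ext fun y => ?_
  rw [key y, hr]
  have h1 : ∀ k, f ((fun j => if k = j then 1 else 0), 0, 0) = 0 := fun k => congrFun ha k
  have h2 : ∀ k, f (0, (fun j => if k = j then 1 else 0), 0) = 0 := fun k => congrFun hu k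
  simp only [h1, h2, zero_mul, Finset.sum_const_zero, add_zero, LinearMap.zero_apply]

/-- The derivative along a line. -/
private theorem B4_line {E F : Type} [NormedAddCommGroup E] [NormedSpace ℝ E]
    [NormedAddCommGroup F] [NormedSpace ℝ F] (Θ : E → F) (p q : E) (y z : F)
    (hd : DifferentiableAt ℝ Θ p)
    (h : ∀ t : ℝ, Θ (p + t • q) = Θ p + t • y + t ^ 2 • z) : fderiv ℝ Θ p q = y := by
  rw [← hd.lineDeriv_eq_fderiv]
  unfold lineDeriv
  simp_rw [h]
  have h1 : HasDerivAt (fun t : ℝ => Θ p + t • y + t ^ 2 • z)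
      (((1 : ℝ) • y) + ((2 : ℕ) * (0 : ℝ) ^ (2 - 1) * 1) • z) 0 := by
    have a1 : HasDerivAt (fun t : ℝ => Θ p + t • y) ((1 : ℝ) • y) 0 :=
      ((hasDerivAt_id (0 : ℝ)).smul_const y).const_add (Θ p)
    have a2 : HasDerivAt (fun t : ℝ => t ^ 2 • z) (((2 : ℕ) * (0 : ℝ) ^ (2 - 1) * 1) • z) 0 :=
      ((hasDerivAt_id (0 : ℝ)).pow 2).smul_const z
    exact a1.add a2
  rw [h1.deriv]
  simp

/-- Extension by zero. -/
private def B4_ext (i j : Fin d) (w : {k // bl k = i ∨ bl k = j} → ℝ) : κ → ℝ :=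
  fun k => if h : bl k = i ∨ bl k = j then w ⟨k, h⟩ else 0

private theorem B4_ext_supp (i j : Fin d) (w : {k // bl k = i ∨ bl k = j} → ℝ) (k : κ)
    (h : B4_ext bl i j w k ≠ 0) : bl k = i ∨ bl k = j := by
  by_contra hk
  exact h (dif_neg hk)

private theorem B4_ext_res (i j : Fin d) (v : κ → ℝ) (hv : ∀ k, v k ≠ 0 → bl k = i ∨ bl k = j) :
    B4_ext bl i j (fun k => v k.1) = v := by
  funext k
  unfold B4_ext
  split_ifs with h
  · rfl
  · by_contra h1
    exact h (hv k (Ne.symm h1))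

private theorem B4_ext_add (i j : Fin d) (w w' : {k // bl k = i ∨ bl k = j} → ℝ) :
    B4_ext bl i j (w + w') = B4_ext bl i j w + B4_ext bl i j w' := by
  funext k
  simp only [B4_ext, Pi.add_apply]
  split_ifs <;> simp

private theorem B4_ext_smul (i j : Fin d) (t : ℝ) (w : {k // bl k = i ∨ bl k = j} → ℝ) :
    B4_ext bl i j (t • w) = t • B4_ext bl i j w := by
  funext k
  simp only [B4_ext, Pi.smul_apply, smul_eq_mul]
  split_ifs <;> simp

/-- The system. -/
private def B4_Th (i j : Fin d)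
    (p : (Sct bl → ℝ) × (κ → ℝ) × ({k // bl k = i ∨ bl k = j} → ℝ)) :
    (κ → ℝ) × (κ → ℝ) × ℝ :=
  (G bl p.1 p.2.1, Hv bl p.1 p.2.1 (B4_ext bl i j p.2.2),
    ∑ k, B4_ext bl i j p.2.2 k ^ 2 - 1)

private theorem B4_smooth (i j : Fin d) : ContDiff ℝ 1 (B4_Th bl i j) := by
  have he : ∀ k, ContDiff ℝ 1
      (fun p : (Sct bl → ℝ) × (κ → ℝ) × ({k // bl k = i ∨ bl k = j} → ℝ) =>
        B4_ext bl i j p.2.2 k) := by
    intro k
    unfold B4_ext
    by_cases h : bl k = i ∨ bl k = j
    · simp only [h, dif_pos]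
      have h1 : ContDiff ℝ 1
          (fun p : (Sct bl → ℝ) × (κ → ℝ) × ({k // bl k = i ∨ bl k = j} → ℝ) => p.2.2) :=
        contDiff_snd.comp contDiff_snd
      exact contDiff_pi.1 h1 ⟨k, h⟩
    · simp only [h, dif_neg, not_false_eq_true]
      exact contDiff_const
  have hp : ContDiff ℝ 1
      (fun p : (Sct bl → ℝ) × (κ → ℝ) × ({k // bl k = i ∨ bl k = j} → ℝ) =>
        ((p.1, p.2.1) : (Sct bl → ℝ) × (κ → ℝ))) :=
    contDiff_fst.prodMk (contDiff_fst.comp contDiff_snd)
  unfold B4_Th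
  refine ContDiff.prodMk ?_ (ContDiff.prodMk ?_ ?_)
  · exact (contDiff_G (𝕜 := ℝ) bl 1).comp hp
  · refine contDiff_pi.2 fun k => ?_
    unfold Hv
    refine ContDiff.sum fun l _ => ?_
    exact ((contDiff_H (𝕜 := ℝ) bl 1 k l).comp hp).mul (he l)
  · exact (ContDiff.sum fun k _ => (he k).pow 2).sub contDiff_const

/-- Directions in the space of parameters. -/
private theorem B4_dir1 (i j : Fin d) (c e : Sct bl → ℝ) (x : κ → ℝ)
    (w : {k // bl k = i ∨ bl k = j} → ℝ) :
    fderiv ℝ (B4_Th bl i j) (c, x, w) (e, 0, 0) =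
      ((fun k => -dS bl e x {k}),
        (fun k => -∑ l, if bl k = bl l then 0 else dS bl e x {k, l} * B4_ext bl i j w l), 0) := by
  refine B4_line (B4_Th bl i j) (c, x, w) (e, 0, 0) _ 0
    ((B4_smooth bl i j).differentiable (by norm_num) _) fun t => ?_
  have h0 : ((c, x, w) + t • (e, 0, 0) :
      (Sct bl → ℝ) × (κ → ℝ) × ({k // bl k = i ∨ bl k = j} → ℝ)) = (c + t • e, x, w) := by
    ext <;> simp
  rw [h0]
  refine Prod.ext ?_ (Prod.ext ?_ ?_)
  · funext k
    simp only [B4_Th, G_add, dS_smul, Prod.fst_add, Prod.smul_fst, Pi.add_apply, Pi.smul_apply,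
      smul_eq_mul, Prod.fst_zero, Pi.zero_apply]
    ring
  · funext k
    simp only [B4_Th, Hv_add, dS_smul, Prod.fst_add, Prod.smul_fst, Pi.add_apply, Pi.smul_apply,
      Prod.snd_add, Prod.smul_snd, Prod.snd_zero,
      smul_eq_mul, Prod.fst_zero, Pi.zero_apply]
    rw [mul_neg, Finset.mul_sum, mul_zero, add_zero, sub_eq_add_neg]
    congr 2
    refine Finset.sum_congr rfl fun l _ => ?_
    split_ifs
    · ring
    · ring
  · simp [B4_Th]

/-- Directions in the space of vectors. -/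
private theorem B4_dir2 (i j : Fin d) (c : Sct bl → ℝ) (x : κ → ℝ)
    (w y : {k // bl k = i ∨ bl k = j} → ℝ) :
    fderiv ℝ (B4_Th bl i j) (c, x, w) (0, 0, y) =
      (0, Hv bl c x (B4_ext bl i j y), 2 * ∑ k, B4_ext bl i j w k * B4_ext bl i j y k) := by
  refine B4_line (B4_Th bl i j) (c, x, w) (0, 0, y) _ (0, 0, ∑ k, B4_ext bl i j y k ^ 2)
    ((B4_smooth bl i j).differentiable (by norm_num) _) fun t => ?_
  have h0 : ((c, x, w) + t • (0, 0, y) :
      (Sct bl → ℝ) × (κ → ℝ) × ({k // bl k = i ∨ bl k = j} → ℝ)) = (c, x, w + t • y) := by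
    ext <;> simp
  rw [h0]
  refine Prod.ext ?_ (Prod.ext ?_ ?_)
  · simp [B4_Th]
  · simp only [B4_Th, B4_ext_add, B4_ext_smul, Hv_add_vec, Hv_smul_vec, Prod.snd_add,
      Prod.smul_snd, Prod.fst_add, Prod.smul_fst, smul_zero, add_zero]
  · simp only [B4_Th, B4_ext_add, B4_ext_smul, Prod.snd_add,
      Prod.smul_snd, Pi.add_apply, Pi.smul_apply, smul_eq_mul]
    rw [Finset.mul_sum, Finset.mul_sum, Finset.mul_sum]
    have : ∑ k, (B4_ext bl i j w k + t * B4_ext bl i j y k) ^ 2 =
        ∑ k, B4_ext bl i j w k ^ 2 + ∑ k, t * (2 * (B4_ext bl i j w k * B4_ext bl i j y k)) +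
          ∑ k, t ^ 2 * B4_ext bl i j y k ^ 2 := by
      rw [← Finset.sum_add_distrib, ← Finset.sum_add_distrib]
      exact Finset.sum_congr rfl fun k _ => by ring
    rw [this]
    ring

/-- The derivative is surjective. -/
private theorem B4_onto (i j : Fin d) (hij : i ≠ j) (c : Sct bl → ℝ) (x : κ → ℝ)
    (w : {k // bl k = i ∨ bl k = j} → ℝ) (hker : Hv bl c x (B4_ext bl i j w) = 0)
    (hi : ∃ k, bl k = i ∧ B4_ext bl i j w k ≠ 0) (hj : ∃ k, bl k = j ∧ B4_ext bl i j w k ≠ 0) :
    Function.Surjective (fderiv ℝ (B4_Th bl i j) (c, x, w)) := by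
  refine B4_surj (fderiv ℝ (B4_Th bl i j) (c, x, w)).toLinearMap fun a u r h => ?_
  have hv : ∀ k, B4_ext bl i j w k ≠ 0 → bl k = i ∨ bl k = j := B4_ext_supp bl i j w
  set v : κ → ℝ := B4_ext bl i j w with hvdef
  -- directions in the space of parameters
  have d1 : ∀ e : Sct bl → ℝ, ∑ k, a k * dS bl e x {k} +
      ∑ k, u k * ∑ l, (if bl k = bl l then 0 else dS bl e x {k, l} * v l) = 0 := by
    intro e
    have h1 := h (e, 0, 0)
    rw [ContinuousLinearMap.coe_coe, B4_dir1] at h1
    simp only [mul_neg, Finset.sum_neg_distrib, mul_zero, add_zero] at h1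
    linarith
  have ha : a = 0 := by
    funext k
    have hs : ∀ p ∈ ({k} : Finset κ), ∀ q ∈ ({k} : Finset κ), bl p = bl q → p = q := by
      intro p hp q hq _
      rw [Finset.mem_singleton.1 hp, Finset.mem_singleton.1 hq]
    have h1 := d1 (tst bl x ⟨{k}, hs⟩)
    have h2 : ∑ l, a l * dS bl (tst bl x ⟨{k}, hs⟩) x {l} = a k := by
      rw [Finset.sum_eq_single k]
      · rw [dS_tst_self, if_pos rfl, mul_one]
      · intro l _ hl
        rw [dS_tst_self, if_neg (fun h3 => hl (Finset.singleton_injective h3)), mul_zero]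
      · intro h3
        exact absurd (Finset.mem_univ k) h3
    have h3 : ∑ k', u k' * ∑ l, (if bl k' = bl l then 0 else
        dS bl (tst bl x ⟨{k}, hs⟩) x {k', l} * v l) = 0 := by
      refine Finset.sum_eq_zero fun k' _ => ?_
      rw [Finset.sum_eq_zero, mul_zero]
      intro l _
      split_ifs with h4
      · rfl
      · rw [dS_tst_self, if_neg, zero_mul]
        intro h5
        have h5' : ({k', l} : Finset κ) = {k} := h5
        have h6 : k' ∈ ({k} : Finset κ) := by rw [← h5']; simp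
        have h7 : l ∈ ({k} : Finset κ) := by rw [← h5']; simp
        rw [Finset.mem_singleton] at h6 h7
        exact h4 (by rw [h6, h7])
    rw [h2, h3, add_zero] at h1
    exact h1
  have huv : ∀ k l, bl k ≠ bl l → u k * v l + u l * v k = 0 := by
    intro k l hkl
    have hne : k ≠ l := fun h => hkl (by rw [h])
    have hs : ∀ p ∈ ({k, l} : Finset κ), ∀ q ∈ ({k, l} : Finset κ), bl p = bl q → p = q := by
      intro p hp q hq hpq
      rw [Finset.mem_insert, Finset.mem_singleton] at hp hq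
      rcases hp with rfl | rfl <;> rcases hq with rfl | rfl
      · rfl
      · exact absurd hpq hkl
      · exact absurd hpq.symm hkl
      · rfl
    have h1 := d1 (tst bl x ⟨{k, l}, hs⟩)
    simp only [Hv_tst bl x v k l hkl _ hs, ha, Pi.zero_apply, zero_mul,
      Finset.sum_const_zero, zero_add] at h1
    have h2 : ∑ m, u m * (if m = k then v l else if m = l then v k else 0) =
        u k * v l + u l * v k := by
      have h3 : ∀ m, u m * (if m = k then v l else if m = l then v k else 0) =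
          (if m = k then u m * v l else 0) + (if m = l then u m * v k else 0) := by
        intro m
        by_cases h4 : m = k
        · rw [if_pos h4, if_pos h4, if_neg (fun h5 => hne (h4.symm.trans h5)), add_zero]
        · rw [if_neg h4, if_neg h4, zero_add]
          split_ifs
          · rfl
          · rw [mul_zero]
      simp only [h3, Finset.sum_add_distrib, Finset.sum_ite_eq', Finset.mem_univ, if_true]
    rw [h2] at h1
    exact h1
  obtain ⟨q, hq1, hq2, hq3⟩ := two bl v u i j hij hv hi hj huv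
  -- directions in the space of vectors
  have d2 : ∀ k, (bl k = i ∨ bl k = j) → Hv bl c x u k + 2 * r * v k = 0 := by
    intro k hk
    have h1 := h (0, 0, fun l => if l.1 = k then 1 else 0)
    rw [ContinuousLinearMap.coe_coe, B4_dir2] at h1
    have h2 : B4_ext bl i j (fun l => if l.1 = k then 1 else 0) =
        fun l => if l = k then (1 : ℝ) else 0 := by
      funext l
      unfold B4_ext
      by_cases h3 : bl l = i ∨ bl l = j
      · rw [dif_pos h3]
      · rw [dif_neg h3, if_neg (fun h4 : l = k => h3 (by rw [h4]; exact hk))]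
    rw [h2] at h1
    simp only [Pi.zero_apply, mul_zero, Finset.sum_const_zero, zero_add] at h1
    rw [Hv_symm] at h1
    simp only [ite_mul, one_mul, zero_mul, mul_ite, mul_one, mul_zero, Finset.sum_ite_eq',
      Finset.mem_univ, if_true] at h1
    rw [← hvdef] at h1
    linarith
  have hkv : Hv bl c x v = 0 := hker
  have hHu : ∀ t : ℝ, Hv bl c x (u + t • v) = Hv bl c x u := by
    intro t
    rw [Hv_add_vec, Hv_smul_vec, hkv, smul_zero, add_zero]
  have e1 : ∀ k, bl k = i → Hv bl c x u k = PA bl x {i} * (2 * q * v k) := by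
    intro k hk
    rw [← hHu q, B4_blk bl c x (u + q • v) i _ k hk]
    · rw [Pi.add_apply, Pi.smul_apply, smul_eq_mul, hq1 k hk]
      ring
    · intro l hl
      by_contra hli
      apply hl
      rw [Pi.add_apply, Pi.smul_apply, smul_eq_mul]
      by_cases hlj : bl l = j
      · rw [hq2 l hlj]; ring
      · have : v l = 0 := by
          by_contra h3
          rcases hv l h3 with h4 | h4
          · exact hli h4
          · exact hlj h4
        rw [hq3 l hli hlj, this]; ring
  have e2 : ∀ k, bl k = j → Hv bl c x u k = PA bl x {j} * (-(2 * q * v k)) := by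
    intro k hk
    rw [← hHu (-q), B4_blk bl c x (u + (-q) • v) j _ k hk]
    · rw [Pi.add_apply, Pi.smul_apply, smul_eq_mul, hq2 k hk]
      ring
    · intro l hl
      by_contra hlj
      apply hl
      rw [Pi.add_apply, Pi.smul_apply, smul_eq_mul]
      by_cases hli : bl l = i
      · rw [hq1 l hli]; ring
      · have : v l = 0 := by
          by_contra h3
          rcases hv l h3 with h4 | h4
          · exact hli h4
          · exact hlj h4
        rw [hq3 l hli hlj, this]; ring
  obtain ⟨k, hk, hvk⟩ := hi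
  obtain ⟨l, hl, hvl⟩ := hj
  have f1 := d2 k (Or.inl hk)
  have f2 := d2 l (Or.inr hl)
  rw [e1 k hk] at f1
  rw [e2 l hl] at f2
  have g1 : q * PA bl x {i} + r = 0 := by
    have : 2 * v k * (q * PA bl x {i} + r) = 0 := by linarith
    rcases mul_eq_zero.1 this with h3 | h3
    · exact absurd h3 (mul_ne_zero two_ne_zero hvk)
    · exact h3
  have g2 : -(q * PA bl x {j}) + r = 0 := by
    have : 2 * v l * (-(q * PA bl x {j}) + r) = 0 := by linarith
    rcases mul_eq_zero.1 this with h3 | h3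
    · exact absurd h3 (mul_ne_zero two_ne_zero hvl)
    · exact h3
  have hq : q = 0 := by
    have h3 : q * (PA bl x {i} + PA bl x {j}) = 0 := by linarith
    rcases mul_eq_zero.1 h3 with h4 | h4
    · exact h4
    · have := B4_pos bl x {i}
      have := B4_pos bl x {j}
      linarith
  refine ⟨ha, ?_, by rw [hq] at g1; linarith⟩
  funext m
  by_cases hmi : bl m = i
  · rw [hq1 m hmi, hq, zero_mul]; rfl
  · by_cases hmj : bl m = j
    · rw [hq2 m hmj, hq, zero_mul, neg_zero]; rfl
    · exact hq3 m hmi hmj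

/-- Two given blocks.

Proof. `thin_submersion` for `(c, x, v) ↦ (G c x, Hv c x v, ∑ v² - 1)`, `v` in the space
`{k // bl k = i ∨ bl k = j} → ℝ` (extended by `0`), and the first projection; `Z` is the set of the
solutions with `v` not zero on block `i` and not zero on block `j` (the other solutions do not
exist, `not_one_block`). The dimensions are `D + m + m'` and `2 m + 1`, and `m' + 1 ≤ m` as there is
a third block, so `D + m + m' ≤ (D - 2) + 2m + 1`. The derivative is surjective: let the functional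
`(a, u, r)` vanish on its image. Directions `(e, 0, 0)`: as in `thin3`, `a = 0` and
`u k v l + u l v k = 0` for `bl k ≠ bl l`; so by `two` `u = q v` on block `i`, `u = - q v` on block
`j` and `u = 0` on the other blocks. Directions `(0, 0, w)`: `∑ u (Hv w) + 2 r ∑ v w = 0`, and
`∑ u (Hv w) = ∑ w (Hv u)`. From `Hv v = 0`: on block `i` the part of `Hv v` coming from block `j` is
`- PA x {i} v`, so `Hv u = q PA x {i} v + q PA x {i} v = 2 q PA x {i} v` on block `i`, and likewise
`Hv u = - 2 q PA x {j} v` on block `j`. So `2 q PA x {i} + 2 r = 0` and `- 2 q PA x {j} + 2 r = 0`,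
and `q (PA x {i} + PA x {j}) = 0`, `q = 0`, `r = 0`. -/
theorem thin2_pair (i j g : Fin d) (hij : i ≠ j) (hgi : g ≠ i) (hgj : g ≠ j)
    (hg : ∃ k, bl k = g) (hD : 2 ≤ Fintype.card (Sct bl)) :
    Thin (Fintype.card (Sct bl) - 2) {c : Sct bl → ℝ | ∃ x v : κ → ℝ, G bl c x = 0 ∧
      Hv bl c x v = 0 ∧ v ≠ 0 ∧ ∀ k, v k ≠ 0 → bl k = i ∨ bl k = j} := by
  have hcard : Fintype.card {k // bl k = i ∨ bl k = j} < Fintype.card κ := by
    obtain ⟨k, hk⟩ := hg
    refine Fintype.card_subtype_lt (x := k) ?_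
    rintro (h | h)
    · exact hgi (hk.symm.trans h)
    · exact hgj (hk.symm.trans h)
  have hmain := thin_submersion (r := Fintype.card (Sct bl) - 2) (B4_Th bl i j)
    (B4_smooth bl i j) Prod.fst contDiff_fst
    {p | B4_Th bl i j p = 0 ∧ (∃ k, bl k = i ∧ B4_ext bl i j p.2.2 k ≠ 0) ∧
      (∃ k, bl k = j ∧ B4_ext bl i j p.2.2 k ≠ 0)}
    (by
      rintro ⟨c, x, w⟩ ⟨h0, hi, hj⟩
      refine ⟨h0, ?_⟩
      have h1 : (B4_Th bl i j (c, x, w)).2.1 = 0 := by rw [h0]; rfl
      exact B4_onto bl i j hij c x w h1 hi hj)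
    (by
      rw [Module.finrank_prod, Module.finrank_prod, Module.finrank_prod, Module.finrank_prod,
        Module.finrank_fintype_fun_eq_card, Module.finrank_fintype_fun_eq_card,
        Module.finrank_fintype_fun_eq_card, Module.finrank_self]
      omega)
  refine thin_mono hmain ?_
  rintro c ⟨x, v, hG, hv, hv0, hsupp⟩
  set s : ℝ := ∑ k, v k ^ 2 with hs
  have hspos : 0 < s := by
    obtain ⟨k, hk⟩ := Function.ne_iff.1 hv0
    have h1 : v k ^ 2 ≤ s := Finset.single_le_sum (f := fun k => v k ^ 2)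
      (fun k _ => sq_nonneg (v k)) (Finset.mem_univ k)
    have h2 : 0 < v k ^ 2 := by
      have : v k ≠ 0 := hk
      positivity
    linarith
  set t : ℝ := (Real.sqrt s)⁻¹ with ht
  have ht0 : t ≠ 0 := inv_ne_zero (Real.sqrt_pos.2 hspos).ne'
  have hts : t ^ 2 * s = 1 := by
    rw [ht, inv_pow, Real.sq_sqrt hspos.le]
    exact inv_mul_cancel₀ hspos.ne'
  have hsupp' : ∀ k, (t • v) k ≠ 0 → bl k = i ∨ bl k = j := by
    intro k hk
    refine hsupp k fun h => hk ?_
    rw [Pi.smul_apply, h, smul_zero]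
  have hext : B4_ext bl i j (fun k => (t • v) k.1) = t • v := B4_ext_res bl i j _ hsupp'
  have hm : ∀ i' j' : Fin d, (∀ k, v k ≠ 0 → bl k = i' ∨ bl k = j') →
      ∃ k, bl k = i' ∧ (t • v) k ≠ 0 := by
    intro i' j' h'
    by_contra hne
    push Not at hne
    refine hv0 (not_one_block bl c x v j' ?_ hv)
    intro k hk
    rcases h' k hk with h1 | h1
    · have h2 := hne k h1
      rw [Pi.smul_apply, smul_eq_mul] at h2
      exact absurd h2 (mul_ne_zero ht0 hk)
    · exact h1
  refine ⟨(c, x, fun k => (t • v) k.1), ⟨?_, ?_, ?_⟩, rfl⟩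
  · refine Prod.ext hG (Prod.ext ?_ ?_)
    · show Hv bl c x (B4_ext bl i j (fun k => (t • v) k.1)) = 0
      rw [hext, Hv_smul_vec, hv, smul_zero]
    · show ∑ k, B4_ext bl i j (fun k => (t • v) k.1) k ^ 2 - 1 = 0
      rw [hext]
      simp only [Pi.smul_apply, smul_eq_mul, mul_pow]
      rw [← Finset.mul_sum, ← hs, hts, sub_self]
  · show ∃ k, bl k = i ∧ B4_ext bl i j (fun k => (t • v) k.1) k ≠ 0
    rw [hext]
    exact hm i j hsupp
  · show ∃ k, bl k = j ∧ B4_ext bl i j (fun k => (t • v) k.1) k ≠ 0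
    rw [hext]
    exact hm j i fun k hk => (hsupp k hk).symm

/-- All vectors which do not meet three blocks.

Proof. The nonzero coordinates of such a `v` lie in at most two blocks; `thin2_pair`, `thin_iUnion`
over the pairs, `not_one_block`. -/
theorem thin2 (hd : 3 ≤ d) (hbl : ∀ i, ∃ k, bl k = i) (hD : 2 ≤ Fintype.card (Sct bl)) :
    Thin (Fintype.card (Sct bl) - 2) {c : Sct bl → ℝ | ∃ x v : κ → ℝ, G bl c x = 0 ∧
      Hv bl c x v = 0 ∧ v ≠ 0 ∧ ¬ M3 bl v} := by
  have h1 := thin_iUnion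
    (ι := {p : Fin d × Fin d × Fin d // p.1 ≠ p.2.1 ∧ p.2.2 ≠ p.1 ∧ p.2.2 ≠ p.2.1})
    (fun p => thin2_pair bl p.1.1 p.1.2.1 p.1.2.2 p.2.1 p.2.2.1 p.2.2.2 (hbl _) hD)
  refine thin_mono h1 ?_
  rintro c ⟨x, v, hG, hv, hv0, hM⟩
  have hthird : ∀ i j : Fin d, ∃ g : Fin d, g ≠ i ∧ g ≠ j := by
    intro i j
    by_contra h
    push Not at h
    have h2 : (Finset.univ : Finset (Fin d)) ⊆ {i, j} := by
      intro g _
      rw [Finset.mem_insert, Finset.mem_singleton]
      by_cases hgi : g = i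
      · exact Or.inl hgi
      · exact Or.inr (h g hgi)
    have h3 := Finset.card_le_card h2
    rw [Finset.card_univ, Fintype.card_fin] at h3
    have h4 := Finset.card_le_two (a := i) (b := j)
    omega
  obtain ⟨k0, hk0⟩ := Function.ne_iff.1 hv0
  have hk0' : v k0 ≠ 0 := hk0
  obtain ⟨j, hj, hsupp⟩ : ∃ j, j ≠ bl k0 ∧ ∀ k, v k ≠ 0 → bl k = bl k0 ∨ bl k = j := by
    by_cases h : ∃ k1, v k1 ≠ 0 ∧ bl k1 ≠ bl k0
    · obtain ⟨k1, hk1, hk10⟩ := h
      refine ⟨bl k1, hk10, fun k hk => ?_⟩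
      by_contra h2
      push Not at h2
      exact hM ⟨k0, k1, k, hk0', hk1, hk, Ne.symm hk10, Ne.symm h2.1, Ne.symm h2.2⟩
    · push Not at h
      obtain ⟨j, hj, _⟩ := hthird (bl k0) (bl k0)
      exact ⟨j, hj, fun k hk => Or.inl (h k hk)⟩
  obtain ⟨g, hg1, hg2⟩ := hthird (bl k0) j
  exact Set.mem_iUnion.2 ⟨⟨(bl k0, j, g), Ne.symm hj, hg1, hg2⟩, x, v, hG, hv, hv0, hsupp⟩

end

end Pool.Agent.MPb0eQ
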