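import Mathlib
import Pool.Agent.Lib.MP_b0e20b_ag_Q.A1b
import Pool.Agent.Lib.MP_b0e20b_ag_Q.B1
import Pool.Agent.Lib.MP_b0e20b_ag_Q.B1b
import Pool.Agent.Lib.MP_b0e20b_ag_Q.B2
import Pool.Agent.Lib.MP_b0e20b_ag_Q.B2b

/-!
# MP_b0e20b_ag, all formats: parameters with two folds
-/

set_option autoImplicit false

open scoped BigOperators

namespace Pool.Agent.MPb0eQ

section

variable {κ : Type} [Fintype κ] [DecidableEq κ] {d : ℕ} (bl : κ → Fin d)

/-- The equations for one point. -/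
private noncomputable def B5T (w : (Sct bl → ℝ) × (κ → ℝ) × (κ → ℝ)) :
    (κ → ℝ) × (κ → ℝ) × ℝ :=
  (G bl w.1 w.2.1, Hv bl w.1 w.2.1 w.2.2, ∑ k, w.2.2 k ^ 2 - 1)

private theorem B5_contDiff_Hv : ContDiff ℝ 1
    (fun w : (Sct bl → ℝ) × (κ → ℝ) × (κ → ℝ) => Hv bl w.1 w.2.1 w.2.2) := by
  refine contDiff_pi.2 fun k => ?_
  unfold Hv
  refine ContDiff.sum fun l _ => ?_
  have h1 : ContDiff ℝ 1 (fun w : (Sct bl → ℝ) × (κ → ℝ) => H bl w.1 w.2 k l) :=
    contDiff_H bl (𝕜 := ℝ) 1 k l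
  have h2 : ContDiff ℝ 1 (fun w : (Sct bl → ℝ) × (κ → ℝ) × (κ → ℝ) => (w.1, w.2.1)) :=
    contDiff_fst.prodMk (contDiff_fst.comp contDiff_snd)
  have h3 : ContDiff ℝ 1 (fun w : (Sct bl → ℝ) × (κ → ℝ) × (κ → ℝ) => w.2.2 l) :=
    (contDiff_apply ℝ ℝ l).comp (contDiff_snd.comp contDiff_snd)
  exact (h1.comp h2).mul h3

private theorem B5_contDiff : ContDiff ℝ 1 (B5T bl) := by
  have hG : ContDiff ℝ 1 (fun w : (Sct bl → ℝ) × (κ → ℝ) => G bl w.1 w.2) :=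
    contDiff_G bl (𝕜 := ℝ) 1
  have h2 : ContDiff ℝ 1 (fun w : (Sct bl → ℝ) × (κ → ℝ) × (κ → ℝ) => (w.1, w.2.1)) :=
    contDiff_fst.prodMk (contDiff_fst.comp contDiff_snd)
  have a1 : ContDiff ℝ 1 (fun w : (Sct bl → ℝ) × (κ → ℝ) × (κ → ℝ) => G bl w.1 w.2.1) :=
    hG.comp h2
  have a3 : ContDiff ℝ 1 (fun w : (Sct bl → ℝ) × (κ → ℝ) × (κ → ℝ) =>
      ∑ k, w.2.2 k ^ 2 - 1) := by
    refine ContDiff.sub (ContDiff.sum fun k _ => ?_) contDiff_const
    exact ((contDiff_apply ℝ ℝ k).comp (contDiff_snd.comp contDiff_snd)).pow 2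
  unfold B5T
  exact a1.prodMk ((B5_contDiff_Hv bl).prodMk a3)

private theorem B5_dual1 {κ : Type} [Fintype κ] [DecidableEq κ] (g : (κ → ℝ) →ₗ[ℝ] ℝ) :
    ∃ a : κ → ℝ, ∀ y, g y = ∑ k, a k * y k := by
  refine ⟨fun k => g (fun j => if k = j then 1 else 0), fun y => ?_⟩
  rw [LinearMap.pi_apply_eq_sum_univ g y]
  refine Finset.sum_congr rfl fun k _ => ?_
  rw [smul_eq_mul, mul_comm]

private theorem B5_dual {κ : Type} [Fintype κ] [DecidableEq κ]
    (f : (κ → ℝ) × (κ → ℝ) × ℝ →ₗ[ℝ] ℝ) :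
    ∃ (a u : κ → ℝ) (r : ℝ), ∀ y : (κ → ℝ) × (κ → ℝ) × ℝ,
      f y = ∑ k, a k * y.1 k + ∑ k, u k * y.2.1 k + r * y.2.2 := by
  obtain ⟨a, ha⟩ := B5_dual1 (f ∘ₗ LinearMap.inl ℝ (κ → ℝ) ((κ → ℝ) × ℝ))
  obtain ⟨u, hu⟩ := B5_dual1 (f ∘ₗ LinearMap.inr ℝ (κ → ℝ) ((κ → ℝ) × ℝ) ∘ₗ
    LinearMap.inl ℝ (κ → ℝ) ℝ)
  refine ⟨a, u, f (0, 0, 1), ?_⟩
  rintro ⟨y1, y2, y3⟩
  have h1 := ha y1
  have h2 := hu y2
  simp only [LinearMap.comp_apply, LinearMap.inl_apply, LinearMap.inr_apply] at h1 h2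
  have h3 : f (0, 0, y3) = f (0, 0, 1) * y3 := by
    have : ((0, 0, y3) : (κ → ℝ) × (κ → ℝ) × ℝ) = y3 • ((0, 0, 1) : (κ → ℝ) × (κ → ℝ) × ℝ) := by
      simp
    rw [this, map_smul, smul_eq_mul, mul_comm]
  have hsum : ((y1, y2, y3) : (κ → ℝ) × (κ → ℝ) × ℝ) = (y1, 0) + (0, y2, 0) + (0, 0, y3) := by
    simp
  rw [hsum, map_add, map_add, h3, h1, h2]
  simp

/-- The conclusion for one of the two points. -/
private theorem B5_one (c : Sct bl → ℝ) (x v : κ → ℝ) (h : Fd bl c x v) (a u : κ → ℝ) (r : ℝ)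
    (h1 : ∀ w : κ → ℝ, ∑ k, u k * Hv bl c x w k + r * ∑ k, 2 * (v k * w k) = 0)
    (h2 : ∀ w : κ → ℝ, ∑ k, a k * Hv bl c x w k +
      ∑ k, u k * fderiv ℝ (fun x' => Hv bl c x' v) x w k = 0) :
    r = 0 ∧ u = 0 ∧ ∃ γ : ℝ, a = γ • v := by
  obtain ⟨hG, hv1, hHv, hker, hcub, -⟩ := h
  have hzero : ∀ b : κ → ℝ, (∀ w : κ → ℝ, ∑ k, b k * Hv bl c x w k = 0) → Hv bl c x b = 0 := by
    intro b hb
    funext k
    have h3 := hb (fun j => if j = k then 1 else 0)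
    rw [Hv_symm] at h3
    simpa using h3
  have hr : r = 0 := by
    have h3 := h1 v
    rw [hHv] at h3
    have h4 : ∑ k, 2 * (v k * v k) = 2 := by
      rw [← Finset.mul_sum]
      have : ∑ k, v k * v k = ∑ k, v k ^ 2 := Finset.sum_congr rfl fun k _ => by ring
      rw [this, hv1, mul_one]
    rw [h4] at h3
    simpa using h3
  obtain ⟨β, hβ⟩ := hker u (hzero u fun w => by simpa [hr] using h1 w)
  have hcubv : ∑ k, v k * fderiv ℝ (fun x' => Hv bl c x' v) x v k = cub bl c x v := by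
    rw [← cub_eq]
    have : (fun x' => Hv bl c x' v) = fun x' => fderiv ℝ (G bl c) x' v := by
      funext x'
      rw [fderiv_G]
    rw [this]
  have hβ0 : β = 0 := by
    have h3 := h2 v
    rw [hHv] at h3
    have h4 : ∑ k, u k * fderiv ℝ (fun x' => Hv bl c x' v) x v k = β * cub bl c x v := by
      rw [← hcubv, Finset.mul_sum]
      refine Finset.sum_congr rfl fun k _ => ?_
      rw [hβ, Pi.smul_apply, smul_eq_mul, mul_assoc]
    rw [h4] at h3
    simp only [Pi.zero_apply, mul_zero, Finset.sum_const_zero, zero_add, mul_eq_zero] at h3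
    exact h3.resolve_right hcub
  have hu : u = 0 := by rw [hβ, hβ0, zero_smul]
  refine ⟨hr, hu, hker a (hzero a fun w => ?_)⟩
  simpa [hu] using h2 w

/-- The derivative along a line. -/
private theorem B5_line (c e : Sct bl → ℝ) (x v w w' : κ → ℝ) :
    HasDerivAt (fun t : ℝ => B5T bl (c + t • e, x + t • w, v + t • w'))
      (fderiv ℝ (B5T bl) (c, x, v) (e, w, w')) 0 := by
  have hl : HasDerivAt (fun t : ℝ => ((c, x, v) : (Sct bl → ℝ) × (κ → ℝ) × (κ → ℝ)) +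
      t • (e, w, w')) (e, w, w') 0 := by
    have := (hasDerivAt_id (0 : ℝ)).smul_const ((e, w, w') : (Sct bl → ℝ) × (κ → ℝ) × (κ → ℝ))
    simpa using this.const_add ((c, x, v) : (Sct bl → ℝ) × (κ → ℝ) × (κ → ℝ))
  have hd : HasFDerivAt (B5T bl) (fderiv ℝ (B5T bl) (c, x, v))
      (((c, x, v) : (Sct bl → ℝ) × (κ → ℝ) × (κ → ℝ)) + (0 : ℝ) • (e, w, w')) := by
    rw [zero_smul, add_zero]
    exact ((B5_contDiff bl).differentiable one_ne_zero _).hasFDerivAt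
  exact hd.comp_hasDerivAt (0 : ℝ) hl

private theorem B5_lineK {A B : Type} [NormedAddCommGroup A] [NormedSpace ℝ A]
    [NormedAddCommGroup B] [NormedSpace ℝ B] (K : A → B) (x w : A)
    (hK : DifferentiableAt ℝ K x) : HasDerivAt (fun t : ℝ => K (x + t • w)) (fderiv ℝ K x w) 0 := by
  have hl : HasDerivAt (fun t : ℝ => x + t • w) w 0 := by
    have := (hasDerivAt_id (0 : ℝ)).smul_const w
    simpa using this.const_add x
  have hd' : HasFDerivAt K (fderiv ℝ K x) (x + (0 : ℝ) • w) := by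
    rw [zero_smul, add_zero]
    exact hK.hasFDerivAt
  exact hd'.comp_hasDerivAt (0 : ℝ) hl

private theorem B5_lineG (c : Sct bl → ℝ) (x w : κ → ℝ) :
    HasDerivAt (fun t : ℝ => G bl c (x + t • w)) (Hv bl c x w) 0 := by
  have hG : ContDiff ℝ 1 (fun w : (Sct bl → ℝ) × (κ → ℝ) => G bl w.1 w.2) :=
    contDiff_G bl (𝕜 := ℝ) 1
  have hi : ContDiff ℝ 1 (fun x' : κ → ℝ => ((c, x') : (Sct bl → ℝ) × (κ → ℝ))) :=
    contDiff_const.prodMk contDiff_id
  have hGc : ContDiff ℝ 1 (G bl c) := hG.comp hi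
  rw [← fderiv_G]
  exact B5_lineK (G bl c) x w (hGc.differentiable one_ne_zero x)

private theorem B5_lineH (c : Sct bl → ℝ) (x v w : κ → ℝ) :
    HasDerivAt (fun t : ℝ => Hv bl c (x + t • w) v)
      (fderiv ℝ (fun x' => Hv bl c x' v) x w) 0 := by
  have hi : ContDiff ℝ 1 (fun x' : κ → ℝ => ((c, x', v) : (Sct bl → ℝ) × (κ → ℝ) × (κ → ℝ))) :=
    contDiff_const.prodMk (contDiff_id.prodMk contDiff_const)
  have hHc : ContDiff ℝ 1 (fun x' => Hv bl c x' v) := by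
    have h := ContDiff.comp (g := fun w : (Sct bl → ℝ) × (κ → ℝ) × (κ → ℝ) =>
      Hv bl w.1 w.2.1 w.2.2) (B5_contDiff_Hv bl) hi
    exact h
  have h := B5_lineK (fun x' => Hv bl c x' v) x w (hHc.differentiable one_ne_zero x)
  exact h

private theorem B5_lineV (c : Sct bl → ℝ) (x v w : κ → ℝ) :
    HasDerivAt (fun t : ℝ => Hv bl c x (v + t • w)) (Hv bl c x w) 0 := by
  have h3 : (fun t : ℝ => Hv bl c x (v + t • w)) =
      fun t : ℝ => Hv bl c x v + t • Hv bl c x w := by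
    funext t
    rw [Hv_add_vec, Hv_smul_vec]
  rw [h3]
  simpa using ((hasDerivAt_id (0 : ℝ)).smul_const (Hv bl c x w)).const_add (Hv bl c x v)

omit [DecidableEq κ] in
private theorem B5_lineQ (v w : κ → ℝ) : HasDerivAt (fun t : ℝ => ∑ k, (v + t • w) k ^ 2 - 1)
    (∑ k, 2 * (v k * w k)) 0 := by
  have h3 : ∀ k, HasDerivAt (fun t : ℝ => (v + t • w) k ^ 2) (2 * (v k * w k)) 0 := by
    intro k
    have h4 : HasDerivAt (fun t : ℝ => (v + t • w) k) (w k) 0 := by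
      simpa using ((hasDerivAt_id (0 : ℝ)).mul_const (w k)).const_add (v k)
    have h5 := h4.fun_pow 2
    simpa [mul_assoc] using h5
  exact (HasDerivAt.fun_sum fun k _ => h3 k).sub_const 1

/-- The derivative in the direction of the point. -/
private theorem B5_dx (c : Sct bl → ℝ) (x v w : κ → ℝ) :
    fderiv ℝ (B5T bl) (c, x, v) (0, w, 0) =
      (Hv bl c x w, fderiv ℝ (fun x' => Hv bl c x' v) x w, 0) := by
  have h1 := B5_line bl c 0 x v w 0
  have h2 : HasDerivAt (fun t : ℝ => B5T bl (c + t • 0, x + t • w, v + t • 0))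
      (Hv bl c x w, fderiv ℝ (fun x' => Hv bl c x' v) x w, 0) 0 := by
    simp only [smul_zero, add_zero]
    have h3 : HasDerivAt (fun _ : ℝ => ∑ k, v k ^ 2 - 1) (0 : ℝ) 0 := hasDerivAt_const _ _
    exact (B5_lineG bl c x w).prodMk ((B5_lineH bl c x v w).prodMk h3)
  exact h1.unique h2

/-- The derivative in the direction of the vector. -/
private theorem B5_dv (c : Sct bl → ℝ) (x v w : κ → ℝ) :
    fderiv ℝ (B5T bl) (c, x, v) (0, 0, w) =
      (0, Hv bl c x w, ∑ k, 2 * (v k * w k)) := by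
  have h1 := B5_line bl c 0 x v 0 w
  have h2 : HasDerivAt (fun t : ℝ => B5T bl (c + t • 0, x + t • 0, v + t • w))
      (0, Hv bl c x w, ∑ k, 2 * (v k * w k)) 0 := by
    simp only [smul_zero, add_zero]
    have h3 : HasDerivAt (fun _ : ℝ => G bl c x) (0 : κ → ℝ) 0 := hasDerivAt_const _ _
    exact h3.prodMk ((B5_lineV bl c x v w).prodMk (B5_lineQ v w))
  exact h1.unique h2

/-- The first component of the derivative in the direction of the parameters. -/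
private theorem B5_dc (c e : Sct bl → ℝ) (x v : κ → ℝ) :
    (fderiv ℝ (B5T bl) (c, x, v) (e, 0, 0)).1 = fun k => -dS bl e x {k} := by
  have h1 := B5_line bl c e x v 0 0
  have h1' : HasDerivAt (fun t : ℝ => (B5T bl (c + t • e, x + t • 0, v + t • 0)).1)
      (fderiv ℝ (B5T bl) (c, x, v) (e, 0, 0)).1 0 :=
    (ContinuousLinearMap.fst ℝ (κ → ℝ) ((κ → ℝ) × ℝ)).hasFDerivAt.comp_hasDerivAt (0 : ℝ) h1
  have h2 : HasDerivAt (fun t : ℝ => (B5T bl (c + t • e, x + t • 0, v + t • 0)).1)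
      (fun k => -dS bl e x {k}) 0 := by
    have h3 : (fun t : ℝ => (B5T bl (c + t • e, x + t • 0, v + t • 0)).1) =
        fun t : ℝ => G bl c x + t • (fun k => -dS bl e x {k}) := by
      funext t k
      simp only [smul_zero, add_zero, B5T, G_add, dS_smul, Pi.add_apply, Pi.smul_apply,
        smul_eq_mul]
      ring
    rw [h3]
    simpa using ((hasDerivAt_id (0 : ℝ)).smul_const (fun k => -dS bl e x {k})).const_add
      (G bl c x)
  exact h1'.unique h2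

/-- The derivative is surjective. -/
private theorem B5_surj (c : Sct bl → ℝ) (x v x' v' : κ → ℝ) (hx : x ≠ x')
    (h1 : Fd bl c x v) (h2 : Fd bl c x' v') :
    Function.Surjective (fun w : (Sct bl → ℝ) × ((κ → ℝ) × (κ → ℝ)) × ((κ → ℝ) × (κ → ℝ)) =>
      (fderiv ℝ (B5T bl) (c, x, v) (w.1, w.2.1), fderiv ℝ (B5T bl) (c, x', v') (w.1, w.2.2))) := by
  set L := (fderiv ℝ (B5T bl) (c, x, v)).toLinearMap with hL
  set L' := (fderiv ℝ (B5T bl) (c, x', v')).toLinearMap with hL'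
  let M : (Sct bl → ℝ) × ((κ → ℝ) × (κ → ℝ)) × ((κ → ℝ) × (κ → ℝ)) →ₗ[ℝ]
      ((κ → ℝ) × (κ → ℝ) × ℝ) × ((κ → ℝ) × (κ → ℝ) × ℝ) :=
    LinearMap.prod
      (L ∘ₗ LinearMap.prod (LinearMap.fst ℝ _ _) (LinearMap.fst ℝ _ _ ∘ₗ LinearMap.snd ℝ _ _))
      (L' ∘ₗ LinearMap.prod (LinearMap.fst ℝ _ _) (LinearMap.snd ℝ _ _ ∘ₗ LinearMap.snd ℝ _ _))
  have hM : ∀ e w w', M (e, w, w') = (L (e, w), L' (e, w')) := fun e w w' => rfl
  suffices hrange : LinearMap.range M = ⊤ from LinearMap.range_eq_top.1 hrange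
  by_contra hne
  obtain ⟨f, hf0, hf⟩ := Submodule.exists_le_ker_of_lt_top _ (lt_top_iff_ne_top.2 hne)
  have hfM : ∀ w, f (M w) = 0 := fun w => LinearMap.mem_ker.1 (hf (LinearMap.mem_range_self _ w))
  obtain ⟨a, u, r, h3⟩ := B5_dual (f ∘ₗ LinearMap.inl ℝ _ _)
  obtain ⟨a', u', r', h3'⟩ := B5_dual (f ∘ₗ LinearMap.inr ℝ _ _)
  simp only [LinearMap.comp_apply, LinearMap.inl_apply, LinearMap.inr_apply] at h3 h3'
  have h4 : ∀ y y', f (y, y') = f (y, 0) + f (0, y') := by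
    intro y y'
    rw [← map_add]
    simp
  have h5 : ∀ e w w', f (L (e, w), 0) + f (0, L' (e, w')) = 0 := by
    intro e w w'
    rw [← h4, ← hM]
    exact hfM _
  have h6 : ∀ w, f (L (0, w), 0) = 0 := by
    intro w
    have := h5 0 w 0
    rwa [show ((0, 0) : (Sct bl → ℝ) × ((κ → ℝ) × (κ → ℝ))) = 0 from rfl, map_zero,
      show ((0, 0) : ((κ → ℝ) × (κ → ℝ) × ℝ) × ((κ → ℝ) × (κ → ℝ) × ℝ)) = 0 from rfl, map_zero,
      add_zero] at this
  have h6' : ∀ w, f (0, L' (0, w)) = 0 := by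
    intro w
    have := h5 0 0 w
    rwa [show ((0, 0) : (Sct bl → ℝ) × ((κ → ℝ) × (κ → ℝ))) = 0 from rfl, map_zero,
      show ((0, 0) : ((κ → ℝ) × (κ → ℝ) × ℝ) × ((κ → ℝ) × (κ → ℝ) × ℝ)) = 0 from rfl, map_zero,
      zero_add] at this
  have hLx : ∀ w, L (0, w, 0) = (Hv bl c x w, fderiv ℝ (fun x' => Hv bl c x' v) x w, 0) :=
    fun w => B5_dx bl c x v w
  have hLv : ∀ w, L (0, 0, w) = (0, Hv bl c x w, ∑ k, 2 * (v k * w k)) :=
    fun w => B5_dv bl c x v w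
  have hLx' : ∀ w, L' (0, w, 0) =
      (Hv bl c x' w, fderiv ℝ (fun x'' => Hv bl c x'' v') x' w, 0) :=
    fun w => B5_dx bl c x' v' w
  have hLv' : ∀ w, L' (0, 0, w) = (0, Hv bl c x' w, ∑ k, 2 * (v' k * w k)) :=
    fun w => B5_dv bl c x' v' w
  obtain ⟨hr, hu, γ, hγ⟩ := B5_one bl c x v h1 a u r
    (fun w => by
      have := h6 (0, w)
      rw [hLv, h3] at this
      simpa using this)
    (fun w => by
      have := h6 (w, 0)
      rw [hLx, h3] at this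
      simpa using this)
  obtain ⟨hr', hu', γ', hγ'⟩ := B5_one bl c x' v' h2 a' u' r'
    (fun w => by
      have := h6' (0, w)
      rw [hLv', h3'] at this
      simpa using this)
    (fun w => by
      have := h6' (w, 0)
      rw [hLx', h3'] at this
      simpa using this)
  have hcon : ∀ e : Sct bl → ℝ,
      γ * ∑ k, v k * dS bl e x {k} + γ' * ∑ k, v' k * dS bl e x' {k} = 0 := by
    intro e
    have h7 := h5 e 0 0
    rw [h3, h3'] at h7
    have h8 : (L (e, 0)).1 = fun k => -dS bl e x {k} := B5_dc bl c e x v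
    have h9 : (L' (e, 0)).1 = fun k => -dS bl e x' {k} := B5_dc bl c e x' v'
    rw [h8, h9, hr, hu, hr', hu', hγ, hγ'] at h7
    simp only [Pi.smul_apply, smul_eq_mul, Pi.zero_apply, zero_mul, Finset.sum_const_zero,
      add_zero, mul_neg, Finset.sum_neg_distrib, mul_assoc, ← Finset.mul_sum] at h7
    linarith
  obtain ⟨h10, h11⟩ := conormal bl x x' v v' γ γ' hx h1.2.2.2.2.2 h2.2.2.2.2.2 hcon
  apply hf0
  refine LinearMap.ext ?_
  rintro ⟨y, y'⟩
  rw [h4, h3, h3', hγ, hγ', h10, h11, hr, hr', hu, hu']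
  simp

/-- Proof. `thin_submersion` for
`(c, x, v, x', v') ↦ (G c x, Hv c x v, ∑ v² - 1, G c x', Hv c x' v', ∑ v'² - 1)` and the first
projection; the dimensions are `D + 4m` and `4m + 2`. The derivative is surjective at the points with
`x ≠ x'`, `Fd c x v`, `Fd c x' v'`: let the functional `(a, u, r, a', u', r')` vanish on its image.
Directions `(0, 0, w, 0, 0)`: `∑ u (Hv w) + 2 r ∑ v w = 0`; for `w = v`: `r = 0`; so `Hv u = 0`
(`Hv_symm`) and `u = β v`. Directions `(0, v, 0, 0, 0)`: `∑ a (Hv v) + β cub c x v = 0` (the derivative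
of `x ↦ ∑ v (Hv v)` in the direction of `v` is `cub`), so `β = 0`, `u = 0`. Directions
`(0, w, 0, 0, 0)`: `∑ a (Hv w) = 0`, so `Hv a = 0`, `a = γ v`. Likewise `u' = 0`, `a' = γ' v'`.
Directions `(e, 0, 0, 0, 0)`: `γ ∑ v k dS e x {k} + γ' ∑ v' k dS e x' {k} = 0` for all `e`, so
`γ = γ' = 0` by `conormal`. -/
theorem thinD (hD : 2 ≤ Fintype.card (Sct bl)) :
    Thin (Fintype.card (Sct bl) - 2) {c : Sct bl → ℝ | ∃ x v x' v' : κ → ℝ, x ≠ x' ∧
      Fd bl c x v ∧ Fd bl c x' v'} := by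
  have i1 : ContDiff ℝ 1 (fun e : (Sct bl → ℝ) × ((κ → ℝ) × (κ → ℝ)) × ((κ → ℝ) × (κ → ℝ)) =>
      (e.1, e.2.1)) := contDiff_fst.prodMk (contDiff_fst.comp contDiff_snd)
  have i2 : ContDiff ℝ 1 (fun e : (Sct bl → ℝ) × ((κ → ℝ) × (κ → ℝ)) × ((κ → ℝ) × (κ → ℝ)) =>
      (e.1, e.2.2)) := contDiff_fst.prodMk (contDiff_snd.comp contDiff_snd)
  have hT : ContDiff ℝ 1 (fun e : (Sct bl → ℝ) × ((κ → ℝ) × (κ → ℝ)) × ((κ → ℝ) × (κ → ℝ)) =>
      (B5T bl (e.1, e.2.1), B5T bl (e.1, e.2.2))) :=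
    ((B5_contDiff bl).comp i1).prodMk ((B5_contDiff bl).comp i2)
  have h := thin_submersion (r := Fintype.card (Sct bl) - 2) _ hT
    (fun e => e.1) contDiff_fst
    {e | e.2.1.1 ≠ e.2.2.1 ∧ Fd bl e.1 e.2.1.1 e.2.1.2 ∧ Fd bl e.1 e.2.2.1 e.2.2.2}
    ?_ ?_
  · refine thin_mono h ?_
    rintro c ⟨x, v, x', v', hx, h1, h2⟩
    exact ⟨(c, (x, v), (x', v')), ⟨hx, h1, h2⟩, rfl⟩
  · rintro ⟨c, ⟨x, v⟩, ⟨x', v'⟩⟩ ⟨hx, h1, h2⟩
    refine ⟨?_, ?_⟩
    · change (B5T bl (c, x, v), B5T bl (c, x', v')) = 0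
      have hz : ∀ x v : κ → ℝ, Fd bl c x v → B5T bl (c, x, v) = 0 := by
        intro x v h
        simp only [B5T, h.1, h.2.1, h.2.2.1, sub_self]
        rfl
      rw [hz x v h1, hz x' v' h2]
      rfl
    · have hd1 : HasFDerivAt (fun e : (Sct bl → ℝ) × ((κ → ℝ) × (κ → ℝ)) × ((κ → ℝ) × (κ → ℝ)) =>
          B5T bl (e.1, e.2.1)) ((fderiv ℝ (B5T bl) (c, x, v)).comp
            ((ContinuousLinearMap.fst ℝ _ _).prod
              ((ContinuousLinearMap.fst ℝ _ _).comp (ContinuousLinearMap.snd ℝ _ _))))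
          (c, (x, v), (x', v')) :=
        HasFDerivAt.comp (g := B5T bl) _
          ((B5_contDiff bl).differentiable one_ne_zero (c, x, v)).hasFDerivAt
          (hasFDerivAt_fst.prodMk (hasFDerivAt_fst.comp _ hasFDerivAt_snd))
      have hd2 : HasFDerivAt (fun e : (Sct bl → ℝ) × ((κ → ℝ) × (κ → ℝ)) × ((κ → ℝ) × (κ → ℝ)) =>
          B5T bl (e.1, e.2.2)) ((fderiv ℝ (B5T bl) (c, x', v')).comp
            ((ContinuousLinearMap.fst ℝ _ _).prod
              ((ContinuousLinearMap.snd ℝ _ _).comp (ContinuousLinearMap.snd ℝ _ _))))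
          (c, (x, v), (x', v')) :=
        HasFDerivAt.comp (g := B5T bl) _
          ((B5_contDiff bl).differentiable one_ne_zero (c, x', v')).hasFDerivAt
          (hasFDerivAt_fst.prodMk (hasFDerivAt_snd.comp _ hasFDerivAt_snd))
      rw [(hd1.prodMk hd2).fderiv]
      exact B5_surj bl c x v x' v' hx h1 h2
  · simp only [Module.finrank_prod, Module.finrank_pi, Module.finrank_self]
    omega

end

end Pool.Agent.MPb0eQ
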