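import Mathlib
import Pool.Agent.Lib.MP_b0e20b_ag_Q.ADefs
import Pool.Agent.Lib.MP_b0e20b_ag_Q.A1
import Pool.Agent.Lib.MP_b0e20b_ag_Q.B1
import Pool.Agent.Lib.MP_b0e20b_ag_Q.B1b
import Pool.Agent.Lib.MP_b0e20b_ag_Q.B2
import Pool.Agent.Lib.MP_b0e20b_ag_Q.B2b
import Pool.Agent.Lib.MP_b0e20b_ag_Q.B3
import Pool.Agent.Lib.MP_b0e20b_ag_Q.B4
import Pool.Agent.Lib.MP_b0e20b_ag_Q.B5

/-!
# MP_b0e20b_ag, all formats: outside a thin set there is at most one simple fold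
-/

set_option autoImplicit false

open scoped BigOperators

namespace Pool.Agent.MPb0eQ

section

variable {κ : Type} [Fintype κ] [DecidableEq κ] {d : ℕ} (bl : κ → Fin d)

/-- Proof. `Fold` with this `v` and the functional `u ↦ ∑ v k u k` (`fderiv_G`, `Hv_symm`,
`cub_eq`). -/
theorem fold_of_Fd (c : Sct bl → ℝ) (x v : κ → ℝ) (h : Fd bl c x v) : Fold (G bl) c x := by
  obtain ⟨h1, h2, h3, h4, h5, -⟩ := h
  have hlam : ∀ w : κ → ℝ, (∑ k, v k • (ContinuousLinearMap.proj k : (κ → ℝ) →L[ℝ] ℝ)) w =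
      ∑ k, v k * w k := by
    intro w
    simp
  refine ⟨h1, v, ∑ k, v k • (ContinuousLinearMap.proj k : (κ → ℝ) →L[ℝ] ℝ), ?_, ?_, ?_, ?_, ?_⟩
  · rintro rfl
    simp at h2
  · rw [fderiv_G, h3]
  · intro u hu
    rw [fderiv_G] at hu
    exact h4 u hu
  · intro u
    rw [hlam, fderiv_G, ← Hv_symm, h3]
    simp
  · rw [hlam, cub_eq]
    exact h5

omit [DecidableEq κ] in
private theorem B6_normalize (w : κ → ℝ) (hw : w ≠ 0) :
    ∃ r : ℝ, r ≠ 0 ∧ ∑ k, (r • w) k ^ 2 = 1 := by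
  have hS : 0 < ∑ k, w k ^ 2 := by
    obtain ⟨k, hk⟩ := Function.ne_iff.mp hw
    have h1 : 0 < w k ^ 2 := by
      have h2 : w k ≠ 0 := hk
      positivity
    exact lt_of_lt_of_le h1 (Finset.single_le_sum (f := fun k => w k ^ 2)
      (fun i _ => sq_nonneg _) (Finset.mem_univ k))
  refine ⟨(Real.sqrt (∑ k, w k ^ 2))⁻¹, (inv_pos.mpr (Real.sqrt_pos.mpr hS)).ne', ?_⟩
  have h3 : ∀ k, ((Real.sqrt (∑ k, w k ^ 2))⁻¹ • w) k ^ 2 = (∑ k, w k ^ 2)⁻¹ * w k ^ 2 := by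
    intro k
    rw [Pi.smul_apply, smul_eq_mul, mul_pow, inv_pow, Real.sq_sqrt hS.le]
  rw [Finset.sum_congr rfl fun k _ => h3 k, ← Finset.mul_sum, inv_mul_cancel₀ hS.ne']

/-- The trichotomy for a solution.

Proof. If `Hv u = 0` has a solution `u ≠ 0` which does not meet three blocks: last case. If not, and
the kernel contains two linearly independent vectors: on the unit circle of a plane in the kernel
(after a choice of two orthonormal vectors `v1, v2`, `θ ↦ cos θ v1 + sin θ v2`) the function `cub` is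
continuous and odd (`cub_smul` with `-1`), so it has a zero: third case. If the kernel is a line
spanned by a unit vector `v`, then `cub c x v` is zero (third case) or not (second case). -/
theorem trich (c : Sct bl → ℝ) (x : κ → ℝ) (hx : G bl c x = 0) :
    (∀ v, Hv bl c x v = 0 → v = 0) ∨ (∃ v, Fd bl c x v) ∨
      (∃ v, Hv bl c x v = 0 ∧ ∑ k, v k ^ 2 = 1 ∧ cub bl c x v = 0 ∧ M3 bl v) ∨
      ∃ v, Hv bl c x v = 0 ∧ v ≠ 0 ∧ ¬ M3 bl v := by
  by_cases h1 : ∃ v, Hv bl c x v = 0 ∧ v ≠ 0 ∧ ¬ M3 bl v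
  · exact Or.inr (Or.inr (Or.inr h1))
  have hM : ∀ v, Hv bl c x v = 0 → v ≠ 0 → M3 bl v := by
    intro v hv hv0
    by_contra hc
    exact h1 ⟨v, hv, hv0, hc⟩
  by_cases h2 : ∀ v, Hv bl c x v = 0 → v = 0
  · exact Or.inl h2
  push Not at h2
  obtain ⟨v0, hv0, hv0'⟩ := h2
  obtain ⟨r, hr, hr1⟩ := B6_normalize v0 hv0'
  obtain ⟨v, hv⟩ : ∃ v, v = r • v0 := ⟨_, rfl⟩
  rw [← hv] at hr1
  have hvk : Hv bl c x v = 0 := by rw [hv, Hv_smul_vec, hv0, smul_zero]
  have hvne : v ≠ 0 := by rw [hv]; exact smul_ne_zero hr hv0'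
  by_cases h3 : ∀ u, Hv bl c x u = 0 → ∃ r : ℝ, u = r • v
  · by_cases h4 : cub bl c x v = 0
    · exact Or.inr (Or.inr (Or.inl ⟨v, hvk, hr1, h4, hM v hvk hvne⟩))
    · exact Or.inr (Or.inl ⟨v, hx, hr1, hvk, h3, h4, hM v hvk hvne⟩)
  push Not at h3
  obtain ⟨u, hu, hu'⟩ := h3
  have hcont : Continuous fun θ : ℝ => cub bl c x (Real.cos θ • v + Real.sin θ • u) := by
    have hc1 := (contDiff_cub bl 0).continuous
    have hc2 : Continuous fun θ : ℝ => ((c, x, Real.cos θ • v + Real.sin θ • u) :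
        (Sct bl → ℝ) × (κ → ℝ) × (κ → ℝ)) := by
      fun_prop
    exact hc1.comp hc2
  have hzero : ∃ θ : ℝ, cub bl c x (Real.cos θ • v + Real.sin θ • u) = 0 := by
    have e0 : cub bl c x (Real.cos 0 • v + Real.sin 0 • u) = cub bl c x v := by
      rw [Real.cos_zero, Real.sin_zero, one_smul, zero_smul, add_zero]
    have e1 : cub bl c x (Real.cos Real.pi • v + Real.sin Real.pi • u) = -cub bl c x v := by
      rw [Real.cos_pi, Real.sin_pi, zero_smul, add_zero, cub_smul]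
      ring
    rcases le_total 0 (cub bl c x v) with h | h
    · exact mem_range_of_exists_le_of_exists_ge hcont ⟨Real.pi, by rw [e1]; linarith⟩
        ⟨0, by rw [e0]; exact h⟩
    · exact mem_range_of_exists_le_of_exists_ge hcont ⟨0, by rw [e0]; exact h⟩
        ⟨Real.pi, by rw [e1]; linarith⟩
  obtain ⟨θ, hθ⟩ := hzero
  obtain ⟨w, hw⟩ : ∃ w, w = Real.cos θ • v + Real.sin θ • u := ⟨_, rfl⟩
  rw [← hw] at hθ
  have hwne : w ≠ 0 := by
    intro h0
    rw [hw] at h0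
    by_cases hs : Real.sin θ = 0
    · rw [hs, zero_smul, add_zero] at h0
      have hcs := Real.sin_sq_add_cos_sq θ
      rcases smul_eq_zero.mp h0 with h | h
      · rw [hs, h] at hcs
        norm_num at hcs
      · exact hvne h
    · refine hu' (-(Real.sin θ)⁻¹ * Real.cos θ) ?_
      have h5 : Real.sin θ • u = -(Real.cos θ • v) := by
        rw [eq_neg_iff_add_eq_zero, add_comm]
        exact h0
      have h6 : u = (Real.sin θ)⁻¹ • (Real.sin θ • u) := by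
        rw [smul_smul, inv_mul_cancel₀ hs, one_smul]
      rw [h6, h5, smul_neg, smul_smul, neg_mul, neg_smul]
  have hwk : Hv bl c x w = 0 := by
    rw [hw, Hv_add_vec, Hv_smul_vec, Hv_smul_vec, hvk, hu, smul_zero, smul_zero, add_zero]
  obtain ⟨q, hq, hq1⟩ := B6_normalize w hwne
  refine Or.inr (Or.inr (Or.inl ⟨q • w, ?_, hq1, ?_, ?_⟩))
  · rw [Hv_smul_vec, hwk, smul_zero]
  · rw [cub_smul, hθ, mul_zero]
  · exact hM _ (by rw [Hv_smul_vec, hwk, smul_zero]) (smul_ne_zero hq hwne)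

/-- Proof. The union of the sets of `thin3`, `thin2`, `thinD`; `trich`, `fold_of_Fd`, `bij_iff`. -/
theorem bad (hd : 3 ≤ d) (hbl : ∀ i, ∃ k, bl k = i) (hD : 2 ≤ Fintype.card (Sct bl)) :
    ∃ B : Set (Sct bl → ℝ), Thin (Fintype.card (Sct bl) - 2) B ∧
      ∀ c, c ∉ B → Reg (G bl) c ∨ One (G bl) c := by
  refine ⟨_, thin_union (thin_union (thin3 bl hD) (thin2 bl hd hbl hD)) (thinD bl hD), ?_⟩
  intro c hc
  simp only [Set.mem_union, Set.mem_ofPred_eq, not_or] at hc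
  obtain ⟨⟨hc3, hc2⟩, hcD⟩ := hc
  have hcase : ∀ x, G bl c x = 0 → (∀ v, Hv bl c x v = 0 → v = 0) ∨ ∃ v, Fd bl c x v := by
    intro x hx
    rcases trich bl c x hx with h | h | ⟨v, h1, h2, h3, h4⟩ | ⟨v, h1, h2, h3⟩
    · exact Or.inl h
    · exact Or.inr h
    · exact (hc3 ⟨x, v, hx, h1, h2, h3, h4⟩).elim
    · exact (hc2 ⟨x, v, hx, h1, h2, h3⟩).elim
  by_cases hall : ∃ x v, Fd bl c x v
  · obtain ⟨x, v, hxv⟩ := hall
    refine Or.inr ⟨x, fold_of_Fd bl c x v hxv, fun x' hx' hne => ?_⟩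
    rcases hcase x' hx' with h | ⟨v', hv'⟩
    · exact (bij_iff bl c x').mpr h
    · exact (hcD ⟨x, v, x', v', hne.symm, hxv, hv'⟩).elim
  · refine Or.inl fun x hx => ?_
    rcases hcase x hx with h | ⟨v, hv⟩
    · exact (bij_iff bl c x).mpr h
    · exact (hall ⟨x, v, hv⟩).elim

/-- Proof. `∅` and the sets `{k}` are sections, and there are at least three coordinates. -/
theorem two_le_card (hd : 3 ≤ d) (hbl : ∀ i, ∃ k, bl k = i) : 2 ≤ Fintype.card (Sct bl) := by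
  obtain ⟨k, -⟩ := hbl ⟨0, by omega⟩
  have h1 : 1 < Fintype.card (Sct bl) := by
    rw [Fintype.one_lt_card_iff]
    refine ⟨⟨∅, by simp⟩, ⟨{k}, ?_⟩, ?_⟩
    · intro a ha b hb _
      rw [Finset.mem_singleton] at ha hb
      rw [ha, hb]
    · intro h
      have h2 := congrArg Subtype.val h
      exact (Finset.singleton_ne_empty k) h2.symm
  exact h1

end

end Pool.Agent.MPb0eQ
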