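import Mathlib
import Pool.Agent.Lib.MP_b0e20b_ag_Q.ADefs
import Pool.Agent.Lib.MP_b0e20b_ag_Q.BDefs
import Pool.Agent.Lib.MP_b0e20b_ag_Q.B2

/-!
# MP_b0e20b_ag, all formats: real solutions are bounded; the parameter zero
-/

set_option autoImplicit false

open scoped BigOperators Topology

namespace Pool.Agent.MPb0eQ

section

variable {κ : Type} [Fintype κ] [DecidableEq κ] {d : ℕ} (bl : κ → Fin d)

omit [DecidableEq κ] in
private theorem B7_one_le_sq (x : κ → ℝ) (i : Fin d) : 1 ≤ sq bl x i := by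
  have h : 0 ≤ ∑ k, if bl k = i then x k ^ 2 else 0 := by
    refine Finset.sum_nonneg fun k _ => ?_
    split_ifs
    · positivity
    · exact le_rfl
  unfold sq
  linarith

omit [DecidableEq κ] in
private theorem B7_abs_le_sq (x : κ → ℝ) (l : κ) : |x l| ≤ sq bl x (bl l) := by
  have h : x l ^ 2 ≤ ∑ k, if bl k = bl l then x k ^ 2 else 0 := by
    have h1 := Finset.single_le_sum (f := fun k => if bl k = bl l then x k ^ 2 else 0)
      (fun k _ => by
        show (0 : ℝ) ≤ if bl k = bl l then x k ^ 2 else 0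
        split_ifs
        · positivity
        · exact le_rfl) (Finset.mem_univ l)
    simpa using h1
  have h2 : |x l| ≤ 1 + x l ^ 2 := by
    have := sq_abs (x l)
    nlinarith [sq_nonneg (|x l| - 1), abs_nonneg (x l)]
  unfold sq
  linarith

omit [DecidableEq κ] in
private theorem B7_prod_ge_one (x : κ → ℝ) (A : Finset (Fin d)) : 1 ≤ ∏ i ∈ A, sq bl x i :=
  Finset.prod_induction _ (fun y : ℝ => 1 ≤ y)
    (fun _ _ ha hb => one_le_mul_of_one_le_of_one_le ha hb) le_rfl fun i _ => B7_one_le_sq bl x i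

private theorem B7_prod_le (x : κ → ℝ) (k : κ) (s : Sct bl) (hk : k ∈ s.1) :
    ∏ l ∈ s.1 \ {k}, |x l| ≤ PA bl x {bl k} := by
  have h1 : ∏ l ∈ s.1 \ {k}, |x l| ≤ ∏ l ∈ s.1 \ {k}, sq bl x (bl l) :=
    Finset.prod_le_prod (fun l _ => abs_nonneg _) fun l _ => B7_abs_le_sq bl x l
  have h2 : ∏ l ∈ s.1 \ {k}, sq bl x (bl l) = ∏ i ∈ (s.1 \ {k}).image bl, sq bl x i := by
    rw [Finset.prod_image]
    intro a ha b hb hab
    have ha' := (Finset.mem_sdiff.1 ha).1
    have hb' := (Finset.mem_sdiff.1 hb).1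
    exact s.2 a ha' b hb' hab
  have hsub : (s.1 \ {k}).image bl ⊆ ({bl k} : Finset (Fin d))ᶜ := by
    intro i hi
    obtain ⟨a, ha, rfl⟩ := Finset.mem_image.1 hi
    rw [Finset.mem_sdiff, Finset.mem_singleton] at ha
    rw [Finset.mem_compl, Finset.mem_singleton]
    intro h
    exact ha.2 (s.2 a ha.1 k hk h)
  have h3 : ∏ i ∈ (s.1 \ {k}).image bl, sq bl x i ≤ PA bl x {bl k} := by
    unfold PA
    rw [← Finset.prod_sdiff hsub]
    have h4 := B7_prod_ge_one bl x (({bl k} : Finset (Fin d))ᶜ \ (s.1 \ {k}).image bl)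
    have h5 := B7_prod_ge_one bl x ((s.1 \ {k}).image bl)
    nlinarith
  rw [h2] at h1
  exact h1.trans h3

private theorem B7_dS_zero (x : κ → ℝ) (t : Finset κ) : dS bl (0 : Sct bl → ℝ) x t = 0 := by
  unfold dS
  simp

/-- Proof. `|x k| PA x {bl k} = |dS c x {k}| ≤ ∑ s, |c s| ∏ l ∈ s \ {k}, |x l|`, and
`∏ l ∈ s \ {k}, |x l| ≤ PA x {bl k}` for a section `s` containing `k`: the blocks of the elements of
`s \ {k}` are different from each other and from `bl k`, `|x l| ≤ sq x (bl l)` and all `sq ≥ 1`. -/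
theorem bound_real (c : Sct bl → ℝ) (x : κ → ℝ) (h : G bl c x = 0) (k : κ) :
    |x k| ≤ ∑ s, |c s| := by
  have h1 : x k * PA bl x {bl k} = dS bl c x {k} := by
    have := congrFun h k
    simp only [G, Pi.zero_apply] at this
    linarith
  have hP : 1 ≤ PA bl x {bl k} := B7_prod_ge_one bl x _
  have h2 : |dS bl c x {k}| ≤ ∑ s : Sct bl, |c s| * PA bl x {bl k} := by
    unfold dS
    refine (Finset.abs_sum_le_sum_abs _ _).trans (Finset.sum_le_sum fun s _ => ?_)
    split_ifs with hs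
    · rw [abs_mul, Finset.abs_prod]
      exact mul_le_mul_of_nonneg_left (B7_prod_le bl x k s (Finset.singleton_subset_iff.1 hs))
        (abs_nonneg _)
    · rw [abs_zero]
      exact mul_nonneg (abs_nonneg _) (by linarith)
  rw [← Finset.sum_mul, ← h1, abs_mul, abs_of_pos (by linarith : 0 < PA bl x {bl k})] at h2
  exact le_of_mul_le_mul_right h2 (by linarith)

theorem proper_real (c0 : Sct bl → ℝ) :
    ∃ R : ℝ, ∀ᶠ c in 𝓝 c0, ∀ x, G bl c x = 0 → ‖x‖ ≤ R := by
  have hcont : Continuous fun c : Sct bl → ℝ => ∑ s, |c s| :=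
    continuous_finsetSum _ fun s _ => (continuous_apply s).abs
  refine ⟨∑ s, |c0 s| + 1, ?_⟩
  have hev : ∀ᶠ c in 𝓝 c0, ∑ s, |c s| < ∑ s, |c0 s| + 1 :=
    hcont.continuousAt.eventually_lt continuousAt_const (by simp)
  filter_upwards [hev] with c hc x hx
  have h0 : 0 ≤ ∑ s, |c0 s| + 1 := by
    have : 0 ≤ ∑ s, |c0 s| := Finset.sum_nonneg fun s _ => abs_nonneg _
    linarith
  rw [pi_norm_le_iff_of_nonneg h0]
  intro k
  rw [Real.norm_eq_abs]
  exact (bound_real bl c x hx k).trans hc.le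

/-- For the parameter `0` there is exactly one real solution, the origin, with the identity as its
Hessian. -/
theorem zero_sol : {x : κ → ℝ | G bl (0 : Sct bl → ℝ) x = 0} = {0} := by
  ext x
  simp only [Set.mem_ofPred_eq, Set.mem_singleton_iff]
  constructor
  · intro h
    funext k
    have h1 := bound_real bl (0 : Sct bl → ℝ) x h k
    simp only [Pi.zero_apply, abs_zero, Finset.sum_const_zero] at h1
    exact abs_eq_zero.1 (le_antisymm h1 (abs_nonneg _))
  · rintro rfl
    funext k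
    simp only [G, Pi.zero_apply, zero_mul, zero_sub, neg_eq_zero]
    exact B7_dS_zero bl _ _

theorem zero_reg : Reg (G bl) (0 : Sct bl → ℝ) := by
  intro x hx
  have hx0 : x = 0 := by
    have : x ∈ {x : κ → ℝ | G bl (0 : Sct bl → ℝ) x = 0} := hx
    rw [zero_sol] at this
    exact this
  subst hx0
  rw [bij_iff]
  intro v hv
  funext k
  have hk := congrFun hv k
  have hPA : ∀ A : Finset (Fin d), PA bl (0 : κ → ℝ) A = 1 := by
    intro A
    unfold PA sq
    simp
  have hH : ∀ l, H bl (0 : Sct bl → ℝ) (0 : κ → ℝ) k l = if k = l then 1 else 0 := by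
    intro l
    unfold H
    rw [hPA, B7_dS_zero]
    by_cases hkl : k = l
    · subst hkl
      simp
    · simp [hkl]
  unfold Hv at hk
  simp only [hH, ite_mul, one_mul, zero_mul, Finset.sum_ite_eq, Finset.mem_univ, if_true] at hk
  exact hk

end

end Pool.Agent.MPb0eQ
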