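import Mathlib
import Pool.Agent.Lib.MP_b0e20b_ag_P.El
import Pool.Agent.Lib.MP_b0e20b_ag_P.Cn
import Pool.Agent.Lib.MP_b0e20b_ag_Q.BDefs
import Pool.Agent.Lib.MP_b0e20b_ag_Q.B1

/-!
# MP_b0e20b_ag, all formats: the parametrisation of all solutions
-/

set_option autoImplicit false

open scoped BigOperators Topology
open MvPolynomial

namespace Pool.Agent.MPb0eQ

section

variable {κ : Type} [Fintype κ] [DecidableEq κ] {d : ℕ} (bl : κ → Fin d)

/-- The section `{k}`. -/
def sgl (k : κ) : Sct bl := ⟨{k}, by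
  intro a ha b hb _
  rw [Finset.mem_singleton] at ha hb
  rw [ha, hb]⟩

/-- The point with the coordinates `w {k}`. -/
def xw {R : Type} (w : Sct bl → R) : κ → R := fun k => w (sgl bl k)

/-- The coefficients with the linear ones replaced by `0`. -/
def hw {R : Type} [CommRing R] (w : Sct bl → R) : Sct bl → R :=
  fun s => if s.1.card = 1 then 0 else w s

/-- The parameters for which `xw w` is a solution and the nonlinear coefficients are those of
`w`. -/
def psi {R : Type} [CommRing R] (w : Sct bl → R) : Sct bl → R :=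
  fun s => if s.1.card = 1 then ∑ k ∈ s.1, G bl (hw bl w) (xw bl w) k else w s

/-- The point which belongs to a solution. -/
noncomputable def kpt {R : Type} (c : Sct bl → R) (x : κ → R) : Sct bl → R :=
  fun s => if h : ∃ k, s = sgl bl k then x (Classical.choose h) else c s

private theorem E1_sgl_inj {k l : κ} (h : sgl bl k = sgl bl l) : k = l :=
  Finset.singleton_injective (congrArg Subtype.val h)

private theorem E1_card {s : Sct bl} (h : s.1.card = 1) : ∃ k, s = sgl bl k := by
  obtain ⟨k, hk⟩ := Finset.card_eq_one.1 h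
  exact ⟨k, Subtype.ext hk⟩

/-- The linear part with the coefficients `F`. -/
private def E1_lin {R : Type} [CommRing R] (F : κ → R) : Sct bl → R :=
  fun s => if s.1.card = 1 then ∑ k ∈ s.1, F k else 0

private theorem E1_dS_lin {R : Type} [CommRing R] (F : κ → R) (x : κ → R) (k : κ) :
    dS bl (E1_lin bl F) x {k} = F k := by
  unfold dS
  rw [Finset.sum_eq_single (sgl bl k)]
  · have h1 : (sgl bl k).1 = {k} := rfl
    rw [h1, if_pos (Finset.Subset.refl _), Finset.sdiff_self, Finset.prod_empty, mul_one]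
    unfold E1_lin
    rw [h1, Finset.card_singleton, if_pos rfl, Finset.sum_singleton]
  · intro s _ hs
    by_cases h1 : ({k} : Finset κ) ⊆ s.1
    · rw [if_pos h1]
      unfold E1_lin
      rw [if_neg, zero_mul]
      intro h2
      obtain ⟨l, rfl⟩ := E1_card bl h2
      have h3 : k ∈ (sgl bl l).1 := h1 (Finset.mem_singleton_self k)
      have h4 : k = l := Finset.mem_singleton.1 h3
      exact hs (by rw [h4])
    · rw [if_neg h1]
  · intro h1
    exact absurd (Finset.mem_univ _) h1

private theorem E1_psi {R : Type} [CommRing R] (w : Sct bl → R) :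
    psi bl w = hw bl w + E1_lin bl (fun k => G bl (hw bl w) (xw bl w) k) := by
  funext s
  rw [Pi.add_apply]
  unfold psi E1_lin
  by_cases h1 : s.1.card = 1
  · rw [if_pos h1, if_pos h1]
    have h2 : hw bl w s = 0 := if_pos h1
    rw [h2, zero_add]
  · rw [if_neg h1, if_neg h1]
    have h2 : hw bl w s = w s := if_neg h1
    rw [h2, add_zero]

private theorem E1_split {R : Type} [CommRing R] (c : Sct bl → R) :
    c = hw bl c + E1_lin bl (xw bl c) := by
  funext s
  rw [Pi.add_apply]
  unfold E1_lin
  by_cases h1 : s.1.card = 1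
  · have h2 : hw bl c s = 0 := if_pos h1
    rw [h2, zero_add, if_pos h1]
    obtain ⟨k, rfl⟩ := E1_card bl h1
    have h3 : (sgl bl k).1 = {k} := rfl
    rw [h3, Finset.sum_singleton]
    rfl
  · have h2 : hw bl c s = c s := if_neg h1
    rw [h2, if_neg h1, add_zero]

private theorem E1_G_map {R S : Type} [CommRing R] [CommRing S] (g : R →+* S) (c : Sct bl → R)
    (x : κ → R) (k : κ) : G bl (fun s => g (c s)) (fun k => g (x k)) k = g (G bl c x k) := by
  unfold G PA dS sq
  simp only [map_sub, map_mul, map_prod, map_add, map_one, map_sum, apply_ite g, map_pow, map_zero]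

private theorem E1_cont_G : Continuous fun p : (Sct bl → ℂ) × (κ → ℂ) => G bl p.1 p.2 := by
  refine continuous_pi fun k => ?_
  unfold G PA dS sq
  refine Continuous.sub (Continuous.mul ?_ ?_) ?_
  · exact (continuous_apply k).comp continuous_snd
  · refine continuous_finsetProd _ fun i _ => continuous_const.add ?_
    refine continuous_finsetSum _ fun l _ => ?_
    split_ifs
    · exact ((continuous_apply l).comp continuous_snd).pow 2
    · exact continuous_const
  · refine continuous_finsetSum _ fun s _ => ?_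
    split_ifs
    · refine ((continuous_apply s).comp continuous_fst).mul ?_
      exact continuous_finsetProd _ fun l _ => (continuous_apply l).comp continuous_snd
    · exact continuous_const

private theorem E1_cont_xw : Continuous (xw bl : (Sct bl → ℂ) → κ → ℂ) :=
  continuous_pi fun k => continuous_apply (sgl bl k)

private theorem E1_cont_hw : Continuous (hw bl : (Sct bl → ℂ) → Sct bl → ℂ) := by
  refine continuous_pi fun s => ?_
  unfold hw
  split_ifs
  · exact continuous_const
  · exact continuous_apply s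

theorem xw_kpt {R : Type} (c : Sct bl → R) (x : κ → R) : xw bl (kpt bl c x) = x := by
  funext k
  have h1 : ∃ l, sgl bl k = sgl bl l := ⟨k, rfl⟩
  change kpt bl c x (sgl bl k) = x k
  unfold kpt
  rw [dif_pos h1]
  exact congrArg x (E1_sgl_inj bl (Classical.choose_spec h1)).symm

theorem G_psi {R : Type} [CommRing R] (w : Sct bl → R) : G bl (psi bl w) (xw bl w) = 0 := by
  funext k
  rw [E1_psi, G_add, E1_dS_lin, sub_self]
  rfl

theorem psi_kpt {R : Type} [CommRing R] (c : Sct bl → R) (x : κ → R) (h : G bl c x = 0) :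
    psi bl (kpt bl c x) = c := by
  have h1 : hw bl (kpt bl c x) = hw bl c := by
    funext s
    unfold hw
    by_cases h2 : s.1.card = 1
    · rw [if_pos h2, if_pos h2]
    · rw [if_neg h2, if_neg h2]
      unfold kpt
      rw [dif_neg]
      rintro ⟨k, rfl⟩
      exact h2 (Finset.card_singleton k)
  rw [E1_psi, h1, xw_kpt]
  conv_rhs => rw [E1_split bl c]
  congr 2
  funext k
  have h2 : G bl c x k = 0 := congrFun h k
  rw [E1_split bl c, G_add, E1_dS_lin] at h2
  exact sub_eq_zero.1 h2

/-- Compatibility with ring homomorphisms, for instance evaluations of polynomials. -/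
theorem psi_map {R S : Type} [CommRing R] [CommRing S] (g : R →+* S) (w : Sct bl → R) :
    psi bl (fun k => g (w k)) = fun i => g (psi bl w i) := by
  have h1 : hw bl (fun k => g (w k)) = fun s => g (hw bl w s) := by
    funext s
    unfold hw
    rw [apply_ite g, map_zero]
  have h2 : xw bl (fun k => g (w k)) = fun k => g (xw bl w k) := rfl
  funext s
  unfold psi
  rw [h1, h2, apply_ite g, map_sum]
  simp only [E1_G_map]

theorem H_map {R S : Type} [CommRing R] [CommRing S] (g : R →+* S) (c : Sct bl → R) (x : κ → R)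
    (k l : κ) : H bl (fun s => g (c s)) (fun k => g (x k)) k l = g (H bl c x k l) := by
  unfold H PA dS sq
  simp only [map_sub, map_mul, map_prod, map_add, map_one, map_sum, apply_ite g, map_pow, map_zero,
    map_ofNat]

/-- Elimination. Proof. `Pool.Agent.MPb0eP.elim` with `T = psi X`. -/
theorem elimQ (J : MvPolynomial (Sct bl) ℂ) (hJ : J ≠ 0) :
    ∃ P : MvPolynomial (Sct bl) ℂ, P ≠ 0 ∧ ∀ (c : Sct bl → ℂ) (x : κ → ℂ),
      G bl c x = 0 → eval (kpt bl c x) J = 0 → eval c P = 0 := by
  obtain ⟨P, hP, h⟩ := Pool.Agent.MPb0eP.elim (ι := Sct bl) (κ := Sct bl) le_rfl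
    (psi bl (X : Sct bl → MvPolynomial (Sct bl) ℂ)) J hJ
  refine ⟨P, hP, fun c x hs hw' => ?_⟩
  have h1 := h (kpt bl c x) hw'
  rw [← psi_map bl (eval (kpt bl c x)) X] at h1
  simp only [eval_X] at h1
  rwa [show (fun k => kpt bl c x k) = kpt bl c x from rfl, psi_kpt bl c x hs] at h1

theorem psi_cont : Continuous (psi bl : (Sct bl → ℂ) → (Sct bl → ℂ)) := by
  refine continuous_pi fun s => ?_
  unfold psi
  by_cases h1 : s.1.card = 1
  · simp only [if_pos h1]
    refine continuous_finsetSum _ fun k _ => ?_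
    have h2 := (E1_cont_G bl).comp ((E1_cont_hw bl).prodMk (E1_cont_xw bl))
    exact (continuous_apply k).comp h2
  · simp only [if_neg h1]
    exact continuous_apply s

/-- Near every solution there are solutions for parameters outside a given hypersurface. Proof. As
for `near_generic` in `MP_b0e20b_ag_P/ElT.lean`. -/
theorem near_gen (P : MvPolynomial (Sct bl) ℂ)
    (hs : ∃ c : Sct bl → ℂ, eval c P ≠ 0 ∧ ∃ x, G bl c x = 0) (c : Sct bl → ℂ) (x : κ → ℂ)
    (h : G bl c x = 0) (W : Set (Sct bl → ℂ)) (hW : W ∈ 𝓝 c) (V : Set (κ → ℂ))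
    (hV : V ∈ 𝓝 x) : ∃ c' ∈ W, eval c' P ≠ 0 ∧ ∃ x' ∈ V, G bl c' x' = 0 := by
  have hev : ∀ w : Sct bl → ℂ,
      eval w (bind₁ (psi bl (X : Sct bl → MvPolynomial (Sct bl) ℂ)) P) = eval (psi bl w) P := by
    intro w
    have h1 := psi_map bl (eval w) (X : Sct bl → MvPolynomial (Sct bl) ℂ)
    simp only [eval_X] at h1
    have h2 : (fun i => eval w (psi bl (X : Sct bl → MvPolynomial (Sct bl) ℂ) i)) = psi bl w :=
      h1.symm
    rw [← h2]
    simp only [← MvPolynomial.coe_aeval_eq_eval, RingHom.coe_coe]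
    exact aeval_bind₁ _ _ _
  obtain ⟨t0, ht0, x0, h0⟩ := hs
  have hP' : bind₁ (psi bl (X : Sct bl → MvPolynomial (Sct bl) ℂ)) P ≠ 0 := by
    intro h1
    have h2 := hev (kpt bl t0 x0)
    rw [h1, map_zero, psi_kpt bl t0 x0 h0] at h2
    exact ht0 h2.symm
  have hc : Continuous fun w : Sct bl → ℂ => (psi bl w, xw bl w) :=
    (psi_cont bl).prodMk (E1_cont_xw bl)
  have hn : W ×ˢ V ∈ 𝓝 ((fun w : Sct bl → ℂ => (psi bl w, xw bl w)) (kpt bl c x)) := by
    change W ×ˢ V ∈ 𝓝 (psi bl (kpt bl c x), xw bl (kpt bl c x))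
    rw [psi_kpt bl c x h, xw_kpt]
    exact prod_mem_nhds hW hV
  obtain ⟨w, hw', hwP⟩ := Pool.Agent.MPb0eP.dense_ne _ hP' (kpt bl c x) _
    (hc.continuousAt.preimage_mem_nhds hn)
  rw [hev] at hwP
  exact ⟨psi bl w, hw'.1, hwP, _, hw'.2, G_psi bl w⟩

end

end Pool.Agent.MPb0eQ
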