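import Mathlib
import Pool.Agent.Lib.MP_b0e20b_ag_Q.E1

/-!
# MP_b0e20b_ag, all formats: generic parameters have locally bounded solutions
-/

set_option autoImplicit false

open scoped BigOperators Topology
open MvPolynomial

namespace Pool.Agent.MPb0eQ

/-- Algebraic dependence of `T i` and `J`. -/
private theorem dep {ι κ : Type} [Fintype ι] [Fintype κ] (h : Fintype.card κ ≤ Fintype.card ι)
    (T : ι → MvPolynomial κ ℂ) (J : MvPolynomial κ ℂ) :
    ∃ R : Polynomial (MvPolynomial ι ℂ), R ≠ 0 ∧ ∀ w : κ → ℂ,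
      (R.map (eval fun i => eval w (T i))).eval (eval w J) = 0 := by
  classical
  have hdep : ¬ AlgebraicIndependent ℂ (fun o : Option ι => o.elim J T) := by
    intro hind
    have h1 := hind.cardinalMk_le_trdeg
    rw [MvPolynomial.trdeg_of_isDomain, Cardinal.lift_id', Cardinal.mk_fintype,
      Cardinal.mk_fintype, Fintype.card_option, Nat.cast_le] at h1
    omega
  rw [algebraicIndependent_iff] at hdep
  push Not at hdep
  obtain ⟨Q, hQ, hQ0⟩ := hdep
  have key : ∀ Q : MvPolynomial (Option ι) ℂ, (optionEquivLeft ℂ ι Q).eval₂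
      (aeval T : MvPolynomial ι ℂ →ₐ[ℂ] MvPolynomial κ ℂ).toRingHom J =
        aeval (fun o : Option ι => o.elim J T) Q := by
    intro Q
    induction Q using MvPolynomial.induction_on with
    | C c =>
      rw [optionEquivLeft_C, Polynomial.eval₂_C, aeval_C]
      exact aeval_C _ _
    | add p p' hp hp' => rw [map_add, map_add, Polynomial.eval₂_add, hp, hp']
    | mul_X p o hp =>
      rw [map_mul, map_mul, Polynomial.eval₂_mul, hp, aeval_X]
      congr 1
      cases o with
      | none => rw [optionEquivLeft_X_none, Polynomial.eval₂_X]; rfl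
      | some x =>
        rw [optionEquivLeft_X_some, Polynomial.eval₂_C]
        exact aeval_X _ _
  refine ⟨optionEquivLeft ℂ ι Q, (map_ne_zero_iff _ (optionEquivLeft ℂ ι).injective).2 hQ0,
    fun w => ?_⟩
  have h1 := congrArg (eval w) (key Q)
  rw [hQ, map_zero, Polynomial.hom_eval₂] at h1
  have h2 : (eval w).comp (aeval T : MvPolynomial ι ℂ →ₐ[ℂ] MvPolynomial κ ℂ).toRingHom =
      eval fun i => eval w (T i) := by
    apply MvPolynomial.ringHom_ext
    · intro c
      change eval w (aeval T (C c)) = _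
      rw [aeval_C, eval_C]
      exact eval_C c
    · intro i
      change eval w (aeval T (X i)) = _
      rw [aeval_X, eval_X]
  rw [h2] at h1
  rw [Polynomial.eval_map]
  exact h1

/-- Zeros of a polynomial with parameters are locally bounded off the zeros of the leading
coefficient. -/
private theorem loc_bd {ι : Type} [Fintype ι] (R : Polynomial (MvPolynomial ι ℂ)) (c0 : ι → ℂ)
    (h : eval c0 R.leadingCoeff ≠ 0) : ∃ r : ℝ, 0 ≤ r ∧ ∀ᶠ c in 𝓝 c0, ∀ z : ℂ,
      (R.map (eval c)).eval z = 0 → ‖z‖ ≤ r := by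
  classical
  let B : (ι → ℂ) → ℝ := fun c =>
    (∑ i ∈ Finset.range R.natDegree, ‖eval c (R.coeff i)‖) / ‖eval c R.leadingCoeff‖ + 1
  have hB0 : ∀ c, 0 ≤ B c := fun c => by positivity
  have hc : ContinuousAt B c0 := by
    refine ContinuousAt.add (ContinuousAt.div ?_ ?_ (norm_ne_zero_iff.2 h)) continuousAt_const
    · exact (continuous_finsetSum _ fun i _ =>
        (MvPolynomial.continuous_eval (R.coeff i)).norm).continuousAt
    · exact (MvPolynomial.continuous_eval R.leadingCoeff).norm.continuousAt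
  have h1 : ∀ᶠ c in 𝓝 c0, B c < B c0 + 1 :=
    hc.eventually (gt_mem_nhds (lt_add_one (B c0)))
  have h2 : ∀ᶠ c in 𝓝 c0, eval c R.leadingCoeff ≠ 0 :=
    (MvPolynomial.continuous_eval R.leadingCoeff).continuousAt.eventually_ne h
  refine ⟨B c0 + 1, by linarith [hB0 c0], ?_⟩
  filter_upwards [h1, h2] with c hc1 hc2 z hz
  have hdeg : (R.map (eval c)).natDegree = R.natDegree :=
    Polynomial.natDegree_map_of_leadingCoeff_ne_zero _ hc2
  have hlc : (R.map (eval c)).leadingCoeff = eval c R.leadingCoeff :=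
    Polynomial.leadingCoeff_map_of_leadingCoeff_ne_zero _ hc2
  have hne : R.map (eval c) ≠ 0 := by
    intro h0
    rw [h0, Polynomial.leadingCoeff_zero] at hlc
    exact hc2 hlc.symm
  have h3 := Polynomial.IsRoot.norm_lt_cauchyBound hne (a := z) hz
  have h4 : (Polynomial.cauchyBound (R.map (eval c)) : ℝ) ≤ B c := by
    have h5 : Polynomial.cauchyBound (R.map (eval c)) ≤
        (∑ i ∈ Finset.range R.natDegree, ‖eval c (R.coeff i)‖₊) / ‖eval c R.leadingCoeff‖₊ + 1 := by
      rw [Polynomial.cauchyBound, hdeg, hlc]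
      refine add_le_add (div_le_div_of_nonneg_right ?_ zero_le) le_rfl
      refine Finset.sup_le fun i hi => ?_
      rw [Polynomial.coeff_map]
      exact Finset.single_le_sum (f := fun i => ‖eval c (R.coeff i)‖₊) (fun _ _ => zero_le) hi
    have h6 : (Polynomial.cauchyBound (R.map (eval c)) : ℝ) ≤
        (((∑ i ∈ Finset.range R.natDegree, ‖eval c (R.coeff i)‖₊) /
          ‖eval c R.leadingCoeff‖₊ + 1 : NNReal) : ℝ) := by exact_mod_cast h5
    refine h6.trans (le_of_eq ?_)
    simp [B]
  have h7 : ‖z‖ < (Polynomial.cauchyBound (R.map (eval c)) : ℝ) := by exact_mod_cast h3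
  linarith

section

variable {κ : Type} [Fintype κ] [DecidableEq κ] {d : ℕ} (bl : κ → Fin d)

/-- Outside a hypersurface the solutions are locally bounded.

Proof. Fix a coordinate `k`. The `card (Sct bl) + 1` polynomials `psi X s` and `X {k}` in
`card (Sct bl)` variables are algebraically dependent: there is a nonzero polynomial
`Q = ∑ q_j Y^j`, `q_j` polynomials in the parameters, with `Q (psi w, w {k}) = 0` for all `w` (see
the proof of `Pool.Agent.MPb0eP.elim`). Let `q_r` be the leading coefficient. If `q_r (c0) ≠ 0`, then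
for `c` near `c0` and a solution `x` of `c` the number `x k` is a zero of a polynomial with bounded
coefficients and the leading coefficient bounded away from zero, so it is bounded. Take the product
of the leading coefficients over `k`. -/
theorem bd_gen : ∃ P : MvPolynomial (Sct bl) ℂ, P ≠ 0 ∧ ∀ c0 : Sct bl → ℂ, eval c0 P ≠ 0 →
    ∃ R : ℝ, ∀ᶠ c in 𝓝 c0, ∀ x, G bl c x = 0 → ‖x‖ ≤ R := by
  have h1 := fun k : κ => dep le_rfl
    (psi bl (X : Sct bl → MvPolynomial (Sct bl) ℂ)) (X (sgl bl k))
  choose R hR hRw using h1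
  have hrel : ∀ (k : κ) (c : Sct bl → ℂ) (x : κ → ℂ), G bl c x = 0 →
      ((R k).map (eval c)).eval (x k) = 0 := by
    intro k c x hx
    have h2 := hRw k (kpt bl c x)
    have h3 := psi_map bl (eval (kpt bl c x)) (X : Sct bl → MvPolynomial (Sct bl) ℂ)
    simp only [eval_X] at h3
    have h4 : (fun i => eval (kpt bl c x)
        (psi bl (X : Sct bl → MvPolynomial (Sct bl) ℂ) i)) = c := by
      rw [← h3]
      exact psi_kpt bl c x hx
    rw [h4, eval_X] at h2
    have h5 := congrFun (xw_kpt bl c x) k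
    change kpt bl c x (sgl bl k) = x k at h5
    rw [h5] at h2
    exact h2
  refine ⟨∏ k, (R k).leadingCoeff, Finset.prod_ne_zero_iff.2 fun k _ =>
    Polynomial.leadingCoeff_ne_zero.2 (hR k), fun c0 hc0 => ?_⟩
  rw [map_prod, Finset.prod_ne_zero_iff] at hc0
  have h6 := fun k : κ => loc_bd (R k) c0 (hc0 k (Finset.mem_univ k))
  choose r hr hrb using h6
  refine ⟨∑ k, r k, ?_⟩
  filter_upwards [Filter.eventually_all.2 hrb] with c hc x hx
  rw [pi_norm_le_iff_of_nonneg (Finset.sum_nonneg fun k _ => hr k)]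
  intro k
  exact (hc k (x k) (hrel k c x hx)).trans
    (Finset.single_le_sum (fun k _ => hr k) (Finset.mem_univ k))

end

end Pool.Agent.MPb0eQ
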