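import Mathlib
import Pool.Agent.Lib.MP_b0e20b_ag_P.LC
import Pool.Agent.Lib.MP_b0e20b_ag_P.Cn
import Pool.Agent.Lib.MP_b0e20b_ag_Q.B2
import Pool.Agent.Lib.MP_b0e20b_ag_Q.E1
import Pool.Agent.Lib.MP_b0e20b_ag_Q.E2b

/-!
# MP_b0e20b_ag, all formats: the generic number of solutions exists
-/

set_option autoImplicit false

open scoped BigOperators Topology
open MvPolynomial

namespace Pool.Agent.MPb0eQ

section

variable {κ : Type} [Fintype κ] [DecidableEq κ] {d : ℕ} (bl : κ → Fin d)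

private theorem E2_H_zero (k l : κ) :
    H bl (psi bl (fun _ => (0 : ℂ))) (xw bl (fun _ => (0 : ℂ))) k l = if k = l then 1 else 0 := by
  have hPA : ∀ A : Finset (Fin d), PA bl (xw bl (fun _ => (0 : ℂ))) A = 1 := by
    intro A
    unfold PA
    refine Finset.prod_eq_one fun i _ => ?_
    simp [sq, xw]
  unfold H
  by_cases hb : bl k = bl l
  · rw [if_pos hb, hPA]
  · rw [if_neg hb]
    have hkl : k ≠ l := fun h => hb (by rw [h])
    have hd : dS bl (psi bl (fun _ => (0 : ℂ))) (xw bl (fun _ => (0 : ℂ))) {k, l} = 0 := by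
      unfold dS
      refine Finset.sum_eq_zero fun s _ => ?_
      split_ifs with hs
      · have hc : ¬ s.1.card = 1 := by
          intro h1
          have h2 := Finset.card_le_card hs
          rw [Finset.card_pair hkl, h1] at h2
          omega
        simp [psi, hc]
      · rfl
    rw [hd, if_neg hkl]
    simp [xw]

private theorem E2_finite {c : Sct bl → ℂ} {R : ℝ} (hR : ∀ x, G bl c x = 0 → ‖x‖ ≤ R)
    (hn : ∀ x, G bl c x = 0 → Function.Bijective (fderiv ℂ (G bl c) x)) :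
    {x | G bl c x = 0}.Finite := by
  classical
  have hcd : ContDiff ℂ 1 (fun w : (Sct bl → ℂ) × (κ → ℂ) => G bl w.1 w.2) := by
    exact_mod_cast contDiff_G (𝕜 := ℂ) bl 1
  have hcont : Continuous (fun w : (Sct bl → ℂ) × (κ → ℂ) => G bl w.1 w.2) := hcd.continuous
  have hc0 : Continuous (G bl c) := hcont.comp (Continuous.prodMk_right c)
  have hZc : IsCompact {x | G bl c x = 0} := by
    refine (isCompact_closedBall (0 : κ → ℂ) R).of_isClosed_subset
      (isClosed_singleton.preimage hc0) ?_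
    intro u hu
    rw [mem_closedBall_zero_iff]
    exact hR u hu
  have hper : ∀ u ∈ {x | G bl c x = 0}, ∃ U ∈ 𝓝 u, U ⊆ Set.univ ∧
      ∀ᶠ p in 𝓝 c, ∃! v, v ∈ U ∧ G bl p v = 0 :=
    fun u hu => MPb0eP.persist (G bl) hcd c u hu (hn u hu) Set.univ Filter.univ_mem
  choose! U hU using hper
  obtain ⟨t, ht, htc⟩ := hZc.elim_nhds_subcover U fun u hu => (hU u hu).1
  refine t.finite_toSet.subset ?_
  intro x hx
  obtain ⟨u, hut, hxu⟩ := Set.mem_iUnion₂.1 (htc hx)
  have huZ := ht u hut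
  obtain ⟨v, -, hv⟩ := (hU u huZ).2.2.self_of_nhds
  have e1 := hv x ⟨hxu, hx⟩
  have e2 := hv u ⟨mem_of_mem_nhds (hU u huZ).1, huZ⟩
  rw [e1, ← e2]
  exact hut

/-- Outside a hypersurface all solutions are nondegenerate.

Proof. `elimQ` with the determinant of the matrix `H` at `(psi X, xw X)` in the polynomial ring; its
value at `kpt c x` is the Hessian determinant at `(c, x)`. It is not zero: at the point `0` the
Hessian is the identity matrix. `bij_iff`. -/
theorem nd_gen : ∃ P : MvPolynomial (Sct bl) ℂ, P ≠ 0 ∧ ∀ (c : Sct bl → ℂ) (x : κ → ℂ),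
    eval c P ≠ 0 → G bl c x = 0 → Function.Bijective (fderiv ℂ (G bl c) x) := by
  let J : MvPolynomial (Sct bl) ℂ :=
    (Matrix.of (H bl (psi bl (X : Sct bl → MvPolynomial (Sct bl) ℂ))
      (xw bl (X : Sct bl → MvPolynomial (Sct bl) ℂ)))).det
  have hJ : ∀ w : Sct bl → ℂ, eval w J = (Matrix.of (H bl (psi bl w) (xw bl w))).det := by
    intro w
    show eval w (Matrix.det _) = _
    rw [RingHom.map_det]
    congr 1
    ext k l
    have h1 := H_map bl (eval w) (psi bl (X : Sct bl → MvPolynomial (Sct bl) ℂ))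
      (xw bl (X : Sct bl → MvPolynomial (Sct bl) ℂ)) k l
    have h2 := psi_map bl (eval w) (X : Sct bl → MvPolynomial (Sct bl) ℂ)
    simp only [eval_X] at h2
    rw [← h2] at h1
    have h3 : (fun k => eval w (xw bl (X : Sct bl → MvPolynomial (Sct bl) ℂ) k)) = xw bl w := by
      funext k
      simp [xw]
    rw [h3] at h1
    simp only [RingHom.mapMatrix_apply, Matrix.map_apply, Matrix.of_apply]
    exact h1.symm
  have hJ0 : J ≠ 0 := by
    intro h0
    have h1 := hJ (fun _ => 0)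
    rw [h0, map_zero] at h1
    have h2 : Matrix.of (H bl (psi bl (fun _ => (0 : ℂ))) (xw bl (fun _ => (0 : ℂ)))) = 1 := by
      ext k l
      rw [Matrix.of_apply, E2_H_zero, Matrix.one_apply]
    rw [h2, Matrix.det_one] at h1
    exact zero_ne_one h1
  obtain ⟨P, hP, h⟩ := elimQ bl J hJ0
  refine ⟨P, hP, fun c x hc hx => ?_⟩
  rw [bij_iff]
  intro v hv
  by_contra hv0
  refine hc (h c x hx ?_)
  rw [hJ, psi_kpt bl c x hx, xw_kpt]
  rw [← Matrix.exists_mulVec_eq_zero_iff]
  refine ⟨v, hv0, ?_⟩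
  funext k
  have := congrFun hv k
  simpa [Hv, Matrix.mulVec, dotProduct] using this

/-- Proof. On the complement of the zero set of the product of the two polynomials the number of
solutions is locally constant (`Pool.Agent.MPb0eP.lc`), so constant (`const_of_loc`), and finite. -/
theorem gen_exists : ∃ (N : ℕ) (P : MvPolynomial (Sct bl) ℂ), P ≠ 0 ∧
    ∀ c : Sct bl → ℂ, eval c P ≠ 0 → {x | G bl c x = 0}.encard = N ∧
      ∀ x, G bl c x = 0 → Function.Bijective (fderiv ℂ (G bl c) x) := by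
  obtain ⟨P1, hP1, hnd⟩ := nd_gen bl
  obtain ⟨P2, hP2, hbd⟩ := bd_gen bl
  have hP : P1 * P2 ≠ 0 := mul_ne_zero hP1 hP2
  have hcd : ContDiff ℂ 1 (fun w : (Sct bl → ℂ) × (κ → ℂ) => G bl w.1 w.2) := by
    exact_mod_cast contDiff_G (𝕜 := ℂ) bl 1
  have hF : ∀ t : Sct bl → ℂ, eval t (P1 * P2) ≠ 0 →
      ∀ᶠ p in 𝓝 t, {x | G bl p x = 0}.encard = {x | G bl t x = 0}.encard := by
    intro t ht
    rw [map_mul] at ht
    obtain ⟨R, hR⟩ := hbd t (right_ne_zero_of_mul ht)
    exact MPb0eP.lc (𝕜 := ℂ) (G bl) hcd t R hR fun x hx => hnd t x (left_ne_zero_of_mul ht) hx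
  obtain ⟨s, -, hs⟩ := MPb0eP.dense_ne (P1 * P2) hP 0 Set.univ Filter.univ_mem
  have hs' := hs
  rw [map_mul] at hs'
  obtain ⟨R, hR⟩ := hbd s (right_ne_zero_of_mul hs')
  have hfin : {x | G bl s x = 0}.Finite :=
    E2_finite bl hR.self_of_nhds fun x hx => hnd s x (left_ne_zero_of_mul hs') hx
  refine ⟨{x | G bl s x = 0}.ncard, P1 * P2, hP, fun c hc => ⟨?_, fun x hx => ?_⟩⟩
  · have h1 : {x | G bl c x = 0}.encard = {x | G bl s x = 0}.encard :=
      MPb0eP.const_of_loc (P1 * P2) (fun t : Sct bl → ℂ => {x | G bl t x = 0}.encard) hF c s hc hs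
    rw [h1, hfin.cast_ncard_eq]
  · rw [map_mul] at hc
    exact hnd c x (left_ne_zero_of_mul hc) hx

end

end Pool.Agent.MPb0eQ
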