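import Mathlib
import Pool.Agent.Lib.MP_b0e20b_ag_Q.A1
import Pool.Agent.Lib.MP_b0e20b_ag_Q.A1b

/-!
# MP_b0e20b_ag, all formats: complex hypersurfaces are thin
-/

set_option autoImplicit false

open MvPolynomial

namespace Pool.Agent.MPb0eQ

private theorem F1_deg {ι : Type} (P : MvPolynomial ι ℂ) (i : ι)
    (h : pderiv i P ≠ 0) : (pderiv i P).totalDegree < P.totalDegree := by
  obtain ⟨m, hm⟩ := MvPolynomial.ne_zero_iff.1 h
  have key : ∀ m, coeff m (pderiv i P) ≠ 0 → (m.sum fun _ e => e) < P.totalDegree := by
    intro m hm
    rw [coeff_pderiv] at hm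
    have h1 : m + Finsupp.single i 1 ∈ P.support := by
      rw [mem_support_iff]
      exact left_ne_zero_of_mul hm
    have h2 := le_totalDegree h1
    rw [Finsupp.sum_add_index' (by simp) (by simp), Finsupp.sum_single_index rfl] at h2
    omega
  rw [MvPolynomial.totalDegree,
    Finset.sup_lt_iff (lt_of_le_of_lt (Nat.zero_le _) (key m hm))]
  intro b hb
  exact key b (mem_support_iff.1 hb)

private theorem F1_ex {ι : Type} (P : MvPolynomial ι ℂ) (h : P.totalDegree ≠ 0) :
    ∃ i, pderiv i P ≠ 0 := by
  classical
  by_contra hc
  push Not at hc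
  apply h
  rw [totalDegree_eq_zero_iff_eq_C]
  ext m
  rw [coeff_C]
  split_ifs with h0
  · rw [h0]
  · obtain ⟨i, hi⟩ := Finsupp.ne_iff.1 (Ne.symm h0)
    have h1 := coeff_pderiv (i := i) P (m - Finsupp.single i 1)
    have hle : Finsupp.single i 1 ≤ m := by
      rw [Finsupp.single_le_iff]
      simp only [Finsupp.coe_zero, Pi.zero_apply] at hi
      omega
    rw [hc i, coeff_zero, tsub_add_cancel_of_le hle] at h1
    rcases mul_eq_zero.1 h1.symm with h2 | h2
    · exact h2
    · exfalso
      exact Nat.cast_add_one_ne_zero _ h2

private theorem F1_fd {ι : Type} [Fintype ι] (P : MvPolynomial ι ℂ) (w : ι → ℂ) :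
    HasFDerivAt (fun w : ι → ℂ => eval w P)
      (∑ i, eval w (pderiv i P) • (ContinuousLinearMap.proj i : (ι → ℂ) →L[ℂ] ℂ)) w := by
  classical
  induction P using MvPolynomial.induction_on with
  | C a =>
    refine ((hasFDerivAt_const a w).congr_fderiv ?_).congr_of_eventuallyEq ?_
    · ext v
      simp [sum_apply]
    · exact Filter.Eventually.of_forall fun v => by simp
  | add p q hp hq =>
    have := hp.add hq
    refine (this.congr_fderiv ?_).congr_of_eventuallyEq ?_
    · ext v
      simp only [map_add, add_apply, smul_apply, sum_apply, smul_eq_mul,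
        ContinuousLinearMap.proj_apply, add_mul, Finset.sum_add_distrib]
    · exact Filter.Eventually.of_forall fun v => by simp
  | mul_X p j hp =>
    have h1 : HasFDerivAt (fun w : ι → ℂ => w j)
      (ContinuousLinearMap.proj j : (ι → ℂ) →L[ℂ] ℂ) w := hasFDerivAt_apply j w
    have := hp.mul h1
    refine (this.congr_fderiv ?_).congr_of_eventuallyEq ?_
    · ext v
      simp only [pderiv_mul, pderiv_X, map_add, map_mul, eval_X, add_apply,
        smul_apply, sum_apply, smul_eq_mul,
        ContinuousLinearMap.proj_apply, add_mul, Finset.sum_add_distrib]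
      have h2 : ∀ i, eval w ((Pi.single i (1 : MvPolynomial ι ℂ) : ι → MvPolynomial ι ℂ) j)
          = if i = j then 1 else 0 := by
        intro i
        by_cases hij : i = j
        · subst hij; simp
        · rw [Pi.single_eq_of_ne (Ne.symm hij)]
          simp [hij]
      simp only [h2]
      simp only [mul_ite, mul_one, mul_zero, ite_mul, zero_mul, Finset.sum_ite_eq',
        Finset.mem_univ, if_true, Finset.mul_sum]
      rw [add_comm]
      congr 1
      apply Finset.sum_congr rfl
      intro i _
      ring
    · exact Filter.Eventually.of_forall fun v => by simp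

private theorem F1_cd {ι : Type} [Fintype ι] (P : MvPolynomial ι ℂ) :
    ContDiff ℝ 1 (fun w : ι → ℂ => eval w P) := by
  induction P using MvPolynomial.induction_on with
  | C a => simpa using contDiff_const
  | add p q hp hq => simpa using hp.add hq
  | mul_X p j hp => simpa using hp.mul (contDiff_apply ℝ ℂ j)

/-- Proof. At a zero `w` of `P ≠ 0` let `r ≥ 1` be minimal such that some derivative of order `r` of
`P` is not zero at `w` (it exists: a polynomial all of whose derivatives vanish at a point is zero,
by Taylor's formula); so there is an iterated derivative `Q` of order `r - 1` with `Q w = 0` and some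
`∂ Q/∂X i (w) ≠ 0`. As a real differentiable map to `ℂ` (real dimension two) `Q` has a surjective
derivative at `w`. There are countably many iterated derivatives; apply `thin_submersion` (with the
identity as projection; the real dimension of `ι → ℂ` is `2 card ι`) to each of them, and
`thin_iUnion`. -/
theorem thin_zero {ι : Type} [Fintype ι] (P : MvPolynomial ι ℂ) (hP : P ≠ 0) :
    Thin (2 * Fintype.card ι - 2) {w : ι → ℂ | eval w P = 0} := by
  induction hn : P.totalDegree using Nat.strong_induction_on generalizing P with
  | _ n ih =>
    by_cases h0 : P.totalDegree = 0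
    · rw [totalDegree_eq_zero_iff_eq_C] at h0
      have hc : coeff 0 P ≠ 0 := by
        intro hc
        apply hP
        rw [h0, hc, C_0]
      have he : {w : ι → ℂ | eval w P = 0} = ⋃ i : Empty, (i.elim : Set (ι → ℂ)) := by
        ext w
        simp only [Set.mem_ofPred_eq, Set.iUnion_of_empty, Set.mem_empty_iff_false, iff_false]
        rw [h0, eval_C]
        exact hc
      rw [he]
      exact thin_iUnion fun i => i.elim
    · obtain ⟨i0, hi0⟩ := F1_ex P h0
      have hlt := F1_deg P i0 hi0
      have h1 := ih _ (hn ▸ hlt) (pderiv i0 P) hi0 rfl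
      have h2 : Thin (2 * Fintype.card ι - 2)
          (id '' {w : ι → ℂ | eval w P = 0 ∧ eval w (pderiv i0 P) ≠ 0}) := by
        apply thin_submersion (fun w : ι → ℂ => eval w P) (F1_cd P) id contDiff_id
        · rintro e ⟨he, hd⟩
          refine ⟨he, ?_⟩
          have hfd := (F1_fd P e).restrictScalars ℝ
          rw [hfd.fderiv]
          intro z
          classical
          refine ⟨Pi.single i0 (z / eval e (pderiv i0 P)), ?_⟩
          simp only [ContinuousLinearMap.coe_restrictScalars', sum_apply,
            smul_apply, ContinuousLinearMap.proj_apply, smul_eq_mul]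
          rw [Finset.sum_eq_single i0]
          · rw [Pi.single_eq_same]
            field_simp
          · intro b _ hb
            rw [Pi.single_eq_of_ne hb, mul_zero]
          · intro h; exact absurd (Finset.mem_univ _) h
        · have hf : Module.finrank ℝ (ι → ℂ) = 2 * Fintype.card ι := by
            rw [Module.finrank_pi_fintype]
            simp [Complex.finrank_real_complex, mul_comm]
          rw [hf, Complex.finrank_real_complex]
          omega
      refine thin_mono (thin_union h2 h1) ?_
      intro w hw
      by_cases hd : eval w (pderiv i0 P) = 0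
      · exact Or.inr hd
      · exact Or.inl ⟨w, ⟨hw, hd⟩, rfl⟩

end Pool.Agent.MPb0eQ
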