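import Mathlib
import Pool.Agent.Lib.MP_b0e20b_ag_P.LC
import Pool.Agent.Lib.MP_b0e20b_ag_P.Cn
import Pool.Agent.Lib.MP_b0e20b_ag_Q.A1
import Pool.Agent.Lib.MP_b0e20b_ag_Q.A2
import Pool.Agent.Lib.MP_b0e20b_ag_Q.B2
import Pool.Agent.Lib.MP_b0e20b_ag_Q.B7
import Pool.Agent.Lib.MP_b0e20b_ag_Q.B8
import Pool.Agent.Lib.MP_b0e20b_ag_Q.E1
import Pool.Agent.Lib.MP_b0e20b_ag_Q.E2
import Pool.Agent.Lib.MP_b0e20b_ag_Q.F1

/-!
# MP_b0e20b_ag, all formats: persistence of isolated complex solutions
-/

set_option autoImplicit false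

open scoped BigOperators Topology
open MvPolynomial

namespace Pool.Agent.MPb0eQ

section

variable {κ : Type} [Fintype κ] [DecidableEq κ] {d : ℕ} (bl : κ → Fin d)

/-- The parametrisation is continuously differentiable over the reals. -/
private theorem F2_psi_contDiff : ContDiff ℝ 1 (psi bl : (Sct bl → ℂ) → (Sct bl → ℂ)) := by
  have hG : ContDiff ℝ 1 (fun w : (Sct bl → ℂ) × (κ → ℂ) => G bl w.1 w.2) := by
    have h := contDiff_G bl (𝕜 := ℂ) 1
    exact h.restrict_scalars ℝ
  have hx : ContDiff ℝ 1 (fun w : Sct bl → ℂ => xw bl w) :=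
    contDiff_pi.2 fun k => contDiff_apply ℝ ℂ (sgl bl k)
  have hh : ContDiff ℝ 1 (fun w : Sct bl → ℂ => hw bl w) := by
    refine contDiff_pi.2 fun s => ?_
    by_cases hs : s.1.card = 1
    · simp only [hw, hs, if_true]
      exact contDiff_const
    · simp only [hw, hs, if_false]
      exact contDiff_apply ℝ ℂ s
  have hc : ContDiff ℝ 1 (fun w : Sct bl → ℂ => G bl (hw bl w) (xw bl w)) :=
    hG.comp (hh.prodMk hx)
  refine contDiff_pi.2 fun s => ?_
  by_cases hs : s.1.card = 1
  · simp only [psi, hs, if_true]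
    refine ContDiff.sum fun k _ => ?_
    exact (contDiff_pi.1 hc) k
  · simp only [psi, hs, if_false]
    exact contDiff_apply ℝ ℂ s

/-- At the origin with the parameter zero the Hessian is the identity. -/
private theorem F2_H_zero (R : Type) [CommRing R] (k l : κ) :
    H bl (0 : Sct bl → R) (0 : κ → R) k l = if k = l then 1 else 0 := by
  have hsq : ∀ i, sq bl (0 : κ → R) i = 1 := by
    intro i
    simp [sq]
  have hPA : ∀ A, PA bl (0 : κ → R) A = 1 := by
    intro A
    simp [PA, hsq]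
  have hdS : ∀ t, dS bl (0 : Sct bl → R) (0 : κ → R) t = 0 := by
    intro t
    simp [dS]
  unfold H
  by_cases h : bl k = bl l
  · simp [h, hPA]
  · have hkl : k ≠ l := fun e => h (by rw [e])
    simp [h, hkl, hdS]

private theorem F2_G_zero (R : Type) [CommRing R] : G bl (0 : Sct bl → R) (0 : κ → R) = 0 := by
  funext k
  simp [G, dS]

private theorem F2_psi_zero (R : Type) [CommRing R] : psi bl (0 : Sct bl → R) = 0 := by
  have h1 : hw bl (0 : Sct bl → R) = 0 := by
    funext s
    simp [hw]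
  have h2 : xw bl (0 : Sct bl → R) = 0 := by
    funext s
    simp [xw]
  funext s
  simp [psi, h1, h2, F2_G_zero]

/-- The Hessian determinant as a polynomial. -/
private noncomputable def F2J : MvPolynomial (Sct bl) ℂ :=
  (Matrix.of fun k l : κ => H bl (psi bl (X : Sct bl → MvPolynomial (Sct bl) ℂ))
    (xw bl (X : Sct bl → MvPolynomial (Sct bl) ℂ)) k l).det

private theorem F2_eval_J (w : Sct bl → ℂ) :
    eval w (F2J bl) = (Matrix.of fun k l : κ => H bl (psi bl w) (xw bl w) k l).det := by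
  unfold F2J
  rw [RingHom.map_det]
  congr 1
  ext k l
  have h1 := psi_map bl (eval w) (X : Sct bl → MvPolynomial (Sct bl) ℂ)
  simp only [eval_X] at h1
  have h2 := H_map bl (eval w) (psi bl (X : Sct bl → MvPolynomial (Sct bl) ℂ))
    (xw bl (X : Sct bl → MvPolynomial (Sct bl) ℂ)) k l
  rw [← h1] at h2
  simp only [xw, eval_X] at h2
  simp only [RingHom.mapMatrix_apply, Matrix.map_apply, Matrix.of_apply]
  exact h2.symm

private theorem F2_J_ne : F2J bl ≠ 0 := by
  intro h
  have h1 := F2_eval_J bl 0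
  rw [h, map_zero, F2_psi_zero] at h1
  have h2 : xw bl (0 : Sct bl → ℂ) = 0 := by
    funext s
    simp [xw]
  rw [h2] at h1
  have h3 : (Matrix.of fun k l : κ => H bl (0 : Sct bl → ℂ) (0 : κ → ℂ) k l) = 1 := by
    ext k l
    rw [Matrix.of_apply, F2_H_zero, Matrix.one_apply]
  rw [h3, Matrix.det_one] at h1
  exact zero_ne_one h1

/-- The parameters with a degenerate complex solution form a thin set.

Proof. It is the image of the zero set of the Hessian determinant (a nonzero polynomial in `w`, see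
`nd_gen`) under `psi`; `thin_zero`, `thin_image`. -/
theorem thin_crit : Thin (2 * Fintype.card (Sct bl) - 2) {c : Sct bl → ℂ |
    ∃ x, G bl c x = 0 ∧ ¬ Function.Bijective (fderiv ℂ (G bl c) x)} := by
  have h1 := thin_zero (F2J bl) (F2_J_ne bl)
  have h2 := thin_image h1 (psi bl) (F2_psi_contDiff bl)
  refine thin_mono h2 ?_
  rintro c ⟨x, hx, hn⟩
  refine ⟨kpt bl c x, ?_, psi_kpt bl c x hx⟩
  change eval (kpt bl c x) (F2J bl) = 0
  rw [F2_eval_J, psi_kpt bl c x hx, xw_kpt]
  rw [bij_iff] at hn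
  push Not at hn
  obtain ⟨v, hv, hv0⟩ := hn
  refine (Matrix.exists_mulVec_eq_zero_iff).1 ⟨v, hv0, ?_⟩
  rw [← hv]
  rfl

/-- An isolated solution persists.

Proof. Choose `ρ` small enough that `x0` is the only solution of `c0` in the closed ball `B` of radius
`ρ` around `x0`, and a ball `O` around `c0` such that for `c ∈ O` there is no solution on the sphere
(compactness). For `c ∈ O` outside the thin set `Σ` of `thin_crit` let `n(c)` be the number of
solutions in the open ball; it is finite and locally constant on `O \ Σ` (the argument of `lc` in the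
ball). It is constant on `O \ Σ`: given `c, c' ∈ O \ Σ` choose small open neighbourhoods on which `n`
is constant and a segment between points of them which avoids `Σ` (`segment_avoid`;
`2 card (Sct bl)` is the real dimension, it is at least two); the segment is in `O`. By `near_gen` (or
directly by moving the point `kpt c0 x0`) there is a `c ∈ O \ Σ` with a solution in the ball: the
parameters `psi w`, `w` near `kpt c0 x0`, which are not in `Σ`, for instance those outside the zero set
of the polynomial of `nd_gen` (`near_gen` with this polynomial). So `n ≥ 1` on `O \ Σ`. -/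
theorem pers (c0 : Sct bl → ℂ) (x0 : κ → ℂ) (h0 : G bl c0 x0 = 0)
    (hiso : ∀ᶠ x in 𝓝 x0, G bl c0 x = 0 → x = x0) (V : Set (κ → ℂ)) (hV : V ∈ 𝓝 x0) :
    ∀ᶠ c in 𝓝 c0, (∀ x, G bl c x = 0 → Function.Bijective (fderiv ℂ (G bl c) x)) →
      ∃ x ∈ V, G bl c x = 0 := by
  classical
  have hG : ContDiff ℂ 1 (fun w : (Sct bl → ℂ) × (κ → ℂ) => G bl w.1 w.2) := contDiff_G bl 1
  have hcont : Continuous (fun w : (Sct bl → ℂ) × (κ → ℂ) => G bl w.1 w.2) := hG.continuous
  -- the radius of the ball around the solution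
  obtain ⟨ρ, hρ, hρV⟩ := Metric.nhds_basis_closedBall.mem_iff.1 (Filter.inter_mem hV hiso)
  -- no solutions on the sphere
  have hsph : ∀ᶠ c in 𝓝 c0, ∀ y ∈ Metric.sphere x0 ρ, G bl c y ≠ 0 := by
    refine (isCompact_sphere x0 ρ).eventually_forall_of_forall_eventually fun y hy => ?_
    have hne : G bl c0 y ≠ 0 := by
      intro h
      have h1 := (hρV (Metric.sphere_subset_closedBall hy)).2 h
      rw [h1, Metric.mem_sphere, dist_self] at hy
      exact hρ.ne hy
    exact hcont.continuousAt.eventually_ne (x := (c0, y)) hne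
  obtain ⟨r, hr, hrO⟩ := Metric.nhds_basis_ball.mem_iff.1 hsph
  -- the property to be propagated
  set F : (Sct bl → ℂ) → Prop := fun c => ∃ x ∈ Metric.ball x0 ρ, G bl c x = 0 with hF
  set S : Set (Sct bl → ℂ) := {c : Sct bl → ℂ |
    ∃ x, G bl c x = 0 ∧ ¬ Function.Bijective (fderiv ℂ (G bl c) x)} with hS
  have hloc : ∀ c ∈ Metric.ball c0 r, c ∉ S → ∀ᶠ c' in 𝓝 c, (F c' ↔ F c) := by
    intro c hc hcS
    by_cases hFc : F c
    · obtain ⟨x, hx, hx0⟩ := hFc
      have hbij : Function.Bijective (fderiv ℂ (G bl c) x) := by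
        by_contra hcon
        exact hcS ⟨x, hx0, hcon⟩
      obtain ⟨U, hU, hUV, hev⟩ := Pool.Agent.MPb0eP.persist (fun c x => G bl c x) hG c x hx0 hbij
        (Metric.ball x0 ρ) (Metric.isOpen_ball.mem_nhds hx)
      filter_upwards [hev] with c' hc'
      obtain ⟨u, ⟨huU, hu0⟩, -⟩ := hc'
      exact ⟨fun _ => ⟨x, hx, hx0⟩, fun _ => ⟨u, hUV huU, hu0⟩⟩
    · have hcl : ∀ᶠ c' in 𝓝 c, ∀ y ∈ Metric.closedBall x0 ρ, G bl c' y ≠ 0 := by
        refine (isCompact_closedBall x0 ρ).eventually_forall_of_forall_eventually fun y hy => ?_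
        have hne : G bl c y ≠ 0 := by
          intro h
          by_cases hyb : y ∈ Metric.ball x0 ρ
          · exact hFc ⟨y, hyb, h⟩
          · have hys : y ∈ Metric.sphere x0 ρ := by
              rw [Metric.mem_sphere]
              rw [Metric.mem_ball, not_lt] at hyb
              exact le_antisymm (Metric.mem_closedBall.1 hy) hyb
            exact hrO hc y hys h
        exact hcont.continuousAt.eventually_ne (x := (c, y)) hne
      filter_upwards [hcl] with c' hc'
      refine ⟨fun h => ?_, fun h => absurd h hFc⟩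
      obtain ⟨x, hx, hx0⟩ := h
      exact absurd hx0 (hc' x (Metric.ball_subset_closedBall hx))
  -- the dimension
  have hcard : 1 ≤ Fintype.card (Sct bl) := by
    refine Fintype.card_pos_iff.2 ⟨⟨∅, ?_⟩⟩
    intro a ha
    exact absurd ha (Finset.notMem_empty a)
  have hdim : 2 * Fintype.card (Sct bl) - 2 + 2 ≤ Module.finrank ℝ (Sct bl → ℂ) := by
    rw [Module.finrank_pi_fintype]
    simp only [Complex.finrank_real_complex, Finset.sum_const, Finset.card_univ, smul_eq_mul]
    omega
  -- any two parameters of the ball outside the thin set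
  have hconst : ∀ c ∈ Metric.ball c0 r, c ∉ S → ∀ c' ∈ Metric.ball c0 r, c' ∉ S →
      (F c ↔ F c') := by
    intro c hc hcS c' hc' hcS'
    obtain ⟨A, hA, hAo, hcA⟩ := eventually_nhds_iff.1 (hloc c hc hcS)
    obtain ⟨B, hB, hBo, hcB⟩ := eventually_nhds_iff.1 (hloc c' hc' hcS')
    obtain ⟨p, hp, q, hq, hseg⟩ := segment_avoid (thin_crit bl) hdim
      (A ∩ Metric.ball c0 r) (B ∩ Metric.ball c0 r)
      (hAo.inter Metric.isOpen_ball) (hBo.inter Metric.isOpen_ball) ⟨c, hcA, hc⟩ ⟨c', hcB, hc'⟩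
    have hsub : segment ℝ p q ⊆ Metric.ball c0 r :=
      (convex_ball c0 r).segment_subset hp.2 hq.2
    have hpre : IsPreconnected (segment ℝ p q) := (convex_segment p q).isPreconnected
    let _ : TopologicalSpace Prop := ⊥
    have _ : DiscreteTopology Prop := ⟨rfl⟩
    have hcontF : ContinuousOn F (segment ℝ p q) := by
      intro z hz
      refine ContinuousAt.continuousWithinAt ?_
      refine (continuousAt_const (y := F z)).congr ?_
      filter_upwards [hloc z (hsub hz) (hseg z hz)] with y hy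
      exact (propext hy).symm
    have hpq : F p = F q :=
      hpre.constant hcontF (left_mem_segment ℝ p q) (right_mem_segment ℝ p q)
    rw [← hA p hp.1, ← hB q hq.1, hpq]
  -- a parameter with a solution in the ball
  obtain ⟨P, hP, hPnd⟩ := nd_gen bl
  have hs : ∃ c : Sct bl → ℂ, eval c P ≠ 0 ∧ ∃ x, G bl c x = 0 := by
    have hbij : Function.Bijective (fderiv ℂ (G bl (0 : Sct bl → ℂ)) (0 : κ → ℂ)) := by
      rw [bij_iff]
      intro v hv
      funext k
      have h1 := congrFun hv k
      simpa [Hv, F2_H_zero] using h1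
    obtain ⟨U, -, -, hev⟩ := Pool.Agent.MPb0eP.persist (fun c x => G bl c x) hG
      (0 : Sct bl → ℂ) (0 : κ → ℂ) (F2_G_zero bl ℂ) hbij Set.univ Filter.univ_mem
    obtain ⟨s, hs, hsP⟩ := Pool.Agent.MPb0eP.dense_ne P hP 0 _ hev
    obtain ⟨u, ⟨-, hu⟩, -⟩ := hs
    exact ⟨s, hsP, u, hu⟩
  obtain ⟨c1, hc1, hc1P, x1, hx1, hx10⟩ := near_gen bl P hs c0 x0 h0 (Metric.ball c0 r)
    (Metric.ball_mem_nhds c0 hr) (Metric.ball x0 ρ) (Metric.ball_mem_nhds x0 hρ)
  have hc1S : c1 ∉ S := by
    rintro ⟨x, hx, hn⟩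
    exact hn (hPnd c1 x hc1P hx)
  have hF1 : F c1 := ⟨x1, hx1, hx10⟩
  filter_upwards [Metric.ball_mem_nhds c0 hr] with c hc hnd
  have hcS : c ∉ S := by
    rintro ⟨x, hx, hn⟩
    exact hn (hnd x hx)
  obtain ⟨x, hx, hx0⟩ := (hconst c1 hc1 hc1S c hc hcS).1 hF1
  exact ⟨x, (hρV (Metric.ball_subset_closedBall hx)).1, hx0⟩

end

end Pool.Agent.MPb0eQ
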