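import Mathlib
import Pool.Agent.Lib.MP_b0e20b_ag_P.Cn
import Pool.Agent.Lib.MP_b0e20b_ag_Q.B2
import Pool.Agent.Lib.MP_b0e20b_ag_Q.B8
import Pool.Agent.Lib.MP_b0e20b_ag_Q.E2
import Pool.Agent.Lib.MP_b0e20b_ag_Q.F2

/-!
# MP_b0e20b_ag, all formats: parameters with the generic number of complex solutions
-/

set_option autoImplicit false

open scoped BigOperators Topology
open MvPolynomial

namespace Pool.Agent.MPb0eQ

section

variable {κ : Type} [Fintype κ] [DecidableEq κ] {d : ℕ} (bl : κ → Fin d)

/-- Real parameters with exactly `N` complex solutions, `k` of them real: near them there are generic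
real parameters with at least `k` real solutions.

Proof. The `N` complex solutions of `c0` are isolated; choose disjoint balls around them, invariant
under conjugation (the ball of a real solution is; sup norm balls). For real `c` near `c0` with
`eval (toC c) P ≠ 0` (`dense_ne_real`) there is at least one solution in every ball (`pers`) and
there are exactly `N` solutions, so exactly one in every ball. The one in the ball of a real solution
is real, as its conjugate (`G_conj`) is in the same ball. -/
theorem real_pers {N k : ℕ} (P : MvPolynomial (Sct bl) ℂ) (hP : P ≠ 0)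
    (hN : ∀ c : Sct bl → ℂ, eval c P ≠ 0 → {x | G bl c x = 0}.encard = N ∧
      ∀ x, G bl c x = 0 → Function.Bijective (fderiv ℂ (G bl c) x))
    (c0 : Sct bl → ℝ) (h1 : {x | G bl (toC bl c0) x = 0}.encard = N)
    (h2 : {x | G bl c0 x = 0}.encard = k) :
    ∃ c : Sct bl → ℝ, eval (toC bl c) P ≠ 0 ∧ (k : ℕ∞) ≤ {x | G bl c x = 0}.encard := by
  classical
  set Z : Set (κ → ℂ) := {x | G bl (toC bl c0) x = 0} with hZdef
  have hfin : Z.Finite := Set.finite_of_encard_eq_coe h1
  -- a radius of separation
  obtain ⟨ε, hsep, hε⟩ : ∃ ε : ℝ, (∀ z ∈ Z, ∀ z' ∈ Z, z ≠ z' → 2 * ε ≤ dist z z') ∧ 0 < ε := by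
    have h3 : ∀ᶠ ε : ℝ in 𝓝[>] 0, ∀ z ∈ Z, ∀ z' ∈ Z, z ≠ z' → 2 * ε ≤ dist z z' := by
      rw [Filter.eventually_all_finite hfin]
      intro z _
      rw [Filter.eventually_all_finite hfin]
      intro z' _
      by_cases hzz : z = z'
      · exact Filter.Eventually.of_forall fun ε h => absurd hzz h
      · have hd : 0 < dist z z' / 2 := half_pos (dist_pos.2 hzz)
        filter_upwards [(eventually_lt_nhds hd).filter_mono nhdsWithin_le_nhds] with ε h _
        linarith
    exact (h3.and eventually_mem_nhdsWithin).exists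
  have hsep' : ∀ z ∈ Z, ∀ z' ∈ Z, ∀ y, dist y z < ε → dist y z' < ε → z = z' := by
    intro z hz z' hz' y h3 h4
    by_contra hne
    have h5 := hsep z hz z' hz' hne
    have h6 := dist_triangle_left z z' y
    linarith
  -- persistence
  have hper : ∀ᶠ c in 𝓝 (toC bl c0), ∀ z ∈ Z,
      (∀ x, G bl c x = 0 → Function.Bijective (fderiv ℂ (G bl c) x)) →
        ∃ x ∈ Metric.ball z ε, G bl c x = 0 := by
    rw [Filter.eventually_all_finite hfin]
    intro z hz
    refine pers bl (toC bl c0) z hz ?_ (Metric.ball z ε) (Metric.ball_mem_nhds z hε)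
    filter_upwards [Metric.ball_mem_nhds z hε] with x hx h0
    exact hsep' x h0 z hz x (by rw [dist_self]; exact hε) hx
  have hcont : Continuous (toC bl) :=
    continuous_pi fun s => Complex.continuous_ofReal.comp (continuous_apply s)
  obtain ⟨c, hcW, hcP⟩ := MPb0eP.dense_ne_real P hP c0 _ (hcont.tendsto c0 hper)
  have hcP' : eval (toC bl c) P ≠ 0 := hcP
  obtain ⟨hcN, hcnd⟩ := hN (toC bl c) hcP'
  have hex : ∀ z ∈ Z, ∃ x, dist x z < ε ∧ G bl (toC bl c) x = 0 := fun z hz => by
    obtain ⟨x, hx, h0⟩ := hcW z hz hcnd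
    exact ⟨x, hx, h0⟩
  choose! f hf1 hf2 using hex
  have hinj : Set.InjOn f Z := fun z hz z' hz' h =>
    hsep' z hz z' hz' (f z) (hf1 z hz) (by rw [h]; exact hf1 z' hz')
  have himg : f '' Z = {x | G bl (toC bl c) x = 0} := by
    refine Set.Finite.eq_of_subset_of_encard_le (hfin.image f) ?_ ?_
    · rintro _ ⟨z, hz, rfl⟩
      exact hf2 z hz
    · rw [hinj.encard_image, hcN, h1]
  -- real solutions stay real
  have hmem : ∀ x : κ → ℝ, G bl c0 x = 0 → (fun k => (x k : ℂ)) ∈ Z := by
    intro x hx
    change G bl (toC bl c0) (fun k => (x k : ℂ)) = 0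
    funext k
    rw [G_toC, congrFun hx k]
    simp
  have hreal : ∀ x : κ → ℝ, G bl c0 x = 0 → ∀ k,
      (((f (fun k => (x k : ℂ)) k).re : ℝ) : ℂ) = f (fun k => (x k : ℂ)) k := by
    intro x hx
    set z : κ → ℂ := fun k => (x k : ℂ) with hz
    have hzZ : z ∈ Z := hmem x hx
    have hconj := G_conj bl c (f z) (hf2 z hzZ)
    have h3 : (fun k => (starRingEnd ℂ) (f z k)) ∈ f '' Z := by
      rw [himg]
      exact hconj
    obtain ⟨z', hz', h4⟩ := h3
    have h5 : dist (fun k => (starRingEnd ℂ) (f z k)) z < ε := by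
      rw [dist_pi_lt_iff hε]
      intro k
      have h6 := (dist_pi_lt_iff hε).1 (hf1 z hzZ) k
      have h7 : dist ((starRingEnd ℂ) (f z k)) (z k) = dist (f z k) (z k) := by
        rw [dist_eq_norm, dist_eq_norm]
        have h8 : (starRingEnd ℂ) (f z k) - z k = (starRingEnd ℂ) (f z k - z k) := by
          rw [map_sub, hz]
          simp only [Complex.conj_ofReal]
        rw [h8, RCLike.norm_conj]
      rw [h7]
      exact h6
    have h6 : dist (fun k => (starRingEnd ℂ) (f z k)) z' < ε := by
      rw [← h4]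
      exact hf1 z' hz'
    have h7 := hsep' z hzZ z' hz' _ h5 h6
    rw [← h7] at h4
    intro k
    exact Complex.conj_eq_iff_re.1 (congrFun h4 k).symm
  refine ⟨c, hcP', ?_⟩
  rw [← h2]
  refine Set.encard_le_encard_of_injOn (f := fun x k => (f (fun k => (x k : ℂ)) k).re) ?_ ?_
  · intro x hx
    have hx' : G bl c0 x = 0 := hx
    change G bl c (fun k => (f (fun k => (x k : ℂ)) k).re) = 0
    funext k
    have h3 := G_toC bl c (fun k => (f (fun k => (x k : ℂ)) k).re) k
    have h4 : (fun k => (((f (fun k => (x k : ℂ)) k).re : ℝ) : ℂ)) = f (fun k => (x k : ℂ)) :=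
      funext (hreal x hx')
    rw [h4, congrFun (hf2 _ (hmem x hx')) k] at h3
    exact Complex.ofReal_eq_zero.1 h3.symm
  · intro x hx y hy h
    have hx' : G bl c0 x = 0 := hx
    have hy' : G bl c0 y = 0 := hy
    have h3 : f (fun k => (x k : ℂ)) = f (fun k => (y k : ℂ)) := by
      funext k
      rw [← hreal x hx' k, ← hreal y hy' k]
      exact congrArg Complex.ofReal (congrFun h k)
    have h4 := hinj (hmem x hx') (hmem y hy') h3
    funext k
    exact Complex.ofReal_injective (congrFun h4 k)

end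

end Pool.Agent.MPb0eQ
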