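import Mathlib
import Pool.Agent.Lib.MP_b0e20b_ag_P.LC
import Pool.Agent.Lib.MP_b0e20b_ag_P.Cn
import Pool.Agent.Lib.MP_b0e20b_ag_Q.A4
import Pool.Agent.Lib.MP_b0e20b_ag_Q.B2
import Pool.Agent.Lib.MP_b0e20b_ag_Q.B7
import Pool.Agent.Lib.MP_b0e20b_ag_Q.B8

/-!
# MP_b0e20b_ag, all formats: regular and generic real parameters
-/

set_option autoImplicit false

open scoped BigOperators Topology
open MvPolynomial

namespace Pool.Agent.MPb0eQ

section

variable {κ : Type} [Fintype κ] [DecidableEq κ] {d : ℕ} (bl : κ → Fin d)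

/-- Near a regular real parameter there are generic ones with the same number of real solutions.
Proof. `near_reg`, `proper_real`, `dense_ne_real`. -/
theorem to_generic (P : MvPolynomial (Sct bl) ℂ) (hP : P ≠ 0) (c : Sct bl → ℝ)
    (h : Reg (G bl) c) (W : Set (Sct bl → ℝ)) (hW : W ∈ 𝓝 c) :
    ∃ c' ∈ W, eval (toC bl c') P ≠ 0 ∧ Reg (G bl) c' ∧
      {x | G bl c' x = 0}.encard = {x | G bl c x = 0}.encard := by
  have h1 := (near_reg (G bl) (by exact_mod_cast contDiff_G bl (𝕜 := ℝ) 3) c (proper_real bl c)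
    h).2
  obtain ⟨c', hc', h2⟩ := Pool.Agent.MPb0eP.dense_ne_real P hP c _ (Filter.inter_mem h1 hW)
  exact ⟨c', hc'.2, h2, hc'.1.1, hc'.1.2⟩

/-- The generic number is odd, and so is the number of real solutions of a regular parameter, which
is at most `N`.

Proof. `to_generic` and `parity`; near the parameter `0` there is one real solution (`zero_reg`,
`zero_sol`). -/
theorem odd_reg {N : ℕ} (P : MvPolynomial (Sct bl) ℂ) (hP : P ≠ 0)
    (hN : ∀ c : Sct bl → ℂ, eval c P ≠ 0 → {x | G bl c x = 0}.encard = N) :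
    Odd N ∧ ∀ (c : Sct bl → ℝ), Reg (G bl) c → ∀ k : ℕ, {x | G bl c x = 0}.encard = k →
      Odd k ∧ k ≤ N := by
  have hodd : Odd N := by
    obtain ⟨c', -, h1, h2, h3⟩ := to_generic bl P hP 0 (zero_reg bl) Set.univ Filter.univ_mem
    rw [zero_sol bl, Set.encard_singleton] at h3
    have h4 := (parity bl c' (hN _ h1) (k := 1) (by exact_mod_cast h3)).2
    rw [← Nat.not_even_iff_odd]
    intro h5
    exact (by decide : ¬ Even 1) ((Nat.even_add.1 h4).1 h5)
  refine ⟨hodd, fun c hc k hk => ?_⟩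
  obtain ⟨c', -, h1, h2, h3⟩ := to_generic bl P hP c hc Set.univ Filter.univ_mem
  rw [hk] at h3
  obtain ⟨h4, h5⟩ := parity bl c' (hN _ h1) h3
  refine ⟨?_, h4⟩
  rw [← Nat.not_even_iff_odd] at hodd ⊢
  exact fun h6 => hodd ((Nat.even_add.1 h5).2 h6)

/-- Nondegenerate real solutions persist: a parameter with at least `S.card` nondegenerate real
solutions is near a generic one with at least as many real solutions.

Proof. `Pool.Agent.MPb0eP.persist` with disjoint neighbourhoods, `dense_ne_real`; for the generic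
parameter all complex solutions are nondegenerate, so it is regular (`bij_toC`). -/
theorem lower (P : MvPolynomial (Sct bl) ℂ) (hP : P ≠ 0)
    (hnd : ∀ c : Sct bl → ℂ, eval c P ≠ 0 →
      ∀ x, G bl c x = 0 → Function.Bijective (fderiv ℂ (G bl c) x))
    (c : Sct bl → ℝ) (S : Finset (κ → ℝ))
    (hS : ∀ x ∈ S, G bl c x = 0 ∧ ∀ v, Hv bl c x v = 0 → v = 0) :
    ∃ c' : Sct bl → ℝ, eval (toC bl c') P ≠ 0 ∧ Reg (G bl) c' ∧
      (S.card : ℕ∞) ≤ {x | G bl c' x = 0}.encard := by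
  classical
  have hG1 : ContDiff ℝ 1 (fun w : (Sct bl → ℝ) × (κ → ℝ) => G bl w.1 w.2) := by
    exact_mod_cast contDiff_G bl (𝕜 := ℝ) 1
  obtain ⟨V, hV, hVd⟩ := S.finite_toSet.t2_separation
  have hper : ∀ x ∈ S, ∃ U ∈ 𝓝 x, U ⊆ V x ∧
      ∀ᶠ p in 𝓝 c, ∃! u, u ∈ U ∧ G bl p u = 0 := fun x hx =>
    Pool.Agent.MPb0eP.persist (G bl) hG1 c x (hS x hx).1 ((bij_iff bl c x).2 (hS x hx).2) (V x)
      ((hV x).2.mem_nhds (hV x).1)
  choose! U hU using hper
  have hall : ∀ᶠ p in 𝓝 c, ∀ x ∈ S, ∃! u, u ∈ U x ∧ G bl p u = 0 :=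
    (Filter.eventually_all_finset S).2 fun x hx => (hU x hx).2.2
  obtain ⟨c', hc', h2⟩ := Pool.Agent.MPb0eP.dense_ne_real P hP c _ hall
  have hc2 : ∀ x ∈ S, ∃! u, u ∈ U x ∧ G bl c' u = 0 := hc'
  refine ⟨c', h2, fun x hx => ?_, ?_⟩
  · rw [← bij_toC bl c' x]
    refine hnd (toC bl c') h2 (fun k => (x k : ℂ)) ?_
    funext k
    rw [G_toC bl c' x k, hx]
    simp
  · choose! f hf using fun x hx => (hc2 x hx).exists
    have hinj : Set.InjOn f (S : Set (κ → ℝ)) := by
      intro x hx y hy hxy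
      by_contra hne
      have h3 : f x ∈ V x := (hU x hx).2.1 (hf x hx).1
      have h4 : f x ∈ V y := by
        rw [hxy]
        exact (hU y hy).2.1 (hf y hy).1
      exact Set.disjoint_left.1 (hVd hx hy hne) h3 h4
    have h5 : (S.card : ℕ∞) = (f '' (S : Set (κ → ℝ))).encard := by
      rw [hinj.encard_image, Set.encard_coe_eq_coe_finsetCard]
    rw [h5]
    refine Set.encard_le_encard ?_
    rintro _ ⟨x, hx, rfl⟩
    exact (hf x hx).2

end

end Pool.Agent.MPb0eQ
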