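import Mathlib
import Pool.Agent.Lib.MP_b0e20b_ag_Q.A4
import Pool.Agent.Lib.MP_b0e20b_ag_Q.A5
import Pool.Agent.Lib.MP_b0e20b_ag_Q.B2
import Pool.Agent.Lib.MP_b0e20b_ag_Q.B6
import Pool.Agent.Lib.MP_b0e20b_ag_Q.B7
import Pool.Agent.Lib.MP_b0e20b_ag_Q.B8
import Pool.Agent.Lib.MP_b0e20b_ag_Q.E2
import Pool.Agent.Lib.MP_b0e20b_ag_Q.F3
import Pool.Agent.Lib.MP_b0e20b_ag_Q.K0

/-!
# MP_b0e20b_ag, all formats: the attained numbers in coordinates
-/

set_option autoImplicit false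

open scoped BigOperators Topology
open MvPolynomial

namespace Pool.Agent.MPb0eQ

section

variable {κ : Type} [Fintype κ] [DecidableEq κ] {d : ℕ} (bl : κ → Fin d)

/-- The attained numbers.

Proof. `N`, `P` of `gen_exists`. Let `K` be the maximum of the numbers of real solutions of regular
parameters (they are at most `N`, `odd_reg`; finite by `near_reg`). If `c` has `N` complex and `k`
real solutions, then `k` is odd (`parity` and `Odd N`) and `k ≤ K` by `real_pers`. Conversely let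
`k ≤ K` be odd; `ivt` (with `bad`, `two_le_card`, `proper_real`, `surj_par`, `contDiff_G`, between a
regular parameter with `K` real solutions and the parameter `0`) gives a regular parameter with `k`
real solutions, and `to_generic` a generic one. The last statement is `lower`. -/
theorem coords (hd : 3 ≤ d) (hbl : ∀ i, ∃ k, bl k = i) :
    ∃ (N K : ℕ) (P : MvPolynomial (Sct bl) ℂ), P ≠ 0 ∧
      (∀ c : Sct bl → ℂ, eval c P ≠ 0 → {x | G bl c x = 0}.encard = N) ∧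
      Odd N ∧ Odd K ∧ K ≤ N ∧
      (∀ k : ℕ, (∃ c : Sct bl → ℝ, {x | G bl (toC bl c) x = 0}.encard = N ∧
        {x | G bl c x = 0}.encard = k) ↔ Odd k ∧ k ≤ K) ∧
      ∀ (c : Sct bl → ℝ) (S : Finset (κ → ℝ)),
        (∀ x ∈ S, G bl c x = 0 ∧ ∀ v, Hv bl c x v = 0 → v = 0) → S.card ≤ K := by
  obtain ⟨N, P, hP, hNP⟩ := gen_exists bl
  have hN : ∀ c : Sct bl → ℂ, eval c P ≠ 0 → {x | G bl c x = 0}.encard = N :=
    fun c h => (hNP c h).1
  obtain ⟨hNodd, hreg⟩ := odd_reg bl P hP hN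
  have hG : ContDiff ℝ 3 (fun w : (Sct bl → ℝ) × (κ → ℝ) => G bl w.1 w.2) := by
    exact_mod_cast contDiff_G (𝕜 := ℝ) bl 3
  have hfin : ∀ c : Sct bl → ℝ, Reg (G bl) c → ∃ k : ℕ, {x | G bl c x = 0}.encard = k :=
    fun c hc => (near_reg (G bl) hG c (proper_real bl c) hc).1
  have hgenreg : ∀ c : Sct bl → ℝ, eval (toC bl c) P ≠ 0 → Reg (G bl) c := by
    intro c hc x hx
    refine (bij_toC bl c x).1 ((hNP _ hc).2 _ ?_)
    funext k
    rw [G_toC, hx]
    simp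
  -- the maximal number
  set A : Set ℕ := {k | ∃ c : Sct bl → ℝ, Reg (G bl) c ∧ {x | G bl c x = 0}.encard = k} with hA
  have hA1 : 1 ∈ A := by
    refine ⟨0, zero_reg bl, ?_⟩
    rw [zero_sol, Set.encard_singleton]
    rfl
  have hAb : BddAbove A := by
    refine ⟨N, ?_⟩
    rintro k ⟨c, hc, hk⟩
    exact (hreg c hc k hk).2
  obtain ⟨cK, hcK, hK⟩ : sSup A ∈ A := Nat.sSup_mem ⟨1, hA1⟩ hAb
  set K : ℕ := sSup A with hKdef
  have hmax : ∀ (c : Sct bl → ℝ), Reg (G bl) c → ∀ k : ℕ,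
      (k : ℕ∞) ≤ {x | G bl c x = 0}.encard → k ≤ K := by
    intro c hc k hk
    obtain ⟨k', hk'⟩ := hfin c hc
    rw [hk'] at hk
    have k1 : k ≤ k' := by exact_mod_cast hk
    exact k1.trans (le_csSup hAb ⟨c, hc, hk'⟩)
  obtain ⟨hKodd, hKN⟩ := hreg cK hcK K hK
  refine ⟨N, K, P, hP, hN, hNodd, hKodd, hKN, fun k => ⟨?_, ?_⟩, fun c S hS => ?_⟩
  · rintro ⟨c, h1, h2⟩
    obtain ⟨-, hev⟩ := parity bl c h1 h2
    obtain ⟨c', hc', hle⟩ := real_pers bl P hP hNP c h1 h2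
    refine ⟨?_, hmax c' (hgenreg c' hc') k hle⟩
    rw [Nat.even_add] at hev
    rw [← Nat.not_even_iff_odd] at hNodd ⊢
    exact fun h => hNodd (hev.2 h)
  · rintro ⟨hodd, hle⟩
    have h2 := two_le_card bl hd hbl
    obtain ⟨B, hB, hRO⟩ := bad bl hd hbl h2
    have hk1 : 1 ≤ k := hodd.pos
    obtain ⟨c, hc, hck⟩ := ivt (G bl) hG (fun T0 => proper_real bl T0)
      (fun T x => surj_par bl T x) (Fintype.card (Sct bl) - 2) B hB
      (by rw [Module.finrank_pi]; omega) hRO (fun T hT k hk => (hreg T hT k hk).1) cK 0 hcK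
      (zero_reg bl) K 1 k hK (by rw [zero_sol, Set.encard_singleton]; rfl) hodd hk1 hle
    obtain ⟨c', -, hc', -, he⟩ := to_generic bl P hP c hc Set.univ Filter.univ_mem
    exact ⟨c', hN _ hc', by rw [he, hck]⟩
  · obtain ⟨c', -, hc', hle⟩ := lower bl P hP (fun c h => (hNP c h).2) c S hS
    exact hmax c' hc' S.card hle

end

end Pool.Agent.MPb0eQ
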