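import Mathlib

/-!
# MP_b0e20b_ag, all formats: the scalar equation of the diagonal example
-/

set_option autoImplicit false

namespace Pool.Agent.MPb0eQ

private noncomputable def l1bad (d s : ℕ) : ℝ :=
  (1 + ((d : ℝ) - 2) / d) ^ (d - 1) / (Real.sqrt (((d : ℝ) - 2) / (d * s))) ^ (d - 2)

/-- For a suitable `λ` and every `s` with `1 ≤ s ≤ m` the equation
`(1 + s τ²)^(d-1) = λ τ^(d-2)` has two positive roots, both outside the degenerate value.

Proof. Let `λ > (1 + m)^(d-1)`. The function `(1 + s τ²)^(d-1) - λ τ^(d-2)` is `1` at `0` (`d ≥ 3`),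
negative at `1` and positive for large `τ` (its degree is `2d - 2 > d - 2`), so there are roots
`0 < τ₁ < 1 < τ₂`. The degenerate value is `s τ² = (d-2)/d` (this is the equation
`(d-1) * 2 s τ² = (d-2) * (1 + s τ²)`), it is a root only if
`λ = (1 + (d-2)/d)^(d-1) / τ^(d-2)` with `τ = √((d-2)/(d s))`; choose `λ` different from these `m`
numbers. -/
theorem scal (d m : ℕ) (hd : 3 ≤ d) : ∃ lam : ℝ, 0 < lam ∧ ∀ s : ℕ, 1 ≤ s → s ≤ m →
    ∃ τ : Bool → ℝ, τ true ≠ τ false ∧ ∀ b, 0 < τ b ∧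
      (1 + s * τ b ^ 2) ^ (d - 1) = lam * τ b ^ (d - 2) ∧
      ((d : ℝ) - 1) * (2 * (s * τ b ^ 2)) ≠ ((d : ℝ) - 2) * (1 + s * τ b ^ 2) := by
  set Sb : ℝ := ∑ s ∈ Finset.range (m + 1), |l1bad d s| with hSe
  have hS0 : 0 ≤ Sb := Finset.sum_nonneg fun s _ => abs_nonneg _
  set lam : ℝ := (1 + (m : ℝ)) ^ (d - 1) + 1 + Sb with hlam
  have hpw : 0 < (1 + (m : ℝ)) ^ (d - 1) := by positivity
  have hlam1 : 1 ≤ lam := by rw [hlam]; linarith
  have hlam0 : 0 < lam := by linarith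
  refine ⟨lam, hlam0, fun s hs1 hsm => ?_⟩
  have hs0 : (0 : ℝ) < s := by exact_mod_cast hs1
  have hs0' : (1 : ℝ) ≤ s := by exact_mod_cast hs1
  have hsm' : (s : ℝ) ≤ m := by exact_mod_cast hsm
  have hbad : l1bad d s < lam := by
    have h1 : |l1bad d s| ≤ Sb :=
      Finset.single_le_sum (f := fun s => |l1bad d s|) (fun i _ => abs_nonneg _)
        (Finset.mem_range.2 (Nat.lt_succ_of_le hsm))
    have h2 := le_abs_self (l1bad d s)
    rw [hlam]
    linarith
  set f : ℝ → ℝ := fun t => (1 + s * t ^ 2) ^ (d - 1) - lam * t ^ (d - 2) with hf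
  have hfc : Continuous f := by fun_prop
  have hf0 : f 0 = 1 := by
    have h1 : d - 2 ≠ 0 := by omega
    simp [hf, zero_pow h1]
  have hf1 : f 1 < 0 := by
    have h1 : (1 + (s : ℝ)) ^ (d - 1) ≤ (1 + (m : ℝ)) ^ (d - 1) :=
      pow_le_pow_left₀ (by positivity) (by linarith) _
    have h2 : f 1 = (1 + (s : ℝ)) ^ (d - 1) - lam := by simp [hf]
    rw [h2, hlam]
    linarith
  have hfT : 0 < f (lam + 1) := by
    have hT1 : 1 ≤ lam + 1 := by linarith
    have hT0 : 0 < lam + 1 := by linarith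
    have h1 : ((lam + 1) ^ 2) ^ (d - 1) ≤ (1 + s * (lam + 1) ^ 2) ^ (d - 1) := by
      refine pow_le_pow_left₀ (by positivity) ?_ _
      have h3 : (lam + 1) ^ 2 ≤ s * (lam + 1) ^ 2 := le_mul_of_one_le_left (by positivity) hs0'
      linarith
    have h2 : ((lam + 1) ^ 2) ^ (d - 1) = (lam + 1) ^ d * (lam + 1) ^ (d - 2) := by
      rw [← pow_mul, ← pow_add]
      congr 1
      omega
    have h3 : lam + 1 ≤ (lam + 1) ^ d := by
      calc lam + 1 = (lam + 1) ^ 1 := (pow_one _).symm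
        _ ≤ (lam + 1) ^ d := pow_le_pow_right₀ hT1 (by omega)
    have h4 : lam * (lam + 1) ^ (d - 2) < (lam + 1) ^ d * (lam + 1) ^ (d - 2) :=
      mul_lt_mul_of_pos_right (by linarith) (by positivity)
    have h5 : f (lam + 1) = (1 + s * (lam + 1) ^ 2) ^ (d - 1) - lam * (lam + 1) ^ (d - 2) := rfl
    rw [h5]
    linarith
  obtain ⟨t1, ht1, ht1f⟩ : (0 : ℝ) ∈ f '' Set.Icc 0 1 :=
    intermediate_value_Icc' (by norm_num) hfc.continuousOn ⟨hf1.le, by rw [hf0]; norm_num⟩
  obtain ⟨t2, ht2, ht2f⟩ : (0 : ℝ) ∈ f '' Set.Icc 1 (lam + 1) :=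
    intermediate_value_Icc (by linarith) hfc.continuousOn ⟨hf1.le, hfT.le⟩
  have ht10 : 0 < t1 := by
    rcases ht1.1.lt_or_eq with h | h
    · exact h
    · rw [← h, hf0] at ht1f
      norm_num at ht1f
  have ht11 : t1 < 1 := by
    rcases ht1.2.lt_or_eq with h | h
    · exact h
    · rw [h] at ht1f
      linarith
  have ht21 : 1 < t2 := by
    rcases ht2.1.lt_or_eq with h | h
    · exact h
    · rw [← h] at ht2f
      linarith
  have key : ∀ t : ℝ, 0 < t → f t = 0 → 0 < t ∧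
      (1 + s * t ^ 2) ^ (d - 1) = lam * t ^ (d - 2) ∧
      ((d : ℝ) - 1) * (2 * (s * t ^ 2)) ≠ ((d : ℝ) - 2) * (1 + s * t ^ 2) := by
    intro t ht hft
    have h1 : (1 + s * t ^ 2) ^ (d - 1) = lam * t ^ (d - 2) := by
      have h2 : f t = (1 + s * t ^ 2) ^ (d - 1) - lam * t ^ (d - 2) := rfl
      rw [h2] at hft
      linarith
    refine ⟨ht, h1, fun hdeg => ?_⟩
    have hd3 : (3 : ℝ) ≤ d := by exact_mod_cast hd
    have hd0 : (0 : ℝ) < d := by linarith
    have hX : s * t ^ 2 = ((d : ℝ) - 2) / d := by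
      rw [eq_div_iff hd0.ne']
      linarith
    have ht2' : t ^ 2 = ((d : ℝ) - 2) / (d * s) := by
      rw [eq_div_iff (by positivity)]
      rw [eq_div_iff hd0.ne'] at hX
      linarith
    have hts : t = Real.sqrt (((d : ℝ) - 2) / (d * s)) := by
      rw [← ht2', Real.sqrt_sq ht.le]
    have h3 : l1bad d s = lam := by
      unfold l1bad
      rw [← hts, ← hX, h1, mul_div_assoc, div_self (by positivity), mul_one]
    linarith
  refine ⟨fun b => if b then t1 else t2, ?_, fun b => ?_⟩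
  · simp only [if_true]
    intro h
    have h2 : t1 = t2 := by simpa using h
    linarith
  · cases b
    · simpa using key t2 (by linarith) ht2f
    · simpa using key t1 ht10 ht1f

end Pool.Agent.MPb0eQ
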