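import Mathlib
import Pool.Agent.Lib.MP_b0e20b_ag_Q.BDefs

/-!
# MP_b0e20b_ag, all formats: the diagonal example

`a i j`, `j : Fin m`, are `m` different coordinates of the block `i`. The objective function has the
terms `λ ∏ i, x (a i j)`. Its solutions: a set `S` of indices `j`, signs `e i j` with product `1` over
`i` for every `j ∈ S`, and `x (a i j) = e i j τ` for `j ∈ S`, all other coordinates `0`.
-/

set_option autoImplicit false

open scoped BigOperators

namespace Pool.Agent.MPb0eQ

section

variable {κ : Type} [Fintype κ] [DecidableEq κ] {d : ℕ} (bl : κ → Fin d)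

/-- The coefficients: `λ` for the sets `{a i j | i}`, `0` otherwise. -/
noncomputable def dg {m : ℕ} (a : Fin d → Fin m → κ) (lam : ℝ) : Sct bl → ℝ :=
  fun s => if ∃ j, s.1 = Finset.univ.image (fun i => a i j) then lam else 0

/-- The point with support `S`, signs `e` and size `t`. -/
noncomputable def pt {m : ℕ} (a : Fin d → Fin m → κ) (S : Finset (Fin m)) (e : Fin d → Fin m → ℝ)
    (t : ℝ) : κ → ℝ :=
  fun k => ∑ i, ∑ j, if k = a i j ∧ j ∈ S then e i j * t else 0

end

end Pool.Agent.MPb0eQ
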