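import Mathlib
import Pool.Agent.Lib.MP_b0e20b_ag_Q.B1
import Pool.Agent.Lib.MP_b0e20b_ag_Q.LDefs

/-!
# MP_b0e20b_ag, all formats: solutions of the diagonal example
-/

set_option autoImplicit false

open scoped BigOperators

namespace Pool.Agent.MPb0eQ

section

variable {κ : Type} [Fintype κ] [DecidableEq κ] {d : ℕ} (bl : κ → Fin d)

omit [Fintype κ] in
private theorem L2_apply {m : ℕ} {bl : κ → Fin d} {a : Fin d → Fin m → κ}
    (ha : ∀ i j, bl (a i j) = i) (hinj : ∀ i j j', a i j = a i j' → j = j') (S : Finset (Fin m))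
    (e : Fin d → Fin m → ℝ) (t : ℝ) (i : Fin d) (j : Fin m) :
    pt a S e t (a i j) = if j ∈ S then e i j * t else 0 := by
  unfold pt
  rw [Finset.sum_eq_single i, Finset.sum_eq_single j]
  · simp
  · intro j' _ hj'
    rw [if_neg]
    rintro ⟨h, -⟩
    exact hj' (hinj i j j' h).symm
  · intro h
    exact absurd (Finset.mem_univ _) h
  · intro i' _ hi'
    apply Finset.sum_eq_zero
    intro j' _
    rw [if_neg]
    rintro ⟨h, -⟩
    apply hi'
    rw [← ha i' j', ← h, ha]
  · intro h
    exact absurd (Finset.mem_univ _) h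

omit [Fintype κ] in
private theorem L2_zero {m : ℕ} {a : Fin d → Fin m → κ} (S : Finset (Fin m))
    (e : Fin d → Fin m → ℝ) (t : ℝ) {k : κ} (hk : ∀ i j, k ≠ a i j) : pt a S e t k = 0 := by
  unfold pt
  refine Finset.sum_eq_zero fun i _ => Finset.sum_eq_zero fun j _ => ?_
  rw [if_neg]
  rintro ⟨h, -⟩
  exact hk i j h

private theorem L2_sq {m : ℕ} {a : Fin d → Fin m → κ}
    (ha : ∀ i j, bl (a i j) = i) (hinj : ∀ i j j', a i j = a i j' → j = j') (S : Finset (Fin m))
    (e : Fin d → Fin m → ℝ) (he : ∀ i j, e i j ^ 2 = 1) (t : ℝ) (i : Fin d) :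
    sq bl (pt a S e t) i = 1 + S.card * t ^ 2 := by
  unfold sq
  congr 1
  have h1 : ∑ k ∈ Finset.univ.image (a i), (if bl k = i then pt a S e t k ^ 2 else 0) =
      ∑ k, (if bl k = i then pt a S e t k ^ 2 else 0) := by
    apply Finset.sum_subset (Finset.subset_univ _)
    intro k _ hk
    split_ifs with hb
    · rw [L2_zero S e t, zero_pow two_ne_zero]
      intro i' j' h
      have h2 : i' = i := by rw [← ha i' j', ← h, hb]
      subst h2
      exact hk (by rw [h]; exact Finset.mem_image_of_mem _ (Finset.mem_univ _))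
    · rfl
  rw [← h1, Finset.sum_image (fun x _ y _ h => hinj i x y h)]
  have h2 : ∀ j, (if bl (a i j) = i then pt a S e t (a i j) ^ 2 else 0) =
      if j ∈ S then t ^ 2 else 0 := by
    intro j
    rw [if_pos (ha i j), L2_apply ha hinj]
    split_ifs
    · rw [mul_pow, he, one_mul]
    · ring
  rw [Finset.sum_congr rfl fun j _ => h2 j, Finset.sum_ite_mem, Finset.univ_inter,
    Finset.sum_const, nsmul_eq_mul]

private theorem L2_PA {m : ℕ} {a : Fin d → Fin m → κ}
    (ha : ∀ i j, bl (a i j) = i) (hinj : ∀ i j j', a i j = a i j' → j = j') (S : Finset (Fin m))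
    (e : Fin d → Fin m → ℝ) (he : ∀ i j, e i j ^ 2 = 1) (t : ℝ) (i : Fin d) :
    PA bl (pt a S e t) {i} = (1 + S.card * t ^ 2) ^ (d - 1) := by
  unfold PA
  rw [Finset.prod_congr rfl fun i' _ => L2_sq bl ha hinj S e he t i', Finset.prod_const,
    Finset.card_compl, Finset.card_singleton, Fintype.card_fin]

private theorem L2_dS {m : ℕ} (hd : 3 ≤ d) {a : Fin d → Fin m → κ}
    (ha : ∀ i j, bl (a i j) = i) (hinj : ∀ i j j', a i j = a i j' → j = j') (lam t : ℝ)
    (S : Finset (Fin m)) (e : Fin d → Fin m → ℝ) (he : ∀ i j, e i j ^ 2 = 1)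
    (hp : ∀ j, ∏ i, e i j = 1) (i : Fin d) (j : Fin m) :
    dS bl (dg bl a lam) (pt a S e t) {a i j} =
      if j ∈ S then lam * (e i j * t ^ (d - 1)) else 0 := by
  unfold dS
  have hct : ∀ x ∈ Finset.univ.image (fun i' => a i' j), ∀ y ∈ Finset.univ.image
      (fun i' => a i' j), bl x = bl y → x = y := by
    intro x hx y hy hxy
    obtain ⟨i1, -, rfl⟩ := Finset.mem_image.1 hx
    obtain ⟨i2, -, rfl⟩ := Finset.mem_image.1 hy
    rw [ha, ha] at hxy
    rw [hxy]
  rw [Finset.sum_eq_single (⟨Finset.univ.image (fun i' => a i' j), hct⟩ : Sct bl)]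
  · have hai : Function.Injective fun i' => a i' j := by
      intro i1 i2 h
      have h2 := congrArg bl h
      simp only [ha] at h2
      exact h2
    rw [if_pos (by
      rw [Finset.singleton_subset_iff]
      exact Finset.mem_image.2 ⟨i, Finset.mem_univ _, rfl⟩)]
    have h1 : dg bl a lam ⟨Finset.univ.image (fun i' => a i' j), hct⟩ = lam := by
      unfold dg
      rw [if_pos ⟨j, rfl⟩]
    have h2 : Finset.univ.image (fun i' => a i' j) \ {a i j} =
        (Finset.univ.erase i).image (fun i' => a i' j) := by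
      ext x
      simp only [Finset.mem_sdiff, Finset.mem_image, Finset.mem_univ, true_and,
        Finset.mem_singleton, Finset.mem_erase, and_true]
      constructor
      · rintro ⟨⟨i', rfl⟩, h⟩
        exact ⟨i', fun h' => h (by rw [h']), rfl⟩
      · rintro ⟨i', h, rfl⟩
        exact ⟨⟨i', rfl⟩, fun h' => h (hai h')⟩
    rw [h1, h2, Finset.prod_image (fun x _ y _ h => hai h),
      Finset.prod_congr rfl fun i' _ => L2_apply ha hinj S e t i' j]
    split_ifs with hj
    · rw [Finset.prod_mul_distrib, Finset.prod_const, Finset.card_erase_of_mem (Finset.mem_univ _),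
        Finset.card_univ, Fintype.card_fin]
      have h3 : e i j * ∏ i' ∈ Finset.univ.erase i, e i' j = 1 := by
        rw [Finset.mul_prod_erase _ (fun i' => e i' j) (Finset.mem_univ i)]
        exact hp j
      have h4 : ∏ i' ∈ Finset.univ.erase i, e i' j = e i j := by
        have h5 := he i j
        calc ∏ i' ∈ Finset.univ.erase i, e i' j
            = e i j ^ 2 * ∏ i' ∈ Finset.univ.erase i, e i' j := by rw [h5, one_mul]
          _ = e i j * (e i j * ∏ i' ∈ Finset.univ.erase i, e i' j) := by ring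
          _ = e i j := by rw [h3, mul_one]
      rw [h4]
    · rw [Finset.prod_const, Finset.card_erase_of_mem (Finset.mem_univ _), Finset.card_univ,
        Fintype.card_fin, zero_pow (by omega), mul_zero]
  · rintro s - hs
    split_ifs with hk
    · rw [Finset.singleton_subset_iff] at hk
      have h1 : dg bl a lam s = 0 := by
        unfold dg
        rw [if_neg]
        rintro ⟨j', hj'⟩
        rw [hj'] at hk
        obtain ⟨i', -, h⟩ := Finset.mem_image.1 hk
        have h2 : i' = i := by rw [← ha i' j', h, ha]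
        subst h2
        have h3 := hinj _ _ _ h
        subst h3
        exact hs (Subtype.ext hj')
      rw [h1, zero_mul]
    · rfl
  · intro h
    exact absurd (Finset.mem_univ _) h

private theorem L2_dS0 {m : ℕ} {a : Fin d → Fin m → κ} (lam : ℝ) (x : κ → ℝ) {k : κ}
    (hk : ∀ i j, k ≠ a i j) : dS bl (dg bl a lam) x {k} = 0 := by
  unfold dS
  refine Finset.sum_eq_zero fun s _ => ?_
  split_ifs with h
  · rw [Finset.singleton_subset_iff] at h
    have h1 : dg bl a lam s = 0 := by
      unfold dg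
      rw [if_neg]
      rintro ⟨j', hj'⟩
      rw [hj'] at h
      obtain ⟨i', -, h'⟩ := Finset.mem_image.1 h
      exact hk i' j' h'.symm
    rw [h1, zero_mul]
  · rfl

/-- Proof. `sq` of every block is `1 + s t²`, `s = S.card`. At `k = a i j`, `j ∈ S`: `x k PA =
e i j t (1 + s t²)^(d-1)` and `dS {k} = λ ∏ i' ≠ i, e i' j t = λ e i j t^(d-1)`. At all other
coordinates both terms vanish (for `k = a i j`, `j ∉ S`, because `d - 1 ≥ 1` factors are `0`). -/
theorem pt_sol {m : ℕ} (hd : 3 ≤ d) (a : Fin d → Fin m → κ) (ha : ∀ i j, bl (a i j) = i)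
    (hinj : ∀ i j j', a i j = a i j' → j = j') (lam t : ℝ) (S : Finset (Fin m))
    (e : Fin d → Fin m → ℝ) (he : ∀ i j, e i j ^ 2 = 1) (hp : ∀ j, ∏ i, e i j = 1)
    (ht : (1 + S.card * t ^ 2) ^ (d - 1) = lam * t ^ (d - 2)) :
    G bl (dg bl a lam) (pt a S e t) = 0 := by
  funext k
  rw [Pi.zero_apply]
  unfold G
  by_cases hk : ∃ i j, k = a i j
  · obtain ⟨i, j, rfl⟩ := hk
    rw [ha, L2_PA bl ha hinj S e he t i, L2_dS bl hd ha hinj lam t S e he hp i j,
      L2_apply ha hinj, ht]
    split_ifs
    · have h1 : t ^ (d - 1) = t ^ (d - 2) * t := by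
        rw [← pow_succ]
        congr 1
        omega
      rw [h1]
      ring
    · ring
  · push Not at hk
    rw [L2_zero S e t hk, L2_dS0 bl lam _ hk]
    ring

end

end Pool.Agent.MPb0eQ
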