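import Mathlib
import Pool.Agent.Lib.MP_b0e20b_ag_Q.B1
import Pool.Agent.Lib.MP_b0e20b_ag_Q.LDefs

/-!
# MP_b0e20b_ag, all formats: nondegeneracy of the solutions of the diagonal example
-/

set_option autoImplicit false

open scoped BigOperators

namespace Pool.Agent.MPb0eQ

section

variable {κ : Type} [Fintype κ] [DecidableEq κ] {d : ℕ} (bl : κ → Fin d)

/-- the set of the coordinates with index `j` -/
private noncomputable def L3T {m : ℕ} (a : Fin d → Fin m → κ) (j : Fin m) : Finset κ :=
  Finset.univ.image fun i => a i j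

omit [Fintype κ] [DecidableEq κ] in
private theorem L3_inj1 {m : ℕ} {a : Fin d → Fin m → κ} (ha : ∀ i j, bl (a i j) = i)
    (j : Fin m) : Function.Injective fun i => a i j := by
  intro i i' h
  have := congrArg bl h
  simpa [ha] using this

omit [Fintype κ] in
private theorem L3_card {m : ℕ} {a : Fin d → Fin m → κ} (ha : ∀ i j, bl (a i j) = i)
    (j : Fin m) : (L3T a j).card = d := by
  rw [L3T, Finset.card_image_of_injective _ (L3_inj1 bl ha j)]
  simp

omit [Fintype κ] in
private theorem L3_sec {m : ℕ} {a : Fin d → Fin m → κ} (ha : ∀ i j, bl (a i j) = i)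
    (j : Fin m) : ∀ x ∈ L3T a j, ∀ y ∈ L3T a j, bl x = bl y → x = y := by
  intro x hx y hy h
  simp only [L3T, Finset.mem_image, Finset.mem_univ, true_and] at hx hy
  obtain ⟨i, rfl⟩ := hx
  obtain ⟨i', rfl⟩ := hy
  rw [ha, ha] at h
  rw [h]

/-- The derivative of the diagonal objective function vanishes at `0` (order at most two). -/
private theorem L3_dS_zero {m : ℕ} (hd : 3 ≤ d) (a : Fin d → Fin m → κ)
    (ha : ∀ i j, bl (a i j) = i) (lam : ℝ) (t : Finset κ) (ht : t.card ≤ 2) :
    dS bl (dg bl a lam) 0 t = 0 := by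
  unfold dS
  refine Finset.sum_eq_zero fun s _ => ?_
  split_ifs with h1
  · unfold dg
    split_ifs with h2
    · obtain ⟨j, hj⟩ := h2
      have hc : s.1.card = d := by rw [hj]; exact L3_card bl ha j
      have hne : (s.1 \ t).Nonempty := by
        rw [← Finset.card_pos]
        have := Finset.le_card_sdiff t s.1
        omega
      obtain ⟨l, hl⟩ := hne
      rw [Finset.prod_eq_zero hl (by simp), mul_zero]
    · rw [zero_mul]
  · rfl

/-- The derivatives of the diagonal objective function. -/
private theorem L3_dS {m : ℕ} (hd : 3 ≤ d) (a : Fin d → Fin m → κ)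
    (ha : ∀ i j, bl (a i j) = i) (hinj : ∀ i j j', a i j = a i j' → j = j') (lam : ℝ)
    (x : κ → ℝ) (t : Finset κ) :
    dS bl (dg bl a lam) x t =
      ∑ j, if t ⊆ L3T a j then lam * ∏ l ∈ L3T a j \ t, x l else 0 := by
  classical
  have hTi : Function.Injective (fun j => (⟨L3T a j, L3_sec bl ha j⟩ : Sct bl)) := by
    intro j j' h
    have h1 : L3T a j = L3T a j' := congrArg Subtype.val h
    have h0 : (0 : ℕ) < d := by omega
    have h2 : a ⟨0, h0⟩ j ∈ L3T a j' := by
      rw [← h1]
      exact Finset.mem_image_of_mem _ (Finset.mem_univ _)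
    simp only [L3T, Finset.mem_image, Finset.mem_univ, true_and] at h2
    obtain ⟨i, hi⟩ := h2
    have h3 : i = ⟨0, h0⟩ := by
      have := congrArg bl hi
      simpa [ha] using this
    rw [h3] at hi
    exact (hinj _ _ _ hi).symm
  unfold dS
  rw [← Finset.sum_subset (Finset.subset_univ (Finset.univ.image
    (fun j => (⟨L3T a j, L3_sec bl ha j⟩ : Sct bl))))]
  · rw [Finset.sum_image fun _ _ _ _ h => hTi h]
    refine Finset.sum_congr rfl fun j _ => ?_
    have : dg bl a lam (⟨L3T a j, L3_sec bl ha j⟩ : Sct bl) = lam := by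
      unfold dg
      exact if_pos ⟨j, rfl⟩
    rw [this]
  · intro s _ hs
    have : dg bl a lam s = 0 := by
      unfold dg
      refine if_neg ?_
      rintro ⟨j, hj⟩
      refine hs (Finset.mem_image.mpr ⟨j, Finset.mem_univ _, ?_⟩)
      exact Subtype.ext hj.symm
    rw [this]
    simp

omit [Fintype κ] in
private theorem L3_mem {m : ℕ} {a : Fin d → Fin m → κ} (ha : ∀ i j, bl (a i j) = i)
    (hinj : ∀ i j j', a i j = a i j' → j = j') (i : Fin d) (j j' : Fin m) :
    a i j ∈ L3T a j' ↔ j' = j := by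
  simp only [L3T, Finset.mem_image, Finset.mem_univ, true_and]
  constructor
  · rintro ⟨i', h⟩
    have h1 : i' = i := by
      have := congrArg bl h
      simpa [ha] using this
    rw [h1] at h
    exact hinj _ _ _ h
  · rintro rfl
    exact ⟨i, rfl⟩

omit [Fintype κ] [DecidableEq κ] in
private theorem L3_eq {m : ℕ} {a : Fin d → Fin m → κ} (ha : ∀ i j, bl (a i j) = i)
    (hinj : ∀ i j j', a i j = a i j' → j = j') (i i' : Fin d) (j j' : Fin m) :
    a i j = a i' j' ↔ i = i' ∧ j = j' := by
  constructor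
  · intro h
    have h1 : i = i' := by
      have := congrArg bl h
      simpa [ha] using this
    subst h1
    exact ⟨rfl, hinj _ _ _ h⟩
  · rintro ⟨rfl, rfl⟩
    rfl

omit [Fintype κ] in
private theorem L3_pt {m : ℕ} {a : Fin d → Fin m → κ} (ha : ∀ i j, bl (a i j) = i)
    (hinj : ∀ i j j', a i j = a i j' → j = j') (S : Finset (Fin m)) (e : Fin d → Fin m → ℝ)
    (t : ℝ) (i : Fin d) (j : Fin m) : pt a S e t (a i j) = if j ∈ S then e i j * t else 0 := by
  unfold pt
  rw [Finset.sum_eq_single i, Finset.sum_eq_single j]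
  · simp
  · intro j' _ hj'
    refine if_neg fun h => hj' ?_
    exact ((L3_eq bl ha hinj _ _ _ _).mp h.1).2.symm
  · simp
  · intro i' _ hi'
    refine Finset.sum_eq_zero fun j' _ => if_neg fun h => hi' ?_
    exact ((L3_eq bl ha hinj _ _ _ _).mp h.1).1.symm
  · simp

omit [Fintype κ] in
private theorem L3_pt_zero {m : ℕ} (a : Fin d → Fin m → κ) (S : Finset (Fin m))
    (e : Fin d → Fin m → ℝ) (t : ℝ) (k : κ) (hk : ∀ i, ∀ j ∈ S, k ≠ a i j) :
    pt a S e t k = 0 := by
  unfold pt
  refine Finset.sum_eq_zero fun i _ => Finset.sum_eq_zero fun j _ => if_neg ?_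
  rintro ⟨h1, h2⟩
  exact hk i j h2 h1

private theorem L3_sum {m : ℕ} {a : Fin d → Fin m → κ} (ha : ∀ i j, bl (a i j) = i)
    (S : Finset (Fin m)) (e : Fin d → Fin m → ℝ) (t : ℝ) (i : Fin d) (w : κ → ℝ) :
    ∑ l, (if bl l = i then 0 else pt a S e t l * w l) =
      ∑ i' ∈ Finset.univ.erase i, ∑ j ∈ S, e i' j * t * w (a i' j) := by
  have h1 : ∀ l, (if bl l = i then 0 else pt a S e t l * w l) =
      ∑ i', ∑ j, if l = a i' j ∧ j ∈ S ∧ i' ≠ i then e i' j * t * w (a i' j) else 0 := by
    intro l
    unfold pt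
    rw [Finset.sum_mul]
    split_ifs with hl
    · symm
      refine Finset.sum_eq_zero fun i' _ => Finset.sum_eq_zero fun j _ => if_neg ?_
      rintro ⟨h1, _, h2⟩
      rw [h1, ha] at hl
      exact h2 hl
    · refine Finset.sum_congr rfl fun i' _ => ?_
      rw [Finset.sum_mul]
      refine Finset.sum_congr rfl fun j _ => ?_
      by_cases h2 : l = a i' j ∧ j ∈ S
      · have h3 : i' ≠ i := by
          rintro rfl
          exact hl (by rw [h2.1, ha])
        rw [if_pos h2, if_pos ⟨h2.1, h2.2, h3⟩, h2.1]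
      · rw [if_neg h2, if_neg fun h => h2 ⟨h.1, h.2.1⟩, zero_mul]
  rw [Finset.sum_congr rfl fun l _ => h1 l, Finset.sum_comm]
  rw [← Finset.sum_erase (s := Finset.univ) (a := i)]
  · refine Finset.sum_congr rfl fun i' hi' => ?_
    rw [Finset.sum_comm, ← Finset.sum_filter_add_sum_filter_not Finset.univ (fun j => j ∈ S)]
    have h2 : ∑ j ∈ Finset.univ.filter (fun j => ¬ j ∈ S), ∑ l,
        (if l = a i' j ∧ j ∈ S ∧ i' ≠ i then e i' j * t * w (a i' j) else 0) = 0 := by
      refine Finset.sum_eq_zero fun j hj => Finset.sum_eq_zero fun l _ => if_neg ?_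
      rintro ⟨_, h3, _⟩
      exact (Finset.mem_filter.mp hj).2 h3
    rw [h2, add_zero, Finset.filter_mem_eq_inter, Finset.univ_inter]
    refine Finset.sum_congr rfl fun j hj => ?_
    rw [Finset.sum_eq_single (a i' j)]
    · rw [if_pos ⟨rfl, hj, Finset.ne_of_mem_erase hi'⟩]
    · intro l _ hl
      exact if_neg fun h => hl h.1
    · simp
  · refine Finset.sum_eq_zero fun l _ => Finset.sum_eq_zero fun j _ => if_neg ?_
    rintro ⟨_, _, h⟩
    exact h rfl

private theorem L3_sq {m : ℕ} {a : Fin d → Fin m → κ} (ha : ∀ i j, bl (a i j) = i)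
    (hinj : ∀ i j j', a i j = a i j' → j = j') (S : Finset (Fin m)) (e : Fin d → Fin m → ℝ)
    (he : ∀ i j, e i j ^ 2 = 1) (t : ℝ) (i : Fin d) :
    sq bl (pt a S e t) i = 1 + S.card * t ^ 2 := by
  unfold sq
  congr 1
  have h0 : ∑ k, (if bl k = i then pt a S e t k ^ 2 else 0) =
      ∑ k ∈ S.image (fun j => a i j), (if bl k = i then pt a S e t k ^ 2 else 0) := by
    symm
    refine Finset.sum_subset (Finset.subset_univ _) fun k _ hk => ?_
    split_ifs with h
    · rw [L3_pt_zero a S e t k, zero_pow two_ne_zero]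
      rintro i' j hj rfl
      rw [ha] at h
      subst h
      exact hk (Finset.mem_image_of_mem _ hj)
    · rfl
  rw [h0, Finset.sum_image fun j _ j' _ h => hinj _ _ _ h]
  rw [Finset.sum_congr rfl fun j (hj : j ∈ S) => show
    (if bl (a i j) = i then pt a S e t (a i j) ^ 2 else 0) = t ^ 2 by
      rw [if_pos (ha i j), L3_pt bl ha hinj, if_pos hj, mul_pow, he, one_mul]]
  simp

omit [DecidableEq κ] in
private theorem L3_PA {x : κ → ℝ} {c : ℝ} (h : ∀ i, sq bl x i = c) (A : Finset (Fin d)) :
    PA bl x A = c ^ (d - A.card) := by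
  unfold PA
  rw [Finset.prod_congr rfl fun i _ => h i, Finset.prod_const, Finset.card_compl,
    Fintype.card_fin]

omit [Fintype κ] in
/-- The product over the remaining coordinates. -/
private theorem L3_prod {m : ℕ} {a : Fin d → Fin m → κ} (ha : ∀ i j, bl (a i j) = i)
    (hinj : ∀ i j j', a i j = a i j' → j = j') (S : Finset (Fin m)) (e : Fin d → Fin m → ℝ)
    (he : ∀ i j, e i j ^ 2 = 1) (hp : ∀ j, ∏ i, e i j = 1) (t : ℝ) {i i' : Fin d}
    (hii : i ≠ i') {j : Fin m} (hj : j ∈ S) :
    ∏ l ∈ L3T a j \ {a i j, a i' j}, pt a S e t l = t ^ (d - 2) * (e i j * e i' j) := by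
  have h1 : L3T a j \ {a i j, a i' j} =
      (Finset.univ \ {i, i'}).image (fun i => a i j) := by
    ext l
    simp only [L3T, Finset.mem_sdiff, Finset.mem_image, Finset.mem_univ, true_and,
      Finset.mem_insert, Finset.mem_singleton, not_or]
    constructor
    · rintro ⟨⟨i'', rfl⟩, h2, h3⟩
      refine ⟨i'', ⟨fun h => h2 (by rw [h]), fun h => h3 (by rw [h])⟩, rfl⟩
    · rintro ⟨i'', ⟨h2, h3⟩, rfl⟩
      refine ⟨⟨i'', rfl⟩, fun h => h2 ?_, fun h => h3 ?_⟩
      · exact ((L3_eq bl ha hinj _ _ _ _).mp h).1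
      · exact ((L3_eq bl ha hinj _ _ _ _).mp h).1
  rw [h1, Finset.prod_image fun x _ y _ h => L3_inj1 bl ha j h]
  rw [Finset.prod_congr rfl fun i'' _ => show pt a S e t (a i'' j) = e i'' j * t by
    rw [L3_pt bl ha hinj, if_pos hj]]
  rw [Finset.prod_mul_distrib, Finset.prod_const]
  have h2 : (Finset.univ \ {i, i'} : Finset (Fin d)).card = d - 2 := by
    rw [Finset.card_sdiff_of_subset (Finset.subset_univ _), Finset.card_pair hii]
    simp
  rw [h2]
  have h3 : (∏ i'' ∈ Finset.univ \ {i, i'}, e i'' j) * (e i j * e i' j) = 1 := by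
    rw [← hp j, ← Finset.prod_pair hii (f := fun i => e i j)]
    exact Finset.prod_sdiff (Finset.subset_univ _)
  have h4 : (e i j * e i' j) * (e i j * e i' j) = 1 := by
    have := he i j
    have := he i' j
    nlinarith
  have h5 : ∏ i'' ∈ Finset.univ \ {i, i'}, e i'' j = e i j * e i' j := by
    calc ∏ i'' ∈ Finset.univ \ {i, i'}, e i'' j
        = (∏ i'' ∈ Finset.univ \ {i, i'}, e i'' j) *
          ((e i j * e i' j) * (e i j * e i' j)) := by rw [h4, mul_one]
      _ = e i j * e i' j := by rw [← mul_assoc, h3, one_mul]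
  rw [h5]
  ring

/-- The linear algebra. -/
private theorem L3_lin {m : ℕ} (hd : 3 ≤ d) (S : Finset (Fin m)) (t : ℝ)
    (hnd : ((d : ℝ) - 1) * (2 * (S.card * t ^ 2)) ≠ ((d : ℝ) - 2) * (1 + S.card * t ^ 2))
    {p q W : ℝ} (hW : 0 < W) (hpW : p = (1 + S.card * t ^ 2) * W) (hqW : q = 2 * t ^ 2 * W)
    (z : Fin d → Fin m → ℝ)
    (hz : ∀ i, ∀ j ∈ S, p * z i j + ∑ i' ∈ Finset.univ.erase i,
      (q * ∑ j' ∈ S, z i' j' - p * z i' j) = 0) :
    ∀ i, ∀ j ∈ S, z i j = 0 := by
  set s : ℝ := (S.card : ℝ) with hs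
  have hs0 : 0 ≤ s := by rw [hs]; positivity
  have hp0 : 0 < p := by rw [hpW]; positivity
  have hdR : (3 : ℝ) ≤ d := by exact_mod_cast hd
  set C : Fin m → ℝ := fun j => ∑ i, z i j with hC
  set Z : Fin d → ℝ := fun i => ∑ j ∈ S, z i j with hZ
  set Y : ℝ := ∑ i, Z i with hY
  have e1 : ∀ i, ∀ j ∈ S, 2 * p * z i j - p * C j + q * (Y - Z i) = 0 := by
    intro i j hj
    have h := hz i j hj
    rw [Finset.sum_sub_distrib, ← Finset.mul_sum, ← Finset.mul_sum] at h
    have h1 : ∑ i' ∈ Finset.univ.erase i, ∑ j' ∈ S, z i' j' = Y - Z i := by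
      rw [hY, ← Finset.add_sum_erase Finset.univ Z (Finset.mem_univ i)]
      simp [hZ]
    have h2 : ∑ i' ∈ Finset.univ.erase i, z i' j = C j - z i j := by
      rw [hC]
      simp only
      rw [← Finset.add_sum_erase Finset.univ (fun i => z i j) (Finset.mem_univ i)]
      ring
    rw [h1, h2] at h
    linarith
  have hCS : ∑ j ∈ S, C j = Y := by
    rw [hC, hY, Finset.sum_comm]
  have e2 : ∀ i, 2 * p * Z i - p * Y + s * (q * (Y - Z i)) = 0 := by
    intro i
    have h : ∑ j ∈ S, (2 * p * z i j - p * C j + q * (Y - Z i)) = 0 :=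
      Finset.sum_eq_zero fun j hj => e1 i j hj
    rw [Finset.sum_add_distrib, Finset.sum_sub_distrib, ← Finset.mul_sum, ← Finset.mul_sum, hCS,
      Finset.sum_const, nsmul_eq_mul] at h
    exact h
  have e3 : ∀ i, 2 * W * Z i = (p - s * q) * Y := by
    intro i
    have h := e2 i
    rw [hpW, hqW] at h ⊢
    linear_combination h
  have e4 : ((d : ℝ) * (p - s * q) - 2 * W) * Y = 0 := by
    have h : ∑ i, (2 * W * Z i) = ∑ _i : Fin d, (p - s * q) * Y :=
      Finset.sum_congr rfl fun i _ => e3 i
    rw [← Finset.mul_sum, ← hY, Finset.sum_const, nsmul_eq_mul, Finset.card_univ,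
      Fintype.card_fin] at h
    linear_combination -h
  have hY0 : Y = 0 := by
    rcases mul_eq_zero.mp e4 with h | h
    · exfalso
      apply hnd
      have h2 : W * ((d : ℝ) * (1 - s * t ^ 2) - 2) = 0 := by
        rw [hpW, hqW] at h
        linear_combination h
      rcases mul_eq_zero.mp h2 with h3 | h3
      · exact absurd h3 hW.ne'
      · linear_combination -h3
    · exact h
  have hZ0 : ∀ i, Z i = 0 := by
    intro i
    have h := e3 i
    rw [hY0, mul_zero] at h
    rcases mul_eq_zero.mp h with h | h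
    · linarith
    · exact h
  have e5 : ∀ i, ∀ j ∈ S, 2 * z i j = C j := by
    intro i j hj
    have h := e1 i j hj
    rw [hY0, hZ0 i] at h
    have h2 : p * (2 * z i j - C j) = 0 := by linear_combination h
    rcases mul_eq_zero.mp h2 with h3 | h3
    · exact absurd h3 hp0.ne'
    · linarith
  have hC0 : ∀ j ∈ S, C j = 0 := by
    intro j hj
    have h : ∑ i, (2 * z i j) = ∑ _i : Fin d, C j := Finset.sum_congr rfl fun i _ => e5 i j hj
    rw [← Finset.mul_sum, Finset.sum_const, nsmul_eq_mul, Finset.card_univ,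
      Fintype.card_fin] at h
    have h1 : ((d : ℝ) - 2) * C j = 0 := by
      have h' : 2 * C j = d * C j := h
      linear_combination -h'
    rcases mul_eq_zero.mp h1 with h2 | h2
    · linarith
    · exact h2
  intro i j hj
  have h := e5 i j hj
  rw [hC0 j hj] at h
  linarith

/-- Proof. Let `x = pt a S e t`, `s = S.card`, `p = (1 + s t²)^(d-1) = λ t^(d-2) > 0`,
`q = 2 t² (1 + s t²)^(d-2)`. The matrix `H`: diagonal entries `p`; for `k, l` in different blocks
`2 x k x l (1 + s t²)^(d-2) - dS {k, l}`, and `dS {k, l} = λ ∏ (the other d - 2 coordinates of the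
same j)` if `k = a i j`, `l = a i' j` and `0` otherwise; it vanishes for `j ∉ S` as `d - 2 ≥ 1`. So
for a coordinate `k` which is not an `a i j` with `j ∈ S`: `Hv k = p w k`, hence `w k = 0`. For `k =
a i j`, `j ∈ S`, put `w k = e i j z i j`; then `Hv = 0` reads
`p z i j + ∑ i' ≠ i, (q ∑ j' ∈ S, z i' j' - p z i' j) = 0` (the product of the signs is `1`). With
`C j = ∑ i, z i j`, `Z i = ∑ j, z i j`, `Z = ∑ Z i`: `2 p z i j - p C j + q (Z - Z i) = 0`. Sum over
`j ∈ S`: `(2p - s q) Z i = (p - s q) Z`; here `2p - s q = 2 (1 + s t²)^(d-2) > 0`, so the `Z i` are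
equal, `Z i = Z / d`, and `((d-1) s q - (d-2) p) Z = 0`. The factor is
`(1 + s t²)^(d-2) ((d-1) 2 s t² - (d-2)(1 + s t²)) ≠ 0`, so `Z = 0`, `Z i = 0`, `2 z i j = C j`; the
sum over `i` gives `2 C j = d C j`, so `C j = 0` and `z = 0`. -/
theorem pt_nd {m : ℕ} (hd : 3 ≤ d) (a : Fin d → Fin m → κ) (ha : ∀ i j, bl (a i j) = i)
    (hinj : ∀ i j j', a i j = a i j' → j = j') (lam t : ℝ) (htp : 0 < t)
    (S : Finset (Fin m)) (hS : S.Nonempty)
    (e : Fin d → Fin m → ℝ) (he : ∀ i j, e i j ^ 2 = 1) (hp : ∀ j, ∏ i, e i j = 1)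
    (ht : (1 + S.card * t ^ 2) ^ (d - 1) = lam * t ^ (d - 2))
    (hnd : ((d : ℝ) - 1) * (2 * (S.card * t ^ 2)) ≠ ((d : ℝ) - 2) * (1 + S.card * t ^ 2))
    (w : κ → ℝ) (hw : Hv bl (dg bl a lam) (pt a S e t) w = 0) : w = 0 := by
  classical
  set x := pt a S e t with hx
  set W : ℝ := (1 + S.card * t ^ 2) ^ (d - 2) with hW
  set p : ℝ := (1 + S.card * t ^ 2) ^ (d - 1) with hp'
  have hb : (0 : ℝ) < 1 + S.card * t ^ 2 := by positivity
  have hWp : 0 < W := by rw [hW]; positivity
  have hpp : 0 < p := by rw [hp']; positivity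
  have hpW : p = (1 + S.card * t ^ 2) * W := by
    rw [hp', hW, ← pow_succ']
    congr 1
    omega
  have hsq : ∀ i, sq bl x i = 1 + S.card * t ^ 2 := L3_sq bl ha hinj S e he t
  have hPA1 : ∀ i, PA bl x {i} = p := fun i => by
    rw [L3_PA bl hsq, Finset.card_singleton]
  have hPA2 : ∀ i i', i ≠ i' → PA bl x {i, i'} = W := fun i i' h => by
    rw [L3_PA bl hsq, Finset.card_pair h]
  have hHv : ∀ k, Hv bl (dg bl a lam) x w k = p * w k +
      2 * x k * W * (∑ l, if bl l = bl k then 0 else x l * w l) -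
      ∑ l, if bl l = bl k then 0 else dS bl (dg bl a lam) x {k, l} * w l := by
    intro k
    have h1 : ∀ l, H bl (dg bl a lam) x k l * w l = (if l = k then p * w l else 0) +
        2 * x k * W * (if bl l = bl k then 0 else x l * w l) -
        (if bl l = bl k then 0 else dS bl (dg bl a lam) x {k, l} * w l) := by
      intro l
      unfold H
      by_cases hkl : l = k
      · subst hkl
        rw [if_pos rfl, if_pos rfl, if_pos rfl, if_pos rfl, if_pos rfl, hPA1]
        ring
      · by_cases hb' : bl l = bl k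
        · rw [if_pos hb'.symm, if_neg (Ne.symm hkl), if_neg hkl, if_pos hb', if_pos hb']
          ring
        · rw [if_neg (Ne.symm hb'), if_neg hkl, if_neg hb', if_neg hb', hPA2 _ _ (Ne.symm hb')]
          ring
    unfold Hv
    rw [Finset.sum_congr rfl fun l _ => h1 l, Finset.sum_sub_distrib, Finset.sum_add_distrib,
      ← Finset.mul_sum, Finset.sum_ite_eq']
    simp
  -- the coordinates off the support
  have hoff : ∀ k, (∀ i, ∀ j ∈ S, k ≠ a i j) → w k = 0 := by
    intro k hk
    have hxk : x k = 0 := L3_pt_zero a S e t k hk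
    have h := congrFun hw k
    rw [hHv k, hxk] at h
    have h2 : ∑ l, (if bl l = bl k then 0 else dS bl (dg bl a lam) x {k, l} * w l) = 0 := by
      refine Finset.sum_eq_zero fun l _ => ?_
      split_ifs with hl
      · rfl
      · rw [L3_dS bl hd a ha hinj, Finset.sum_eq_zero, zero_mul]
        intro j _
        split_ifs with hT
        · have hkT : k ∈ L3T a j := hT (by simp)
          have hlT : l ∈ L3T a j := hT (by simp)
          have hjS : j ∉ S := by
            intro hjS
            simp only [L3T, Finset.mem_image, Finset.mem_univ, true_and] at hkT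
            obtain ⟨i, hi⟩ := hkT
            exact hk i j hjS hi.symm
          have hne : (L3T a j \ {k, l}).Nonempty := by
            rw [← Finset.card_pos]
            have h3 := Finset.le_card_sdiff {k, l} (L3T a j)
            have h4 := L3_card bl ha j
            have h5 : ({k, l} : Finset κ).card ≤ 2 := Finset.card_le_two
            omega
          obtain ⟨l', hl'⟩ := hne
          rw [Finset.prod_eq_zero hl', mul_zero]
          have hl'T : l' ∈ L3T a j := (Finset.mem_sdiff.mp hl').1
          simp only [L3T, Finset.mem_image, Finset.mem_univ, true_and] at hl'T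
          obtain ⟨i, rfl⟩ := hl'T
          rw [hx, L3_pt bl ha hinj, if_neg hjS]
        · rfl
    rw [h2] at h
    have h3 : p * w k = 0 := by simpa using h
    exact (mul_eq_zero.mp h3).resolve_left hpp.ne'
  -- the coordinates of the support
  have hon : ∀ i, ∀ j ∈ S, e i j * w (a i j) = 0 := by
    refine L3_lin hd S t hnd hWp hpW (q := 2 * t ^ 2 * W) rfl (fun i j => e i j * w (a i j)) ?_
    intro i j hj
    have h := congrFun hw (a i j)
    rw [hHv (a i j), ha] at h
    have hxa : x (a i j) = e i j * t := by rw [hx, L3_pt bl ha hinj, if_pos hj]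
    rw [hxa, hx, L3_sum bl ha S e t i w, ← hx] at h
    have h2 : ∑ l, (if bl l = i then 0 else dS bl (dg bl a lam) x {a i j, l} * w l) =
        ∑ i' ∈ Finset.univ.erase i, p * (e i j * e i' j) * w (a i' j) := by
      have h3 : ∀ l, (if bl l = i then 0 else dS bl (dg bl a lam) x {a i j, l} * w l) =
          if bl l ≠ i ∧ l ∈ L3T a j then
            (lam * ∏ l' ∈ L3T a j \ {a i j, l}, x l') * w l else 0 := by
        intro l
        by_cases hl : bl l = i
        · rw [if_pos hl, if_neg fun h => h.1 hl]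
        · rw [if_neg hl, L3_dS bl hd a ha hinj, Finset.sum_eq_single j]
          · by_cases hT : l ∈ L3T a j
            · rw [if_pos, if_pos ⟨hl, hT⟩]
              intro y hy
              simp only [Finset.mem_insert, Finset.mem_singleton] at hy
              rcases hy with rfl | rfl
              · exact (L3_mem bl ha hinj _ _ _).mpr rfl
              · exact hT
            · rw [if_neg, if_neg fun h => hT h.2, zero_mul]
              intro h
              exact hT (h (by simp))
          · intro j' _ hj'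
            refine if_neg fun h => hj' ?_
            exact (L3_mem bl ha hinj i j j').mp (h (by simp))
          · simp
      rw [Finset.sum_congr rfl fun l _ => h3 l, ← Finset.sum_filter]
      have h4 : Finset.univ.filter (fun l => bl l ≠ i ∧ l ∈ L3T a j) =
          (Finset.univ.erase i).image (fun i' => a i' j) := by
        ext l
        simp only [L3T, Finset.mem_filter, Finset.mem_univ, true_and, Finset.mem_image,
          Finset.mem_erase, and_true]
        constructor
        · rintro ⟨h5, i', rfl⟩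
          exact ⟨i', fun h => h5 (by rw [ha, h]), rfl⟩
        · rintro ⟨i', h5, rfl⟩
          exact ⟨by rwa [ha], i', rfl⟩
      rw [h4, Finset.sum_image fun y _ y' _ h => L3_inj1 bl ha j h]
      refine Finset.sum_congr rfl fun i' hi' => ?_
      rw [hx, L3_prod bl ha hinj S e he hp t (Finset.ne_of_mem_erase hi').symm hj, ← mul_assoc,
        ← ht]
    rw [h2] at h
    have h5 : e i j * e i j = 1 := by rw [← pow_two, he]
    have h6 : e i j * (p * w (a i j) + 2 * (e i j * t) * W *
        (∑ i' ∈ Finset.univ.erase i, ∑ j ∈ S, e i' j * t * w (a i' j)) -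
        ∑ i' ∈ Finset.univ.erase i, p * (e i j * e i' j) * w (a i' j)) = 0 := by
      rw [h]
      simp
    have h7 : ∑ i' ∈ Finset.univ.erase i, (2 * t ^ 2 * W * ∑ j' ∈ S, e i' j' * w (a i' j') -
        p * (e i' j * w (a i' j))) =
        2 * t * W * (∑ i' ∈ Finset.univ.erase i, ∑ j ∈ S, e i' j * t * w (a i' j)) -
        e i j * ∑ i' ∈ Finset.univ.erase i, p * (e i j * e i' j) * w (a i' j) := by
      rw [Finset.mul_sum, Finset.mul_sum, ← Finset.sum_sub_distrib]
      refine Finset.sum_congr rfl fun i' _ => ?_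
      rw [Finset.mul_sum, Finset.mul_sum]
      congr 1
      · refine Finset.sum_congr rfl fun j' _ => ?_
        ring
      · linear_combination (-p * e i' j * w (a i' j)) * h5
    rw [h7]
    linear_combination h6 - (2 * t * W *
      (∑ i' ∈ Finset.univ.erase i, ∑ j ∈ S, e i' j * t * w (a i' j))) * h5
  funext k
  by_cases hk : ∀ i, ∀ j ∈ S, k ≠ a i j
  · exact hoff k hk
  · push Not at hk
    obtain ⟨i, j, hj, rfl⟩ := hk
    have h := hon i j hj
    rcases mul_eq_zero.mp h with h1 | h1
    · have := he i j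
      rw [h1] at this
      norm_num at this
    · exact h1

/-- The origin is a nondegenerate solution. -/
theorem zero_nd {m : ℕ} (hd : 3 ≤ d) (a : Fin d → Fin m → κ) (ha : ∀ i j, bl (a i j) = i)
    (lam : ℝ) : G bl (dg bl a lam) 0 = 0 ∧ ∀ w, Hv bl (dg bl a lam) 0 w = 0 → w = 0 := by
  classical
  constructor
  · funext k
    unfold G
    rw [L3_dS_zero bl hd a ha lam {k} (by simp)]
    simp
  · intro w hw
    funext k
    have h := congrFun hw k
    unfold Hv H at h
    have hP : PA bl (0 : κ → ℝ) {bl k} = 1 := by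
      unfold PA sq
      simp
    rw [Finset.sum_eq_single k] at h
    · rw [if_pos rfl, if_pos rfl, hP, one_mul] at h
      exact h
    · intro l _ hl
      split_ifs with h1 h2
      · exact absurd h2.symm hl
      · rw [zero_mul]
      · rw [L3_dS_zero bl hd a ha lam {k, l} (Finset.card_le_two)]
        simp
    · simp

end

end Pool.Agent.MPb0eQ
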