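import Mathlib
import Pool.Agent.Lib.MP_b0e20b_ag_Q.LDefs
import Pool.Agent.Lib.MP_b0e20b_ag_Q.L1
import Pool.Agent.Lib.MP_b0e20b_ag_Q.L2
import Pool.Agent.Lib.MP_b0e20b_ag_Q.L3

/-!
# MP_b0e20b_ag, all formats: the number of solutions of the diagonal example
-/

set_option autoImplicit false

open scoped BigOperators

namespace Pool.Agent.MPb0eQ

/-- a sign -/
private def L4_sg (b : Bool) : ℝ := if b then 1 else -1

private theorem L4_sg_sq (b : Bool) : L4_sg b ^ 2 = 1 := by
  unfold L4_sg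
  cases b <;> norm_num

private theorem L4_sg_inj {b c : Bool} (h : L4_sg b = L4_sg c) : b = c := by
  unfold L4_sg at h
  cases b <;> cases c <;> norm_num at h <;> rfl

/-- the signs of an index -/
private def L4_e {n m : ℕ} (φ : Fin m → Option (Fin n → Bool)) (i : Fin (n + 1)) (j : Fin m) : ℝ :=
  match φ j with
  | none => 1
  | some β => Fin.cons (α := fun _ => ℝ) (∏ i', L4_sg (β i')) (fun i' => L4_sg (β i')) i

private theorem L4_e_none {n m : ℕ} {φ : Fin m → Option (Fin n → Bool)} {j : Fin m}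
    (h : φ j = none) (i : Fin (n + 1)) : L4_e φ i j = 1 := by
  unfold L4_e
  rw [h]

private theorem L4_e_some {n m : ℕ} {φ : Fin m → Option (Fin n → Bool)} {j : Fin m}
    {β : Fin n → Bool} (h : φ j = some β) (i : Fin (n + 1)) : L4_e φ i j =
      Fin.cons (α := fun _ => ℝ) (∏ i', L4_sg (β i')) (fun i' => L4_sg (β i')) i := by
  unfold L4_e
  rw [h]

private theorem L4_e_sq {n m : ℕ} (φ : Fin m → Option (Fin n → Bool)) (i : Fin (n + 1))
    (j : Fin m) : L4_e φ i j ^ 2 = 1 := by
  rcases h : φ j with _ | β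
  · rw [L4_e_none h, one_pow]
  · rw [L4_e_some h]
    refine Fin.cases ?_ (fun i' => ?_) i
    · rw [Fin.cons_zero, ← Finset.prod_pow]
      exact Finset.prod_eq_one fun i' _ => L4_sg_sq _
    · rw [Fin.cons_succ]
      exact L4_sg_sq _

private theorem L4_e_prod {n m : ℕ} (φ : Fin m → Option (Fin n → Bool)) (j : Fin m) :
    ∏ i, L4_e φ i j = 1 := by
  rcases h : φ j with _ | β
  · exact Finset.prod_eq_one fun i _ => L4_e_none h i
  · rw [Fin.prod_univ_succ, L4_e_some h, Fin.cons_zero]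
    have h1 : ∏ i : Fin n, L4_e φ i.succ j = ∏ i', L4_sg (β i') :=
      Finset.prod_congr rfl fun i _ => by rw [L4_e_some h, Fin.cons_succ]
    rw [h1, ← pow_two, ← Finset.prod_pow]
    exact Finset.prod_eq_one fun i' _ => L4_sg_sq _

/-- the support of an index -/
private def L4_S {n m : ℕ} (φ : Fin m → Option (Fin n → Bool)) : Finset (Fin m) :=
  Finset.univ.filter fun j => (φ j).isSome = true

private theorem L4_mem {n m : ℕ} {φ : Fin m → Option (Fin n → Bool)} {j : Fin m} :
    j ∈ L4_S φ ↔ (φ j).isSome = true := by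
  unfold L4_S
  rw [Finset.mem_filter, and_iff_right (Finset.mem_univ j)]

private theorem L4_nonempty {n m : ℕ} {φ : Fin m → Option (Fin n → Bool)}
    (h : φ ≠ fun _ => none) : (L4_S φ).Nonempty := by
  by_contra h1
  rw [Finset.not_nonempty_iff_eq_empty] at h1
  apply h
  funext j
  rcases h2 : φ j with _ | β
  · rfl
  · have h3 : j ∈ L4_S φ := L4_mem.2 (by rw [h2]; rfl)
    rw [h1] at h3
    exact absurd h3 (Finset.notMem_empty j)

section

variable {κ : Type} [Fintype κ] [DecidableEq κ] {d : ℕ} (bl : κ → Fin d)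

omit [Fintype κ] in
private theorem L4_pt {m : ℕ} (a : Fin d → Fin m → κ) (ha : ∀ i j, bl (a i j) = i)
    (hinj : ∀ i j j', a i j = a i j' → j = j') (S : Finset (Fin m)) (e : Fin d → Fin m → ℝ)
    (t : ℝ) (i : Fin d) (j : Fin m) : pt a S e t (a i j) = if j ∈ S then e i j * t else 0 := by
  unfold pt
  have h1 : ∀ i' j', a i j = a i' j' → i = i' ∧ j = j' := by
    intro i' j' h
    have h2 : i = i' := by rw [← ha i j, h, ha]
    subst h2
    exact ⟨rfl, hinj i j j' h⟩
  rw [Finset.sum_eq_single i, Finset.sum_eq_single j]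
  · by_cases hj : j ∈ S
    · rw [if_pos ⟨rfl, hj⟩, if_pos hj]
    · rw [if_neg hj, if_neg fun h => hj h.2]
  · intro j' _ hj'
    rw [if_neg fun h => hj' (h1 i j' h.1).2.symm]
  · intro h
    exact absurd (Finset.mem_univ j) h
  · intro i' _ hi'
    refine Finset.sum_eq_zero fun j' _ => ?_
    rw [if_neg fun h => hi' (h1 i' j' h.1).1.symm]
  · intro h
    exact absurd (Finset.mem_univ i) h

/-- Proof. With `lam` and `τ s b` as in `scal`: the points are `0` and, for every `S ≠ ∅`, every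
`b : Bool` and all signs `e i j = ± 1` (`i < d - 1`, `j ∈ S`; the last sign is determined by the
product; put `e i j = 1` for `j ∉ S`), the point `pt a S e (τ S.card b)`. They are pairwise
different: `S` is the support, `e` the signs and `τ` the absolute value. The pairs `(S, e)`
correspond to the functions `Fin m → Option (Fin (d-1) → Bool)` (`none` outside `S`); there are
`(1 + 2^(d-1))^m` of them and one has `S = ∅`. So the number of points is
`1 + 2 ((1 + 2^(d-1))^m - 1)`. -/
theorem many {m : ℕ} (hd : 3 ≤ d) (a : Fin d → Fin m → κ) (ha : ∀ i j, bl (a i j) = i)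
    (hinj : ∀ i j j', a i j = a i j' → j = j') :
    ∃ (c : Sct bl → ℝ) (F : Finset (κ → ℝ)),
      (∀ x ∈ F, G bl c x = 0 ∧ ∀ v, Hv bl c x v = 0 → v = 0) ∧
      2 * (1 + 2 ^ (d - 1)) ^ m - 1 ≤ F.card := by
  classical
  obtain ⟨lam, hlam, hτ'⟩ := scal d m hd
  obtain ⟨n, rfl⟩ : ∃ n, d = n + 1 := ⟨d - 1, by omega⟩
  choose! τ hne hτ using hτ'
  have hcard : ∀ φ : Fin m → Option (Fin n → Bool), φ ≠ (fun _ => none) →
      1 ≤ (L4_S φ).card ∧ (L4_S φ).card ≤ m := fun φ hφ =>
    ⟨Finset.card_pos.2 (L4_nonempty hφ), by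
      have h1 := Finset.card_le_univ (L4_S φ)
      rwa [Fintype.card_fin] at h1⟩
  let X : (Fin m → Option (Fin n → Bool)) × Bool → κ → ℝ := fun p =>
    pt a (L4_S p.1) (L4_e p.1) (τ (L4_S p.1).card p.2)
  have hX : ∀ p i j, X p (a i j) =
      if j ∈ L4_S p.1 then L4_e p.1 i j * τ (L4_S p.1).card p.2 else 0 := fun p i j =>
    L4_pt bl a ha hinj _ _ _ i j
  have hpos : ∀ φ : Fin m → Option (Fin n → Bool), φ ≠ (fun _ => none) → ∀ b,
      0 < τ (L4_S φ).card b := fun φ hφ b => (hτ _ (hcard φ hφ).1 (hcard φ hφ).2 b).1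
  have he0 : ∀ (φ : Fin m → Option (Fin n → Bool)) i j, L4_e φ i j ≠ 0 := fun φ i j h => by
    have h1 := L4_e_sq φ i j
    rw [h] at h1
    norm_num at h1
  have habs : ∀ (φ : Fin m → Option (Fin n → Bool)) i j, |L4_e φ i j| = 1 := fun φ i j => by
    have h1 : |L4_e φ i j| ^ 2 = 1 := by rw [sq_abs, L4_e_sq]
    exact (pow_eq_one_iff_of_nonneg (abs_nonneg _) two_ne_zero).1 h1
  have hS : ∀ p q, p.1 ≠ (fun _ => none) → q.1 ≠ (fun _ => none) → X p = X q →
      L4_S p.1 ⊆ L4_S q.1 := by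
    intro p q hp hq h j hj
    by_contra hj'
    have h1 := congrFun h (a 0 j)
    rw [hX, hX, if_pos hj, if_neg hj'] at h1
    exact (mul_ne_zero (he0 _ _ _) (hpos p.1 hp p.2).ne') h1
  have hinjX : ∀ p q, p.1 ≠ (fun _ => none) → q.1 ≠ (fun _ => none) → X p = X q → p = q := by
    intro p q hp hq h
    have hSS : L4_S p.1 = L4_S q.1 :=
      Finset.Subset.antisymm (hS p q hp hq h) (hS q p hq hp h.symm)
    have hval : ∀ i, ∀ j ∈ L4_S p.1, L4_e p.1 i j * τ (L4_S p.1).card p.2 =
        L4_e q.1 i j * τ (L4_S p.1).card q.2 := by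
      intro i j hj
      have h1 := congrFun h (a i j)
      rw [hX, hX, if_pos hj, ← hSS, if_pos hj] at h1
      exact h1
    have hq' : 0 < τ (L4_S p.1).card q.2 := by
      rw [hSS]
      exact hpos q.1 hq q.2
    have hττ : τ (L4_S p.1).card p.2 = τ (L4_S p.1).card q.2 := by
      obtain ⟨j, hj⟩ := L4_nonempty hp
      have h1 := congrArg abs (hval 0 j hj)
      rw [abs_mul, abs_mul, habs, habs, one_mul, one_mul, abs_of_pos (hpos p.1 hp p.2),
        abs_of_pos hq'] at h1
      exact h1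
    have hb : p.2 = q.2 := by
      have h1 := hne _ (hcard p.1 hp).1 (hcard p.1 hp).2
      rcases h2 : p.2 with _ | _ <;> rcases h3 : q.2 with _ | _
      · rfl
      · rw [h2, h3] at hττ
        exact absurd hττ.symm h1
      · rw [h2, h3] at hττ
        exact absurd hττ h1
      · rfl
    have he : ∀ i, ∀ j ∈ L4_S p.1, L4_e p.1 i j = L4_e q.1 i j := by
      intro i j hj
      have h1 := hval i j hj
      rw [hττ] at h1
      exact mul_right_cancel₀ hq'.ne' h1
    refine Prod.ext (funext fun j => ?_) hb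
    rcases h1 : p.1 j with _ | β
    · rcases h2 : q.1 j with _ | γ
      · rfl
      · exfalso
        have h3 : j ∈ L4_S q.1 := L4_mem.2 (by rw [h2]; rfl)
        rw [← hSS, L4_mem, h1] at h3
        exact absurd h3 (by simp)
    · rcases h2 : q.1 j with _ | γ
      · exfalso
        have h3 : j ∈ L4_S p.1 := L4_mem.2 (by rw [h1]; rfl)
        rw [hSS, L4_mem, h2] at h3
        exact absurd h3 (by simp)
      · have h3 : j ∈ L4_S p.1 := L4_mem.2 (by rw [h1]; rfl)
        congr 1
        funext i'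
        have h4 := he i'.succ j h3
        rw [L4_e_some h1, L4_e_some h2, Fin.cons_succ, Fin.cons_succ] at h4
        exact L4_sg_inj h4
  let P : Finset ((Fin m → Option (Fin n → Bool)) × Bool) :=
    (Finset.univ.erase (fun _ => none)) ×ˢ Finset.univ
  have hP : ∀ p ∈ P, p.1 ≠ (fun _ => none) := fun p hp =>
    Finset.ne_of_mem_erase (Finset.mem_product.1 hp).1
  have hPc : P.card = ((1 + 2 ^ n) ^ m - 1) * 2 := by
    rw [Finset.card_product, Finset.card_erase_of_mem (Finset.mem_univ _), Finset.card_univ,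
      Finset.card_univ, Fintype.card_bool, Fintype.card_fun, Fintype.card_option,
      Fintype.card_fun, Fintype.card_bool, Fintype.card_fin, Fintype.card_fin, add_comm]
  have h0 : (0 : κ → ℝ) ∉ P.image X := by
    intro h
    obtain ⟨p, hp, h1⟩ := Finset.mem_image.1 h
    obtain ⟨j, hj⟩ := L4_nonempty (hP p hp)
    have h2 := congrFun h1 (a 0 j)
    rw [hX, if_pos hj] at h2
    exact (mul_ne_zero (he0 _ _ _) (hpos p.1 (hP p hp) p.2).ne') h2
  have hFc : (insert 0 (P.image X)).card = ((1 + 2 ^ n) ^ m - 1) * 2 + 1 := by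
    rw [Finset.card_insert_of_notMem h0, Finset.card_image_of_injOn, hPc]
    intro p hp q hq h
    exact hinjX p q (hP p hp) (hP q hq) h
  refine ⟨dg bl a lam, insert 0 (P.image X), ?_, ?_⟩
  · intro x hx
    rcases Finset.mem_insert.1 hx with rfl | hx
    · exact zero_nd bl hd a ha lam
    · obtain ⟨p, hp, rfl⟩ := Finset.mem_image.1 hx
      obtain ⟨h1, h2, h3⟩ := hτ _ (hcard p.1 (hP p hp)).1 (hcard p.1 (hP p hp)).2 p.2
      exact ⟨pt_sol bl hd a ha hinj lam _ _ _ (L4_e_sq p.1) (L4_e_prod p.1) h2,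
        fun v hv => pt_nd bl hd a ha hinj lam _ h1 _ (L4_nonempty (hP p hp)) _ (L4_e_sq p.1)
          (L4_e_prod p.1) h2 h3 v hv⟩
  · rw [hFc, Nat.add_sub_cancel]
    have h1 : 1 ≤ (1 + 2 ^ n) ^ m := Nat.one_le_pow _ _ (by positivity)
    omega

end

end Pool.Agent.MPb0eQ
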