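import Mathlib
import Pool.Agent.Lib.MP_b0e20b_ag_Q.K1
import Pool.Agent.Lib.MP_b0e20b_ag_Q.L4
import Pool.Agent.Lib.MP_b0e20b_ag_Q.C4

/-!
# MP_b0e20b_ag, all formats: assembly
-/

set_option autoImplicit false

namespace Pool.Agent.MPb0eQ

/-- For every format with at least three factors the attained numbers of real critical points are
the odd numbers up to some odd `K`, and `K ≥ 2 (1 + 2^(d-1))^m - 1` if all `n i ≥ m`. -/
theorem main {d : ℕ} (hd : 3 ≤ d) (n : Fin d → ℕ) (hn : ∀ i, 1 ≤ n i) :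
    ∃ N K : ℕ, IsGenericNumber n N ∧ Odd N ∧ Odd K ∧ K ≤ N ∧
      (∀ k : ℕ, (∃ T : Tensor n, total T = 1 ∧ IsReal T ∧ (crit T).encard = N ∧
        (realCrit T).encard = k) ↔ Odd k ∧ k ≤ K) ∧
      ∀ m : ℕ, (∀ i, m ≤ n i) → 2 * (1 + 2 ^ (d - 1)) ^ m - 1 ≤ K := by
  obtain ⟨N, K, P, hP, hN, hNo, hKo, hKN, hk, hlow⟩ :=
    coords (blk n) hd (fun i => ⟨⟨i, ⟨0, hn i⟩⟩, rfl⟩)
  refine ⟨N, K, generic_of P hP hN, hNo, hKo, hKN, ?_, ?_⟩
  · intro k
    rw [← hk k]
    constructor
    · rintro ⟨T, _, hr, h1, h2⟩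
      obtain ⟨c, hc⟩ := par_real T hr
      refine ⟨c, ?_, ?_⟩
      · rw [← hc, ← crit_encard, h1]
      · rw [← realCrit_encard T c hc, h2]
    · rintro ⟨c, h1, h2⟩
      classical
      set c' : Sct (blk n) → ℝ := fun s => if s.1 = ∅ then 1 else c s with hc'
      have e1 : ∀ x, G (blk n) (toC (blk n) c') x = G (blk n) (toC (blk n) c) x := by
        intro x
        apply G_empty
        intro s hs
        simp [toC, hc', hs]
      have e2 : ∀ x, G (blk n) c' x = G (blk n) c x := by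
        intro x
        apply G_empty
        intro s hs
        simp [hc', hs]
      refine ⟨ten (toC (blk n) c'), ?_, ten_real c', ?_, ?_⟩
      · rw [← par_empty _ (by simp), par_ten]
        simp [toC, hc']
      · rw [crit_encard, par_ten]
        simp only [e1]
        exact h1
      · rw [realCrit_encard (ten (toC (blk n) c')) c' (par_ten _)]
        simp only [e2]
        exact h2
  · intro m hm
    obtain ⟨c, F, hF, hcard⟩ := many (blk n) hd
      (fun (i : Fin d) (j : Fin m) => (⟨i, ⟨j.1, lt_of_lt_of_le j.2 (hm i)⟩⟩ : Kx n))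
      (fun i j => rfl) (fun i j j' h => by
        have h2 := (Sigma.mk.inj_iff.1 h).2
        rw [heq_eq_eq] at h2
        exact Fin.ext (by simpa using congrArg Fin.val h2))
    exact hcard.trans (hlow c F hF)

end Pool.Agent.MPb0eQ
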